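import Mathlib

/-!
Basic objects: determinants of tuples of vectors, Steiner symmetrization along the
first coordinate direction.
-/

open MeasureTheory Set Metric

namespace Pool.Agent.Lib.MP_77d991_gt

abbrev E (d : ℕ) := EuclideanSpace ℝ (Fin d)

/-- determinant of `d` vectors of `ℝ^d` (as rows). -/
noncomputable def dt {d : ℕ} (v : Fin d → E d) : ℝ := (Matrix.of fun i j => v i j).det

/-- the point with first coordinate `t` and remaining coordinates `p`. -/
noncomputable def mk {n : ℕ} (t : ℝ) (p : Fin n → ℝ) : E (n + 1) :=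
  WithLp.toLp 2 (Fin.cons t p : Fin (n + 1) → ℝ)

/-- the remaining coordinates. -/
def tl {n : ℕ} (x : E (n + 1)) : Fin n → ℝ := fun j => x j.succ

variable {n : ℕ}

@[simp] lemma mk_zero (t : ℝ) (p : Fin n → ℝ) : mk t p 0 = t := by simp [mk]

@[simp] lemma mk_succ (t : ℝ) (p : Fin n → ℝ) (j : Fin n) : mk t p j.succ = p j := by simp [mk]

@[simp] lemma tl_mk (t : ℝ) (p : Fin n → ℝ) : tl (mk t p) = p := by
  funext j; simp [tl]

lemma ext_E {x y : E (n + 1)} (h0 : x 0 = y 0) (h : ∀ j : Fin n, x j.succ = y j.succ) : x = y := by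
  ext i
  refine Fin.cases ?_ ?_ i
  · exact h0
  · exact h

@[simp] lemma mk_tl (x : E (n + 1)) : mk (x 0) (tl x) = x :=
  ext_E (by simp) (fun j => by simp [tl])

lemma mk_inj {s t : ℝ} {p q : Fin n → ℝ} (h : mk s p = mk t q) : s = t ∧ p = q := by
  constructor
  · have := congrArg (fun x : E (n + 1) => x 0) h
    simpa using this
  · have := congrArg tl h
    simpa using this

lemma mk_lin (a b s t : ℝ) (p q : Fin n → ℝ) :
    mk (a * s + b * t) (a • p + b • q) = a • mk s p + b • mk t q :=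
  ext_E (by simp) (fun j => by simp)

lemma mk_neg (s : ℝ) (p : Fin n → ℝ) : mk (-s) (-p) = - mk s p :=
  ext_E (by simp) (fun j => by simp)

lemma norm_mk_sq (t : ℝ) (p : Fin n → ℝ) : ‖mk t p‖ ^ 2 = t ^ 2 + ∑ j, p j ^ 2 := by
  rw [EuclideanSpace.real_norm_sq_eq, Fin.sum_univ_succ]
  simp

lemma continuous_mk : Continuous (fun q : ℝ × (Fin n → ℝ) => mk q.1 q.2) := by
  unfold mk
  refine (PiLp.continuous_toLp 2 _).comp ?_
  refine continuous_pi fun i => ?_
  refine Fin.cases ?_ ?_ i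
  · simpa using continuous_fst
  · intro j
    simp only [Fin.cons_succ]
    exact (continuous_apply j).comp continuous_snd

lemma continuous_tl : Continuous (tl : E (n + 1) → (Fin n → ℝ)) := by
  unfold tl
  fun_prop

/-- Steiner symmetrization along the first coordinate direction. -/
def steiner (K : Set (E (n + 1))) : Set (E (n + 1)) :=
  {w | ∃ s t p, mk s p ∈ K ∧ mk t p ∈ K ∧ w = mk ((s - t) / 2) p}

lemma steiner_eq_image (K : Set (E (n + 1))) :
    steiner K = (fun q : E (n + 1) × E (n + 1) => mk ((q.1 0 - q.2 0) / 2) (tl q.1)) ''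
      ((K ×ˢ K) ∩ {q | tl q.1 = tl q.2}) := by
  ext w
  constructor
  · rintro ⟨s, t, p, hs, ht, rfl⟩
    exact ⟨(mk s p, mk t p), ⟨⟨hs, ht⟩, by simp⟩, by simp⟩
  · rintro ⟨⟨x, y⟩, ⟨⟨hx, hy⟩, hxy⟩, rfl⟩
    refine ⟨x 0, y 0, tl x, by simpa using hx, ?_, rfl⟩
    have hxy' : tl x = tl y := hxy
    rw [hxy']
    simpa using hy

lemma isCompact_steiner {K : Set (E (n + 1))} (hK : IsCompact K) : IsCompact (steiner K) := by
  rw [steiner_eq_image]
  refine IsCompact.image ((hK.prod hK).inter_right ?_) ?_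
  · exact isClosed_eq (continuous_tl.comp continuous_fst) (continuous_tl.comp continuous_snd)
  · refine continuous_mk.comp (f := fun q : E (n + 1) × E (n + 1) =>
      ((q.1 0 - q.2 0) / 2, tl q.1)) ?_
    refine Continuous.prodMk ?_ (continuous_tl.comp continuous_fst)
    fun_prop

lemma convex_steiner {K : Set (E (n + 1))} (hK : Convex ℝ K) : Convex ℝ (steiner K) := by
  rintro _ ⟨s, t, p, hs, ht, rfl⟩ _ ⟨s', t', p', hs', ht', rfl⟩ a b ha hb hab
  refine ⟨a * s + b * s', a * t + b * t', a • p + b • p', ?_, ?_, ?_⟩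
  · rw [mk_lin]; exact hK hs hs' ha hb hab
  · rw [mk_lin]; exact hK ht ht' ha hb hab
  · rw [← mk_lin]; congr 1; ring

lemma symm_steiner {K : Set (E (n + 1))} (hK : ∀ x ∈ K, -x ∈ K) :
    ∀ x ∈ steiner K, -x ∈ steiner K := by
  rintro _ ⟨s, t, p, hs, ht, rfl⟩
  refine ⟨-s, -t, -p, ?_, ?_, ?_⟩
  · rw [mk_neg]; exact hK _ hs
  · rw [mk_neg]; exact hK _ ht
  · rw [← mk_neg]; congr 1; ring

lemma steiner_subset_ball {K : Set (E (n + 1))} {R : ℝ} (hK : K ⊆ closedBall 0 R) :
    steiner K ⊆ closedBall 0 R := by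
  rintro _ ⟨s, t, p, hs, ht, rfl⟩
  have h1 := hK hs
  have h2 := hK ht
  rw [mem_closedBall_zero_iff] at h1 h2 ⊢
  have hR : 0 ≤ R := (norm_nonneg _).trans h1
  have h1' : ‖mk s p‖ ^ 2 ≤ R ^ 2 := by gcongr
  have h2' : ‖mk t p‖ ^ 2 ≤ R ^ 2 := by gcongr
  rw [norm_mk_sq] at h1' h2'
  refine abs_le_of_sq_le_sq' ?_ hR |>.2
  rw [norm_mk_sq]
  nlinarith [sq_nonneg (s + t)]

/-- the determinant as a linear function of the first column. -/
noncomputable def colL (p : Fin (n + 1) → Fin n → ℝ) : (Fin (n + 1) → ℝ) →ₗ[ℝ] ℝ :=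
  (LinearMap.proj 0).comp (Matrix.cramer (Matrix.of fun i j => mk 0 (p i) j))

lemma dt_mk (a : Fin (n + 1) → ℝ) (p : Fin (n + 1) → Fin n → ℝ) :
    dt (fun i => mk (a i) (p i)) = colL p a := by
  simp only [colL, LinearMap.comp_apply, LinearMap.proj_apply, Matrix.cramer_apply, dt]
  congr 1
  ext i j
  refine Fin.cases ?_ ?_ j
  · simp
  · intro k
    rw [Matrix.updateCol_ne (Fin.succ_ne_zero k)]
    simp

/-- every tuple of points, one from each set, has determinant at most `c` in absolute value. -/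
def DetLE {d : ℕ} (K : Fin d → Set (E d)) (c : ℝ) : Prop :=
  ∀ v : Fin d → E d, (∀ i, v i ∈ K i) → |dt v| ≤ c

lemma DetLE.steiner {K : Fin (n + 1) → Set (E (n + 1))} {c : ℝ} (h : DetLE K c) :
    DetLE (fun i => steiner (K i)) c := by
  intro v hv
  choose s t p hs ht hw using hv
  have hv' : v = fun i => mk ((s i - t i) / 2) (p i) := funext hw
  have h1 := h _ hs
  have h2 := h _ ht
  rw [dt_mk] at h1 h2
  rw [hv', dt_mk]
  have : (fun i => (s i - t i) / 2) = (1 / 2 : ℝ) • (s - t) := by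
    funext i; simp; ring
  rw [this, map_smul, map_sub, smul_eq_mul]
  rw [abs_le] at h1 h2 ⊢
  constructor <;> linarith [h1.1, h1.2, h2.1, h2.2]

lemma dt_eq_basis_det {d : ℕ} (v : Fin d → E d) :
    dt v = (EuclideanSpace.basisFun (Fin d) ℝ).toBasis.det v := by
  rw [Module.Basis.det_apply, dt, ← Matrix.det_transpose]
  congr 1

lemma continuous_dt {d : ℕ} : Continuous (dt : (Fin d → E d) → ℝ) := by
  unfold dt
  refine Continuous.matrix_det ?_
  refine continuous_pi fun i => continuous_pi fun j => ?_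
  simp only [Matrix.of_apply]
  fun_prop

lemma dt_comp {d : ℕ} (T : E d →ₗ[ℝ] E d) (v : Fin d → E d) :
    dt (fun i => T (v i)) = LinearMap.det T * dt v := by
  rw [dt_eq_basis_det, dt_eq_basis_det]
  exact Module.Basis.det_comp _ T v

lemma dt_smul_basis {d : ℕ} (r : Fin d → ℝ) :
    dt (fun i => r i • EuclideanSpace.single i (1 : ℝ)) = ∏ i, r i := by
  rw [dt, ← Matrix.det_diagonal]
  congr 1
  ext i j
  by_cases h : i = j
  · subst h; simp
  · simp [Matrix.diagonal_apply_ne _ h, Ne.symm h]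

end Pool.Agent.Lib.MP_77d991_gt
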