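import Pool.Agent.Lib.MP_77d991_gt.Equality

/-!
Volumes of cross-polytopes, Hadamard's inequality and the maximal determinant of a body.
-/

open MeasureTheory Set Metric TopologicalSpace Filter Topology
open scoped ENNReal Pointwise

namespace Pool.Agent.Lib.MP_77d991_gt

variable {n : ℕ}

lemma convexHull_std (n : ℕ) :
    convexHull ℝ (range (fun i : Fin (n + 1) => (EuclideanSpace.single i (1 : ℝ) : E (n + 1))) ∪
      range (-fun i : Fin (n + 1) => (EuclideanSpace.single i (1 : ℝ) : E (n + 1)))) =
      {x : E (n + 1) | ∑ i, |x i| ≤ 1} := by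
  set S := (range (fun i : Fin (n + 1) => (EuclideanSpace.single i (1 : ℝ) : E (n + 1))) ∪
      range (-fun i : Fin (n + 1) => (EuclideanSpace.single i (1 : ℝ) : E (n + 1)))) with hS
  apply Subset.antisymm
  · apply convexHull_min
    · rintro _ (⟨i, rfl⟩ | ⟨i, rfl⟩)
      · simp only [mem_ofPred_eq]
        rw [Finset.sum_eq_single i] <;> simp +contextual
      · simp only [mem_ofPred_eq]
        rw [Finset.sum_eq_single i] <;> simp +contextual
    · intro x hx y hy a b ha hb hab
      simp only [mem_ofPred_eq] at hx hy ⊢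
      calc ∑ i, |(a • x + b • y) i| ≤ ∑ i, (a * |x i| + b * |y i|) := by
            refine Finset.sum_le_sum fun i _ => ?_
            simp only [PiLp.add_apply, PiLp.smul_apply, smul_eq_mul]
            refine (abs_add_le _ _).trans ?_
            rw [abs_mul, abs_mul, abs_of_nonneg ha, abs_of_nonneg hb]
        _ = a * ∑ i, |x i| + b * ∑ i, |y i| := by
            rw [Finset.sum_add_distrib, Finset.mul_sum, Finset.mul_sum]
        _ ≤ a * 1 + b * 1 := by gcongr
        _ = 1 := by linarith
  · intro x hx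
    simp only [mem_ofPred_eq] at hx
    have hc : Convex ℝ (convexHull ℝ S) := convex_convexHull ℝ S
    have hpos : ∀ i, (EuclideanSpace.single i (1 : ℝ) : E (n + 1)) ∈ convexHull ℝ S :=
      fun i => subset_convexHull ℝ S (Or.inl ⟨i, rfl⟩)
    have hneg : ∀ i, -(EuclideanSpace.single i (1 : ℝ) : E (n + 1)) ∈ convexHull ℝ S :=
      fun i => subset_convexHull ℝ S (Or.inr ⟨i, rfl⟩)
    have hzero : (0 : E (n + 1)) ∈ convexHull ℝ S := by
      have := hc (hpos 0) (hneg 0) (a := 1 / 2) (b := 1 / 2) (by norm_num) (by norm_num)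
        (by norm_num)
      simpa using this
    let z : Option (Fin (n + 1)) → E (n + 1) := fun o => o.elim 0 fun i =>
      if 0 ≤ x i then EuclideanSpace.single i (1 : ℝ) else -EuclideanSpace.single i (1 : ℝ)
    let w : Option (Fin (n + 1)) → ℝ := fun o => o.elim (1 - ∑ i, |x i|) fun i => |x i|
    have hmem := hc.sum_mem (t := Finset.univ) (w := w) (z := z)
      (fun o _ => by
        cases o with
        | none => simpa [w] using hx
        | some i => simp [w])
      (by simp [w, Fintype.sum_option])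
      (fun o _ => by
        cases o with
        | none => exact hzero
        | some i =>
          simp only [z, Option.elim_some]
          split_ifs
          · exact hpos i
          · exact hneg i)
    convert hmem using 1
    simp only [Fintype.sum_option, z, w, Option.elim_none, Option.elim_some, smul_zero, zero_add]
    have : ∀ i, |x i| • (if 0 ≤ x i then (EuclideanSpace.single i (1 : ℝ) : E (n + 1))
        else -EuclideanSpace.single i (1 : ℝ)) = x i • EuclideanSpace.single i (1 : ℝ) := by
      intro i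
      split_ifs with h
      · rw [abs_of_nonneg h]
      · rw [abs_of_neg (not_le.1 h), smul_neg, neg_smul, neg_neg]
    simp only [this]
    have h2 := (EuclideanSpace.basisFun (Fin (n + 1)) ℝ).sum_repr x
    simpa using h2.symm

lemma volume_std (n : ℕ) : volume {x : E (n + 1) | ∑ i, |x i| ≤ 1} =
    ENNReal.ofReal (2 ^ (n + 1) / ((n + 1).factorial : ℝ)) := by
  have hm : MeasurableSet {x : E (n + 1) | ∑ i, |x i| ≤ 1} :=
    (isClosed_le (by fun_prop) continuous_const).measurableSet
  rw [← (PiLp.volume_preserving_toLp (Fin (n + 1))).measure_preimage hm.nullMeasurableSet]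
  have h := volume_sum_rpow_le (Fin (n + 1)) (p := 1) le_rfl 1
  simp only [Real.rpow_one, ne_eq, one_ne_zero, not_false_eq_true, div_self, ENNReal.ofReal_one,
    Fintype.card_fin, one_pow, div_one, one_mul] at h
  have h1 : Real.Gamma (1 + 1) = 1 := by
    rw [Real.Gamma_add_one one_ne_zero, Real.Gamma_one, mul_one]
  rw [h1, mul_one, Real.Gamma_nat_eq_factorial] at h
  exact h

lemma volume_cross (v : Fin (n + 1) → E (n + 1)) :
    (volume (convexHull ℝ (range v ∪ range (-v)))).toReal =
      2 ^ (n + 1) / ((n + 1).factorial : ℝ) * |dt v| := by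
  set b := (EuclideanSpace.basisFun (Fin (n + 1)) ℝ).toBasis with hb
  set T : E (n + 1) →ₗ[ℝ] E (n + 1) := b.constr ℝ v with hT
  have hTe : ∀ i, T (EuclideanSpace.single i (1 : ℝ)) = v i := by
    intro i
    have : (EuclideanSpace.single i (1 : ℝ) : E (n + 1)) = b i := by simp [hb]
    rw [this, hT, Module.Basis.constr_basis]
  have himg : range v ∪ range (-v) = T ''
      (range (fun i : Fin (n + 1) => (EuclideanSpace.single i (1 : ℝ) : E (n + 1))) ∪
      range (-fun i : Fin (n + 1) => (EuclideanSpace.single i (1 : ℝ) : E (n + 1)))) := by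
    rw [image_union, ← range_comp, ← range_comp]
    congr 2
    · funext i; simp [hTe]
    · funext i; simp [hTe]
  have hdet : LinearMap.det T = dt v := by
    have h1 := dt_comp T (fun i => (1 : ℝ) • EuclideanSpace.single i (1 : ℝ))
    rw [dt_smul_basis] at h1
    simp only [one_smul, hTe, Finset.prod_const_one, mul_one] at h1
    exact h1.symm
  rw [himg, ← LinearMap.image_convexHull, Measure.addHaar_image_linearMap, convexHull_std,
    volume_std, hdet, ← ENNReal.ofReal_mul (abs_nonneg _), ENNReal.toReal_ofReal (by positivity),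
    mul_comm]

lemma hadamard {d : ℕ} (v : Fin d → E d) : |dt v| ≤ ∏ i, ‖v i‖ := by
  have : Fact (Module.finrank ℝ (E d) = d) := ⟨by simp⟩
  have h1 := (EuclideanSpace.basisFun (Fin d) ℝ).toBasis.orientation.abs_volumeForm_apply_le v
  rw [Orientation.volumeForm_robust' _ (EuclideanSpace.basisFun (Fin d) ℝ)] at h1
  rw [dt_eq_basis_det]
  exact h1

lemma linearIndependent_of_dt_ne_zero {d : ℕ} {v : Fin d → E d} (h : dt v ≠ 0) :
    LinearIndependent ℝ v := by
  rw [dt_eq_basis_det] at h
  by_contra hcon
  exact h (AlternatingMap.map_linearDependent _ v hcon)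

lemma exists_max_dt {K : Set (E (n + 1))} (hK : IsCompact K) (h0 : (0 : E (n + 1)) ∈ interior K) :
    ∃ v : Fin (n + 1) → E (n + 1), (∀ i, v i ∈ K) ∧ 0 < |dt v| ∧ DetLE (fun _ => K) |dt v| := by
  have hT : IsCompact (Set.pi univ fun _ : Fin (n + 1) => K) := isCompact_univ_pi fun _ => hK
  obtain ⟨v, hv, hvmax⟩ := hT.exists_isMaxOn ⟨fun _ => 0, fun _ _ => interior_subset h0⟩
    continuous_dt.abs.continuousOn
  have hdet : DetLE (fun _ => K) |dt v| := fun u hu => hvmax (a := u) fun i _ => hu i
  refine ⟨v, fun i => hv i trivial, ?_, hdet⟩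
  obtain ⟨δ, hδ, hball⟩ := Metric.mem_nhds_iff.1 (mem_interior_iff_mem_nhds.1 h0)
  have h1 := hdet (fun i => (δ / 2) • EuclideanSpace.single i (1 : ℝ)) (fun i => hball (by
    rw [mem_ball_zero_iff, norm_smul, Real.norm_eq_abs, abs_of_pos (by linarith)]
    simp
    linarith))
  rw [dt_smul_basis (fun _ => δ / 2)] at h1
  refine lt_of_lt_of_le ?_ ((le_abs_self _).trans h1)
  exact Finset.prod_pos fun _ _ => by linarith

lemma om_toReal (n : ℕ) : (om (n + 1)).toReal =
    Real.pi ^ (((n + 1 : ℕ) : ℝ) / 2) / Real.Gamma (((n + 1 : ℕ) : ℝ) / 2 + 1) := by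
  rw [om, EuclideanSpace.volume_closedBall]
  simp only [ENNReal.ofReal_one, Fintype.card_fin, one_pow, one_mul]
  rw [ENNReal.toReal_ofReal (by positivity), Real.sqrt_eq_rpow, ← Real.rpow_natCast,
    ← Real.rpow_mul Real.pi_pos.le]
  congr 2
  ring

/-- the main inequality and its equality case in terms of the maximal determinant. -/
theorem main_dt {K : Set (E (n + 1))} (hK : IsCompact K) (hc : Convex ℝ K)
    (hs : ∀ x ∈ K, -x ∈ K) {v : Fin (n + 1) → E (n + 1)} (hv : ∀ i, v i ∈ K) (hpos : 0 < |dt v|)
    (hdet : DetLE (fun _ => K) |dt v|) :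
    (volume K).toReal / |dt v| ≤ (om (n + 1)).toReal ∧
    ((volume K).toReal / |dt v| = (om (n + 1)).toReal ↔
      ∃ T : E (n + 1) ≃ₗ[ℝ] E (n + 1), K = T '' closedBall 0 1) := by
  have hAtop : om (n + 1) * ENNReal.ofReal |dt v| ≠ ∞ :=
    (ENNReal.mul_lt_top (om_lt_top _) ENNReal.ofReal_lt_top).ne
  have h1 : volume K ≤ om (n + 1) * ENNReal.ofReal |dt v| := by
    have h := multi_ineq (K := fun _ => K) (fun _ => hK) (fun _ => hc) (fun _ => hs) hdet
    simp only [Finset.prod_const, Finset.card_univ, Fintype.card_fin] at h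
    exact (ENNReal.pow_le_pow_left_iff (Nat.succ_ne_zero n)).1 h
  have h2 : (volume K).toReal ≤ (om (n + 1)).toReal * |dt v| := by
    have := ENNReal.toReal_mono hAtop h1
    rwa [ENNReal.toReal_mul, ENNReal.toReal_ofReal hpos.le] at this
  refine ⟨(div_le_iff₀ hpos).2 h2, fun heq => ?_, ?_⟩
  · refine Extremal.ellipsoid (c := |dt v|) ⟨hpos, hK, hc, hs, ?_, hdet⟩
    rw [div_eq_iff hpos.ne'] at heq
    rw [← ENNReal.toReal_le_toReal hAtop hK.measure_lt_top.ne, ENNReal.toReal_mul,
      ENNReal.toReal_ofReal hpos.le, heq]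
  · rintro ⟨T, hT⟩
    refine le_antisymm ((div_le_iff₀ hpos).2 h2) ?_
    rw [le_div_iff₀ hpos]
    have h3 : |dt v| ≤ |LinearMap.det (T : E (n + 1) →ₗ[ℝ] E (n + 1))| := by
      have hv' : ∀ i, ∃ u ∈ closedBall (0 : E (n + 1)) 1, T u = v i := fun i => by
        have := hv i
        rw [hT] at this
        exact this
      choose u hu huv using hv'
      have : v = fun i => (T : E (n + 1) →ₗ[ℝ] E (n + 1)) (u i) := funext fun i => (huv i).symm
      rw [this, dt_comp, abs_mul]
      refine mul_le_of_le_one_right (abs_nonneg _) ((hadamard u).trans ?_)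
      exact Finset.prod_le_one (fun _ _ => norm_nonneg _)
        fun i _ => mem_closedBall_zero_iff.1 (hu i)
    have h4 : volume K = ENNReal.ofReal |LinearMap.det (T : E (n + 1) →ₗ[ℝ] E (n + 1))| *
        om (n + 1) := by
      rw [hT]
      exact Measure.addHaar_image_linearMap volume (T : E (n + 1) →ₗ[ℝ] E (n + 1)) _
    rw [h4, ENNReal.toReal_mul, ENNReal.toReal_ofReal (abs_nonneg _), mul_comm]
    exact mul_le_mul_of_nonneg_right h3 ENNReal.toReal_nonneg

end Pool.Agent.Lib.MP_77d991_gt
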