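import Mathlib

/-!
A norm whose unit vectors admit pairwise symmetric norming functionals is Euclidean.
-/

open Set Filter Topology

namespace Pool.Agent.Lib.MP_77d991_gt

lemma const_of_sq_bound {θ : ℝ → ℝ} {b : ℝ} (h : ∀ s t, θ t - θ s ≤ b * (s - t) ^ 2) (s t : ℝ) :
    θ s = θ t := by
  have hd : ∀ t, HasDerivAt θ 0 t := by
    intro t
    rw [hasDerivAt_iff_isLittleO]
    simp only [smul_zero, sub_zero]
    have h1 : (fun s => θ s - θ t) =O[𝓝 t] fun s => (s - t) ^ 2 := by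
      refine Asymptotics.IsBigO.of_bound |b| (Eventually.of_forall fun s => ?_)
      have h2 := h s t
      have h3 := h t s
      have h4 : (t - s) ^ 2 = (s - t) ^ 2 := by ring
      rw [h4] at h3
      have h5 : b * (s - t) ^ 2 ≤ |b| * (s - t) ^ 2 :=
        mul_le_mul_of_nonneg_right (le_abs_self b) (sq_nonneg _)
      rw [Real.norm_eq_abs, Real.norm_eq_abs, abs_of_nonneg (sq_nonneg (s - t)), abs_le]
      constructor <;> linarith
    refine h1.trans_isLittleO ?_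
    have h6 : Tendsto (fun s : ℝ => s - t) (𝓝 t) (𝓝 0) := by
      have : Continuous fun s : ℝ => s - t := by fun_prop
      simpa using this.tendsto t
    exact (Asymptotics.isLittleO_pow_id (𝕜 := ℝ) (n := 2) one_lt_two).comp_tendsto h6
  exact is_const_of_deriv_eq_zero (fun t => (hd t).differentiableAt) (fun t => (hd t).deriv) s t

section

variable {V : Type*} [NormedAddCommGroup V] [NormedSpace ℝ V]

lemma symm_functionals_homog
    (hP : ∀ x y : V, ‖x‖ = 1 → ‖y‖ = 1 → ∃ f g : V →ₗ[ℝ] ℝ,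
      (∀ z, f z ≤ ‖z‖) ∧ (∀ z, g z ≤ ‖z‖) ∧ f x = 1 ∧ g y = 1 ∧ f y = g x) (x y : V) :
    ∃ f g : V →ₗ[ℝ] ℝ, (∀ z, f z ≤ ‖x‖ * ‖z‖) ∧ (∀ z, g z ≤ ‖y‖ * ‖z‖) ∧
      f x = ‖x‖ ^ 2 ∧ g y = ‖y‖ ^ 2 ∧ f y = g x := by
  have unit : ∀ w : V, w ≠ 0 → ‖‖w‖⁻¹ • w‖ = 1 := fun w hw => norm_smul_inv_norm hw
  have main : ∀ x y : V, x ≠ 0 → y ≠ 0 → ∃ f g : V →ₗ[ℝ] ℝ,
      (∀ z, f z ≤ ‖x‖ * ‖z‖) ∧ (∀ z, g z ≤ ‖y‖ * ‖z‖) ∧
      f x = ‖x‖ ^ 2 ∧ g y = ‖y‖ ^ 2 ∧ f y = g x := by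
    intro x y hx hy
    obtain ⟨f, g, hf, hg, hfx, hgy, hfg⟩ := hP _ _ (unit x hx) (unit y hy)
    have hx' : 0 < ‖x‖ := norm_pos_iff.2 hx
    have hy' : 0 < ‖y‖ := norm_pos_iff.2 hy
    simp only [map_smul, smul_eq_mul] at hfx hgy hfg
    refine ⟨‖x‖ • f, ‖y‖ • g, fun z => ?_, fun z => ?_, ?_, ?_, ?_⟩
    · exact mul_le_mul_of_nonneg_left (hf z) hx'.le
    · exact mul_le_mul_of_nonneg_left (hg z) hy'.le
    · simp only [LinearMap.smul_apply, smul_eq_mul]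
      field_simp at hfx
      rw [hfx]; ring
    · simp only [LinearMap.smul_apply, smul_eq_mul]
      field_simp at hgy
      rw [hgy]; ring
    · simp only [LinearMap.smul_apply, smul_eq_mul]
      field_simp at hfg
      linarith
  by_cases hx : x = 0
  · by_cases hy : y = 0
    · exact ⟨0, 0, by simp [hx], by simp [hy], by simp [hx], by simp [hy], by simp⟩
    · obtain ⟨f, -, hf, -, hfy, -, -⟩ := main y y hy hy
      exact ⟨0, f, by simp [hx], hf, by simp [hx], hfy, by simp [hx]⟩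
  · by_cases hy : y = 0
    · obtain ⟨f, -, hf, -, hfx, -, -⟩ := main x x hx hx
      exact ⟨f, 0, hf, by simp [hy], hfx, by simp [hy], by simp [hy]⟩
    · exact main x y hx hy

lemma functional_unique [FiniteDimensional ℝ V] {y : V} (hy : DifferentiableAt ℝ (‖·‖) y)
    {g : V →ₗ[ℝ] ℝ} (hg : ∀ z, g z ≤ ‖y‖ * ‖z‖) (hgy : g y = ‖y‖ ^ 2) (z : V) :
    g z = ‖y‖ * fderiv ℝ (‖·‖) y z := by
  have h1 : HasFDerivAt (fun z : V => ‖y‖ * ‖z‖ - g z)
      (‖y‖ • fderiv ℝ (‖·‖) y - LinearMap.toContinuousLinearMap g) y :=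
    (hy.hasFDerivAt.const_mul ‖y‖).sub (LinearMap.toContinuousLinearMap g).hasFDerivAt
  have h2 : IsLocalMin (fun z : V => ‖y‖ * ‖z‖ - g z) y := by
    refine Eventually.of_forall fun z => ?_
    have := hg z
    simp only [hgy]
    nlinarith
  have h3 := h2.hasFDerivAt_eq_zero h1
  have h4 := congrArg (fun L : V →L[ℝ] ℝ => L z) h3
  simp only [sub_apply, smul_apply, smul_eq_mul,
    LinearMap.coe_toContinuousLinearMap', zero_apply] at h4
  linarith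

theorem parallelogram_of_symm_functionals [FiniteDimensional ℝ V]
    (hP : ∀ x y : V, ‖x‖ = 1 → ‖y‖ = 1 → ∃ f g : V →ₗ[ℝ] ℝ,
      (∀ z, f z ≤ ‖z‖) ∧ (∀ z, g z ≤ ‖z‖) ∧ f x = 1 ∧ g y = 1 ∧ f y = g x) (x y : V) :
    ‖x + y‖ * ‖x + y‖ + ‖x - y‖ * ‖x - y‖ = 2 * (‖x‖ * ‖x‖ + ‖y‖ * ‖y‖) := by
  have hcl : IsClosed {y : V |
      ‖x + y‖ * ‖x + y‖ + ‖x - y‖ * ‖x - y‖ = 2 * (‖x‖ * ‖x‖ + ‖y‖ * ‖y‖)} :=
    isClosed_eq (by fun_prop) (by fun_prop)
  have hsub : {y : V | DifferentiableAt ℝ (‖·‖) y} ⊆ {y : V |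
      ‖x + y‖ * ‖x + y‖ + ‖x - y‖ * ‖x - y‖ = 2 * (‖x‖ * ‖x‖ + ‖y‖ * ‖y‖)} := by
    intro y hy
    have hy' : DifferentiableAt ℝ (‖·‖) y := hy
    set a : ℝ := ‖y‖ * fderiv ℝ (‖·‖) y x with ha
    have hkey : ∀ s t : ℝ,
        (‖x + t • y‖ ^ 2 / 2 - t * a - t ^ 2 * ‖y‖ ^ 2 / 2) -
        (‖x + s • y‖ ^ 2 / 2 - s * a - s ^ 2 * ‖y‖ ^ 2 / 2) ≤ (‖y‖ ^ 2 / 2) * (s - t) ^ 2 := by
      intro s t
      obtain ⟨f, g, hf, hg, hfx, hgy, hfg⟩ := symm_functionals_homog hP (x + t • y) y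
      have h1 : g x = a := functional_unique hy' hg hgy x
      rw [map_add, map_smul, smul_eq_mul, h1, hgy] at hfg
      have h2 := hf (x + s • y)
      have h3 : f (x + s • y) = f (x + t • y) + (s - t) * f y := by
        simp only [map_add, map_smul, smul_eq_mul]; ring
      rw [h3, hfx, hfg] at h2
      nlinarith [sq_nonneg (‖x + t • y‖ - ‖x + s • y‖)]
    have e1 := const_of_sq_bound
      (θ := fun t : ℝ => ‖x + t • y‖ ^ 2 / 2 - t * a - t ^ 2 * ‖y‖ ^ 2 / 2) hkey 1 0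
    have e2 := const_of_sq_bound
      (θ := fun t : ℝ => ‖x + t • y‖ ^ 2 / 2 - t * a - t ^ 2 * ‖y‖ ^ 2 / 2) hkey (-1) 0
    simp only [one_smul, zero_smul, add_zero, neg_smul, ← sub_eq_add_neg] at e1 e2
    simp only [mem_ofPred_eq]
    nlinarith
  have h := closure_minimal hsub hcl
  rw [dense_differentiableAt_norm.closure_eq] at h
  exact h (mem_univ y)

end

theorem exists_linearEquiv_of_symm_functionals {V : Type} [AddCommGroup V] [Module ℝ V]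
    [FiniteDimensional ℝ V] {d : ℕ} (hd : Module.finrank ℝ V = d) (N : Seminorm ℝ V)
    (hN : ∀ x, N x = 0 → x = 0)
    (hP : ∀ x y : V, N x = 1 → N y = 1 → ∃ f g : V →ₗ[ℝ] ℝ,
      (∀ z, f z ≤ N z) ∧ (∀ z, g z ≤ N z) ∧ f x = 1 ∧ g y = 1 ∧ f y = g x) :
    ∃ T : V ≃ₗ[ℝ] EuclideanSpace ℝ (Fin d), ∀ x, ‖T x‖ = N x := by
  let _ : NormedAddCommGroup V := AddGroupNorm.toNormedAddCommGroup
    { N.toAddGroupSeminorm with eq_zero_of_map_eq_zero' := hN }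
  let _ : NormedSpace ℝ V := { norm_smul_le := fun a x => (N.smul' a x).le }
  let _ : InnerProductSpace ℝ V :=
    InnerProductSpace.ofNorm ℝ (parallelogram_of_symm_functionals (V := V) hP)
  subst hd
  exact ⟨(stdOrthonormalBasis ℝ V).repr.toLinearEquiv,
    fun x => (stdOrthonormalBasis ℝ V).repr.norm_map x⟩

end Pool.Agent.Lib.MP_77d991_gt
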