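import Pool.Agent.Lib.MP_77d991_gt.Multi
import Pool.Agent.Lib.MP_77d991_gt.Parallelogram

/-!
The equality case: extremal bodies are ellipsoids.
-/

open MeasureTheory Set Metric TopologicalSpace Filter Topology
open scoped ENNReal Pointwise

namespace Pool.Agent.Lib.MP_77d991_gt

variable {n : ℕ}

/-- extremal bodies. -/
structure Extremal {d : ℕ} (K : Set (E d)) (c : ℝ) : Prop where
  pos : 0 < c
  compact : IsCompact K
  convex : Convex ℝ K
  symm : ∀ x ∈ K, -x ∈ K
  vol : om d * ENNReal.ofReal c ≤ volume K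
  det : DetLE (fun _ => K) c

lemma om_pos (d : ℕ) : 0 < om d := measure_closedBall_pos _ _ one_pos

lemma om_lt_top (d : ℕ) : om d < ∞ := measure_closedBall_lt_top

lemma Extremal.steiner {K : Set (E (n + 1))} {c : ℝ} (h : Extremal K c) :
    Extremal (steiner K) c where
  pos := h.pos
  compact := isCompact_steiner h.compact
  convex := convex_steiner h.convex
  symm := symm_steiner h.symm
  vol := h.vol.trans (volume_le_steiner h.compact h.convex)
  det := h.det.steiner

lemma Extremal.image {d : ℕ} {K : Set (E d)} {c : ℝ} (h : Extremal K c) (U : E d ≃ₗᵢ[ℝ] E d) :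
    Extremal (U '' K) c where
  pos := h.pos
  compact := h.compact.image U.continuous
  convex := h.convex.linear_image (U.toLinearEquiv : E d →ₗ[ℝ] E d)
  symm := by
    rintro _ ⟨x, hx, rfl⟩
    exact ⟨-x, h.symm x hx, by simp⟩
  vol := by rw [volume_image_isometry]; exact h.vol
  det := h.det.image U

lemma zero_mem_interior_of_symm {d : ℕ} {K : Set (E d)} (hc : Convex ℝ K)
    (hs : ∀ x ∈ K, -x ∈ K) (hi : (interior K).Nonempty) : (0 : E d) ∈ interior K := by
  obtain ⟨x, hx⟩ := hi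
  have h := hc.combo_interior_self_mem_interior hx (hs x (interior_subset hx))
    (a := 1 / 2) (b := 1 / 2) (by norm_num) (by norm_num) (by norm_num)
  simpa using h

lemma Extremal.vol_pos {d : ℕ} {K : Set (E d)} {c : ℝ} (h : Extremal K c) : 0 < volume K :=
  lt_of_lt_of_le (ENNReal.mul_pos (om_pos d).ne' (ENNReal.ofReal_pos.2 h.pos).ne') h.vol

lemma Extremal.zero_mem {d : ℕ} {K : Set (E d)} {c : ℝ} (h : Extremal K c) :
    (0 : E d) ∈ interior K :=
  zero_mem_interior_of_symm h.convex h.symm (interior_nonempty_of_volume_pos h.convex h.vol_pos)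

/-- the determinant as a linear function of the first vector. -/
noncomputable def rowF (v : Fin (n + 1) → E (n + 1)) : E (n + 1) →ₗ[ℝ] ℝ :=
  ((EuclideanSpace.basisFun (Fin (n + 1)) ℝ).toBasis.det.toMultilinearMap).toLinearMap v 0

lemma rowF_apply (v : Fin (n + 1) → E (n + 1)) (z : E (n + 1)) :
    rowF v z = dt (Function.update v 0 z) := by
  rw [dt_eq_basis_det]; rfl

lemma update_mem {K : Set (E (n + 1))} {v : Fin (n + 1) → E (n + 1)} (hv : ∀ i, v i ∈ K)
    {z : E (n + 1)} (hz : z ∈ K) : ∀ i, Function.update v 0 z i ∈ K := by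
  intro i
  by_cases hi : i = 0
  · subst hi; simpa using hz
  · rw [Function.update_of_ne hi]; exact hv i

/-- every boundary point of an extremal body belongs to an extremal frame. -/
lemma Extremal.exists_frame {K : Set (E (n + 1))} {c : ℝ} (h : Extremal K c) {w : E (n + 1)}
    (hw : w ∈ K) (hw' : w ∉ interior K) :
    ∃ v : Fin (n + 1) → E (n + 1), v 0 = w ∧ (∀ i, v i ∈ K) ∧ |dt v| = c := by
  have hT : IsCompact ((Set.pi univ fun _ : Fin (n + 1) => K) ∩ {v | v 0 = w}) :=
    (isCompact_univ_pi fun _ => h.compact).inter_right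
      (isClosed_eq (continuous_apply 0) continuous_const)
  obtain ⟨v, ⟨hv1, hv2⟩, hvmax⟩ := hT.exists_isMaxOn ⟨fun _ => w, fun _ _ => hw, rfl⟩
    continuous_dt.abs.continuousOn
  have hv1' : ∀ i, v i ∈ K := fun i => hv1 i trivial
  refine ⟨v, hv2, hv1', le_antisymm (h.det v hv1') ?_⟩
  by_contra hlt
  push Not at hlt
  set m := |dt v| with hm
  have hm0 : 0 ≤ m := abs_nonneg _
  have hc := h.pos
  obtain ⟨R, hR⟩ := h.compact.isBounded.subset_closedBall (0 : E (n + 1))
  set K0 : Set (E (n + 1)) := closedBall 0 (2 * R) ∩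
    ⋂ (u : Fin (n + 1) → E (n + 1)) (_ : ∀ i, u i ∈ K), {z | |rowF u z| ≤ c} with hK0
  have hK0mem : ∀ z, z ∈ K0 ↔ ‖z‖ ≤ 2 * R ∧
      ∀ u : Fin (n + 1) → E (n + 1), (∀ i, u i ∈ K) → |rowF u z| ≤ c := by
    intro z
    simp [hK0]
  have hK0comp : IsCompact K0 := by
    refine (isCompact_closedBall _ _).inter_right ?_
    refine isClosed_iInter fun u => isClosed_iInter fun _ => ?_
    exact isClosed_le (rowF u).continuous_of_finiteDimensional.abs continuous_const
  have hK0conv : Convex ℝ K0 := by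
    refine (convex_closedBall _ _).inter ?_
    refine convex_iInter fun u => convex_iInter fun _ => ?_
    have : {z | |rowF u z| ≤ c} = rowF u ⁻¹' Icc (-c) c := by
      ext z; simp [abs_le]
    rw [this]
    exact (convex_Icc _ _).linear_preimage _
  have hK0symm : ∀ z ∈ K0, -z ∈ K0 := by
    intro z hz
    rw [hK0mem] at hz ⊢
    refine ⟨by simpa using hz.1, fun u hu => ?_⟩
    rw [map_neg, abs_neg]
    exact hz.2 u hu
  have hrowK : ∀ u : Fin (n + 1) → E (n + 1), (∀ i, u i ∈ K) → ∀ z ∈ K, |rowF u z| ≤ c := by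
    intro u hu z hz
    rw [rowF_apply]
    exact h.det _ (update_mem hu hz)
  have hR0 : 0 ≤ R := (norm_nonneg w).trans (mem_closedBall_zero_iff.1 (hR hw))
  have hKK0 : K ⊆ K0 := by
    intro z hz
    rw [hK0mem]
    have := mem_closedBall_zero_iff.1 (hR hz)
    exact ⟨by linarith, fun u hu => hrowK u hu z hz⟩
  set ε : ℝ := (c - m) / c with hε
  have hε0 : 0 < ε := div_pos (by linarith) hc
  have hε1 : ε ≤ 1 := by rw [hε, div_le_one hc]; linarith
  have hplus : ∀ z ∈ K, w + ε • z ∈ K0 := by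
    intro z hz
    rw [hK0mem]
    constructor
    · have h1 := mem_closedBall_zero_iff.1 (hR hz)
      have h2 := mem_closedBall_zero_iff.1 (hR hw)
      calc ‖w + ε • z‖ ≤ ‖w‖ + ‖ε • z‖ := norm_add_le _ _
        _ = ‖w‖ + ε * ‖z‖ := by rw [norm_smul, Real.norm_eq_abs, abs_of_pos hε0]
        _ ≤ R + 1 * R := by gcongr
        _ = 2 * R := by ring
    · intro u hu
      have h1 : |rowF u w| ≤ m := by
        rw [rowF_apply]
        exact hvmax (a := Function.update u 0 w)
          ⟨fun i _ => update_mem hu hw i, by simp⟩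
      have h2 := hrowK u hu z hz
      rw [map_add, map_smul, smul_eq_mul]
      calc |rowF u w + ε * rowF u z| ≤ |rowF u w| + |ε * rowF u z| := abs_add_le _ _
        _ = |rowF u w| + ε * |rowF u z| := by rw [abs_mul, abs_of_pos hε0]
        _ ≤ m + ε * c := by gcongr
        _ = c := by rw [hε]; field_simp; ring
  obtain ⟨δ, hδ, hball⟩ := Metric.mem_nhds_iff.1 (mem_interior_iff_mem_nhds.1 h.zero_mem)
  have hballK0 : ball w (ε * δ) ⊆ K0 := by
    intro z hz
    have h1 : ε⁻¹ • (z - w) ∈ K := by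
      apply hball
      rw [mem_ball_zero_iff, norm_smul, norm_inv, Real.norm_eq_abs, abs_of_pos hε0,
        inv_mul_lt_iff₀ hε0]
      exact mem_ball_iff_norm.1 hz
    have h2 := hplus _ h1
    rw [smul_smul, mul_inv_cancel₀ hε0.ne', one_smul] at h2
    simpa using h2
  have hO : IsOpen (ball w (ε * δ) \ K) := isOpen_ball.sdiff h.compact.isClosed
  have hOne : (ball w (ε * δ) \ K).Nonempty := by
    by_contra hcon
    rw [not_nonempty_iff_eq_empty, sdiff_eq_empty] at hcon
    exact hw' (mem_interior_iff_mem_nhds.2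
      (mem_of_superset (ball_mem_nhds w (mul_pos hε0 hδ)) hcon))
  have hvolK0 : volume K < volume K0 := by
    have h1 : volume (K ∪ (ball w (ε * δ) \ K)) = volume K + volume (ball w (ε * δ) \ K) :=
      measure_union disjoint_sdiff_right hO.measurableSet
    calc volume K < volume K + volume (ball w (ε * δ) \ K) :=
          ENNReal.lt_add_right h.compact.measure_lt_top.ne (hO.measure_pos volume hOne).ne'
      _ = volume (K ∪ (ball w (ε * δ) \ K)) := h1.symm
      _ ≤ volume K0 := measure_mono (union_subset hKK0 (sdiff_subset.trans hballK0))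
  have hmulti := multi_ineq (K := Fin.cons K0 (fun _ => K)) (c := c)
    (fun i => Fin.cases hK0comp (fun _ => h.compact) i)
    (fun i => Fin.cases hK0conv (fun _ => h.convex) i)
    (fun i => Fin.cases hK0symm (fun _ => h.symm) i) (by
      intro u hu
      have h0 : u 0 ∈ K0 := hu 0
      have h1 : ∀ i, Function.update u 0 w i ∈ K := by
        intro i
        refine Fin.cases ?_ (fun j => ?_) i
        · simpa using hw
        · rw [Function.update_of_ne (Fin.succ_ne_zero j)]
          exact hu j.succ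
      have h2 := ((hK0mem _).1 h0).2 _ h1
      rw [rowF_apply] at h2
      simpa using h2)
  rw [Fin.prod_univ_succ] at hmulti
  simp only [Fin.cons_zero, Fin.cons_succ, Finset.prod_const, Finset.card_univ,
    Fintype.card_fin] at hmulti
  set A := om (n + 1) * ENNReal.ofReal c with hA
  have hA0 : A ≠ 0 := (ENNReal.mul_pos (om_pos _).ne' (ENNReal.ofReal_pos.2 h.pos).ne').ne'
  have hAtop : A ≠ ∞ := (ENNReal.mul_lt_top (om_lt_top _) ENNReal.ofReal_lt_top).ne
  have h3 : A * A ^ n < volume K0 * A ^ n :=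
    ENNReal.mul_lt_mul_left (pow_ne_zero _ hA0) (ENNReal.pow_ne_top hAtop)
      (lt_of_le_of_lt h.vol hvolK0)
  have h4 : volume K0 * A ^ n ≤ volume K0 * volume K ^ n := by
    have := h.vol
    gcongr
  rw [← pow_succ'] at h3
  exact absurd (h4.trans hmulti) (not_le.2 h3)

lemma Extremal.functional_of_frame {K : Set (E (n + 1))} {c : ℝ} (h : Extremal K c)
    {v : Fin (n + 1) → E (n + 1)} (hv : ∀ i, v i ∈ K) {e : ℝ} (he : |e| = c) :
    ∀ z ∈ K, (e⁻¹ • rowF v) z ≤ 1 := by
  intro z hz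
  have h1 : |rowF v z| ≤ c := by
    rw [rowF_apply]
    exact h.det _ (update_mem hv hz)
  have hc := h.pos
  refine (le_abs_self _).trans ?_
  rw [LinearMap.smul_apply, smul_eq_mul, abs_mul, abs_inv, he, inv_mul_le_iff₀ hc]
  simpa using h1

lemma Extremal.exists_functional {K : Set (E (n + 1))} {c : ℝ} (h : Extremal K c)
    {w : E (n + 1)} (hw : w ∈ K) (hw' : w ∉ interior K) :
    ∃ f : E (n + 1) →ₗ[ℝ] ℝ, (∀ z ∈ K, f z ≤ 1) ∧ f w = 1 := by
  obtain ⟨v, hv0, hv, hdet⟩ := h.exists_frame hw hw'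
  refine ⟨(dt v)⁻¹ • rowF v, h.functional_of_frame hv hdet, ?_⟩
  have hne : dt v ≠ 0 := by
    intro h0
    rw [h0, abs_zero] at hdet
    exact h.pos.ne hdet
  rw [LinearMap.smul_apply, smul_eq_mul, rowF_apply, ← hv0, Function.update_eq_self,
    inv_mul_cancel₀ hne]

lemma rowF_mk (a : Fin (n + 1) → ℝ) (p : Fin (n + 1) → Fin n → ℝ) (t : ℝ) :
    rowF (fun i => mk (a i) (p i)) (mk t (p 0)) = colL p (Function.update a 0 t) := by
  rw [rowF_apply, ← dt_mk]
  congr 1
  funext i
  by_cases hi : i = 0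
  · subst hi; simp
  · simp [Function.update_of_ne hi]

lemma mk_affine (f : E (n + 1) →ₗ[ℝ] ℝ) (s t : ℝ) (p : Fin n → ℝ) :
    f (mk t p) = f (mk s p) + (t - s) * f (mk 1 0) := by
  have := mk_lin 1 (t - s) s 1 p (0 : Fin n → ℝ)
  simp only [one_mul, mul_one, add_sub_cancel, one_smul, smul_zero, add_zero] at this
  rw [this, map_add, map_smul, smul_eq_mul]

lemma symm_functionals_aux {K : Set (E (n + 1))} {c : ℝ} (h : Extremal K c)
    {s t : ℝ} {p : Fin n → ℝ} (hts : t ≤ s) (hx : mk s p ∈ K) (hx' : mk s p ∉ interior K)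
    (hy : mk t p ∈ K) (hy' : mk t p ∉ interior K) :
    ∃ f g : E (n + 1) →ₗ[ℝ] ℝ, (∀ z ∈ K, f z ≤ 1) ∧ (∀ z ∈ K, g z ≤ 1) ∧
      f (mk s p) = 1 ∧ g (mk t p) = 1 ∧ f (mk t p) = g (mk s p) := by
  by_cases hw : mk ((s - t) / 2) p ∈ interior (steiner K)
  · have hcont : Continuous fun u : ℝ => mk u p :=
      continuous_mk.comp (Continuous.prodMk continuous_id continuous_const)
    have hev : ∀ᶠ u in 𝓝[>] ((s - t) / 2), mk u p ∈ steiner K :=
      (hcont.continuousAt.eventually (mem_interior_iff_mem_nhds.1 hw)).filter_mono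
        nhdsWithin_le_nhds
    obtain ⟨u, ⟨s', t', p', hs', ht', hu⟩, hu'⟩ := (hev.and self_mem_nhdsWithin).exists
    obtain ⟨h1, rfl⟩ := mk_inj hu
    have hu'' : (s - t) / 2 < u := hu'
    by_cases hss : s < s'
    · obtain ⟨f, hf, hfx⟩ := h.exists_functional hx hx'
      have h2 := hf _ hs'
      have h3 := hf _ hy
      rw [mk_affine f s, hfx] at h2 h3
      have h4 : f (mk 1 0) ≤ 0 := by
        by_contra h5
        push Not at h5
        nlinarith [mul_pos (sub_pos.2 hss) h5]
      have h5 : f (mk t p) = 1 := by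
        rw [mk_affine f s, hfx]
        nlinarith [mul_nonneg_of_nonpos_of_nonpos (sub_nonpos.2 hts) h4]
      exact ⟨f, f, hf, hf, hfx, h5, by rw [h5, hfx]⟩
    · have htt : t' < t := by push Not at hss; linarith
      obtain ⟨f, hf, hfy⟩ := h.exists_functional hy hy'
      have h2 := hf _ ht'
      have h3 := hf _ hx
      rw [mk_affine f t, hfy] at h2 h3
      have h4 : 0 ≤ f (mk 1 0) := by
        by_contra h5
        push Not at h5
        nlinarith [mul_pos_of_neg_of_neg (sub_neg.2 htt) h5]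
      have h5 : f (mk s p) = 1 := by
        rw [mk_affine f t, hfy]
        nlinarith [mul_nonneg (sub_nonneg.2 hts) h4]
      exact ⟨f, f, hf, hf, h5, hfy, by rw [h5, hfy]⟩
  · obtain ⟨v, hv0, hv, hdet⟩ := h.steiner.exists_frame ⟨s, t, p, hx, hy, rfl⟩ hw
    have hex : ∀ i, ∃ s' t' p', mk s' p' ∈ K ∧ mk t' p' ∈ K ∧ v i = mk ((s' - t') / 2) p' ∧
        (i = 0 → s' = s ∧ t' = t ∧ p' = p) := by
      intro i
      by_cases hi : i = 0
      · subst hi
        exact ⟨s, t, p, hx, hy, hv0, fun _ => ⟨rfl, rfl, rfl⟩⟩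
      · obtain ⟨s', t', p', h1, h2, h3⟩ := hv i
        exact ⟨s', t', p', h1, h2, h3, fun h => absurd h hi⟩
    choose a b q ha hb hvq h0 using hex
    obtain ⟨ha0, hb0, hq0⟩ := h0 0 rfl
    have hv' : v = fun i => mk ((a i - b i) / 2) (q i) := funext hvq
    have h1 := h.det _ ha
    have h2 := h.det _ hb
    rw [dt_mk] at h1 h2
    rw [hv', dt_mk] at hdet
    have h3 : (fun i => (a i - b i) / 2) = (1 / 2 : ℝ) • (a - b) := by
      funext i; simp; ring
    rw [h3, map_smul, map_sub, smul_eq_mul] at hdet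
    have hc := h.pos
    have h4 : |colL q a| = c ∧ colL q b = - colL q a := by
      rw [abs_le] at h1 h2
      rcases (abs_eq hc.le).1 hdet with h5 | h5
      · have : colL q a = c := by linarith [h1.2, h2.1]
        exact ⟨by rw [this, abs_of_pos hc], by linarith [h1.2, h2.1]⟩
      · have : colL q a = -c := by linarith [h1.1, h2.2]
        exact ⟨by rw [this, abs_neg, abs_of_pos hc], by linarith [h1.1, h2.2]⟩
    obtain ⟨h5, h6⟩ := h4
    have hne : colL q a ≠ 0 := by
      intro h0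
      rw [h0, abs_zero] at h5
      exact hc.ne h5
    refine ⟨(colL q a)⁻¹ • rowF (fun i => mk (a i) (q i)),
      (colL q b)⁻¹ • rowF (fun i => mk (b i) (q i)), h.functional_of_frame ha h5,
      h.functional_of_frame hb (by rw [h6, abs_neg, h5]), ?_, ?_, ?_⟩
    · rw [LinearMap.smul_apply, smul_eq_mul, ← hq0, rowF_mk, ← ha0, Function.update_eq_self,
        inv_mul_cancel₀ hne]
    · rw [LinearMap.smul_apply, smul_eq_mul, ← hq0, rowF_mk, ← hb0, Function.update_eq_self,
        inv_mul_cancel₀ (by rw [h6]; exact neg_ne_zero.2 hne)]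
    · rw [LinearMap.smul_apply, LinearMap.smul_apply, smul_eq_mul, smul_eq_mul, ← hq0, rowF_mk,
        rowF_mk, h6]
      have h7 : Function.update a 0 t + Function.update b 0 s = a + b := by
        funext i
        by_cases hi : i = 0
        · subst hi; simp [ha0, hb0, add_comm]
        · simp [Function.update_of_ne hi]
      have h8 := congrArg (colL q) h7
      rw [map_add, map_add, h6, add_neg_cancel] at h8
      have h9 : colL q (Function.update b 0 s) = - colL q (Function.update a 0 t) := by linarith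
      rw [h9, inv_neg, neg_mul_neg]

lemma symm_functionals {K : Set (E (n + 1))} {c : ℝ} (h : Extremal K c)
    {x y : E (n + 1)} (hx : x ∈ K) (hx' : x ∉ interior K) (hy : y ∈ K) (hy' : y ∉ interior K) :
    ∃ f g : E (n + 1) →ₗ[ℝ] ℝ, (∀ z ∈ K, f z ≤ 1) ∧ (∀ z ∈ K, g z ≤ 1) ∧
      f x = 1 ∧ g y = 1 ∧ f y = g x := by
  obtain ⟨U, hU⟩ := exists_isometry_align x y
  have hK' := h.image U
  have hint : ∀ z, z ∉ interior K → U z ∉ interior (U '' K) := by
    intro z hz hcon
    rw [← interior_image_isometry] at hcon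
    obtain ⟨z', hz', hzz⟩ := hcon
    exact hz (U.injective hzz ▸ hz')
  have ex : U x = mk (U x 0) (tl (U y)) := by rw [← hU, mk_tl]
  have ey : U y = mk (U y 0) (tl (U y)) := by rw [mk_tl]
  have hx1 : mk (U x 0) (tl (U y)) ∈ U '' K := ex ▸ ⟨x, hx, rfl⟩
  have hy1 : mk (U y 0) (tl (U y)) ∈ U '' K := ey ▸ ⟨y, hy, rfl⟩
  have hx2 : mk (U x 0) (tl (U y)) ∉ interior (U '' K) := ex ▸ hint x hx'
  have hy2 : mk (U y 0) (tl (U y)) ∉ interior (U '' K) := ey ▸ hint y hy'
  have main : ∃ f g : E (n + 1) →ₗ[ℝ] ℝ, (∀ z ∈ U '' K, f z ≤ 1) ∧ (∀ z ∈ U '' K, g z ≤ 1) ∧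
      f (U x) = 1 ∧ g (U y) = 1 ∧ f (U y) = g (U x) := by
    rcases le_total (U y 0) (U x 0) with hle | hle
    · obtain ⟨f, g, h1, h2, h3, h4, h5⟩ := symm_functionals_aux hK' hle hx1 hx2 hy1 hy2
      rw [← ex] at h3 h5
      rw [← ey] at h4 h5
      exact ⟨f, g, h1, h2, h3, h4, h5⟩
    · obtain ⟨f, g, h1, h2, h3, h4, h5⟩ := symm_functionals_aux hK' hle hy1 hy2 hx1 hx2
      rw [← ex] at h4 h5
      rw [← ey] at h3 h5
      exact ⟨g, f, h2, h1, h4, h3, h5.symm⟩
  obtain ⟨f, g, h1, h2, h3, h4, h5⟩ := main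
  exact ⟨f.comp (U.toLinearEquiv : E (n + 1) →ₗ[ℝ] E (n + 1)),
    g.comp (U.toLinearEquiv : E (n + 1) →ₗ[ℝ] E (n + 1)),
    fun z hz => h1 _ ⟨z, hz, rfl⟩, fun z hz => h2 _ ⟨z, hz, rfl⟩, h3, h4, h5⟩

theorem Extremal.ellipsoid {K : Set (E (n + 1))} {c : ℝ} (h : Extremal K c) :
    ∃ T : E (n + 1) ≃ₗ[ℝ] E (n + 1), K = T '' closedBall 0 1 := by
  have h0 : K ∈ 𝓝 (0 : E (n + 1)) := mem_interior_iff_mem_nhds.1 h.zero_mem
  have habs : Absorbent ℝ K := absorbent_nhds_zero h0
  have hbal : Balanced ℝ K := (balanced_iff_neg_mem h.convex).2 fun x hx => h.symm x hx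
  have hvb : Bornology.IsVonNBounded ℝ K := h.compact.isVonNBounded ℝ
  have hmem : ∀ z, gauge K z ≤ 1 ↔ z ∈ K := fun z => by
    rw [gauge_le_one_iff_mem_closure h.convex h0, h.compact.isClosed.closure_eq]
  have hfun : ∀ f : E (n + 1) →ₗ[ℝ] ℝ, (∀ z ∈ K, f z ≤ 1) → ∀ z, f z ≤ gauge K z := by
    intro f hf z
    refine le_of_forall_gt_imp_ge_of_dense fun a ha => ?_
    obtain ⟨b, hb0, hba, y, hy, rfl⟩ := exists_lt_of_gauge_lt habs ha
    have := hf y hy
    simp only [map_smul, smul_eq_mul]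
    nlinarith
  obtain ⟨T, hT⟩ := exists_linearEquiv_of_symm_functionals (V := E (n + 1)) (d := n + 1)
    (by simp) (gaugeSeminorm hbal h.convex habs) (fun x hx => (gauge_eq_zero habs hvb).1 hx) (by
      intro x y hx hy
      have hx1 : gauge K x = 1 := hx
      have hy1 : gauge K y = 1 := hy
      obtain ⟨f, g, h1, h2, h3, h4, h5⟩ := symm_functionals h ((hmem x).1 hx1.le)
        (fun hc => by
          have := (gauge_lt_one_iff_mem_interior h.convex h0).2 hc
          linarith) ((hmem y).1 hy1.le)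
        (fun hc => by
          have := (gauge_lt_one_iff_mem_interior h.convex h0).2 hc
          linarith)
      exact ⟨f, g, hfun f h1, hfun g h2, h3, h4, h5⟩)
  refine ⟨T.symm, ?_⟩
  ext z
  rw [LinearEquiv.image_symm_eq_preimage, mem_preimage, mem_closedBall_zero_iff, hT, ← hmem]
  rfl

end Pool.Agent.Lib.MP_77d991_gt
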