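import Pool.Agent.Lib.MP_77d991_gt.Basic

/-!
Fibrewise computations: Steiner symmetrization does not decrease the volume nor the
weighted volume with weight `C - |x|^2`, and the equality case for the latter.
-/

open MeasureTheory Set Metric
open scoped ENNReal

namespace Pool.Agent.Lib.MP_77d991_gt

variable {n : ℕ}

lemma measurePreserving_mk :
    MeasurePreserving (fun q : ℝ × (Fin n → ℝ) => mk q.1 q.2) volume volume := by
  have h1 := (volume_preserving_piFinSuccAbove (fun _ : Fin (n + 1) => ℝ) 0).symm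
  have h2 := PiLp.volume_preserving_toLp (Fin (n + 1))
  have h3 := h2.comp h1
  have h4 : (fun q : ℝ × (Fin n → ℝ) => mk q.1 q.2) =
      WithLp.toLp 2 ∘ (MeasurableEquiv.piFinSuccAbove (fun _ : Fin (n + 1) => ℝ) 0).symm := by
    funext q
    simp [mk, MeasurableEquiv.piFinSuccAbove_symm_apply, Fin.insertNthEquiv, Fin.insertNth_zero']
  rw [h4]
  exact h3

lemma lintegral_eq_fibers {f : E (n + 1) → ℝ≥0∞} (hf : Measurable f) :
    ∫⁻ x, f x = ∫⁻ p : Fin n → ℝ, ∫⁻ t : ℝ, f (mk t p) := by
  rw [← measurePreserving_mk.lintegral_comp hf]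
  exact lintegral_prod_symm' _ (hf.comp continuous_mk.measurable)

lemma measurable_fiber_integral {f : E (n + 1) → ℝ≥0∞} (hf : Measurable f) :
    Measurable fun p : Fin n → ℝ => ∫⁻ t : ℝ, f (mk t p) :=
  Measurable.lintegral_prod_left' (f := fun q : ℝ × (Fin n → ℝ) => f (mk q.1 q.2))
    (hf.comp continuous_mk.measurable)

/-- the fibre of `K` over `p`. -/
def fib (K : Set (E (n + 1))) (p : Fin n → ℝ) : Set ℝ := {t | mk t p ∈ K}

lemma fib_cases {K : Set (E (n + 1))} (hK : IsCompact K) (hc : Convex ℝ K) (p : Fin n → ℝ) :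
    fib K p = ∅ ∨ ∃ a b, a ≤ b ∧ fib K p = Icc a b := by
  rcases (fib K p).eq_empty_or_nonempty with h | h
  · exact Or.inl h
  right
  have hconv : Convex ℝ (fib K p) := by
    intro s hs t ht a b ha hb hab
    have := hc hs ht ha hb hab
    rw [← mk_lin] at this
    have h2 : a • p + b • p = p := by rw [← add_smul, hab, one_smul]
    rw [h2] at this
    exact this
  have hcomp : IsCompact (fib K p) := by
    have hcl : IsClosed (fib K p) :=
      hK.isClosed.preimage (continuous_mk.comp (Continuous.prodMk continuous_id continuous_const))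
    have hsub : fib K p ⊆ (fun x : E (n + 1) => x 0) '' K := fun t ht => ⟨mk t p, ht, by simp⟩
    exact (hK.image (by fun_prop)).of_isClosed_subset hcl hsub
  have hcon : IsConnected (fib K p) := hconv.isConnected h
  refine ⟨sInf (fib K p), sSup (fib K p), ?_, eq_Icc_of_connected_compact hcon hcomp⟩
  exact csInf_le_csSup h hcomp.bddBelow hcomp.bddAbove

lemma Icc_subset_fib_steiner {K : Set (E (n + 1))} {p : Fin n → ℝ} {a b : ℝ}
    (h : fib K p = Icc a b) : Icc (-((b - a) / 2)) ((b - a) / 2) ⊆ fib (steiner K) p := by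
  intro u hu
  refine ⟨(a + b) / 2 + u, (a + b) / 2 - u, p, ?_, ?_, ?_⟩
  · have : (a + b) / 2 + u ∈ fib K p := by
      rw [h]; constructor <;> linarith [hu.1, hu.2]
    exact this
  · have : (a + b) / 2 - u ∈ fib K p := by
      rw [h]; constructor <;> linarith [hu.1, hu.2]
    exact this
  · congr 1; ring

lemma setLIntegral_eq_fibers {K : Set (E (n + 1))} (hK : MeasurableSet K)
    {f : E (n + 1) → ℝ≥0∞} (hf : Measurable f) :
    ∫⁻ x in K, f x = ∫⁻ p : Fin n → ℝ, ∫⁻ t in fib K p, f (mk t p) := by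
  rw [← lintegral_indicator hK, lintegral_eq_fibers (hf.indicator hK)]
  refine lintegral_congr fun p => ?_
  have hm : MeasurableSet (fib K p) :=
    hK.preimage (continuous_mk.comp (Continuous.prodMk continuous_id continuous_const)).measurable
  rw [← lintegral_indicator hm]
  rfl

lemma measurable_setLIntegral_fib {K : Set (E (n + 1))} (hK : MeasurableSet K)
    {f : E (n + 1) → ℝ≥0∞} (hf : Measurable f) :
    Measurable fun p : Fin n → ℝ => ∫⁻ t in fib K p, f (mk t p) := by
  have h := measurable_fiber_integral (hf.indicator hK)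
  convert h using 1
  funext p
  have hm : MeasurableSet (fib K p) :=
    hK.preimage (continuous_mk.comp (Continuous.prodMk continuous_id continuous_const)).measurable
  rw [← lintegral_indicator hm]
  rfl

lemma volume_eq_fibers {K : Set (E (n + 1))} (hK : MeasurableSet K) :
    volume K = ∫⁻ p : Fin n → ℝ, volume (fib K p) := by
  have := setLIntegral_eq_fibers hK (f := fun _ => 1) measurable_const
  simpa using this

lemma volume_le_steiner {K : Set (E (n + 1))} (hK : IsCompact K) (hc : Convex ℝ K) :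
    volume K ≤ volume (steiner K) := by
  rw [volume_eq_fibers hK.measurableSet, volume_eq_fibers (isCompact_steiner hK).measurableSet]
  refine lintegral_mono fun p => ?_
  rcases fib_cases hK hc p with h | ⟨a, b, hab, h⟩
  · simp [h]
  · refine le_trans ?_ (measure_mono (Icc_subset_fib_steiner h))
    rw [h, Real.volume_Icc, Real.volume_Icc]
    apply le_of_eq
    congr 1; ring

/-- the weight. -/
noncomputable def wt {d : ℕ} (R : ℝ) (x : E d) : ℝ≥0∞ := ENNReal.ofReal (R ^ 2 - ‖x‖ ^ 2)

lemma measurable_wt {d : ℕ} (R : ℝ) : Measurable (wt R : E d → ℝ≥0∞) := by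
  unfold wt
  fun_prop

lemma lintegral_Icc_quad {a b c : ℝ} (hab : a ≤ b) (h : ∀ t ∈ Icc a b, t ^ 2 ≤ c) :
    ∫⁻ t in Icc a b, ENNReal.ofReal (c - t ^ 2) =
      ENNReal.ofReal (c * (b - a) - (b ^ 3 - a ^ 3) / 3) := by
  rw [← ofReal_integral_eq_lintegral_ofReal]
  · congr 1
    rw [integral_Icc_eq_integral_Ioc, ← intervalIntegral.integral_of_le hab,
      intervalIntegral.integral_sub (by simp) (by simp)]
    simp
    ring
  · exact Continuous.integrableOn_Icc (by fun_prop)
  · refine (ae_restrict_iff' measurableSet_Icc).2 (Filter.Eventually.of_forall fun t ht => ?_)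
    have := h t ht
    simp only [Pi.zero_apply]
    linarith

lemma fib_wt_aux {K : Set (E (n + 1))} {R : ℝ} (hR : K ⊆ closedBall 0 R) {p : Fin n → ℝ}
    {a b : ℝ} (hab : a ≤ b) (h : Icc a b ⊆ fib K p) :
    ∫⁻ t in Icc a b, wt R (mk t p) =
      ENNReal.ofReal ((R ^ 2 - ∑ j, p j ^ 2) * (b - a) - (b ^ 3 - a ^ 3) / 3) ∧
      ∀ t ∈ Icc a b, t ^ 2 ≤ R ^ 2 - ∑ j, p j ^ 2 := by
  have h2 : ∀ t ∈ Icc a b, t ^ 2 ≤ R ^ 2 - ∑ j, p j ^ 2 := by
    intro t ht
    have h1 := hR (h ht)
    rw [mem_closedBall_zero_iff] at h1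
    have h1' : ‖mk t p‖ ^ 2 ≤ R ^ 2 := by gcongr
    rw [norm_mk_sq] at h1'
    linarith
  refine ⟨?_, h2⟩
  rw [← lintegral_Icc_quad hab h2]
  refine lintegral_congr fun t => ?_
  unfold wt
  rw [norm_mk_sq]
  congr 1; ring

lemma fib_wt_le {K : Set (E (n + 1))} (hK : IsCompact K) (hc : Convex ℝ K) {R : ℝ}
    (hR : K ⊆ closedBall 0 R) (p : Fin n → ℝ) :
    (∫⁻ t in fib K p, wt R (mk t p) ≤ ∫⁻ t in fib (steiner K) p, wt R (mk t p)) ∧
    ((∫⁻ t in fib K p, wt R (mk t p) = ∫⁻ t in fib (steiner K) p, wt R (mk t p)) →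
      volume {t | mk t p ∈ K ∧ mk (-t) p ∉ K} = 0) := by
  rcases fib_cases hK hc p with h | ⟨a, b, hab, h⟩
  · refine ⟨by simp [h], fun _ => ?_⟩
    have : {t | mk t p ∈ K ∧ mk (-t) p ∉ K} = ∅ := by
      ext t
      simp only [mem_ofPred_eq, mem_empty_iff_false, iff_false, not_and, not_not]
      intro ht
      have : t ∈ fib K p := ht
      rw [h] at this
      exact this.elim
    rw [this, measure_empty]
  · have hs := Icc_subset_fib_steiner h
    have hab' : -((b - a) / 2) ≤ (b - a) / 2 := by linarith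
    obtain ⟨e1, -⟩ := fib_wt_aux hR hab h.symm.subset
    obtain ⟨e2, e3⟩ := fib_wt_aux (steiner_subset_ball hR) hab' hs
    set c := R ^ 2 - ∑ j, p j ^ 2 with hc_def
    have hle : ∫⁻ t in Icc (-((b - a) / 2)) ((b - a) / 2), wt R (mk t p) ≤
        ∫⁻ t in fib (steiner K) p, wt R (mk t p) := lintegral_mono_set hs
    have key : c * ((b - a) / 2 - -((b - a) / 2)) -
        (((b - a) / 2) ^ 3 - (-((b - a) / 2)) ^ 3) / 3 =
        (c * (b - a) - (b ^ 3 - a ^ 3) / 3) + (b - a) * (a + b) ^ 2 / 4 := by ring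
    have hnn : 0 ≤ (b - a) * (a + b) ^ 2 / 4 := by
      have : 0 ≤ b - a := by linarith
      positivity
    rw [h, e1]
    rw [e2, key] at hle
    refine ⟨le_trans (ENNReal.ofReal_le_ofReal (by linarith)) hle, fun heq => ?_⟩
    rw [← heq] at hle
    have hcb : ((b - a) / 2) ^ 2 ≤ c := e3 _ ⟨hab', le_rfl⟩
    rcases hab.eq_or_lt with hEq | hlt
    · refine measure_mono_null (t := Icc a b) (fun t ht => ?_) (by simp [hEq])
      have : t ∈ fib K p := ht.1
      rwa [h] at this
    · have hpos : 0 < (c * (b - a) - (b ^ 3 - a ^ 3) / 3) + (b - a) * (a + b) ^ 2 / 4 := by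
        rw [← key]
        have h0 : 0 < (b - a) / 2 := by linarith
        have h1 : 0 < ((b - a) / 2) ^ 3 := by positivity
        nlinarith
      have h5 := (ENNReal.ofReal_le_ofReal_iff' ).1 hle
      have h6 : (b - a) * (a + b) ^ 2 / 4 ≤ 0 := by
        rcases h5 with h5 | h5 <;> linarith
      have h7 : (a + b) ^ 2 ≤ 0 := by
        by_contra h8
        push Not at h8
        have : 0 < (b - a) * (a + b) ^ 2 / 4 := by
          have : 0 < b - a := by linarith
          positivity
        linarith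
      have h9 : a + b = 0 := by
        have := sq_nonneg (a + b)
        exact pow_eq_zero_iff (two_ne_zero) |>.1 (le_antisymm h7 this)
      have : {t | mk t p ∈ K ∧ mk (-t) p ∉ K} = ∅ := by
        ext t
        simp only [mem_ofPred_eq, mem_empty_iff_false, iff_false, not_and, not_not]
        intro ht
        have h1 : t ∈ fib K p := ht
        have h2 : -t ∈ fib K p := by
          rw [h] at h1 ⊢
          constructor <;> linarith [h1.1, h1.2]
        exact h2
      rw [this, measure_empty]

/-- the weighted volume. -/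
noncomputable def wvol {d : ℕ} (R : ℝ) : Measure (E d) := volume.withDensity (wt R)

lemma wvol_apply {d : ℕ} (R : ℝ) {K : Set (E d)} (hK : MeasurableSet K) :
    wvol R K = ∫⁻ x in K, wt R x := withDensity_apply _ hK

lemma wvol_le {d : ℕ} (R : ℝ) {K : Set (E d)} (hK : MeasurableSet K) :
    wvol R K ≤ ENNReal.ofReal (R ^ 2) * volume K := by
  rw [wvol_apply R hK, ← setLIntegral_const]
  refine lintegral_mono fun x => ?_
  exact ENNReal.ofReal_le_ofReal (by nlinarith [sq_nonneg ‖x‖])

lemma wvol_lt_top {d : ℕ} (R : ℝ) {K : Set (E d)} (hK : IsCompact K) : wvol R K < ∞ :=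
  (wvol_le R hK.measurableSet).trans_lt (ENNReal.mul_lt_top ENNReal.ofReal_lt_top hK.measure_lt_top)

lemma wvol_le_steiner {K : Set (E (n + 1))} (hK : IsCompact K) (hc : Convex ℝ K) {R : ℝ}
    (hR : K ⊆ closedBall 0 R) : wvol R K ≤ wvol R (steiner K) := by
  rw [wvol_apply R hK.measurableSet, wvol_apply R (isCompact_steiner hK).measurableSet,
    setLIntegral_eq_fibers hK.measurableSet (measurable_wt R),
    setLIntegral_eq_fibers (isCompact_steiner hK).measurableSet (measurable_wt R)]
  exact lintegral_mono fun p => (fib_wt_le hK hc hR p).1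

lemma symm_of_wvol_steiner_le {K : Set (E (n + 1))} (hK : IsCompact K) (hc : Convex ℝ K) {R : ℝ}
    (hR : K ⊆ closedBall 0 R) (h : wvol R (steiner K) ≤ wvol R K) :
    ∀ x ∈ interior K, mk (-(x 0)) (tl x) ∈ K := by
  have hfin := (wvol_lt_top R hK).ne
  rw [wvol_apply R hK.measurableSet, setLIntegral_eq_fibers hK.measurableSet (measurable_wt R)]
    at h hfin
  rw [wvol_apply R (isCompact_steiner hK).measurableSet,
    setLIntegral_eq_fibers (isCompact_steiner hK).measurableSet (measurable_wt R)] at h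
  have hae := ae_eq_of_ae_le_of_lintegral_le
    (Filter.Eventually.of_forall fun p => (fib_wt_le hK hc hR p).1) hfin
    (measurable_setLIntegral_fib (isCompact_steiner hK).measurableSet
      (measurable_wt R)).aemeasurable h
  have hcont : Continuous fun x : E (n + 1) => mk (-(x 0)) (tl x) :=
    continuous_mk.comp (f := fun x : E (n + 1) => (-(x 0), tl x))
      (Continuous.prodMk (by fun_prop) continuous_tl)
  set S : Set (E (n + 1)) := (fun x : E (n + 1) => mk (-(x 0)) (tl x)) ⁻¹' K with hS
  have hScl : IsClosed S := hK.isClosed.preimage hcont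
  have hZ : volume (K \ S) = 0 := by
    rw [volume_eq_fibers (hK.measurableSet.diff hScl.measurableSet)]
    have : (fun p : Fin n → ℝ => volume (fib (K \ S) p)) =ᵐ[volume] fun _ => 0 := by
      filter_upwards [hae] with p hp
      have := (fib_wt_le hK hc hR p).2 hp
      convert this using 2
      ext t
      simp [fib, hS]
    rw [lintegral_congr_ae this, lintegral_zero]
  intro x hx
  by_contra hxS
  have hopen : IsOpen (interior K \ S) := isOpen_interior.sdiff hScl
  have hpos := hopen.measure_pos volume ⟨x, hx, hxS⟩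
  have : volume (interior K \ S) = 0 :=
    measure_mono_null (sdiff_subset_sdiff_left interior_subset) hZ
  exact hpos.ne' this

end Pool.Agent.Lib.MP_77d991_gt
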