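import Pool.Agent.Lib.MP_77d991_gt.Cross

open MeasureTheory Set

namespace Pool.Agent.Lib.MP_77d991_gt.MassMaxWithdrawn

/-- `M` is an `o`-symmetric convex body of `ℝ^d`. -/
def IsSymmBody {d : ℕ} (M : Set (EuclideanSpace ℝ (Fin d))) : Prop :=
  IsCompact M ∧ Convex ℝ M ∧ (interior M).Nonempty ∧ M = -M

/-- The volumes of the cross-polytopes `conv {±v₁, …, ±v_d}` inscribed in `M`. -/
def crossVolumes {d : ℕ} (M : Set (EuclideanSpace ℝ (Fin d))) : Set ℝ :=
  {x | ∃ v : Fin d → EuclideanSpace ℝ (Fin d), (∀ i, v i ∈ M) ∧ LinearIndependent ℝ v ∧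
    x = (volume (convexHull ℝ (range v ∪ range (-v)))).toReal}

/-- Gromov's mass of the unit ball `M`. -/
noncomputable def gromovMass {d : ℕ} (M : Set (EuclideanSpace ℝ (Fin d))) : ℝ :=
  2 ^ d / (d.factorial : ℝ) * ((volume M).toReal / sSup (crossVolumes M))

open Pool.Agent.Lib.MP_77d991_gt in
theorem result (d : ℕ) (hd : 1 ≤ d) :
    IsGreatest {x : ℝ | ∃ M : Set (EuclideanSpace ℝ (Fin d)), IsSymmBody M ∧ x = gromovMass M}
      (Real.pi ^ ((d : ℝ) / 2) / Real.Gamma ((d : ℝ) / 2 + 1)) ∧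
    ∀ M : Set (EuclideanSpace ℝ (Fin d)), IsSymmBody M →
      (gromovMass M = Real.pi ^ ((d : ℝ) / 2) / Real.Gamma ((d : ℝ) / 2 + 1) ↔
        ∃ T : EuclideanSpace ℝ (Fin d) ≃ₗ[ℝ] EuclideanSpace ℝ (Fin d),
          M = T '' Metric.closedBall 0 1) := by
  obtain ⟨n, rfl⟩ : ∃ n, d = n + 1 := ⟨d - 1, by omega⟩
  rw [← om_toReal]
  have key : ∀ M : Set (EuclideanSpace ℝ (Fin (n + 1))), IsSymmBody M →
      gromovMass M ≤ (om (n + 1)).toReal ∧ (gromovMass M = (om (n + 1)).toReal ↔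
        ∃ T : EuclideanSpace ℝ (Fin (n + 1)) ≃ₗ[ℝ] EuclideanSpace ℝ (Fin (n + 1)),
          M = T '' Metric.closedBall 0 1) := by
    rintro M ⟨hK, hc, hi, hs⟩
    have hs' : ∀ x ∈ M, -x ∈ M := fun x hx => by
      rw [hs]; simpa using hx
    obtain ⟨v, hv, hpos, hdet⟩ := exists_max_dt hK (zero_mem_interior_of_symm hc hs' hi)
    have hκ : (0 : ℝ) < 2 ^ (n + 1) / ((n + 1).factorial : ℝ) := by positivity
    have hsup : sSup (crossVolumes M) = 2 ^ (n + 1) / ((n + 1).factorial : ℝ) * |dt v| := by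
      refine IsGreatest.csSup_eq ⟨⟨v, hv, linearIndependent_of_dt_ne_zero (abs_pos.1 hpos),
        (volume_cross v).symm⟩, ?_⟩
      rintro _ ⟨u, hu, -, rfl⟩
      rw [volume_cross]
      exact mul_le_mul_of_nonneg_left (hdet u hu) hκ.le
    have hmass : gromovMass M = (volume M).toReal / |dt v| := by
      rw [gromovMass, hsup]
      field_simp
    rw [hmass]
    exact main_dt hK hc hs' hv hpos hdet
  refine ⟨⟨⟨Metric.closedBall 0 1, ?_, ?_⟩, ?_⟩, fun M hM => (key M hM).2⟩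
  · exact ⟨isCompact_closedBall _ _, convex_closedBall _ _,
      ⟨0, mem_interior_iff_mem_nhds.2 (Metric.closedBall_mem_nhds _ one_pos)⟩, by simp⟩
  · refine ((key _ ⟨isCompact_closedBall _ _, convex_closedBall _ _,
      ⟨0, mem_interior_iff_mem_nhds.2 (Metric.closedBall_mem_nhds _ one_pos)⟩, by simp⟩).2.2
      ⟨LinearEquiv.refl ℝ _, (Set.image_id _).symm⟩).symm
  · rintro _ ⟨M, hM, rfl⟩
    exact (key M hM).1

end Pool.Agent.Lib.MP_77d991_gt.MassMaxWithdrawn
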