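import Pool.Agent.Lib.MP_77d991_gt.Fubini

/-!
The multi-body inequality: if every transversal of `d` symmetric convex compact sets has
determinant at most `c`, the product of the volumes is at most `(ω c)^d`.
-/

open MeasureTheory Set Metric TopologicalSpace Filter Topology
open scoped ENNReal

namespace Pool.Agent.Lib.MP_77d991_gt

variable {n : ℕ}

instance {d : ℕ} (R : ℝ) : IsFiniteMeasureOnCompacts (wvol R : Measure (E d)) :=
  ⟨fun _ hK => wvol_lt_top R hK⟩

lemma usc_measure {d : ℕ} (μ : Measure (E d)) [IsFiniteMeasureOnCompacts μ] :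
    UpperSemicontinuous fun K : Compacts (E d) => μ K := by
  intro K c hc
  have ht := tendsto_measure_cthickening_of_isCompact (μ := μ) K.isCompact
  have hev : ∀ᶠ r in 𝓝[>] (0 : ℝ), μ (cthickening r (K : Set (E d))) < c :=
    (ht.eventually (gt_mem_nhds hc)).filter_mono nhdsWithin_le_nhds
  obtain ⟨r, hr, hr0⟩ := (hev.and self_mem_nhdsWithin).exists
  have hopen : IsOpen {L : Compacts (E d) | (L : Set (E d)) ⊆ thickening r (K : Set (E d))} :=
    Compacts.isOpen_subsets_of_isOpen isOpen_thickening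
  filter_upwards [hopen.mem_nhds (self_subset_thickening hr0 _)] with L hL
  exact lt_of_le_of_lt (measure_mono (hL.trans (thickening_subset_cthickening _ _))) hr

lemma isClosed_stable₂ {d : ℕ} {f : E d × E d → E d} (hf : Continuous f) :
    IsClosed {K : Compacts (E d) | ∀ x ∈ K, ∀ y ∈ K, f (x, y) ∈ K} := by
  have h : {K : Compacts (E d) | ∀ x ∈ K, ∀ y ∈ K, f (x, y) ∈ K} =
      {K : Compacts (E d) | ((K ×ˢ K).map f hf) ⊔ K = K} := by
    ext K
    simp only [mem_ofPred_eq, sup_eq_right]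
    constructor
    · rintro h _ ⟨⟨x, y⟩, ⟨hx, hy⟩, rfl⟩
      exact h x hx y hy
    · intro h x hx y hy
      exact h ⟨(x, y), ⟨hx, hy⟩, rfl⟩
  rw [h]
  refine isClosed_eq ?_ continuous_id
  refine Continuous.sup ?_ continuous_id
  exact hf.compacts_map.comp
    (Compacts.continuous_prod.comp (Continuous.prodMk continuous_id continuous_id))

lemma isClosed_convex {d : ℕ} : IsClosed {K : Compacts (E d) | Convex ℝ (K : Set (E d))} := by
  have h : {K : Compacts (E d) | Convex ℝ (K : Set (E d))} =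
      ⋂ (a : ℝ) (_ : 0 ≤ a) (b : ℝ) (_ : 0 ≤ b) (_ : a + b = 1),
        {K : Compacts (E d) | ∀ x ∈ K, ∀ y ∈ K,
          (fun q : E d × E d => a • q.1 + b • q.2) (x, y) ∈ K} := by
    ext K
    simp only [mem_ofPred_eq, mem_iInter]
    constructor
    · intro h a ha b hb hab x hx y hy
      exact h hx hy ha hb hab
    · intro h x hx y hy a b ha hb hab
      exact h a ha b hb hab x hx y hy
  rw [h]
  refine isClosed_iInter fun a => isClosed_iInter fun _ => isClosed_iInter fun b =>
    isClosed_iInter fun _ => isClosed_iInter fun _ => ?_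
  exact isClosed_stable₂ (f := fun q : E d × E d => a • q.1 + b • q.2) (by fun_prop)

lemma isClosed_symm {d : ℕ} : IsClosed {K : Compacts (E d) | ∀ x ∈ K, -x ∈ K} := by
  have h : {K : Compacts (E d) | ∀ x ∈ K, -x ∈ K} =
      {K : Compacts (E d) | ∀ x ∈ K, ∀ y ∈ K, (fun q : E d × E d => -q.1) (x, y) ∈ K} := by
    ext K
    simp only [mem_ofPred_eq]
    exact ⟨fun h x hx _ _ => h x hx, fun h x hx => h x hx x hx⟩
  rw [h]
  exact isClosed_stable₂ (f := fun q : E d × E d => -q.1) (by fun_prop)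

lemma cont_eval {d : ℕ} (i : Fin d) : Continuous fun L : Fin d → Compacts (E d) => L i :=
  continuous_apply i

lemma isClosed_detLE {d : ℕ} (c : ℝ) :
    IsClosed {K : Fin d → Compacts (E d) | DetLE (fun i => (K i : Set (E d))) c} := by
  rw [← isOpen_compl_iff, isOpen_iff_mem_nhds]
  intro K hK
  simp only [DetLE, mem_compl_iff, mem_ofPred_eq, not_forall, not_le] at hK
  obtain ⟨v, hv, hc⟩ := hK
  have hopen : IsOpen {w : Fin d → E d | c < |dt w|} :=
    isOpen_lt continuous_const continuous_dt.abs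
  obtain ⟨U, hU, hUsub⟩ := isOpen_pi_iff'.1 hopen v hc
  have : ∀ᶠ L : Fin d → Compacts (E d) in 𝓝 K, ∀ i, ((L i : Set (E d)) ∩ U i).Nonempty := by
    rw [eventually_all]
    intro i
    have h1 : IsOpen {L : Fin d → Compacts (E d) | ((L i : Set (E d)) ∩ U i).Nonempty} :=
      (Compacts.isOpen_inter_nonempty_of_isOpen (hU i).1).preimage (cont_eval i)
    exact h1.mem_nhds ⟨v i, hv i, (hU i).2⟩
  filter_upwards [this] with L hL
  choose w hw1 hw2 using hL
  intro hcon
  have h1 := hcon w hw1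
  have h2 : c < |dt w| := hUsub (fun i _ => hw2 i)
  linarith

/-- the admissible tuples. -/
structure Good {d : ℕ} (R c : ℝ) (V : Fin d → ℝ≥0∞) (K : Fin d → Set (E d)) : Prop where
  compact : ∀ i, IsCompact (K i)
  convex : ∀ i, Convex ℝ (K i)
  symm : ∀ i, ∀ x ∈ K i, -x ∈ K i
  sub : ∀ i, K i ⊆ closedBall 0 R
  vol : ∀ i, V i ≤ volume (K i)
  det : DetLE K c

lemma Good.steiner {R c : ℝ} {V : Fin (n + 1) → ℝ≥0∞} {K : Fin (n + 1) → Set (E (n + 1))}
    (h : Good R c V K) : Good R c V (fun i => steiner (K i)) where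
  compact i := isCompact_steiner (h.compact i)
  convex i := convex_steiner (h.convex i)
  symm i := symm_steiner (h.symm i)
  sub i := steiner_subset_ball (h.sub i)
  vol i := (h.vol i).trans (volume_le_steiner (h.compact i) (h.convex i))
  det := h.det.steiner

lemma abs_det_isometry {d : ℕ} (U : E d ≃ₗᵢ[ℝ] E d) :
    |LinearMap.det (U.toLinearEquiv : E d →ₗ[ℝ] E d)| = 1 := by
  rw [← LinearMap.normDet_eq_abs_det]
  exact U.toLinearIsometry.normDet_eq_one

lemma volume_image_isometry {d : ℕ} (U : E d ≃ₗᵢ[ℝ] E d) (K : Set (E d)) :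
    volume (U '' K) = volume K := by
  have := Measure.addHaar_image_linearMap (volume : Measure (E d))
    (U.toLinearEquiv : E d →ₗ[ℝ] E d) K
  rw [abs_det_isometry] at this
  simpa using this

lemma wvol_image_isometry {d : ℕ} (R : ℝ) (U : E d ≃ₗᵢ[ℝ] E d) {K : Set (E d)}
    (hK : IsCompact K) : wvol R (U '' K) = wvol R K := by
  rw [wvol_apply R hK.measurableSet, wvol_apply R (hK.image U.continuous).measurableSet]
  have h := U.measurePreserving.setLIntegral_comp_emb
    U.toHomeomorph.measurableEmbedding (wt R) K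
  rw [← h]
  refine lintegral_congr fun x => ?_
  simp [wt]

lemma DetLE.image {d : ℕ} {K : Fin d → Set (E d)} {c : ℝ} (h : DetLE K c) (U : E d ≃ₗᵢ[ℝ] E d) :
    DetLE (fun i => U '' K i) c := by
  intro v hv
  choose w hw hwv using hv
  have : v = fun i => (U.toLinearEquiv : E d →ₗ[ℝ] E d) (w i) := funext fun i => (hwv i).symm
  rw [this, dt_comp, abs_mul, abs_det_isometry, one_mul]
  exact h w hw

lemma Good.image {d : ℕ} {R c : ℝ} {V : Fin d → ℝ≥0∞} {K : Fin d → Set (E d)}
    (h : Good R c V K) (U : E d ≃ₗᵢ[ℝ] E d) : Good R c V (fun i => U '' K i) where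
  compact i := (h.compact i).image U.continuous
  convex i := (h.convex i).linear_image (U.toLinearEquiv : E d →ₗ[ℝ] E d)
  symm i := by
    rintro _ ⟨x, hx, rfl⟩
    exact ⟨-x, h.symm i x hx, by simp⟩
  sub i := by
    rintro _ ⟨x, hx, rfl⟩
    have := h.sub i hx
    simpa using this
  vol i := by rw [volume_image_isometry]; exact h.vol i
  det := h.det.image U

lemma exists_maximizer {d : ℕ} {R c : ℝ} {V : Fin d → ℝ≥0∞} {K : Fin d → Set (E d)}
    (h : Good R c V K) : ∃ L, Good R c V L ∧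
      ∀ L', Good R c V L' → ∑ i, wvol R (L' i) ≤ ∑ i, wvol R (L i) := by
  set C : Set (Fin d → Compacts (E d)) := {L | Good R c V (fun i => (L i : Set (E d)))} with hC
  have hCne : C.Nonempty := ⟨fun i => ⟨K i, h.compact i⟩, h⟩
  have hCcl : IsClosed C := by
    have : C = (⋂ i, {L : Fin d → Compacts (E d) | Convex ℝ (L i : Set (E d))}) ∩
        (⋂ i, {L : Fin d → Compacts (E d) | ∀ x ∈ L i, -x ∈ L i}) ∩
        (⋂ i, {L : Fin d → Compacts (E d) | (L i : Set (E d)) ⊆ closedBall 0 R}) ∩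
        (⋂ i, {L : Fin d → Compacts (E d) | V i ≤ volume (L i : Set (E d))}) ∩
        {L : Fin d → Compacts (E d) | DetLE (fun i => (L i : Set (E d))) c} := by
      ext L
      simp only [hC, mem_ofPred_eq, mem_inter_iff, mem_iInter]
      constructor
      · intro h
        exact ⟨⟨⟨⟨h.convex, h.symm⟩, h.sub⟩, h.vol⟩, h.det⟩
      · rintro ⟨⟨⟨⟨h1, h2⟩, h3⟩, h4⟩, h5⟩
        exact ⟨fun i => (L i).isCompact, h1, h2, h3, h4, h5⟩
    rw [this]
    refine IsClosed.inter (IsClosed.inter (IsClosed.inter (IsClosed.inter ?_ ?_) ?_) ?_) ?_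
    · exact isClosed_iInter fun i => isClosed_convex.preimage (cont_eval i)
    · exact isClosed_iInter fun i => isClosed_symm.preimage (cont_eval i)
    · exact isClosed_iInter fun i =>
        (Compacts.isClosed_subsets_of_isClosed isClosed_closedBall).preimage (cont_eval i)
    · exact isClosed_iInter fun i =>
        ((usc_measure volume).isClosed_preimage (V i)).preimage (cont_eval i)
    · exact isClosed_detLE c
  have hCcomp : IsCompact C := by
    have hbig : IsCompact (Set.pi univ fun _ : Fin d =>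
        {L : Compacts (E d) | (L : Set (E d)) ⊆ closedBall 0 R}) :=
      isCompact_univ_pi fun _ => Compacts.isCompact_subsets_of_isCompact (isCompact_closedBall _ _)
    exact hbig.of_isClosed_subset hCcl fun L hL i _ => hL.sub i
  have husc : UpperSemicontinuous
      fun L : Fin d → Compacts (E d) => ∑ i, wvol R (L i : Set (E d)) :=
    upperSemicontinuous_sum fun i _ => (usc_measure (wvol R)).comp (cont_eval i)
  obtain ⟨L, hL, hmax⟩ := (husc.upperSemicontinuousOn C).exists_isMaxOn hCne hCcomp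
  refine ⟨fun i => L i, hL, fun L' hL' => ?_⟩
  exact hmax (a := fun i => ⟨L' i, hL'.compact i⟩) hL'

lemma maximizer_symm {R c : ℝ} {V : Fin (n + 1) → ℝ≥0∞} {L : Fin (n + 1) → Set (E (n + 1))}
    (hL : Good R c V L) (hmax : ∀ L', Good R c V L' → ∑ i, wvol R (L' i) ≤ ∑ i, wvol R (L i))
    (i : Fin (n + 1)) : ∀ x ∈ interior (L i), mk (-(x 0)) (tl x) ∈ L i := by
  refine symm_of_wvol_steiner_le (hL.compact i) (hL.convex i) (hL.sub i) ?_
  by_contra hlt
  push Not at hlt
  have h1 := hmax _ hL.steiner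
  have h2 : ∑ j, wvol R (L j) < ∑ j, wvol R (steiner (L j)) := by
    rw [← Finset.add_sum_erase _ _ (Finset.mem_univ i),
      ← Finset.add_sum_erase _ _ (Finset.mem_univ i)]
    refine ENNReal.add_lt_add_of_lt_of_le ?_ hlt ?_
    · exact (ENNReal.sum_lt_top.2 fun j _ => wvol_lt_top R (hL.compact j)).ne
    · exact Finset.sum_le_sum fun j _ => wvol_le_steiner (hL.compact j) (hL.convex j) (hL.sub j)
  exact absurd h1 (not_le.2 h2)

lemma exists_isometry_align (x y : E (n + 1)) :
    ∃ U : E (n + 1) ≃ₗᵢ[ℝ] E (n + 1), tl (U x) = tl (U y) := by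
  have hn : ‖x - y‖ = ‖mk ‖x - y‖ (0 : Fin n → ℝ)‖ := by
    have h := norm_mk_sq ‖x - y‖ (0 : Fin n → ℝ)
    simp only [Pi.zero_apply, ne_eq, OfNat.ofNat_ne_zero, not_false_eq_true, zero_pow,
      Finset.sum_const_zero, add_zero] at h
    exact ((pow_left_inj₀ (norm_nonneg _) (norm_nonneg _) two_ne_zero).1 h).symm
  refine ⟨Submodule.reflection (ℝ ∙ (x - y - mk ‖x - y‖ (0 : Fin n → ℝ)))ᗮ, ?_⟩
  have h := Submodule.reflection_sub hn
  rw [map_sub] at h
  funext j
  have h2 := congrArg (fun z : E (n + 1) => z j.succ) h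
  simp only [PiLp.sub_apply, mk_succ, Pi.zero_apply] at h2
  simp only [tl]
  linarith

lemma interior_image_isometry {d : ℕ} (U : E d ≃ₗᵢ[ℝ] E d) (K : Set (E d)) :
    U '' interior K = interior (U '' K) :=
  U.toHomeomorph.image_interior K

lemma maximizer_sphere {R c : ℝ} {V : Fin (n + 1) → ℝ≥0∞} {L : Fin (n + 1) → Set (E (n + 1))}
    (hL : Good R c V L) (hmax : ∀ L', Good R c V L' → ∑ i, wvol R (L' i) ≤ ∑ i, wvol R (L i))
    (i : Fin (n + 1)) : ∀ x ∈ interior (L i), ∀ y, ‖y‖ = ‖x‖ → y ∈ L i := by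
  intro x hx y hy
  obtain ⟨U, hU⟩ := exists_isometry_align x y
  have hL' := hL.image U
  have hmax' : ∀ L', Good R c V L' → ∑ i, wvol R (L' i) ≤ ∑ i, wvol R (U '' L i) := by
    intro L' h'
    refine (hmax L' h').trans (le_of_eq ?_)
    exact Finset.sum_congr rfl fun j _ => (wvol_image_isometry R U (hL.compact j)).symm
  have hx' : U x ∈ interior (U '' L i) := by
    rw [← interior_image_isometry]
    exact ⟨x, hx, rfl⟩
  have h1 := maximizer_symm hL' hmax' i _ hx'
  have hnx : ‖U x‖ ^ 2 = ‖U y‖ ^ 2 := by simp [hy]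
  rw [← mk_tl (U x), ← mk_tl (U y), norm_mk_sq, norm_mk_sq, hU] at hnx
  have h2 : (U x 0) ^ 2 = (U y 0) ^ 2 := by linarith
  rcases sq_eq_sq_iff_eq_or_eq_neg.1 h2 with h3 | h3
  · have : U x = U y := by rw [← mk_tl (U x), ← mk_tl (U y), h3, hU]
    rw [← U.injective this]
    exact interior_subset hx
  · rw [h3, neg_neg, hU, mk_tl] at h1
    obtain ⟨z, hz, hzy⟩ := h1
    rw [← U.injective hzy]
    exact hz

/-- the volume of the Euclidean unit ball. -/
noncomputable def om (d : ℕ) : ℝ≥0∞ := volume (closedBall (0 : E d) 1)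

lemma interior_nonempty_of_volume_pos {d : ℕ} {K : Set (E d)} (hc : Convex ℝ K)
    (hv : 0 < volume K) : (interior K).Nonempty := by
  by_contra h
  rw [not_nonempty_iff_eq_empty] at h
  have h1 : K ⊆ frontier K := by
    intro x hx
    rw [frontier, h, sdiff_empty]
    exact subset_closure hx
  have := measure_mono_null h1 (hc.addHaar_frontier volume)
  exact hv.ne' this

theorem multi_ineq {K : Fin (n + 1) → Set (E (n + 1))} {c : ℝ} (hK : ∀ i, IsCompact (K i))
    (hconv : ∀ i, Convex ℝ (K i)) (hsymm : ∀ i, ∀ x ∈ K i, -x ∈ K i) (hdet : DetLE K c) :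
    ∏ i, volume (K i) ≤ (om (n + 1) * ENNReal.ofReal c) ^ (n + 1) := by
  by_cases h0 : ∃ i, volume (K i) = 0
  · obtain ⟨i, hi⟩ := h0
    rw [Finset.prod_eq_zero (Finset.mem_univ i) hi]
    exact zero_le
  push Not at h0
  obtain ⟨R, hR⟩ := (isCompact_iUnion hK).isBounded.subset_closedBall (0 : E (n + 1))
  have hgood : Good R c (fun i => volume (K i)) K :=
    ⟨hK, hconv, hsymm, fun i => (subset_iUnion K i).trans hR, fun _ => le_rfl, hdet⟩
  obtain ⟨L, hL, hmax⟩ := exists_maximizer hgood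
  have hint : ∀ i, (interior (L i)).Nonempty := fun i =>
    interior_nonempty_of_volume_pos (hL.convex i)
      (lt_of_lt_of_le (pos_iff_ne_zero.2 (h0 i)) (hL.vol i))
  have hex : ∀ i, ∃ z ∈ L i, ∀ x ∈ L i, ‖x‖ ≤ ‖z‖ := fun i =>
    (hL.compact i).exists_isMaxOn ((hint i).mono interior_subset) continuous_norm.continuousOn
  choose z hz hzmax using hex
  have hmem : ∀ i, ‖z i‖ • EuclideanSpace.single i (1 : ℝ) ∈ L i := by
    intro i
    have hcl : IsClosed {x : E (n + 1) | ‖x‖ • EuclideanSpace.single i (1 : ℝ) ∈ L i} :=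
      (hL.compact i).isClosed.preimage
        (f := fun x : E (n + 1) => ‖x‖ • (EuclideanSpace.single i (1 : ℝ) : E (n + 1)))
        (by fun_prop)
    have hsub : interior (L i) ⊆ {x : E (n + 1) | ‖x‖ • EuclideanSpace.single i (1 : ℝ) ∈ L i} :=
      fun x hx => maximizer_sphere hL hmax i x hx _ (by simp [norm_smul])
    have h2 := closure_minimal hsub hcl
    rw [(hL.convex i).closure_interior_eq_closure_of_nonempty_interior (hint i)] at h2
    exact h2 (subset_closure (hz i))
  have hprod : ∏ i, ‖z i‖ ≤ c := by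
    have := hL.det _ hmem
    rw [dt_smul_basis] at this
    exact (le_abs_self _).trans this
  have hvol : ∀ i, volume (K i) ≤ om (n + 1) * ENNReal.ofReal ‖z i‖ ^ (n + 1) := by
    intro i
    refine (hL.vol i).trans ((measure_mono (t := closedBall 0 ‖z i‖) fun x hx => ?_).trans ?_)
    · exact mem_closedBall_zero_iff.2 (hzmax i x hx)
    · rw [Measure.addHaar_closedBall' volume _ (norm_nonneg _), mul_comm,
        ENNReal.ofReal_pow (norm_nonneg _)]
      simp [om]
  calc ∏ i, volume (K i) ≤ ∏ i, (om (n + 1) * ENNReal.ofReal ‖z i‖ ^ (n + 1)) :=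
        Finset.prod_le_prod' fun i _ => hvol i
    _ = (om (n + 1) * ENNReal.ofReal (∏ i, ‖z i‖)) ^ (n + 1) := by
        rw [Finset.prod_mul_distrib, Finset.prod_pow, mul_pow,
          ENNReal.ofReal_prod_of_nonneg fun i _ => norm_nonneg _]
        simp
    _ ≤ (om (n + 1) * ENNReal.ofReal c) ^ (n + 1) := by
        gcongr

end Pool.Agent.Lib.MP_77d991_gt
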