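import Mathlib

open MeasureTheory ProbabilityTheory Set
open scoped RealInnerProductSpace

/-! Gaussian toolbox: laws of linear images, moments. -/


namespace Pool.Agent.Lib.MP_77d991_gt.As

abbrev Eu (d : ℕ) := EuclideanSpace ℝ (Fin d)

section Gq
variable {Ω Ω' : Type*} [NormedAddCommGroup Ω] [NormedSpace ℝ Ω] [MeasurableSpace Ω]
  [NormedAddCommGroup Ω'] [NormedSpace ℝ Ω'] [MeasurableSpace Ω']

/-- `μ` is a centred Gaussian measure whose variance functional is `q`. -/
def Gq (μ : Measure Ω) (q : StrongDual ℝ Ω → ℝ) : Prop :=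
  ∀ L, charFunDual μ L = Complex.exp (-(q L : ℂ) / 2)

lemma Gq.prod {μ : Measure Ω} {ν : Measure Ω'} [SFinite μ] [SFinite ν] {q q'}
    (h : Gq μ q) (h' : Gq ν q') :
    Gq (μ.prod ν) (fun L => q (L.comp (.inl ℝ Ω Ω')) + q' (L.comp (.inr ℝ Ω Ω'))) := by
  intro L
  rw [charFunDual_prod, h, h', ← Complex.exp_add]
  congr 1
  push_cast
  ring

lemma Gq.map [OpensMeasurableSpace Ω] [BorelSpace Ω'] {μ : Measure Ω} {q} (h : Gq μ q)
    (A : Ω →L[ℝ] Ω') : Gq (μ.map A) (fun L => q (L.comp A)) := by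
  intro L
  rw [charFunDual_map, h]

lemma Gq.ext [BorelSpace Ω] [SecondCountableTopology Ω] [CompleteSpace Ω] {μ ν : Measure Ω}
    [IsFiniteMeasure μ] [IsFiniteMeasure ν] {q q'} (h : Gq μ q) (h' : Gq ν q')
    (hq : ∀ L, q L = q' L) : μ = ν := by
  apply Measure.ext_of_charFunDual
  funext L
  rw [h, h', hq]

end Gq

section G
variable {E : Type*} [NormedAddCommGroup E] [InnerProductSpace ℝ E] [FiniteDimensional ℝ E]
  [MeasurableSpace E] [BorelSpace E]

lemma Gq_std : Gq (stdGaussian E) (fun L => ‖L‖ ^ 2) := by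
  intro L
  rw [charFunDual_stdGaussian]
  push_cast
  rfl

variable {E' E'' : Type*} [NormedAddCommGroup E'] [InnerProductSpace ℝ E'] [FiniteDimensional ℝ E']
  [MeasurableSpace E'] [BorelSpace E']
  [NormedAddCommGroup E''] [InnerProductSpace ℝ E''] [FiniteDimensional ℝ E'']
  [MeasurableSpace E''] [BorelSpace E'']
  {F : Type*} [NormedAddCommGroup F] [NormedSpace ℝ F] [FiniteDimensional ℝ F]
  [MeasurableSpace F] [BorelSpace F]

/-- two linear images of standard Gaussians with the same covariance have the same law. -/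
lemma law1 (A : E →L[ℝ] F) (B : E' →L[ℝ] F)
    (h : ∀ L : StrongDual ℝ F, ‖L.comp A‖ ^ 2 = ‖L.comp B‖ ^ 2) :
    (stdGaussian E).map A = (stdGaussian E').map B := by
  have : CompleteSpace F := FiniteDimensional.complete ℝ F
  exact (Gq_std.map A).ext (Gq_std.map B) h

/-- splitting a Gaussian vector into a sum of two independent ones. -/
lemma law2 (A : E →L[ℝ] F) (B : E' →L[ℝ] F) (C : E'' →L[ℝ] F)
    (h : ∀ L : StrongDual ℝ F, ‖L.comp A‖ ^ 2 = ‖L.comp B‖ ^ 2 + ‖L.comp C‖ ^ 2) :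
    (stdGaussian E).map A =
      ((stdGaussian E').prod (stdGaussian E'')).map (fun p => B p.1 + C p.2) := by
  have : CompleteSpace F := FiniteDimensional.complete ℝ F
  have h2 := (Gq_std.prod Gq_std (μ := stdGaussian E') (ν := stdGaussian E'')).map (B.coprod C)
  refine (Gq_std.map A).ext h2 fun L => ?_
  rw [h L]
  congr 3 <;> ext y <;> simp

/-- the fourth moment of a standard real Gaussian. -/
noncomputable def m4 : ℝ := ∫ x, x ^ 4 ∂(gaussianReal 0 1)

lemma integrable_norm_pow (k : ℕ) : Integrable (fun g : E => ‖g‖ ^ k) (stdGaussian E) := by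
  rcases Nat.eq_zero_or_pos k with rfl | hk
  · simp
  have := IsGaussian.memLp_id (stdGaussian E) (k : ENNReal) (by simp)
  simpa using this.integrable_norm_pow hk.ne'

/-- anything measurable with polynomial growth is integrable. -/
lemma integrable_of_poly {F : Type*} [NormedAddCommGroup F] {f : E → F}
    (hf : AEStronglyMeasurable f (stdGaussian E)) (C : ℝ) (k : ℕ)
    (h : ∀ g, ‖f g‖ ≤ C * (1 + ‖g‖ ^ k)) : Integrable f (stdGaussian E) :=
  Integrable.mono' (((integrable_const 1).add (integrable_norm_pow k)).const_mul C) hf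
    (Filter.Eventually.of_forall h)

lemma map_inner (w : E) :
    (stdGaussian E).map (fun g => ⟪w, g⟫) = gaussianReal 0 (‖w‖ ^ 2).toNNReal := by
  have h := IsGaussian.map_eq_gaussianReal (μ := stdGaussian E) (innerSL ℝ w)
  rw [integral_strongDual_stdGaussian, variance_dual_stdGaussian, innerSL_apply_norm] at h
  exact h

lemma int_inner (w : E) : ∫ g, ⟪w, g⟫ ∂stdGaussian E = 0 :=
  integral_strongDual_stdGaussian (innerSL ℝ w)

lemma int_dual_sq (L : StrongDual ℝ E) : ∫ g, (L g) ^ 2 ∂stdGaussian E = ‖L‖ ^ 2 := by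
  rw [← variance_dual_stdGaussian, variance_of_integral_eq_zero L.continuous.aemeasurable
    (integral_strongDual_stdGaussian L)]

lemma int_inner_sq (w : E) : ∫ g, ⟪w, g⟫ ^ 2 ∂stdGaussian E = ‖w‖ ^ 2 := by
  simpa using int_dual_sq (innerSL ℝ w)

lemma integrable_inner_pow (w : E) (k : ℕ) :
    Integrable (fun g : E => ⟪w, g⟫ ^ k) (stdGaussian E) := by
  refine Integrable.mono' ((integrable_norm_pow k).const_mul (‖w‖ ^ k)) (by fun_prop)
    (Filter.Eventually.of_forall fun g => ?_)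
  rw [norm_pow, ← mul_pow]
  exact pow_le_pow_left₀ (norm_nonneg _) (norm_inner_le_norm _ _) _

lemma integrable_inner_mul (w w' : E) :
    Integrable (fun g : E => ⟪w, g⟫ * ⟪w', g⟫) (stdGaussian E) := by
  refine Integrable.mono' ((integrable_norm_pow 2).const_mul (‖w‖ * ‖w'‖)) (by fun_prop)
    (Filter.Eventually.of_forall fun g => ?_)
  rw [norm_mul]
  calc _ ≤ (‖w‖ * ‖g‖) * (‖w'‖ * ‖g‖) :=
        mul_le_mul (norm_inner_le_norm _ _) (norm_inner_le_norm _ _) (norm_nonneg _) (by positivity)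
    _ = _ := by ring

lemma int_inner_mul (w w' : E) : ∫ g, ⟪w, g⟫ * ⟪w', g⟫ ∂stdGaussian E = ⟪w, w'⟫ := by
  have h1 := int_inner_sq (w + w')
  have h2 := int_inner_sq (w - w')
  have e : (fun g : E => ⟪w, g⟫ * ⟪w', g⟫) =
      fun g => (1 / 4 : ℝ) * (⟪w + w', g⟫ ^ 2 - ⟪w - w', g⟫ ^ 2) := by
    funext g
    rw [inner_add_left, inner_sub_left]
    ring
  rw [e, integral_const_mul, integral_sub (integrable_inner_pow _ 2) (integrable_inner_pow _ 2),
    h1, h2, norm_add_sq_real, norm_sub_sq_real]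
  ring

lemma int_inner_four (w : E) : ∫ g, ⟪w, g⟫ ^ 4 ∂stdGaussian E = m4 * ‖w‖ ^ 4 := by
  have h1 : ∫ g, ⟪w, g⟫ ^ 4 ∂stdGaussian E =
      ∫ x, x ^ 4 ∂((stdGaussian E).map (fun g => ⟪w, g⟫)) := by
    rw [integral_map (by fun_prop) (by fun_prop)]
  have h2 : gaussianReal 0 (‖w‖ ^ 2).toNNReal = (gaussianReal 0 1).map (fun x => ‖w‖ * x) := by
    rw [gaussianReal_map_const_mul]
    congr 1
    · simp
    · ext
      simp
  rw [h1, map_inner, h2, integral_map (by fun_prop) (by fun_prop), m4, ← integral_mul_const]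
  congr 1
  funext x
  ring

lemma one_le_m4 : 1 ≤ m4 := by
  have hi : ∀ k : ℕ, Integrable (fun x : ℝ => x ^ k) (gaussianReal 0 1) := fun k => by
    rcases Nat.eq_zero_or_pos k with rfl | hk
    · simp
    have := (IsGaussian.memLp_id (gaussianReal 0 1) (k : ENNReal) (by simp)).integrable_norm_pow
      hk.ne'
    refine this.mono' (by fun_prop) (Filter.Eventually.of_forall fun x => ?_)
    simp
  have h2 : ∫ x, x ^ 2 ∂(gaussianReal 0 1) = 1 := by
    have := variance_id_gaussianReal (μ := 0) (v := 1)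
    rw [variance_of_integral_eq_zero (by fun_prop) (by simp)] at this
    simpa using this
  have : ∫ x, (2 * x ^ 2 - 1) ∂(gaussianReal 0 1) ≤ m4 := by
    refine integral_mono (((hi 2).const_mul 2).sub (integrable_const 1)) (hi 4) fun x => ?_
    have := sq_nonneg (x ^ 2 - 1)
    simp only
    nlinarith
  rw [integral_sub ((hi 2).const_mul 2) (integrable_const 1), integral_const_mul, h2] at this
  simp at this
  linarith

omit [MeasurableSpace E'] [BorelSpace E'] in
lemma int_norm_sq_map {ι : Type*} [Fintype ι] (b : OrthonormalBasis ι ℝ E) (A : E →L[ℝ] E') :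
    ∫ g, ‖A g‖ ^ 2 ∂stdGaussian E = ∑ i, ‖A (b i)‖ ^ 2 := by
  let e := stdOrthonormalBasis ℝ E'
  have h1 : ∀ y : E', ‖y‖ ^ 2 = ∑ k, ⟪e k, y⟫ ^ 2 := fun y => (e.sum_sq_inner_right y).symm
  simp_rw [h1]
  rw [integral_finsetSum, Finset.sum_comm]
  · refine Finset.sum_congr rfl fun k _ => ?_
    have := int_dual_sq ((innerSL ℝ (e k)).comp A)
    rw [b.norm_dual] at this
    simpa using this
  · intro k _
    have := (IsGaussian.memLp_dual (stdGaussian E) ((innerSL ℝ (e k)).comp A) 2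
      (by simp)).integrable_sq
    simpa using this

lemma int_norm_sq : ∫ g, ‖g‖ ^ 2 ∂stdGaussian E = Module.finrank ℝ E := by
  have := int_norm_sq_map (stdOrthonormalBasis ℝ E) (ContinuousLinearMap.id ℝ E)
  simpa using this

lemma int_norm_four_le :
    ∫ g, ‖g‖ ^ 4 ∂stdGaussian E ≤ m4 * (Module.finrank ℝ E : ℝ) ^ 2 := by
  let e := stdOrthonormalBasis ℝ E
  have h1 : ∀ y : E, ‖y‖ ^ 4 ≤ (Module.finrank ℝ E : ℝ) * ∑ k, ⟪e k, y⟫ ^ 4 := fun y => by
    have h := sq_sum_le_card_mul_sum_sq (s := Finset.univ) (f := fun k => ⟪e k, y⟫ ^ 2)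
    rw [e.sum_sq_inner_right y] at h
    simp only [Finset.card_univ, Fintype.card_fin, ← pow_mul] at h
    exact h
  calc ∫ g, ‖g‖ ^ 4 ∂stdGaussian E
      ≤ ∫ g, (Module.finrank ℝ E : ℝ) * ∑ k, ⟪e k, g⟫ ^ 4 ∂stdGaussian E :=
        integral_mono (integrable_norm_pow 4)
          ((integrable_finsetSum _ fun k _ => integrable_inner_pow _ 4).const_mul _) h1
    _ = _ := by
        rw [integral_const_mul, integral_finsetSum _ fun k _ => integrable_inner_pow _ 4]
        simp [int_inner_four]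
        ring

lemma integral_comp_iso {F : Type*} [NormedAddCommGroup F] [NormedSpace ℝ F]
    (O : E ≃ₗᵢ[ℝ] E') (f : E' → F) :
    ∫ g, f (O g) ∂stdGaussian E = ∫ g, f g ∂stdGaussian E' := by
  rw [← stdGaussian_map O]
  exact (integral_map_equiv O.toHomeomorph.toMeasurableEquiv f).symm

lemma integral_comp_neg {F : Type*} [NormedAddCommGroup F] [NormedSpace ℝ F] (f : E → F) :
    ∫ g, f (-g) ∂stdGaussian E = ∫ g, f g ∂stdGaussian E :=
  integral_comp_iso (LinearIsometryEquiv.neg ℝ) f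

end G

end Pool.Agent.Lib.MP_77d991_gt.As

namespace Pool.Agent.Lib.MP_77d991_gt.As

variable {E : Type*} [NormedAddCommGroup E] [InnerProductSpace ℝ E] [FiniteDimensional ℝ E]
  [MeasurableSpace E] [BorelSpace E]

/-- `h` is a norm-like function with a measurable choice `x y` of a norming vector. -/
structure Sel (h : E → ℝ) (x : E → E) (R : ℝ) : Prop where
  meas : Measurable x
  bdd : ∀ y, ‖x y‖ ≤ R
  le : ∀ y w, ⟪x y, w⟫ ≤ h w
  eq : ∀ y, ⟪x y, y⟫ = h y
  hom : ∀ (c : ℝ) (y : E), 0 < c → x (c • y) = x y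
  odd : ∀ y, x (-y) = -x y

/-- `E[x(g) g^T] = a I`. -/
def Iso (x : E → E) (a : ℝ) : Prop := ∀ w : E, ∫ y, ⟪y, w⟫ • x y ∂stdGaussian E = a • w

/-- the norm of the polytope cut out by the strips `|⟪v i, y⟫| ≤ 1`. -/
noncomputable def hV {n : ℕ} (v : Fin (n + 1) → E) (y : E) : ℝ := ⨆ i, |⟪v i, y⟫|

/-- the non-linear part of `x`. -/
def Nn (x : E → E) (a : ℝ) (y : E) : E := x y - a • y

/-- normalisation of a vector. -/
noncomputable def nz {r : ℕ} (s : Eu r) : Eu r := ‖s‖⁻¹ • s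

/-- the space of `r`-tuples of vectors (matrices with the Hilbert-Schmidt norm). -/
abbrev Mx (r : ℕ) (E : Type*) := PiLp 2 (fun _ : Fin r => E)

/-- the linear map with columns `Γ j`. -/
noncomputable def app {r : ℕ} (Γ : Mx r E) : Eu r →L[ℝ] E :=
  ∑ j, (EuclideanSpace.proj j : Eu r →L[ℝ] ℝ).smulRight (Γ j)

omit [FiniteDimensional ℝ E] [MeasurableSpace E] [BorelSpace E] in
lemma app_apply {r : ℕ} (Γ : Mx r E) (s : Eu r) : app Γ s = ∑ j, s j • Γ j := by
  simp [app]

omit [FiniteDimensional ℝ E] [MeasurableSpace E] [BorelSpace E] in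
lemma continuous_app {r : ℕ} : Continuous fun p : Mx r E × Eu r => app p.1 p.2 := by
  simp only [app_apply]
  fun_prop

lemma measurable_nz {r : ℕ} : Measurable (nz : Eu r → Eu r) := by
  unfold nz
  fun_prop

/-- squared Hilbert-Schmidt norm of `E_s [N(Γ s/|s|) s^T]`, as a double integral. -/
noncomputable def hsXi {r : ℕ} (x : E → E) (a : ℝ) (Γ : Mx r E) : ℝ :=
  ∫ p, ⟪p.1, p.2⟫ * ⟪Nn x a (app Γ (nz p.1)), Nn x a (app Γ (nz p.2))⟫
    ∂(stdGaussian (Eu r)).prod (stdGaussian (Eu r))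

/-- squared Hilbert-Schmidt norm of `Γ^T Γ`. -/
noncomputable def Q4 {r : ℕ} (Γ : Mx r E) : ℝ := ∑ i, ∑ j, ⟪Γ i, Γ j⟫ ^ 2

/-- `H` with the `i`-th singular direction damped by the factor `c i`. -/
noncomputable def damp {r : ℕ} (b : OrthonormalBasis (Fin r) ℝ (Eu r)) (H : Eu r →L[ℝ] E)
    (c : Fin r → ℝ) : Eu r →L[ℝ] E :=
  ∑ i, (innerSL ℝ (b i)).smulRight (c i • H (b i))

omit [FiniteDimensional ℝ E] [MeasurableSpace E] [BorelSpace E] in
lemma damp_apply {r : ℕ} (b : OrthonormalBasis (Fin r) ℝ (Eu r)) (H : Eu r →L[ℝ] E)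
    (c : Fin r → ℝ) (s : Eu r) : damp b H c s = ∑ i, ⟪b i, s⟫ • c i • H (b i) := by
  simp [damp]

/-- determinant of the matrix of inner products. -/
noncomputable def gd {n : ℕ} (θ X : Fin n → E) : ℝ := (Matrix.of fun i l => ⟪θ i, X l⟫).det

namespace Sel
variable {h : E → ℝ} {x : E → E} {R : ℝ}

omit [FiniteDimensional ℝ E] [BorelSpace E] in
lemma R_nonneg (S : Sel h x R) : 0 ≤ R := (norm_nonneg _).trans (S.bdd 0)

omit [FiniteDimensional ℝ E] [BorelSpace E] in
lemma h_neg (S : Sel h x R) (y : E) : h (-y) = h y := by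
  rw [← S.eq, S.odd, inner_neg_neg, S.eq]

omit [FiniteDimensional ℝ E] [BorelSpace E] in
lemma abs_le (S : Sel h x R) (y w : E) : |⟪x y, w⟫| ≤ h w := by
  refine _root_.abs_le.2 ⟨?_, S.le y w⟩
  have := S.le y (-w)
  rw [inner_neg_right, S.h_neg] at this
  linarith

omit [FiniteDimensional ℝ E] [BorelSpace E] in
lemma h_nonneg (S : Sel h x R) (y : E) : 0 ≤ h y := (abs_nonneg _).trans (S.abs_le y y)

omit [FiniteDimensional ℝ E] [BorelSpace E] in
lemma h_add (S : Sel h x R) (y w : E) : h (y + w) ≤ h y + h w := by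
  rw [← S.eq, inner_add_right]
  exact add_le_add (S.le _ _) (S.le _ _)

omit [FiniteDimensional ℝ E] [BorelSpace E] in
lemma h_le (S : Sel h x R) (y : E) : h y ≤ R * ‖y‖ := by
  rw [← S.eq]
  exact (real_inner_le_norm _ _).trans (mul_le_mul_of_nonneg_right (S.bdd y) (norm_nonneg _))

omit [FiniteDimensional ℝ E] [BorelSpace E] in
lemma h_zero (S : Sel h x R) : h 0 = 0 := by rw [← S.eq, inner_zero_right]

omit [FiniteDimensional ℝ E] [BorelSpace E] in
lemma h_smul (S : Sel h x R) (c : ℝ) (y : E) : h (c • y) = |c| * h y := by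
  have key : ∀ (c : ℝ) (y : E), 0 < c → h (c • y) = c * h y := fun c y hc => by
    rw [← S.eq, S.hom c y hc, inner_smul_right, S.eq]
  rcases lt_trichotomy c 0 with hc | rfl | hc
  · rw [← S.h_neg, ← neg_smul, key _ _ (neg_pos.2 hc), abs_of_neg hc]
  · simp [S.h_zero]
  · rw [key _ _ hc, abs_of_pos hc]

omit [FiniteDimensional ℝ E] [BorelSpace E] in
lemma sub_le (S : Sel h x R) (y w : E) : h y - h w ≤ ⟪x y, y - w⟫ := by
  rw [inner_sub_right, S.eq]
  linarith [S.le y w]

omit [FiniteDimensional ℝ E] [BorelSpace E] in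
lemma lip (S : Sel h x R) : LipschitzWith R.toNNReal h := by
  refine LipschitzWith.of_le_add_mul' R fun y w => ?_
  have h1 := S.h_add (y - w) w
  have h2 := S.h_le (y - w)
  rw [sub_add_cancel] at h1
  rw [dist_eq_norm]
  linarith

omit [FiniteDimensional ℝ E] [BorelSpace E] in
lemma cont (S : Sel h x R) : Continuous h := S.lip.continuous

omit [FiniteDimensional ℝ E] [BorelSpace E] in
lemma mid (S : Sel h x R) (y w : E) : 2 * h y ≤ h (y + w) + h (y - w) := by
  have h1 := S.h_add (y + w) (y - w)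
  have h2 := S.h_smul 2 y
  rw [show y + w + (y - w) = (2 : ℝ) • y by module, h2, abs_two] at h1
  exact h1

variable {E' : Type*} [NormedAddCommGroup E'] [InnerProductSpace ℝ E'] [FiniteDimensional ℝ E']
  [MeasurableSpace E'] [BorelSpace E']

omit [FiniteDimensional ℝ E] [BorelSpace E] in
lemma integrable_aff (S : Sel h x R) (A : E' →L[ℝ] E) (y : E) :
    Integrable (fun s => h (A s + y)) (stdGaussian E') := by
  refine Integrable.mono' (((integrable_norm_pow 1).const_mul (R * ‖A‖)).add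
    (integrable_const (R * ‖y‖))) (S.cont.comp (by fun_prop)).aestronglyMeasurable
    (Filter.Eventually.of_forall fun s => ?_)
  rw [Real.norm_of_nonneg (S.h_nonneg _)]
  have h1 := S.h_add (A s) y
  have h2 := S.h_le (A s)
  have h3 := S.h_le y
  have h4 := mul_le_mul_of_nonneg_left (A.le_opNorm s) S.R_nonneg
  simp only [Pi.add_apply, pow_one]
  linarith

omit [FiniteDimensional ℝ E] [BorelSpace E] in
lemma integrable_lin (S : Sel h x R) (A : E' →L[ℝ] E) :
    Integrable (fun s => h (A s)) (stdGaussian E') := by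
  simpa using S.integrable_aff A 0

omit [FiniteDimensional ℝ E] [BorelSpace E] in
/-- translating a centred Gaussian increases the mean of a norm. -/
lemma shift_ge (S : Sel h x R) (A : E' →L[ℝ] E) (y : E) :
    ∫ s, h (A s) ∂stdGaussian E' ≤ ∫ s, h (A s + y) ∂stdGaussian E' := by
  have e : ∫ s, h (A s - y) ∂stdGaussian E' = ∫ s, h (A s + y) ∂stdGaussian E' := by
    rw [← integral_comp_neg (fun s => h (A s + y))]
    congr 1
    funext s
    rw [← S.h_neg, map_neg]
    congr 1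
    abel
  have i2 : Integrable (fun s => h (A s - y)) (stdGaussian E') := by
    simpa [sub_eq_add_neg] using S.integrable_aff A (-y)
  have := integral_mono ((S.integrable_lin A).const_mul 2) ((S.integrable_aff A y).add i2)
    fun s => S.mid (A s) y
  rw [integral_const_mul, integral_add' (S.integrable_aff A y) i2, e] at this
  linarith

omit [FiniteDimensional ℝ E] [BorelSpace E] in
lemma shift_ge' (S : Sel h x R) (A : E' →L[ℝ] E) (y : E) :
    h y ≤ ∫ s, h (A s + y) ∂stdGaussian E' := by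
  have e : ∫ s, h (y - A s) ∂stdGaussian E' = ∫ s, h (A s + y) ∂stdGaussian E' := by
    rw [← integral_comp_neg (fun s => h (A s + y))]
    congr 1
    funext s
    rw [map_neg]
    congr 1
    abel
  have i2 : Integrable (fun s => h (y - A s)) (stdGaussian E') := by
    have := S.integrable_aff (-A) y
    refine this.congr (Filter.Eventually.of_forall fun s => ?_)
    simp only [neg_apply]
    congr 1
    abel
  have := integral_mono (integrable_const (2 * h y)) ((S.integrable_aff A y).add i2)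
    fun s => by simpa [add_comm] using S.mid y (A s)
  rw [integral_add' (S.integrable_aff A y) i2, e] at this
  simp at this
  linarith

lemma integrable_smul (S : Sel h x R) (w : E) :
    Integrable (fun y => ⟪y, w⟫ • x y) (stdGaussian E) := by
  refine Integrable.mono' ((integrable_norm_pow 1).const_mul (‖w‖ * R))
    (Measurable.aestronglyMeasurable (by have := S.meas; fun_prop))
    (Filter.Eventually.of_forall fun y => ?_)
  rw [norm_smul, pow_one]
  calc _ ≤ (‖y‖ * ‖w‖) * R :=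
        mul_le_mul (norm_inner_le_norm _ _) (S.bdd y) (norm_nonneg _) (by positivity)
    _ = _ := by ring

/-- `E ⟪x(g), T g⟫ = a tr T`. -/
lemma int_inner_map {ι : Type*} [Fintype ι] (S : Sel h x R) {a : ℝ} (hI : Iso x a)
    (b : OrthonormalBasis ι ℝ E) (T : E →L[ℝ] E) :
    ∫ y, ⟪x y, T y⟫ ∂stdGaussian E = a * ∑ i, ⟪b i, T (b i)⟫ := by
  have e : ∀ y, ⟪x y, T y⟫ = ∑ i, ⟪T (b i), ⟪y, b i⟫ • x y⟫ := fun y => by
    have e1 : T y = T (∑ i, ⟪b i, y⟫ • b i) := by rw [b.sum_repr']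
    rw [e1, map_sum, inner_sum]
    refine Finset.sum_congr rfl fun i _ => ?_
    rw [map_smul, inner_smul_right, inner_smul_right, real_inner_comm y, real_inner_comm (x y)]
  simp_rw [e]
  rw [integral_finsetSum _ fun i _ => (S.integrable_smul (b i)).const_inner _, Finset.mul_sum]
  refine Finset.sum_congr rfl fun i _ => ?_
  rw [integral_inner (S.integrable_smul (b i)), hI, inner_smul_right, real_inner_comm]

lemma integrable_inner_map (S : Sel h x R) (T : E →L[ℝ] E) :
    Integrable (fun y => ⟪x y, T y⟫) (stdGaussian E) := by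
  refine Integrable.mono' (S.integrable_lin T)
    (Measurable.aestronglyMeasurable (by have := S.meas; fun_prop))
    (Filter.Eventually.of_forall fun y => S.abs_le _ _)

/-- the trace bound `a tr T ≤ E h(T g)`. -/
lemma trace_le {ι : Type*} [Fintype ι] (S : Sel h x R) {a : ℝ} (hI : Iso x a)
    (b : OrthonormalBasis ι ℝ E) (T : E →L[ℝ] E) :
    a * ∑ i, ⟪b i, T (b i)⟫ ≤ ∫ y, h (T y) ∂stdGaussian E := by
  rw [← S.int_inner_map hI b T]
  exact integral_mono (S.integrable_inner_map T) (S.integrable_lin T) fun y => S.le _ _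

lemma mean (S : Sel h x R) {a : ℝ} (hI : Iso x a) :
    ∫ y, h y ∂stdGaussian E = a * Module.finrank ℝ E := by
  have := S.int_inner_map hI (stdOrthonormalBasis ℝ E) (ContinuousLinearMap.id ℝ E)
  simpa [S.eq] using this

end Sel

end Pool.Agent.Lib.MP_77d991_gt.As

namespace Pool.Agent.Lib.MP_77d991_gt.As

variable {E : Type*} [NormedAddCommGroup E] [InnerProductSpace ℝ E] [FiniteDimensional ℝ E]
  [MeasurableSpace E] [BorelSpace E]

/-- the majorant of the squared one-step increment. -/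
noncomputable def asvar_V (ξ : E → E) (L a b : ℝ) (p : E × E) : ℝ :=
  2 * a ^ 2 * L ^ 2 * ‖p.1‖ ^ 2 + 2 * b ^ 2 * ⟪ξ p.1, p.2⟫ ^ 2

lemma asvar_int_inner {ξ : E → E} {L : ℝ} (hξ : Measurable ξ) (hb : ∀ s, ‖ξ s‖ ≤ L) :
    Integrable (fun p : E × E => ⟪ξ p.1, p.2⟫ ^ 2) ((stdGaussian E).prod (stdGaussian E)) := by
  refine Integrable.mono' (((integrable_norm_pow 2).comp_snd (stdGaussian E)).const_mul (L ^ 2))
    (Measurable.aestronglyMeasurable (by fun_prop)) (Filter.Eventually.of_forall fun p => ?_)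
  rw [norm_pow, ← mul_pow]
  exact pow_le_pow_left₀ (norm_nonneg _) ((norm_inner_le_norm _ _).trans
    (mul_le_mul_of_nonneg_right (hb _) (norm_nonneg _))) _

lemma asvar_V_integrable {ξ : E → E} {L : ℝ} (hξ : Measurable ξ) (hb : ∀ s, ‖ξ s‖ ≤ L) (a b : ℝ) :
    Integrable (asvar_V ξ L a b) ((stdGaussian E).prod (stdGaussian E)) :=
  (((integrable_norm_pow 2).comp_fst (stdGaussian E)).const_mul _).add
    ((asvar_int_inner hξ hb).const_mul _)

lemma asvar_V_integral {ξ : E → E} {L : ℝ} (hξ : Measurable ξ) (hb : ∀ s, ‖ξ s‖ ≤ L) (a b : ℝ) :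
    ∫ p, asvar_V ξ L a b p ∂(stdGaussian E).prod (stdGaussian E)
      ≤ 2 * a ^ 2 * L ^ 2 * Module.finrank ℝ E + 2 * b ^ 2 * L ^ 2 := by
  unfold asvar_V
  rw [integral_add (((integrable_norm_pow 2).comp_fst (stdGaussian E)).const_mul _)
    ((asvar_int_inner hξ hb).const_mul _), integral_const_mul, integral_const_mul,
    integral_fun_fst (fun y : E => ‖y‖ ^ 2), int_norm_sq, integral_prod _ (asvar_int_inner hξ hb)]
  simp only [int_inner_sq, probReal_univ, one_smul]
  have h1 : ∫ y, ‖ξ y‖ ^ 2 ∂stdGaussian E ≤ ∫ _y, L ^ 2 ∂stdGaussian E :=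
    integral_mono_of_nonneg (Filter.Eventually.of_forall fun y => by positivity)
      (integrable_const _) (Filter.Eventually.of_forall fun y =>
        pow_le_pow_left₀ (norm_nonneg _) (hb y) 2)
  rw [integral_const, probReal_univ, one_smul] at h1
  exact add_le_add le_rfl (mul_le_mul_of_nonneg_left h1 (by positivity))

omit [FiniteDimensional ℝ E] [MeasurableSpace E] [BorelSpace E] in
lemma asvar_point (f : E → ℝ) (ξ : E → E) (L : ℝ) (hb : ∀ s, ‖ξ s‖ ≤ L)
    (hc : ∀ s s', f s - f s' ≤ ⟪ξ s, s - s'⟫) (n : ℕ) (Δ : ℝ) (hΔ : n * Δ = Real.pi / 2)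
    (p : E × E) : max (f p.1 - f p.2) 0 ^ 2 ≤ n * ∑ j ∈ Finset.range n,
      asvar_V ξ L (1 - Real.cos Δ) (Real.sin Δ) (ContinuousLinearMap.rotation (j * Δ) p) := by
  set g : ℕ → E := fun j => (ContinuousLinearMap.rotation (j * Δ) p).1 with hg
  set k : ℕ → E := fun j => (ContinuousLinearMap.rotation (j * Δ) p).2 with hk
  set u : ℕ → ℝ := fun j =>
    (1 - Real.cos Δ) * ⟪ξ (g j), g j⟫ - Real.sin Δ * ⟪ξ (g j), k j⟫ with hu
  have g0 : g 0 = p.1 := by simp [hg, ContinuousLinearMap.rotation_apply]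
  have gn : g n = p.2 := by simp [hg, hΔ, ContinuousLinearMap.rotation_apply]
  have gs : ∀ j, g j - g (j + 1) = (1 - Real.cos Δ) • g j - Real.sin Δ • k j := by
    intro j
    simp only [hg, hk, ContinuousLinearMap.rotation_apply, Nat.cast_succ, add_mul, one_mul,
      Real.cos_add, Real.sin_add]
    module
  have h1 : f p.1 - f p.2 ≤ ∑ j ∈ Finset.range n, |u j| := by
    rw [← g0, ← gn, ← Finset.sum_range_sub' (fun j => f (g j)) n]
    refine Finset.sum_le_sum fun j _ => (hc _ _).trans (le_trans (le_of_eq ?_) (le_abs_self _))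
    rw [gs, inner_sub_right, inner_smul_right, inner_smul_right]
  have h2 : max (f p.1 - f p.2) 0 ^ 2 ≤ (∑ j ∈ Finset.range n, |u j|) ^ 2 :=
    pow_le_pow_left₀ (le_max_right _ _)
      (max_le h1 (Finset.sum_nonneg fun j _ => abs_nonneg _)) 2
  have h3 := sq_sum_le_card_mul_sum_sq (s := Finset.range n) (f := fun j => |u j|)
  rw [Finset.card_range] at h3
  refine h2.trans (h3.trans (mul_le_mul_of_nonneg_left (Finset.sum_le_sum fun j _ => ?_)
    (Nat.cast_nonneg n)))
  have h4 : ⟪ξ (g j), g j⟫ ^ 2 ≤ L ^ 2 * ‖g j‖ ^ 2 := by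
    rw [← sq_abs, ← mul_pow]
    exact pow_le_pow_left₀ (abs_nonneg _) ((abs_real_inner_le_norm _ _).trans
      (mul_le_mul_of_nonneg_right (hb _) (norm_nonneg _))) _
  have h5 := mul_le_mul_of_nonneg_left h4 (sq_nonneg (1 - Real.cos Δ))
  change |u j| ^ 2 ≤ 2 * (1 - Real.cos Δ) ^ 2 * L ^ 2 * ‖g j‖ ^ 2
    + 2 * Real.sin Δ ^ 2 * ⟪ξ (g j), k j⟫ ^ 2
  rw [sq_abs, hu]
  nlinarith [sq_nonneg ((1 - Real.cos Δ) * ⟪ξ (g j), g j⟫ + Real.sin Δ * ⟪ξ (g j), k j⟫)]

lemma asvar_pos_part (f : E → ℝ) (ξ : E → E) (L : ℝ) (hξ : Measurable ξ) (hb : ∀ s, ‖ξ s‖ ≤ L)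
    (hc : ∀ s s', f s - f s' ≤ ⟪ξ s, s - s'⟫) :
    ∫ p, max (f p.1 - f p.2) 0 ^ 2 ∂(stdGaussian E).prod (stdGaussian E) ≤ 10 * L ^ 2 := by
  set d := Module.finrank ℝ E with hd
  set n := d + 1 with hn
  have hn0 : (0 : ℝ) < n := by positivity
  set Δ : ℝ := Real.pi / 2 / n with hΔ
  have hnΔ : n * Δ = Real.pi / 2 := by rw [hΔ]; field_simp
  have hmp : ∀ θ : ℝ, MeasurePreserving (ContinuousLinearMap.rotation θ : E × E → E × E)
      ((stdGaussian E).prod (stdGaussian E)) ((stdGaussian E).prod (stdGaussian E)) := fun θ =>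
    ⟨(ContinuousLinearMap.rotation θ).continuous.measurable,
      IsGaussian.map_rotation_eq_self_of_forall_strongDual_eq_zero
        integral_strongDual_stdGaussian θ⟩
  have hV := asvar_V_integrable hξ hb (1 - Real.cos Δ) (Real.sin Δ)
  have hi : ∀ j : ℕ, Integrable (fun p => asvar_V ξ L (1 - Real.cos Δ) (Real.sin Δ)
      (ContinuousLinearMap.rotation (j * Δ) p)) ((stdGaussian E).prod (stdGaussian E)) :=
    fun j => (hmp _).integrable_comp_of_integrable hV
  have he : ∀ j : ℕ, ∫ p, asvar_V ξ L (1 - Real.cos Δ) (Real.sin Δ)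
      (ContinuousLinearMap.rotation (j * Δ) p) ∂(stdGaussian E).prod (stdGaussian E)
      = ∫ p, asvar_V ξ L (1 - Real.cos Δ) (Real.sin Δ) p
        ∂(stdGaussian E).prod (stdGaussian E) := fun j => by
    conv_rhs => rw [← (hmp (j * Δ)).map_eq]
    rw [integral_map (hmp _).measurable.aemeasurable
      (by rw [(hmp (j * Δ)).map_eq]; exact hV.aestronglyMeasurable)]
  have h1 := integral_mono_of_nonneg (Filter.Eventually.of_forall fun p => by positivity)
    ((integrable_finsetSum (Finset.range n) fun j _ => hi j).const_mul (n : ℝ))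
    (Filter.Eventually.of_forall (asvar_point f ξ L hb hc n Δ hnΔ))
  rw [integral_const_mul, integral_finsetSum _ fun j _ => hi j] at h1
  simp only [he, Finset.sum_const, Finset.card_range, nsmul_eq_mul] at h1
  have hπ : Real.pi ^ 2 ≤ 10 := by nlinarith [Real.pi_lt_d2, Real.pi_pos]
  have h2 : (n : ℝ) ^ 2 * Δ ^ 2 = Real.pi ^ 2 / 4 := by rw [← mul_pow, hnΔ]; ring
  have h3 : Δ ^ 2 * d ≤ 4 := by
    have h4 : (d : ℝ) ≤ (n : ℝ) ^ 2 := by
      rw [hn]; push_cast; nlinarith [Nat.cast_nonneg (α := ℝ) d]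
    nlinarith [mul_le_mul_of_nonneg_left h4 (sq_nonneg Δ)]
  have h4 : (1 - Real.cos Δ) ^ 2 * d ≤ Δ ^ 2 := by
    have h5 : (1 - Real.cos Δ) ^ 2 ≤ (Δ ^ 2 / 2) ^ 2 :=
      pow_le_pow_left₀ (sub_nonneg.2 (Real.cos_le_one Δ))
        (by linarith [Real.one_sub_sq_div_two_le_cos (x := Δ)]) 2
    nlinarith [mul_le_mul_of_nonneg_right h5 (Nat.cast_nonneg (α := ℝ) d),
      mul_le_mul_of_nonneg_left h3 (sq_nonneg Δ)]
  have h5 : ∫ p, asvar_V ξ L (1 - Real.cos Δ) (Real.sin Δ) p
      ∂(stdGaussian E).prod (stdGaussian E) ≤ 4 * Δ ^ 2 * L ^ 2 := by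
    refine (asvar_V_integral hξ hb _ _).trans ?_
    nlinarith [mul_le_mul_of_nonneg_right h4 (sq_nonneg L),
      mul_le_mul_of_nonneg_right (Real.sin_sq_le_sq (x := Δ)) (sq_nonneg L)]
  refine h1.trans ((mul_le_mul_of_nonneg_left (mul_le_mul_of_nonneg_left h5 hn0.le)
    hn0.le).trans ?_)
  have h6 : (n : ℝ) * (n * (4 * Δ ^ 2 * L ^ 2)) = Real.pi ^ 2 * L ^ 2 := by
    linear_combination 4 * L ^ 2 * h2
  rw [h6]
  exact mul_le_mul_of_nonneg_right hπ (sq_nonneg L)

/-- Dimension-free variance bound for a convex Lipschitz function with a measurable subgradient.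
Sketch: `|f s - f s'| ≤ L ‖s - s'‖` (use `hc` both ways), so `f` is continuous, `f`, `f²` integrable
(`integrable_of_poly`). With `γ = stdGaussian E`, `m = ∫ f`: `2 ∫ (f - m)² = ∫∫ (f g - f g')² d(γ.prod γ)
= 2 ∫∫ (max (f g - f g') 0)²` (swap symmetry). Take `n ≥ 1`, `Δ = π/(2n)` with `Δ² * finrank ≤ 4`,
`g_j = cos(jΔ) g + sin(jΔ) g'`, `k_j = -sin(jΔ) g + cos(jΔ) g'`; `(g_j, k_j)` has law `γ.prod γ`
(`IsGaussian.map_rotation_eq_self`, or `Gq`), `g_(j+1) = cos Δ g_j + sin Δ k_j`, `g_0 = g`, `g_n = g'`.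
`f g_j - f g_(j+1) ≤ u(g_j,k_j)`, `u(y,k) = (1 - cos Δ) ⟪ξ y, y⟫ - sin Δ ⟪ξ y, k⟫`, so
`(max (f g - f g') 0)² ≤ (∑ |u_j|)² ≤ n ∑ u_j²`, and
`∫∫ u² ≤ 2 (Δ²/2)² L² finrank + 2 Δ² L²` (`int_norm_sq`, `int_inner_sq` for the inner integral,
`Real.one_sub_sq_div_two_le_cos`, `Real.sin_sq_le_sq`). Total `≤ n² 4 Δ² L² = π² L² ≤ 10 L²`. -/
theorem var_le (f : E → ℝ) (ξ : E → E) (L : ℝ) (hξ : Measurable ξ) (hb : ∀ s, ‖ξ s‖ ≤ L)
    (hc : ∀ s s', f s - f s' ≤ ⟪ξ s, s - s'⟫) :
    Integrable (fun s => (f s - ∫ u, f u ∂stdGaussian E) ^ 2) (stdGaussian E) ∧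
    ∫ s, (f s - ∫ u, f u ∂stdGaussian E) ^ 2 ∂stdGaussian E ≤ 10 * L ^ 2 := by
  have hL : 0 ≤ L := (norm_nonneg _).trans (hb 0)
  have hlip : LipschitzWith L.toNNReal f := by
    refine LipschitzWith.of_le_add_mul' L fun s s' => ?_
    have h1 := (hc s s').trans ((real_inner_le_norm _ _).trans
      (mul_le_mul_of_nonneg_right (hb s) (norm_nonneg _)))
    rw [dist_eq_norm]
    linarith
  have hf := hlip.continuous
  have hid := IsGaussian.memLp_id (stdGaussian E) 2 (by simp)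
  have hm : MemLp f 2 (stdGaussian E) := by
    have h0 : LipschitzWith L.toNNReal (fun s => f s - f 0) := fun x y => by
      simpa using hlip x y
    have h1 : MemLp (fun s => f s - f 0) 2 (stdGaussian E) := h0.comp_memLp (by simp) hid
    exact (h1.add (memLp_const (f 0))).ae_eq (Filter.Eventually.of_forall fun s => by simp)
  set m := ∫ u, f u ∂stdGaussian E with hmdef
  have hh : MemLp (fun s => f s - m) 2 (stdGaussian E) := hm.sub (memLp_const m)
  have i1 : Integrable (fun s => f s - m) (stdGaussian E) := hh.integrable one_le_two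
  have i2 : Integrable (fun s => (f s - m) ^ 2) (stdGaussian E) := hh.integrable_sq
  refine ⟨i2, ?_⟩
  have z : ∫ s, (f s - m) ∂stdGaussian E = 0 := by
    rw [integral_sub (hm.integrable one_le_two) (integrable_const m)]
    simp [hmdef]
  have j1 := i2.comp_fst (stdGaussian E)
  have j2 := i2.comp_snd (stdGaussian E)
  have j3 := (i1.mul_prod i1).const_mul 2
  have e1 : (fun p : E × E => (f p.1 - f p.2) ^ 2) = fun p =>
      (f p.1 - m) ^ 2 + (f p.2 - m) ^ 2 - 2 * ((f p.1 - m) * (f p.2 - m)) := by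
    funext p; ring
  have i3 : Integrable (fun p : E × E => (f p.1 - f p.2) ^ 2)
      ((stdGaussian E).prod (stdGaussian E)) := by
    rw [e1]; exact (j1.add j2).sub j3
  have e2 : ∫ p, (f p.1 - f p.2) ^ 2 ∂(stdGaussian E).prod (stdGaussian E)
      = 2 * ∫ s, (f s - m) ^ 2 ∂stdGaussian E := by
    have j4 : Integrable (fun p : E × E => (f p.1 - m) ^ 2 + (f p.2 - m) ^ 2)
        ((stdGaussian E).prod (stdGaussian E)) := j1.add j2
    rw [e1, integral_sub j4 j3, integral_add j1 j2, integral_const_mul,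
      integral_prod_mul (fun s => f s - m) (fun s => f s - m), z,
      integral_fun_fst (fun s => (f s - m) ^ 2), integral_fun_snd (fun s => (f s - m) ^ 2)]
    simp only [probReal_univ, one_smul]
    ring
  have i4 : Integrable (fun p : E × E => max (f p.1 - f p.2) 0 ^ 2)
      ((stdGaussian E).prod (stdGaussian E)) := by
    refine i3.mono' (Continuous.aestronglyMeasurable (by fun_prop))
      (Filter.Eventually.of_forall fun p => ?_)
    rw [Real.norm_of_nonneg (sq_nonneg _)]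
    rcases le_total (f p.1 - f p.2) 0 with h | h
    · rw [max_eq_right h]; nlinarith [sq_nonneg (f p.1 - f p.2)]
    · rw [max_eq_left h]
  have e3 : (fun p : E × E => (f p.1 - f p.2) ^ 2) = fun p =>
      max (f p.1 - f p.2) 0 ^ 2 + max (f p.swap.1 - f p.swap.2) 0 ^ 2 := by
    funext p
    simp only [Prod.fst_swap, Prod.snd_swap]
    rcases le_total (f p.1 - f p.2) 0 with h | h
    · rw [max_eq_right h, max_eq_left (by linarith)]; ring
    · rw [max_eq_left h, max_eq_right (by linarith)]; ring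
  have h1 := asvar_pos_part f ξ L hξ hb hc
  have i5 : Integrable (fun p : E × E => max (f p.swap.1 - f p.swap.2) 0 ^ 2)
      ((stdGaussian E).prod (stdGaussian E)) := i4.swap
  rw [e3, integral_add i4 i5,
    integral_prod_swap (fun p : E × E => max (f p.1 - f p.2) 0 ^ 2)] at e2
  linarith

end Pool.Agent.Lib.MP_77d991_gt.As

namespace Pool.Agent.Lib.MP_77d991_gt.As

variable {E : Type*} [NormedAddCommGroup E] [InnerProductSpace ℝ E] [FiniteDimensional ℝ E]
  [MeasurableSpace E] [BorelSpace E]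

lemma aschi_expand {f : E → ℝ} (h1 : Integrable f (stdGaussian E))
    (h2 : Integrable (fun s => f s ^ 2) (stdGaussian E)) (c : ℝ) :
    ∫ s, (f s - c) ^ 2 ∂stdGaussian E =
      ∫ s, f s ^ 2 ∂stdGaussian E - 2 * c * ∫ s, f s ∂stdGaussian E + c ^ 2 := by
  have e : ∀ s, (f s - c) ^ 2 = f s ^ 2 - 2 * c * f s + c ^ 2 := fun s => by ring
  simp_rw [e]
  have h3 : Integrable (fun s => f s ^ 2 - 2 * c * f s) (stdGaussian E) :=
    h2.sub (h1.const_mul _)
  rw [integral_add h3 (integrable_const _), integral_sub h2 (h1.const_mul _), integral_const_mul]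
  simp

omit [BorelSpace E] in
lemma aschi_cheb {f : E → ℝ} (h2 : Integrable (fun s => f s ^ 2) (stdGaussian E)) {τ C : ℝ}
    (hτ : 0 < τ) (hC : ∫ s, f s ^ 2 ∂stdGaussian E ≤ C) :
    (stdGaussian E).real {s | τ ≤ |f s|} ≤ C / τ ^ 2 := by
  have h := mul_meas_ge_le_integral_of_nonneg
    (Filter.Eventually.of_forall fun s => sq_nonneg (f s)) h2 (τ ^ 2)
  have e : {s | τ ≤ |f s|} = {s | τ ^ 2 ≤ f s ^ 2} := by
    ext s
    simp only [mem_ofPred_eq]
    rw [← sq_abs (f s)]
    exact (pow_le_pow_iff_left₀ hτ.le (abs_nonneg _) two_ne_zero).symm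
  rw [e, le_div_iff₀ (by positivity), mul_comm]
  exact h.trans hC

lemma aschi_norm_sub {F : Type*} [NormedAddCommGroup F] [InnerProductSpace ℝ F] (s s' : F) :
    ‖s‖ - ‖s'‖ ≤ ⟪‖s‖⁻¹ • s, s - s'⟫ := by
  rcases eq_or_ne s 0 with rfl | hs
  · simp
  have hn : 0 < ‖s‖ := norm_pos_iff.2 hs
  rw [inner_sub_right, inner_smul_left, inner_smul_left, real_inner_self_eq_norm_sq]
  simp only [conj_trivial]
  have h1 : ‖s‖⁻¹ * ‖s‖ ^ 2 = ‖s‖ := by field_simp
  have h2 : ‖s‖⁻¹ * ⟪s, s'⟫ ≤ ‖s'‖ := by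
    rw [inv_mul_le_iff₀ hn]
    exact real_inner_le_norm _ _
  linarith

lemma aschi_norm_unit {F : Type*} [NormedAddCommGroup F] [InnerProductSpace ℝ F] (s : F) :
    ‖‖s‖⁻¹ • s‖ ≤ 1 := by
  rw [norm_smul, norm_inv, norm_norm]
  exact inv_mul_le_one_of_le₀ le_rfl (norm_nonneg _)

lemma aschi_int_map {E' : Type*} [NormedAddCommGroup E'] [InnerProductSpace ℝ E']
    (A : E →L[ℝ] E') (k : ℕ) : Integrable (fun g => ‖A g‖ ^ k) (stdGaussian E) := by
  refine Integrable.mono' ((integrable_norm_pow k).const_mul (‖A‖ ^ k))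
    (Continuous.aestronglyMeasurable (by fun_prop)) (Filter.Eventually.of_forall fun g => ?_)
  rw [Real.norm_of_nonneg (by positivity), ← mul_pow]
  exact pow_le_pow_left₀ (norm_nonneg _) (A.le_opNorm g) k

/-- Chebyshev form of `var_le` (`mul_meas_ge_le_integral_of_nonneg` applied to `(f - m)²`). -/
theorem dev_le (f : E → ℝ) (ξ : E → E) (L : ℝ) (hξ : Measurable ξ) (hb : ∀ s, ‖ξ s‖ ≤ L)
    (hc : ∀ s s', f s - f s' ≤ ⟪ξ s, s - s'⟫) {τ : ℝ} (hτ : 0 < τ) :
    (stdGaussian E).real {s | τ ≤ |f s - ∫ u, f u ∂stdGaussian E|} ≤ 10 * L ^ 2 / τ ^ 2 := by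
  obtain ⟨h1, h2⟩ := var_le f ξ L hξ hb hc
  exact aschi_cheb (f := fun s => f s - ∫ u, f u ∂stdGaussian E) h1 hτ h2

/-- `var_le` for `f = ‖·‖`, `ξ g = ‖g‖⁻¹ • g`, `L = 1`, and `int_norm_sq`. -/
theorem chi_mean : (Module.finrank ℝ E : ℝ) - 10 ≤ (∫ g, ‖g‖ ∂stdGaussian E) ^ 2 := by
  obtain ⟨-, h2⟩ := var_le (fun g : E => ‖g‖) (fun g => ‖g‖⁻¹ • g) 1 (by fun_prop)
    aschi_norm_unit aschi_norm_sub
  rw [aschi_expand (by simpa using integrable_norm_pow (E := E) 1) (integrable_norm_pow 2),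
    int_norm_sq] at h2
  nlinarith

/-- `(∫ ‖A g‖)² ≤ ∫ ‖A g‖²` (expand `∫ (‖A g‖ - m)² ≥ 0`). -/
theorem mean_norm_sq_le {E' : Type*} [NormedAddCommGroup E'] [InnerProductSpace ℝ E']
    (A : E →L[ℝ] E') :
    (∫ g, ‖A g‖ ∂stdGaussian E) ^ 2 ≤ ∫ g, ‖A g‖ ^ 2 ∂stdGaussian E := by
  have h := aschi_expand (f := fun g => ‖A g‖) (by simpa using aschi_int_map A 1)
    (aschi_int_map A 2) (∫ g, ‖A g‖ ∂stdGaussian E)
  have h0 : 0 ≤ ∫ s, (‖A s‖ - ∫ g, ‖A g‖ ∂stdGaussian E) ^ 2 ∂stdGaussian E :=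
    integral_nonneg fun s => sq_nonneg _
  nlinarith

/-- with `n = finrank`, `m = ∫ ‖g‖`, `n - 10 ≤ m² ≤ n`:
`∫ (‖g‖ - √n)² = 2 √n (√n - m) ≤ 2 (√n + m)(√n - m) = 2 (n - m²) ≤ 20`, then Chebyshev. -/
theorem chi_dev {τ : ℝ} (hτ : 0 < τ) :
    (stdGaussian E).real {g | τ ≤ |‖g‖ - √(Module.finrank ℝ E : ℝ)|} ≤ 20 / τ ^ 2 := by
  have i1 : Integrable (fun g : E => ‖g‖) (stdGaussian E) := by
    simpa using integrable_norm_pow (E := E) 1
  have i2 := integrable_norm_pow (E := E) 2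
  refine aschi_cheb (f := fun g : E => ‖g‖ - √(Module.finrank ℝ E : ℝ)) ?_ hτ ?_
  · have e : ∀ s : E, (‖s‖ - √(Module.finrank ℝ E : ℝ)) ^ 2 =
        ‖s‖ ^ 2 - 2 * √(Module.finrank ℝ E : ℝ) * ‖s‖ + √(Module.finrank ℝ E : ℝ) ^ 2 :=
      fun s => by ring
    simp_rw [e]
    exact (i2.sub (i1.const_mul _)).add (integrable_const _)
  · rw [aschi_expand i1 i2, int_norm_sq]
    have h1 := chi_mean (E := E)
    have h2 := mean_norm_sq_le (ContinuousLinearMap.id ℝ E)
    simp only [ContinuousLinearMap.id_apply] at h2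
    rw [int_norm_sq] at h2
    have h3 : 0 ≤ ∫ g, ‖g‖ ∂stdGaussian E := integral_nonneg fun s => norm_nonneg _
    have h4 : √(Module.finrank ℝ E : ℝ) ^ 2 = Module.finrank ℝ E :=
      Real.sq_sqrt (Nat.cast_nonneg _)
    have h5 : ∫ g, ‖g‖ ∂stdGaussian E ≤ √(Module.finrank ℝ E : ℝ) := Real.le_sqrt_of_sq_le h2
    nlinarith [mul_nonneg h3 (sub_nonneg.2 h5)]

/-- `∫ h² = (∫ h)² + Var ≤ (∫ h)² + 10 R²` (`var_le` with `Sel.sub_le`). -/
theorem Sel.int_sq_le {h : E → ℝ} {x : E → E} {R : ℝ} (S : Sel h x R) :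
    ∫ y, h y ^ 2 ∂stdGaussian E ≤ (∫ y, h y ∂stdGaussian E) ^ 2 + 10 * R ^ 2 := by
  obtain ⟨-, h2⟩ := var_le h x R S.meas S.bdd S.sub_le
  have i1 : Integrable h (stdGaussian E) := by
    simpa using S.integrable_lin (ContinuousLinearMap.id ℝ E)
  have i2 : Integrable (fun y => h y ^ 2) (stdGaussian E) := by
    refine Integrable.mono' ((integrable_norm_pow 2).const_mul (R ^ 2))
      (S.cont.pow 2).aestronglyMeasurable (Filter.Eventually.of_forall fun y => ?_)
    rw [Real.norm_of_nonneg (sq_nonneg _), ← mul_pow]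
    exact pow_le_pow_left₀ (S.h_nonneg y) (S.h_le y) 2
  rw [aschi_expand i1 i2] at h2
  nlinarith

/-- upper tail of `‖A s‖`: `dev_le` with `f s = ‖A s‖`, `ξ s = adjoint A (‖A s‖⁻¹ • A s)`,
and `∫ ‖A s‖ ≤ B` from `mean_norm_sq_le`. -/
theorem norm_map_tail {E' : Type*} [NormedAddCommGroup E'] [InnerProductSpace ℝ E']
    [FiniteDimensional ℝ E'] [MeasurableSpace E'] [BorelSpace E'] (A : E →L[ℝ] E') {L B τ : ℝ}
    (hL : 0 ≤ L) (hA : ∀ s, ‖A s‖ ≤ L * ‖s‖) (hB : 0 ≤ B)
    (hm : ∫ g, ‖A g‖ ^ 2 ∂stdGaussian E ≤ B ^ 2) (hτ : 0 < τ) :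
    (stdGaussian E).real {s | B + τ ≤ ‖A s‖} ≤ 10 * L ^ 2 / τ ^ 2 := by
  have hadj : ∀ y : E', ‖y‖ ≤ 1 → ‖ContinuousLinearMap.adjoint A y‖ ≤ L := fun y hy => by
    have h1 : ‖A‖ ≤ L := A.opNorm_le_bound hL hA
    calc ‖ContinuousLinearMap.adjoint A y‖ ≤ ‖ContinuousLinearMap.adjoint A‖ * ‖y‖ :=
          ContinuousLinearMap.le_opNorm _ _
      _ ≤ L * 1 := by
          rw [LinearIsometryEquiv.norm_map]
          exact mul_le_mul h1 hy (norm_nonneg _) hL
      _ = L := mul_one L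
  have h := dev_le (fun s => ‖A s‖) (fun s => ContinuousLinearMap.adjoint A (‖A s‖⁻¹ • A s)) L
    (by
      have h1 : Measurable fun s : E => A s := A.continuous.measurable
      exact (ContinuousLinearMap.adjoint A).continuous.measurable.comp (by fun_prop))
    (fun s => hadj _ (aschi_norm_unit _))
    (fun s s' => by
      rw [ContinuousLinearMap.adjoint_inner_left, map_sub]
      exact aschi_norm_sub _ _) hτ
  refine le_trans (measureReal_mono fun s hs => ?_) h
  have h1 : ∫ g, ‖A g‖ ∂stdGaussian E ≤ B :=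
    (pow_le_pow_iff_left₀ (integral_nonneg fun s => norm_nonneg _) hB two_ne_zero).1
      ((mean_norm_sq_le A).trans hm)
  simp only [mem_ofPred_eq] at hs ⊢
  exact le_trans (by linarith) (le_abs_self _)

end Pool.Agent.Lib.MP_77d991_gt.As

namespace Pool.Agent.Lib.MP_77d991_gt.As

variable {E : Type*} [NormedAddCommGroup E] [InnerProductSpace ℝ E] [FiniteDimensional ℝ E]
  [MeasurableSpace E] [BorelSpace E]

lemma asden_gauss {c : ℝ} (hc : 0 < c) :
    Integrable (fun y : E => Real.exp (-c * ‖y‖ ^ 2)) := by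
  have h := (GaussianFourier.integrable_cexp_neg_mul_sq_norm_add (V := E) (b := (c : ℂ))
    (by simpa using hc) 0 0).norm
  refine h.congr (Filter.Eventually.of_forall fun y => ?_)
  simp only [zero_mul, add_zero, Complex.norm_exp]
  congr 1
  rw [← Complex.ofReal_pow, ← Complex.ofReal_neg, ← Complex.ofReal_mul, Complex.ofReal_re]

omit [FiniteDimensional ℝ E] [MeasurableSpace E] [BorelSpace E] in
lemma asden_dens_nonneg (y : E) :
    0 ≤ (√(2 * Real.pi))⁻¹ ^ Module.finrank ℝ E * Real.exp (-‖y‖ ^ 2 / 2) := by positivity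

lemma asden_dens_int : Integrable (fun y : E =>
    (√(2 * Real.pi))⁻¹ ^ Module.finrank ℝ E * Real.exp (-‖y‖ ^ 2 / 2)) := by
  refine ((asden_gauss (E := E) (c := 1 / 2) (by norm_num)).const_mul
    ((√(2 * Real.pi))⁻¹ ^ Module.finrank ℝ E)).congr (Filter.Eventually.of_forall fun y => ?_)
  simp only
  congr 2
  ring

omit [FiniteDimensional ℝ E] in
lemma asden_dens_meas : Measurable (fun y : E => ENNReal.ofReal
    ((√(2 * Real.pi))⁻¹ ^ Module.finrank ℝ E * Real.exp (-‖y‖ ^ 2 / 2))) := by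
  fun_prop

lemma asden_wd {F : Type*} [NormedAddCommGroup F] [NormedSpace ℝ F] (f : E → F) :
    ∫ y, f y ∂((volume : Measure E).withDensity fun y =>
      ENNReal.ofReal ((√(2 * Real.pi))⁻¹ ^ Module.finrank ℝ E * Real.exp (-‖y‖ ^ 2 / 2))) =
      ∫ y, ((√(2 * Real.pi))⁻¹ ^ Module.finrank ℝ E * Real.exp (-‖y‖ ^ 2 / 2)) • f y := by
  rw [integral_withDensity_eq_integral_toReal_smul asden_dens_meas
    (Filter.Eventually.of_forall fun y => ENNReal.ofReal_lt_top)]
  congr 1
  funext y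
  rw [ENNReal.toReal_ofReal (asden_dens_nonneg y)]

lemma asden_const (n : ℕ) :
    (((√(2 * Real.pi))⁻¹ ^ n : ℝ) : ℂ) * ((Real.pi : ℂ) / (1 / 2 : ℂ)) ^ ((n : ℂ) / 2) = 1 := by
  have h0 : (0 : ℝ) ≤ 2 * Real.pi := by positivity
  have e1 : ((Real.pi : ℂ) / (1 / 2 : ℂ)) = ((2 * Real.pi : ℝ) : ℂ) := by
    push_cast
    ring
  have e2 : ((n : ℂ) / 2) = (((n : ℝ) / 2 : ℝ) : ℂ) := by
    push_cast
    ring
  rw [e1, e2, ← Complex.ofReal_cpow h0, ← Complex.ofReal_mul]
  have e3 : (2 * Real.pi) ^ ((n : ℝ) / 2) = √(2 * Real.pi) ^ n := by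
    rw [Real.sqrt_eq_rpow, ← Real.rpow_natCast, ← Real.rpow_mul h0]
    congr 1
    ring
  have h1 : √(2 * Real.pi) ≠ 0 := by positivity
  rw [e3, ← mul_pow, inv_mul_cancel₀ h1, one_pow, Complex.ofReal_one]

/-- the density of the standard Gaussian. Sketch: `Measure.ext_of_charFun`; the right side is finite;
`charFun_stdGaussian`; `integral_withDensity_eq_integral_smul` (or `..._toReal_smul`) and
`GaussianFourier.integral_cexp_neg_mul_sq_norm_add` with `b = 1/2`, `c = I`;
integrability of `exp (-‖y‖²/2)`: `GaussianFourier.integrable_cexp_neg_mul_sq_norm_add`. -/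
theorem std_eq_density : stdGaussian E = (volume : Measure E).withDensity fun y =>
    ENNReal.ofReal ((√(2 * Real.pi))⁻¹ ^ Module.finrank ℝ E * Real.exp (-‖y‖ ^ 2 / 2)) := by
  have : CompleteSpace E := FiniteDimensional.complete ℝ E
  have : IsFiniteMeasure ((volume : Measure E).withDensity fun y => ENNReal.ofReal
      ((√(2 * Real.pi))⁻¹ ^ Module.finrank ℝ E * Real.exp (-‖y‖ ^ 2 / 2))) :=
    isFiniteMeasure_withDensity_ofReal asden_dens_int.2
  apply Measure.ext_of_charFun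
  funext t
  rw [charFun_stdGaussian, charFun_apply, asden_wd]
  have h := GaussianFourier.integral_cexp_neg_mul_sq_norm_add (V := E) (b := (1 / 2 : ℂ))
    (by norm_num) Complex.I t
  have e : ∀ y : E, ((√(2 * Real.pi))⁻¹ ^ Module.finrank ℝ E * Real.exp (-‖y‖ ^ 2 / 2)) •
      Complex.exp ((⟪y, t⟫ : ℝ) * Complex.I) =
      (((√(2 * Real.pi))⁻¹ ^ Module.finrank ℝ E : ℝ) : ℂ) *
        Complex.exp (-(1 / 2 : ℂ) * (‖y‖ : ℂ) ^ 2 + Complex.I * (⟪t, y⟫ : ℝ)) := fun y => by
    rw [Complex.real_smul, Complex.ofReal_mul, mul_assoc, Complex.ofReal_exp, ← Complex.exp_add,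
      real_inner_comm]
    congr 2
    push_cast
    ring
  simp_rw [e]
  rw [integral_const_mul, h, ← mul_assoc, asden_const, one_mul, Complex.I_sq]
  congr 1
  ring

theorem integral_std {F : Type*} [NormedAddCommGroup F] [NormedSpace ℝ F] (f : E → F) :
    ∫ y, f y ∂stdGaussian E =
      ∫ y, ((√(2 * Real.pi))⁻¹ ^ Module.finrank ℝ E * Real.exp (-‖y‖ ^ 2 / 2)) • f y := by
  rw [std_eq_density, asden_wd]

theorem integrable_gauss {c : ℝ} (hc : 0 < c) :
    Integrable (fun y : E => Real.exp (-c * ‖y‖ ^ 2)) := by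
  exact asden_gauss hc

/-- Cameron-Martin: `integral_std` on both sides, `integral_add_right_eq_self`, `norm_sub_sq_real`. -/
theorem integral_shift {F : Type*} [NormedAddCommGroup F] [NormedSpace ℝ F] (f : E → F) (b : E) :
    ∫ y, f (y + b) ∂stdGaussian E =
      ∫ y, Real.exp (⟪b, y⟫ - ‖b‖ ^ 2 / 2) • f y ∂stdGaussian E := by
  rw [integral_std, integral_std,
    ← integral_add_right_eq_self (fun y : E => ((√(2 * Real.pi))⁻¹ ^ Module.finrank ℝ E *
      Real.exp (-‖y‖ ^ 2 / 2)) • Real.exp (⟪b, y⟫ - ‖b‖ ^ 2 / 2) • f y) b]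
  congr 1
  funext y
  rw [smul_smul, mul_assoc, ← Real.exp_add]
  congr 3
  rw [norm_add_sq_real, inner_add_right, real_inner_self_eq_norm_sq, real_inner_comm]
  ring

/-- `exp(‖y‖²/4)` is integrable for the Gaussian (`integrable_withDensity_iff...`, `integrable_gauss`). -/
theorem integrable_exp_quarter :
    Integrable (fun y : E => Real.exp (‖y‖ ^ 2 / 4)) (stdGaussian E) := by
  rw [std_eq_density, integrable_withDensity_iff_integrable_smul' asden_dens_meas
    (Filter.Eventually.of_forall fun y => ENNReal.ofReal_lt_top)]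
  refine ((asden_gauss (E := E) (c := 1 / 4) (by norm_num)).const_mul
    ((√(2 * Real.pi))⁻¹ ^ Module.finrank ℝ E)).congr (Filter.Eventually.of_forall fun y => ?_)
  simp only
  rw [ENNReal.toReal_ofReal (asden_dens_nonneg y), smul_eq_mul, mul_assoc, ← Real.exp_add]
  congr 2
  ring

open scoped Pointwise in
/-- Volume of the unit ball of `h` from the Gaussian mean `m` of `h²`.
Sketch: `n = finrank`, `λ = n/(2m)`, `c > 0` with `c ‖y‖ ≤ h y` is given.
`MeasureTheory.measure_lt_one_eq_integral_div_gamma` (`p = 2`) for `g = √λ * h` gives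
`vol {√λ h < 1} = ∫ exp(-λ h²) / Γ(n/2+1)`; pointwise
`exp(-λ h²) ≥ exp(-‖y‖²/2) (1 + ‖y‖²/2 - λ h²)` (`Real.add_one_le_exp`), whose integral is
`√(2π)^n (1 + n/2 - λ m) = √(2π)^n` by `integral_std`, `int_norm_sq`. Finally
`{√λ h < 1} ⊆ (√λ)⁻¹ • {h ≤ 1}` and `Measure.addHaar_smul`; `{h ≤ 1}` is bounded, so of finite volume. -/
theorem Sel.vol_ge {h : E → ℝ} {x : E → E} {R : ℝ} (S : Sel h x R) {c : ℝ} (hc : 0 < c)
    (hh : ∀ y, c * ‖y‖ ≤ h y) (hn : 0 < Module.finrank ℝ E) {m : ℝ}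
    (hm : ∫ y, h y ^ 2 ∂stdGaussian E ≤ m) :
    √Real.pi ^ Module.finrank ℝ E / Real.Gamma ((Module.finrank ℝ E : ℝ) / 2 + 1) *
      √((Module.finrank ℝ E : ℝ) / m) ^ Module.finrank ℝ E ≤
      (volume {y : E | h y ≤ 1}).toReal := by
  set n := Module.finrank ℝ E with hnn
  have hn' : (0 : ℝ) < n := by exact_mod_cast hn
  have ih2 : Integrable (fun y => h y ^ 2) (stdGaussian E) := by
    refine Integrable.mono' ((integrable_norm_pow 2).const_mul (R ^ 2))
      (S.cont.pow 2).aestronglyMeasurable (Filter.Eventually.of_forall fun y => ?_)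
    rw [Real.norm_of_nonneg (sq_nonneg _), ← mul_pow]
    exact pow_le_pow_left₀ (S.h_nonneg y) (S.h_le y) 2
  have hm0 : 0 < m := by
    have h1 : ∫ y, c ^ 2 * ‖y‖ ^ 2 ∂stdGaussian E ≤ ∫ y, h y ^ 2 ∂stdGaussian E := by
      refine integral_mono ((integrable_norm_pow 2).const_mul _) ih2 fun y => ?_
      simp only
      rw [← mul_pow]
      exact pow_le_pow_left₀ (by positivity) (hh y) 2
    rw [integral_const_mul, int_norm_sq] at h1
    have : 0 < c ^ 2 * (n : ℝ) := by positivity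
    linarith
  set l : ℝ := n / (2 * m) with hl
  have hl0 : 0 < l := by positivity
  have hs0 : 0 < √l := Real.sqrt_pos.2 hl0
  have hvol := measure_lt_one_eq_integral_div_gamma (volume : Measure E)
    (g := fun y => √l * h y) (by simp [S.h_zero]) (fun y => by simp only [S.h_neg])
    (fun y w => by
      rw [← mul_add]
      exact mul_le_mul_of_nonneg_left (S.h_add y w) hs0.le)
    (fun {y} hy => by
      have h1 : h y = 0 := (mul_eq_zero.1 hy).resolve_left hs0.ne'
      have h2 := hh y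
      rw [h1] at h2
      have h3 : ‖y‖ ≤ 0 := by
        by_contra h4
        have := mul_pos hc (not_le.1 h4)
        linarith
      exact norm_le_zero_iff.1 h3)
    (fun r y => by
      rw [S.h_smul]
      exact le_of_eq (by ring))
    (p := 2) (by norm_num)
  have eg : ∀ y, Real.exp (-(√l * h y) ^ (2 : ℝ)) = Real.exp (-l * h y ^ 2) := fun y => by
    rw [Real.rpow_two, mul_pow, Real.sq_sqrt hl0.le, neg_mul]
  simp_rw [eg] at hvol
  have iE : Integrable (fun y : E => Real.exp (-l * h y ^ 2)) := by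
    refine Integrable.mono' (asden_gauss (E := E) (c := l * c ^ 2) (by positivity))
      (Continuous.aestronglyMeasurable (by have := S.cont; fun_prop))
      (Filter.Eventually.of_forall fun y => ?_)
    rw [Real.norm_of_nonneg (Real.exp_pos _).le]
    apply Real.exp_le_exp.2
    have : (c * ‖y‖) ^ 2 ≤ h y ^ 2 := pow_le_pow_left₀ (by positivity) (hh y) 2
    have := mul_le_mul_of_nonneg_left this hl0.le
    nlinarith
  have hK : (0 : ℝ) < √(2 * Real.pi) := by positivity
  have iP : Integrable (fun y : E => 1 + ‖y‖ ^ 2 / 2 - l * h y ^ 2) (stdGaussian E) :=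
    ((integrable_const 1).add ((integrable_norm_pow 2).div_const 2)).sub (ih2.const_mul l)
  have low : 1 ≤ ∫ y, (1 + ‖y‖ ^ 2 / 2 - l * h y ^ 2) ∂stdGaussian E := by
    have i1 : Integrable (fun y : E => 1 + ‖y‖ ^ 2 / 2) (stdGaussian E) :=
      (integrable_const 1).add ((integrable_norm_pow 2).div_const 2)
    rw [integral_sub i1 (ih2.const_mul l), integral_add (integrable_const 1) ((integrable_norm_pow 2).div_const 2),
      integral_div, int_norm_sq, integral_const_mul]
    have h1 : l * m = n / 2 := by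
      rw [hl]
      field_simp
    have h2 := mul_le_mul_of_nonneg_left hm hl0.le
    simp only [integral_const, probReal_univ, smul_eq_mul, mul_one]
    linarith
  have low2 : 1 ≤ (√(2 * Real.pi))⁻¹ ^ n * ∫ y : E, Real.exp (-l * h y ^ 2) := by
    refine low.trans ?_
    have iP' := iP
    rw [std_eq_density, integrable_withDensity_iff_integrable_smul' asden_dens_meas
      (Filter.Eventually.of_forall fun y => ENNReal.ofReal_lt_top)] at iP'
    simp only [ENNReal.toReal_ofReal (asden_dens_nonneg _)] at iP'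
    rw [integral_std, ← integral_const_mul]
    refine integral_mono iP' (iE.const_mul _) fun y => ?_
    simp only [smul_eq_mul]
    rw [mul_assoc]
    refine mul_le_mul_of_nonneg_left ?_ (by positivity)
    have h1 := Real.add_one_le_exp (‖y‖ ^ 2 / 2 - l * h y ^ 2)
    have h2 : Real.exp (-l * h y ^ 2) =
        Real.exp (-‖y‖ ^ 2 / 2) * Real.exp (‖y‖ ^ 2 / 2 - l * h y ^ 2) := by
      rw [← Real.exp_add]
      congr 1
      ring
    rw [h2]
    exact mul_le_mul_of_nonneg_left (by linarith) (Real.exp_pos _).le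
  have low3 : √(2 * Real.pi) ^ n ≤ ∫ y : E, Real.exp (-l * h y ^ 2) := by
    have := mul_le_mul_of_nonneg_left low2 (pow_pos hK n).le
    rwa [mul_one, ← mul_assoc, ← mul_pow, mul_inv_cancel₀ hK.ne', one_pow, one_mul] at this
  have hG : 0 < Real.Gamma ((n : ℝ) / 2 + 1) := Real.Gamma_pos_of_pos (by positivity)
  have hfin : volume {y : E | h y ≤ 1} ≠ ⊤ := by
    refine (measure_mono (t := Metric.closedBall (0 : E) c⁻¹) fun y hy => ?_).trans_lt
      measure_closedBall_lt_top |>.ne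
    rw [mem_closedBall_zero_iff]
    have h1 : c * ‖y‖ ≤ 1 := (hh y).trans hy
    rw [← one_div, le_div_iff₀ hc]
    linarith
  have hsub : (√l) • {y : E | √l * h y < 1} ⊆ {y : E | h y ≤ 1} := by
    rintro _ ⟨y, hy, rfl⟩
    simp only [mem_ofPred_eq] at hy ⊢
    rw [S.h_smul, abs_of_pos hs0]
    exact hy.le
  have h5 := ENNReal.toReal_mono hfin (measure_mono (μ := (volume : Measure E)) hsub)
  rw [Measure.addHaar_smul, hvol, ← ENNReal.ofReal_mul (abs_nonneg _),
    ENNReal.toReal_ofReal (mul_nonneg (abs_nonneg _)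
      (div_nonneg ((pow_pos hK n).le.trans low3) hG.le)), abs_of_pos (pow_pos hs0 _)] at h5
  refine le_trans ?_ h5
  have e4 : √Real.pi * √((n : ℝ) / m) = √l * √(2 * Real.pi) := by
    rw [← Real.sqrt_mul Real.pi_pos.le, ← Real.sqrt_mul hl0.le]
    congr 1
    rw [hl]
    field_simp
  calc √Real.pi ^ n / Real.Gamma ((n : ℝ) / 2 + 1) * √((n : ℝ) / m) ^ n
      = √l ^ n * (√(2 * Real.pi) ^ n / Real.Gamma ((n : ℝ) / 2 + 1)) := by
        rw [div_mul_eq_mul_div, ← mul_pow, e4, mul_pow, mul_div_assoc]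
    _ ≤ _ := mul_le_mul_of_nonneg_left (div_le_div_of_nonneg_right low3 hG.le) (pow_pos hs0 _).le

end Pool.Agent.Lib.MP_77d991_gt.As

namespace Pool.Agent.Lib.MP_77d991_gt.As

variable {E : Type*} [NormedAddCommGroup E] [InnerProductSpace ℝ E] [FiniteDimensional ℝ E]
  [MeasurableSpace E] [BorelSpace E]

omit [FiniteDimensional ℝ E] [MeasurableSpace E] [BorelSpace E] in
lemma le_hV {n : ℕ} (v : Fin (n + 1) → E) (i : Fin (n + 1)) (y : E) : |⟪v i, y⟫| ≤ hV v y :=
  le_ciSup (f := fun i => |⟪v i, y⟫|) (Finite.bddAbove_range _) i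

omit [FiniteDimensional ℝ E] [MeasurableSpace E] [BorelSpace E] in
lemma exists_hV {n : ℕ} (v : Fin (n + 1) → E) (y : E) : ∃ i, |⟪v i, y⟫| = hV v y :=
  exists_eq_ciSup_of_finite (f := fun i => |⟪v i, y⟫|)

lemma assel_sign_meas : Measurable Real.sign := by
  unfold Real.sign
  refine Measurable.ite (measurableSet_lt measurable_id measurable_const) measurable_const ?_
  exact Measurable.ite (measurableSet_lt measurable_const measurable_id) measurable_const
    measurable_const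

lemma assel_sign_mul (r : ℝ) : Real.sign r * r = |r| := by
  rcases lt_trichotomy r 0 with h | rfl | h
  · rw [Real.sign_of_neg h, abs_of_neg h]; ring
  · simp
  · rw [Real.sign_of_pos h, abs_of_pos h]; ring

lemma assel_sign_abs (r : ℝ) : |Real.sign r| ≤ 1 := by
  rcases Real.sign_apply_eq r with h | h | h <;> rw [h] <;> simp

lemma assel_sign_pos_mul {c : ℝ} (hc : 0 < c) (r : ℝ) : Real.sign (c * r) = Real.sign r := by
  rcases lt_trichotomy r 0 with h | rfl | h
  · rw [Real.sign_of_neg h, Real.sign_of_neg (mul_neg_of_pos_of_neg hc h)]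
  · simp
  · rw [Real.sign_of_pos h, Real.sign_of_pos (mul_pos hc h)]

open Classical in
/-- a chosen index satisfying `P`, if there is one. -/
noncomputable def assel_pick {n : ℕ} (P : Fin (n + 1) → Prop) : Fin (n + 1) :=
  if h : ∃ k, P k then h.choose else 0

lemma assel_pick_spec {n : ℕ} {P : Fin (n + 1) → Prop} (h : ∃ k, P k) : P (assel_pick P) := by
  unfold assel_pick
  rw [dif_pos h]
  exact h.choose_spec

/-- A measurable, odd, `0`-homogeneous norming vector. Sketch: `p y k := ∃ hk : k < n+1,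
∀ j, |⟪v j, y⟫| ≤ |⟪v ⟨k,hk⟩, y⟫|`, `I y = Nat.find` (`measurable_find`), extend `v` to `ℕ` by `0`,
`x y = Real.sign ⟪v (I y), y⟫ • v (I y)` (`Real.measurable_sign` or `SignType.sign`; measurability of
`y ↦ v (I y)` by `measurable_from_top.comp`); `p (c • y) k ↔ p y k` for `c ≠ 0`. -/
theorem exists_sel {n : ℕ} (v : Fin (n + 1) → E) {R : ℝ} (hR : ∀ i, ‖v i‖ ≤ R) :
    ∃ x, Sel (hV v) x R := by
  classical
  let P : E → Fin (n + 1) → Prop := fun y k => ∀ j, |⟪v j, y⟫| ≤ |⟪v k, y⟫|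
  have hPm : Measurable P := by
    refine measurable_pi_lambda _ fun k => ?_
    refine measurableSet_setOfPred.1 ?_
    simp only [P, Set.ofPred_forall]
    exact MeasurableSet.iInter fun j => measurableSet_le (by fun_prop) (by fun_prop)
  have hPe : ∀ y, ∃ k, P y k := fun y => by
    obtain ⟨i, hi⟩ := exists_hV v y
    exact ⟨i, fun j => hi ▸ le_hV v j y⟩
  have hPs : ∀ (c : ℝ) (y : E), c ≠ 0 → P (c • y) = P y := fun c y hc => by
    funext k
    simp only [P, inner_smul_right, abs_mul, mul_le_mul_iff_right₀ (abs_pos.2 hc)]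
  let u : E → E := fun y => v (assel_pick (P y))
  have hum : Measurable u := (measurable_of_finite (fun Q => v (assel_pick Q))).comp hPm
  have hmax : ∀ y, |⟪u y, y⟫| = hV v y := fun y => by
    obtain ⟨i, hi⟩ := exists_hV v y
    exact le_antisymm (le_hV v _ y) (hi ▸ assel_pick_spec (hPe y) i)
  refine ⟨fun y => Real.sign ⟪u y, y⟫ • u y, ?_, fun y => ?_, fun y w => ?_, fun y => ?_,
    fun c y hc => ?_, fun y => ?_⟩
  · exact (assel_sign_meas.comp (hum.inner measurable_id)).smul hum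
  · rw [norm_smul, Real.norm_eq_abs]
    calc _ ≤ 1 * R := mul_le_mul (assel_sign_abs _) (hR _) (norm_nonneg _) zero_le_one
      _ = R := one_mul R
  · rw [real_inner_smul_left]
    calc _ ≤ |Real.sign ⟪u y, y⟫ * ⟪u y, w⟫| := le_abs_self _
      _ = |Real.sign ⟪u y, y⟫| * |⟪u y, w⟫| := abs_mul _ _
      _ ≤ 1 * hV v w :=
        mul_le_mul (assel_sign_abs _) (le_hV v _ w) (abs_nonneg _) zero_le_one
      _ = _ := one_mul _
  · rw [real_inner_smul_left, assel_sign_mul, hmax]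
  · have e : u (c • y) = u y := by simp only [u, hPs c y hc.ne']
    simp only [e, inner_smul_right, assel_sign_pos_mul hc]
  · have e : u (-y) = u y := by
      have := hPs (-1) y (by norm_num)
      rw [neg_one_smul] at this
      simp only [u, this]
    simp only [e, inner_neg_right, Real.sign_neg, neg_smul]

lemma assel_ae (u : E) : ∀ᵐ g ∂stdGaussian E, u = 0 ∨ ⟪u, g⟫ ≠ 0 := by
  rcases eq_or_ne u 0 with rfl | hu
  · simp
  have hv : (‖u‖ ^ 2).toNNReal ≠ 0 := by
    simpa using hu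
  have := nullSingletonClass_gaussianReal (μ := 0) hv
  have h1 : ∀ᵐ t ∂((stdGaussian E).map (fun g => ⟪u, g⟫)), t ≠ 0 := by
    rw [map_inner]
    exact compl_mem_ae_iff.2 (measure_singleton (0 : ℝ))
  have h2 := ae_of_ae_map (by fun_prop) h1
  filter_upwards [h2] with g hg using Or.inr hg

omit [FiniteDimensional ℝ E] [MeasurableSpace E] [BorelSpace E] in
lemma assel_ev {u u' g : E} (w : E) (h : u' - u = 0 ∨ ⟪u' - u, g⟫ ≠ 0) (hle : ⟪u', g⟫ ≤ ⟪u, g⟫) :
    ∀ᶠ t in nhds (0 : ℝ), ⟪u', g + t • w⟫ ≤ ⟪u, g + t • w⟫ := by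
  rcases h with h | h
  · rw [sub_eq_zero.1 h]
    simp
  · rw [inner_sub_left, sub_ne_zero] at h
    have hlt : ⟪u', g + (0 : ℝ) • w⟫ < ⟪u, g + (0 : ℝ) • w⟫ := by
      simpa using lt_of_le_of_ne hle h
    have c1 : ContinuousAt (fun t : ℝ => ⟪u', g + t • w⟫) 0 := by fun_prop
    have c2 : ContinuousAt (fun t : ℝ => ⟪u, g + t • w⟫) 0 := by fun_prop
    exact (c1.eventually_lt c2 hlt).mono fun t ht => ht.le

omit [FiniteDimensional ℝ E] [BorelSpace E] in
lemma assel_loc {n : ℕ} (v : Fin (n + 1) → E) {x : E → E} {R : ℝ} (S : Sel (hV v) x R) {g : E}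
    (hg : ∀ (i j : Fin (n + 1)) (s t : Bool), (cond s (v i) (-v i) - cond t (v j) (-v j) = 0 ∨
      ⟪cond s (v i) (-v i) - cond t (v j) (-v j), g⟫ ≠ 0)) (w : E) :
    ∀ᶠ t in nhds (0 : ℝ), hV v (g + t • w) = hV v g + t * ⟪x g, w⟫ := by
  obtain ⟨j, hj⟩ := exists_hV v g
  obtain ⟨s, hs⟩ : ∃ s : Bool, ⟪cond s (v j) (-v j), g⟫ = hV v g := by
    rcases le_total 0 ⟪v j, g⟫ with h | h
    · exact ⟨true, by rw [← hj, abs_of_nonneg h]; rfl⟩
    · exact ⟨false, by rw [← hj, abs_of_nonpos h]; exact inner_neg_left _ _⟩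
  set u := cond s (v j) (-v j) with hu
  have h1 : ∀ᶠ t in nhds (0 : ℝ), hV v (g + t • w) ≤ hV v g + t * ⟪u, w⟫ := by
    have ha : ∀ i, ∀ᶠ t in nhds (0 : ℝ), ⟪v i, g + t • w⟫ ≤ ⟪u, g + t • w⟫ := fun i =>
      assel_ev w (hg i j true s) (by rw [hs]; exact (le_abs_self _).trans (le_hV v i g))
    have hb : ∀ i, ∀ᶠ t in nhds (0 : ℝ), ⟪-v i, g + t • w⟫ ≤ ⟪u, g + t • w⟫ := fun i =>
      assel_ev w (hg i j false s) (by
        rw [hs, inner_neg_left]; exact (neg_le_abs _).trans (le_hV v i g))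
    filter_upwards [Filter.eventually_all.2 ha, Filter.eventually_all.2 hb] with t h1 h2
    obtain ⟨i, hi⟩ := exists_hV v (g + t • w)
    have e : ⟪u, g + t • w⟫ = hV v g + t * ⟪u, w⟫ := by
      rw [inner_add_right, inner_smul_right, hs]
    rw [← hi, ← e]
    refine abs_le.2 ⟨?_, h1 i⟩
    have := h2 i
    rw [inner_neg_left] at this
    linarith
  have h2 : ∀ t : ℝ, hV v g + t * ⟪x g, w⟫ ≤ hV v (g + t • w) := fun t => by
    have := S.le g (g + t • w)
    rwa [inner_add_right, inner_smul_right, S.eq] at this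
  have h3 : ∀ᶠ t in nhds (0 : ℝ), t * ⟪x g, w⟫ ≤ t * ⟪u, w⟫ :=
    h1.mono fun t ht => by linarith [h2 t]
  have h4 : ⟪x g, w⟫ = ⟪u, w⟫ := by
    obtain ⟨e, he, hb⟩ := Metric.eventually_nhds_iff.1 h3
    have p1 := hb (y := e / 2) (by rw [Real.dist_eq, sub_zero, abs_of_pos (by linarith)]; linarith)
    have p2 := hb (y := -(e / 2)) (by
      rw [Real.dist_eq, sub_zero, abs_neg, abs_of_pos (by linarith)]; linarith)
    have he2 : 0 < e / 2 := by linarith
    apply le_antisymm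
    · exact le_of_mul_le_mul_left p1 he2
    · exact le_of_mul_le_mul_left (by linarith) he2
  filter_upwards [h1] with t ht
  exact le_antisymm (h4 ▸ ht) (h2 t)

lemma assel_le {n : ℕ} {ι : Type*} [Fintype ι] (b : OrthonormalBasis ι ℝ E)
    (v : Fin (n + 1) → E) {x : E → E} {R a : ℝ} (S : Sel (hV v) x R)
    (hm : ∫ y, hV v y ∂stdGaussian E = a * Fintype.card ι)
    (htr : ∀ T : E →L[ℝ] E, a * ∑ i, ⟪b i, T (b i)⟫ ≤ ∫ y, hV v (T y) ∂stdGaussian E)
    (T : E →L[ℝ] E) : a * ∑ i, ⟪b i, T (b i)⟫ ≤ ∫ y, ⟪x y, T y⟫ ∂stdGaussian E := by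
  have hi0 : Integrable (hV v) (stdGaussian E) := by
    simpa using S.integrable_lin (ContinuousLinearMap.id ℝ E)
  have hit : ∀ t : ℝ, Integrable (fun y => hV v (y + t • T y)) (stdGaussian E) := fun t => by
    simpa using S.integrable_lin (ContinuousLinearMap.id ℝ E + t • T)
  have hlim : Filter.Tendsto
      (fun t : ℝ => ∫ y, t⁻¹ * (hV v (y + t • T y) - hV v y) ∂stdGaussian E)
      (nhdsWithin 0 (Ioi 0)) (nhds (∫ y, ⟪x y, T y⟫ ∂stdGaussian E)) := by
    refine tendsto_integral_filter_of_dominated_convergence (fun y => hV v (T y)) ?_ ?_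
      (S.integrable_lin T) ?_
    · exact Filter.Eventually.of_forall fun t =>
        (((hit t).sub hi0).const_mul _).aestronglyMeasurable
    · filter_upwards [self_mem_nhdsWithin] with t ht
      refine Filter.Eventually.of_forall fun y => ?_
      have ht' : (0 : ℝ) < t := ht
      have p1 := S.h_add y (t • T y)
      have p2 := S.h_add (y + t • T y) (-(t • T y))
      rw [add_neg_cancel_right, S.h_neg] at p2
      rw [S.h_smul, abs_of_pos ht'] at p1 p2
      rw [Real.norm_eq_abs, abs_mul, abs_of_pos (inv_pos.2 ht'), inv_mul_le_iff₀ ht']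
      exact abs_le.2 ⟨by linarith, by linarith⟩
    · have hae : ∀ᵐ g ∂stdGaussian E, ∀ (i j : Fin (n + 1)) (s t : Bool),
          (cond s (v i) (-v i) - cond t (v j) (-v j) = 0 ∨
            ⟪cond s (v i) (-v i) - cond t (v j) (-v j), g⟫ ≠ 0) := by
        simp only [ae_all_iff]
        exact fun i j s t => assel_ae _
      filter_upwards [hae] with g hg
      refine tendsto_const_nhds.congr' ?_
      filter_upwards [self_mem_nhdsWithin, nhdsWithin_le_nhds (assel_loc v S hg (T g))]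
        with t ht h
      have ht' : (0 : ℝ) < t := ht
      rw [h]
      field_simp
      ring
  refine ge_of_tendsto hlim ?_
  filter_upwards [self_mem_nhdsWithin] with t ht
  have ht' : (0 : ℝ) < t := ht
  have h1 := htr (ContinuousLinearMap.id ℝ E + t • T)
  have e : ∑ i, ⟪b i, (ContinuousLinearMap.id ℝ E + t • T) (b i)⟫ =
      Fintype.card ι + t * ∑ i, ⟪b i, T (b i)⟫ := by
    simp [inner_add_right, inner_smul_right, Finset.sum_add_distrib, Finset.mul_sum]
  rw [e] at h1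
  simp only [add_apply, ContinuousLinearMap.id_apply,
    smul_apply] at h1
  rw [integral_const_mul, integral_sub (hit t) hi0, hm, le_inv_mul_iff₀ ht']
  linarith

/-- From the trace inequality to isotropy. Sketch: fix `T`. For a.e. `g` (off the null hyperplanes
`⟪v i - v j, g⟫ = 0`, `⟪v i + v j, g⟫ = 0` for the nonzero ones among these vectors; use `map_inner` and
`noAtoms`/`nullSingletonClass` of `gaussianReal`) and every `w`, for small `t > 0`
`hV v (g + t w) = hV v g + t ⟪u, w⟫` where `u = ± v i` is the maximiser at `g`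
(if `hV v g = 0` then `⟪v i + v i, g⟫ = 0` forces all `v i = 0`); and `u = x g` in the sense
`⟪x g, w⟫ = ⟪u, w⟫` (apply `Sel.sub_le`/`le`,`eq` with `w` and `-w`). Dominated convergence
(`t = 1/(k+1)`, bound `R ‖T g‖`) and `htr` for `1 + t T` give `a ∑⟪b i, T b i⟫ ≤ ∫ ⟪x g, T g⟫`;
`-T` gives equality; take `T = (innerSL w).smulRight z` and `ext_inner`. -/
theorem iso_of_trace {n : ℕ} {ι : Type*} [Fintype ι] (b : OrthonormalBasis ι ℝ E)
    (v : Fin (n + 1) → E) {x : E → E} {R a : ℝ} (S : Sel (hV v) x R)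
    (hm : ∫ y, hV v y ∂stdGaussian E = a * Fintype.card ι)
    (htr : ∀ T : E →L[ℝ] E, a * ∑ i, ⟪b i, T (b i)⟫ ≤ ∫ y, hV v (T y) ∂stdGaussian E) :
    Iso x a := by
  have key : ∀ T : E →L[ℝ] E, ∫ y, ⟪x y, T y⟫ ∂stdGaussian E = a * ∑ i, ⟪b i, T (b i)⟫ :=
    fun T => by
      have h1 := assel_le b v S hm htr T
      have h2 := assel_le b v S hm htr (-T)
      simp only [neg_apply, inner_neg_right, Finset.sum_neg_distrib,
        integral_neg] at h2
      linarith
  intro w
  refine ext_inner_left ℝ fun z => ?_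
  have h := key ((innerSL ℝ w).smulRight z)
  simp only [ContinuousLinearMap.smulRight_apply, innerSL_apply_apply, inner_smul_right] at h
  rw [b.sum_inner_mul_inner] at h
  rw [← integral_inner (S.integrable_smul w), inner_smul_right, real_inner_comm w z, ← h]
  congr 1
  funext y
  rw [inner_smul_right, real_inner_comm y w, real_inner_comm z]

end Pool.Agent.Lib.MP_77d991_gt.As
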