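import Pool.Agent.Lib.MP_77d991_gt.StarD

open MeasureTheory Set Filter Topology

namespace Pool.Agent.Lib.MP_77d991_gt.StarAsymptoticWithdrawn

/-- `M` is an `o`-symmetric convex body of `ℝ^d`. -/
def IsSymmBody {d : ℕ} (M : Set (EuclideanSpace ℝ (Fin d))) : Prop :=
  IsCompact M ∧ Convex ℝ M ∧ (interior M).Nonempty ∧ M = -M

/-- The volumes of the parallelotopes `c + {∑ tᵢ uᵢ, 0 ≤ tᵢ ≤ 1}` that contain `M`. -/
def parVolumes {d : ℕ} (M : Set (EuclideanSpace ℝ (Fin d))) : Set ℝ :=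
  {x | ∃ (c : EuclideanSpace ℝ (Fin d)) (u : Fin d → EuclideanSpace ℝ (Fin d)),
    LinearIndependent ℝ u ∧ M ⊆ (fun z => c + z) '' parallelepiped u ∧
      x = (volume ((fun z => c + z) '' parallelepiped u)).toReal}

/-- Gromov's mass* of the unit ball `M`. -/
noncomputable def massStar {d : ℕ} (M : Set (EuclideanSpace ℝ (Fin d))) : ℝ :=
  2 ^ d * ((volume M).toReal / sInf (parVolumes M))

/-- The volume of the Euclidean unit ball of `ℝ^d`. -/
noncomputable def omega (d : ℕ) : ℝ := Real.pi ^ ((d : ℝ) / 2) / Real.Gamma ((d : ℝ) / 2 + 1)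

open Pool.Agent.Lib.MP_77d991_gt.As

lemma omega_eq (d : ℕ) : omega d = √Real.pi ^ d / Real.Gamma ((d : ℝ) / 2 + 1) := by
  rw [omega, Real.sqrt_eq_rpow, ← Real.rpow_natCast, ← Real.rpow_mul Real.pi_pos.le]
  congr 2
  ring

lemma omega_pos (d : ℕ) : 0 < omega d :=
  div_pos (Real.rpow_pos_of_pos Real.pi_pos _) (Real.Gamma_pos_of_pos (by positivity))

lemma le_of_mem {d : ℕ} {M : Set (Eu d)} {x : ℝ} (hx : x ∈ parVolumes M) :
    (volume M).toReal ≤ x := by
  obtain ⟨c, u, -, h1, rfl⟩ := hx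
  refine ENNReal.toReal_mono ?_ (measure_mono h1)
  have h2 : IsCompact (parallelepiped u) := by
    unfold parallelepiped
    exact IsCompact.image isCompact_Icc (by fun_prop)
  exact (h2.image (by fun_prop)).measure_lt_top.ne

lemma strips {d : ℕ} {M : Set (Eu d)} (hM : IsSymmBody M) (w : Fin d → Eu d)
    (hw : ∀ i, ∀ y ∈ M, |inner ℝ (w i) y| ≤ 1) :
    (volume M).toReal * |(Matrix.of fun i l => w i l).det| ≤ massStar M := by
  have hV : 0 < (volume M).toReal := ENNReal.toReal_pos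
    ((isOpen_interior.measure_pos volume hM.2.2.1).trans_le (measure_mono interior_subset)).ne'
    hM.1.measure_lt_top.ne
  by_cases h0 : (Matrix.of fun i l => w i l).det = 0
  · rw [h0, abs_zero, mul_zero]
    exact mul_nonneg (by positivity)
      (div_nonneg hV.le (Real.sInf_nonneg fun x hx => hV.le.trans (le_of_mem hx)))
  obtain ⟨c, u, h1, h2, h3⟩ := geo_par w h0
  have h4 : 2 ^ d / |(Matrix.of fun i l => w i l).det| ∈ parVolumes M :=
    ⟨c, u, h1, fun y hy => h2 fun i => hw i y hy, h3.symm⟩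
  have h5 := csInf_le ⟨_, fun x hx => le_of_mem hx⟩ h4
  have h6 : 0 < sInf (parVolumes M) := hV.trans_le (le_csInf ⟨_, h4⟩ fun x hx => le_of_mem hx)
  rw [le_div_iff₀ (abs_pos.2 h0)] at h5
  rw [massStar, ← mul_div_assoc, le_div_iff₀ h6]
  nlinarith

lemma ball_body (d : ℕ) : IsSymmBody (Metric.closedBall (0 : Eu d) 1) :=
  ⟨isCompact_closedBall _ _, convex_closedBall _ _,
    ⟨0, mem_interior_iff_mem_nhds.2 (Metric.closedBall_mem_nhds _ one_pos)⟩, by simp⟩

lemma ball_mass (d : ℕ) (hd : 1 ≤ d) : massStar (Metric.closedBall (0 : Eu d) 1) = omega d := by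
  have h0 : (Matrix.of fun i l : Fin d => (EuclideanSpace.single i (1 : ℝ) : Eu d) l) = 1 := by
    ext i l
    simp [Matrix.one_apply, eq_comm]
  obtain ⟨c, u, h1, h2, h3⟩ := geo_par (fun i : Fin d => (EuclideanSpace.single i (1 : ℝ) : Eu d))
    (by rw [h0]; simp)
  rw [h0, Matrix.det_one, abs_one, div_one] at h3
  have h4 : sInf (parVolumes (Metric.closedBall (0 : Eu d) 1)) = 2 ^ d := by
    refine IsLeast.csInf_eq ⟨⟨c, u, h1, fun y hy => h2 fun i => ?_, h3.symm⟩, ?_⟩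
    · refine (abs_real_inner_le_norm _ _).trans ?_
      simpa using hy
    · rintro _ ⟨c, u, h1, h2, rfl⟩
      exact geo_ball c u h1 h2
  have : Nonempty (Fin d) := ⟨⟨0, hd⟩⟩
  rw [massStar, h4, mul_div_cancel₀ _ (by positivity), EuclideanSpace.volume_closedBall, omega_eq,
    Fintype.card_fin, ENNReal.ofReal_one, one_pow, one_mul, ENNReal.toReal_ofReal]
  rw [← omega_eq]
  exact (omega_pos d).le

theorem result :
    Tendsto (fun d : ℕ => (sInf {x : ℝ | ∃ M : Set (EuclideanSpace ℝ (Fin d)),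
      IsSymmBody M ∧ x = massStar M} / omega d) ^ (1 / (d : ℝ))) atTop (𝓝 1) := by
  have key : ∀ ε : ℝ, 0 < ε → ∃ d₀ : ℕ, ∀ d ≥ d₀, ∀ M : Set (Eu d), IsSymmBody M →
      Real.exp (-ε * d) * omega d ≤ massStar M := by
    intro ε hε
    obtain ⟨d0, h⟩ := main_lower hε
    refine ⟨d0, fun d hd M hM => ?_⟩
    obtain ⟨w, h1, h2⟩ := h d hd M hM.1 hM.2.1 hM.2.2.1 hM.2.2.2
    rw [omega_eq]
    exact h2.trans (strips hM w h1)
  refine tendsto_order.2 ⟨fun a ha => ?_, fun a ha => ?_⟩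
  · obtain ⟨ε, hε, h1⟩ : ∃ ε : ℝ, 0 < ε ∧ a < Real.exp (-ε) :=
      ⟨(1 - a) / 2, by linarith, by linarith [Real.add_one_le_exp (-((1 - a) / 2))]⟩
    obtain ⟨d0, h⟩ := key ε hε
    filter_upwards [eventually_ge_atTop d0, eventually_ge_atTop 1] with d hd hd1
    have hdpos : (0 : ℝ) < d := by exact_mod_cast hd1
    have h2 : Real.exp (-ε * d) ≤ sInf {x : ℝ | ∃ M : Set (Eu d),
        IsSymmBody M ∧ x = massStar M} / omega d := by
      rw [le_div_iff₀ (omega_pos d)]
      refine le_csInf ⟨_, _, ball_body d, rfl⟩ ?_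
      rintro _ ⟨M, hM, rfl⟩
      exact h d hd M hM
    refine h1.trans_le (le_trans (le_of_eq ?_)
      (Real.rpow_le_rpow (Real.exp_pos _).le h2 (by positivity)))
    rw [← Real.exp_mul]
    congr 1
    field_simp
  · obtain ⟨d0, h⟩ := key 1 one_pos
    filter_upwards [eventually_ge_atTop d0, eventually_ge_atTop 1] with d hd hd1
    have h1 : ∀ x ∈ {x : ℝ | ∃ M : Set (Eu d), IsSymmBody M ∧ x = massStar M},
        Real.exp (-1 * d) * omega d ≤ x := by
      rintro _ ⟨M, hM, rfl⟩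
      exact h d hd M hM
    refine lt_of_le_of_lt (Real.rpow_le_one (div_nonneg (Real.sInf_nonneg fun x hx =>
      (mul_pos (Real.exp_pos _) (omega_pos d)).le.trans (h1 x hx)) (omega_pos d).le) ?_
      (by positivity)) ha
    rw [div_le_one (omega_pos d)]
    exact csInf_le ⟨_, h1⟩ ⟨_, ball_body d, (ball_mass d hd1).symm⟩

end Pool.Agent.Lib.MP_77d991_gt.StarAsymptoticWithdrawn
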