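import Pool.Agent.Lib.MP_77d991_gt.StarA

open MeasureTheory ProbabilityTheory Set
open scoped RealInnerProductSpace

namespace Pool.Agent.Lib.MP_77d991_gt.As

variable {E : Type*} [NormedAddCommGroup E] [InnerProductSpace ℝ E] [FiniteDimensional ℝ E]
  [MeasurableSpace E] [BorelSpace E]

/-- correlation function of `N` along correlated Gaussian pairs. -/
noncomputable def phi (N : E → E) (t : ℝ) : ℝ :=
  ∫ p, ⟪N p.1, N (t • p.1 + √(1 - t ^ 2) • p.2)⟫ ∂(stdGaussian E).prod (stdGaussian E)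

lemma asou_int {F G : Type*} [NormedAddCommGroup F] [NormedSpace ℝ F] [FiniteDimensional ℝ F]
    [MeasurableSpace F] [BorelSpace F] [NormedAddCommGroup G] (μ : Measure F) [IsGaussian μ]
    {f : F → G} (hf : AEStronglyMeasurable f μ) (C : ℝ)
    (h : ∀ g, ‖f g‖ ≤ C * (1 + ‖g‖) ^ 2) : Integrable f μ := by
  have : CompleteSpace F := FiniteDimensional.complete ℝ F
  have h0 : MemLp (fun g : F => ‖g‖) 2 μ := by
    simpa using (IsGaussian.memLp_id μ 2 (by simp)).norm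
  have h1 : MemLp (fun g : F => (1 : ℝ) + ‖g‖) 2 μ := (memLp_const (1 : ℝ)).add h0
  exact Integrable.mono' (h1.integrable_sq.const_mul C) hf (Filter.Eventually.of_forall h)

omit [FiniteDimensional ℝ E] [MeasurableSpace E] [BorelSpace E] in
lemma asou_comb {t : ℝ} (ht : |t| ≤ 1) (y y' : E) :
    ‖t • y + √(1 - t ^ 2) • y'‖ ≤ ‖y‖ + ‖y'‖ := by
  have h1 : √(1 - t ^ 2) ≤ 1 := Real.sqrt_le_one.2 (by nlinarith [sq_nonneg t])
  refine (norm_add_le _ _).trans (add_le_add ?_ ?_)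
  · rw [norm_smul, Real.norm_eq_abs]
    exact mul_le_of_le_one_left (norm_nonneg _) ht
  · rw [norm_smul, Real.norm_of_nonneg (Real.sqrt_nonneg _)]
    exact mul_le_of_le_one_left (norm_nonneg _) h1

omit [FiniteDimensional ℝ E] [MeasurableSpace E] [BorelSpace E] in
lemma asou_pair {N : E → E} {K : ℝ} (hK : ∀ y, ‖N y‖ ≤ K * (1 + ‖y‖)) {y w : E} {s : ℝ}
    (hs : 0 ≤ s) (hy : ‖y‖ ≤ 2 * s) (hw : ‖w‖ ≤ 2 * s) :
    ‖⟪N y, N w⟫‖ ≤ 4 * K ^ 2 * (1 + s) ^ 2 := by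
  have hK0 : 0 ≤ K := by simpa using (norm_nonneg _).trans (hK 0)
  have h1 : ‖N y‖ ≤ 2 * K * (1 + s) := (hK y).trans (by nlinarith)
  have h2 : ‖N w‖ ≤ 2 * K * (1 + s) := (hK w).trans (by nlinarith)
  calc _ ≤ ‖N y‖ * ‖N w‖ := norm_inner_le_norm _ _
    _ ≤ (2 * K * (1 + s)) * (2 * K * (1 + s)) :=
        mul_le_mul h1 h2 (norm_nonneg _) (by positivity)
    _ = _ := by ring

lemma asou_int_in {N : E → E} (hN : Measurable N) {K : ℝ} (hK : ∀ y, ‖N y‖ ≤ K * (1 + ‖y‖))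
    {t : ℝ} (ht : |t| ≤ 1) (y : E) :
    Integrable (fun y' => N (t • y + √(1 - t ^ 2) • y')) (stdGaussian E) := by
  have hK0 : 0 ≤ K := by simpa using (norm_nonneg _).trans (hK 0)
  refine asou_int _ (Measurable.aestronglyMeasurable (by fun_prop)) (K * (1 + ‖y‖)) fun g => ?_
  refine (hK _).trans ?_
  rw [mul_assoc]
  refine mul_le_mul_of_nonneg_left ?_ hK0
  have h1 := asou_comb ht y g
  have h2 := norm_nonneg y
  have h3 := norm_nonneg g
  nlinarith [mul_nonneg h2 h3, mul_nonneg h2 (sq_nonneg ‖g‖), sq_nonneg ‖g‖]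

lemma asou_int_pair {N : E → E} (hN : Measurable N) {K : ℝ} (hK : ∀ y, ‖N y‖ ≤ K * (1 + ‖y‖))
    {t : ℝ} (ht : |t| ≤ 1) :
    Integrable (fun p : E × E => ⟪N p.1, N (t • p.1 + √(1 - t ^ 2) • p.2)⟫)
      ((stdGaussian E).prod (stdGaussian E)) := by
  refine asou_int _ (Measurable.aestronglyMeasurable (by fun_prop)) (4 * K ^ 2) fun p => ?_
  have h1 := norm_fst_le p
  have h2 := norm_snd_le p
  refine asou_pair hK (norm_nonneg _) (by linarith [norm_nonneg p]) ?_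
  linarith [asou_comb ht p.1 p.2]

lemma asou_phi_eq {N : E → E} (hN : Measurable N) {K : ℝ} (hK : ∀ y, ‖N y‖ ≤ K * (1 + ‖y‖))
    {t : ℝ} (ht : |t| ≤ 1) :
    Integrable (fun y => ⟪N y, ∫ y', N (t • y + √(1 - t ^ 2) • y') ∂stdGaussian E⟫)
      (stdGaussian E) ∧
    phi N t = ∫ y, ⟪N y, ∫ y', N (t • y + √(1 - t ^ 2) • y') ∂stdGaussian E⟫ ∂stdGaussian E := by
  have e : (fun y => ⟪N y, ∫ y', N (t • y + √(1 - t ^ 2) • y') ∂stdGaussian E⟫) =
      fun y => ∫ y', ⟪N y, N (t • y + √(1 - t ^ 2) • y')⟫ ∂stdGaussian E := by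
    funext y
    rw [integral_inner (asou_int_in hN hK ht y)]
  rw [e]
  exact ⟨(asou_int_pair hN hK ht).integral_prod_left, integral_prod _ (asou_int_pair hN hK ht)⟩

lemma asou_law {t : ℝ} (ht : |t| ≤ 1) :
    ((stdGaussian E).prod ((stdGaussian E).prod (stdGaussian E))).map
      (fun p : E × E × E => ((t • p.1 + √(1 - t ^ 2) • p.2.1, t • p.1 + √(1 - t ^ 2) • p.2.2) : E × E)) =
    ((stdGaussian E).prod (stdGaussian E)).map
      (fun p : E × E => ((p.1, t ^ 2 • p.1 + √(1 - (t ^ 2) ^ 2) • p.2) : E × E)) := by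
  have : CompleteSpace E := FiniteDimensional.complete ℝ E
  have ht2 : t ^ 2 ≤ 1 := by rw [← sq_abs]; nlinarith [abs_nonneg t]
  have hs : √(1 - t ^ 2) ^ 2 = 1 - t ^ 2 := Real.sq_sqrt (by linarith)
  have hr : √(1 - (t ^ 2) ^ 2) ^ 2 = 1 - (t ^ 2) ^ 2 :=
    Real.sq_sqrt (by nlinarith [sq_nonneg t])
  set σ := √(1 - t ^ 2)
  set ρ := √(1 - (t ^ 2) ^ 2)
  let A : E × E × E →L[ℝ] E × E :=
    (t • ContinuousLinearMap.fst ℝ E (E × E) +
      σ • (ContinuousLinearMap.fst ℝ E E).comp (ContinuousLinearMap.snd ℝ E (E × E))).prod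
    (t • ContinuousLinearMap.fst ℝ E (E × E) +
      σ • (ContinuousLinearMap.snd ℝ E E).comp (ContinuousLinearMap.snd ℝ E (E × E)))
  let B : E × E →L[ℝ] E × E := (ContinuousLinearMap.fst ℝ E E).prod
    (t ^ 2 • ContinuousLinearMap.fst ℝ E E + ρ • ContinuousLinearMap.snd ℝ E E)
  have hA := ((Gq_std (E := E)).prod ((Gq_std (E := E)).prod (Gq_std (E := E)))).map A
  have hB := ((Gq_std (E := E)).prod (Gq_std (E := E))).map B
  refine hA.ext hB fun L => ?_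
  let b := stdOrthonormalBasis ℝ E
  simp only [b.norm_dual, ← Finset.sum_add_distrib]
  refine Finset.sum_congr rfl fun i _ => ?_
  have e : ∀ (c d : ℝ), L (c • b i, d • b i) = c * L (b i, 0) + d * L (0, b i) := fun c d => by
    have : ((c • b i, d • b i) : E × E) = c • (b i, 0) + d • (0, b i) := by simp
    rw [this, map_add, map_smul, map_smul, smul_eq_mul, smul_eq_mul]
  have e1 := e t t
  have e2 := e σ 0
  have e3 := e 0 σ
  have e4 := e 1 (t ^ 2)
  have e5 := e 0 ρ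
  simp only [zero_smul, one_smul] at e2 e3 e4 e5
  simp [A, B, e1, e2, e3, e4, e5]
  linear_combination (L (b i, 0) ^ 2 + L (0, b i) ^ 2) * hs - L (0, b i) ^ 2 * hr

lemma asou_sq {N : E → E} (hN : Measurable N) {K : ℝ} (hK : ∀ y, ‖N y‖ ≤ K * (1 + ‖y‖))
    {t : ℝ} (ht : |t| ≤ 1) :
    Integrable (fun y => ‖∫ y', N (t • y + √(1 - t ^ 2) • y') ∂stdGaussian E‖ ^ 2)
      (stdGaussian E) ∧
    ∫ y, ‖∫ y', N (t • y + √(1 - t ^ 2) • y') ∂stdGaussian E‖ ^ 2 ∂stdGaussian E =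
      phi N (t ^ 2) := by
  have hi : Integrable (fun p : E × E × E =>
      ⟪N (t • p.1 + √(1 - t ^ 2) • p.2.1), N (t • p.1 + √(1 - t ^ 2) • p.2.2)⟫)
      ((stdGaussian E).prod ((stdGaussian E).prod (stdGaussian E))) := by
    refine asou_int _ (Measurable.aestronglyMeasurable (by fun_prop)) (4 * K ^ 2) fun p => ?_
    have h1 := norm_fst_le p
    have h2 := norm_snd_le p
    have h3 := norm_fst_le p.2
    have h4 := norm_snd_le p.2
    refine asou_pair hK (norm_nonneg _) ?_ ?_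
    · linarith [asou_comb ht p.1 p.2.1]
    · linarith [asou_comb ht p.1 p.2.2]
  have e : (fun y => ‖∫ y', N (t • y + √(1 - t ^ 2) • y') ∂stdGaussian E‖ ^ 2) =
      fun y => ∫ q : E × E, ⟪N (t • y + √(1 - t ^ 2) • q.1), N (t • y + √(1 - t ^ 2) • q.2)⟫
        ∂(stdGaussian E).prod (stdGaussian E) := by
    funext y
    have := integral_prod_bilin (innerSL ℝ : E →L[ℝ] E →L[ℝ] ℝ) (asou_int_in hN hK ht y)
      (asou_int_in hN hK ht y)
    rw [← real_inner_self_eq_norm_sq]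
    exact this.symm
  rw [e]
  refine ⟨hi.integral_prod_left, ?_⟩
  rw [← integral_prod _ hi]
  have h1 := integral_map (μ := (stdGaussian E).prod ((stdGaussian E).prod (stdGaussian E)))
    (φ := fun p : E × E × E =>
      ((t • p.1 + √(1 - t ^ 2) • p.2.1, t • p.1 + √(1 - t ^ 2) • p.2.2) : E × E))
    (f := fun q : E × E => ⟪N q.1, N q.2⟫) (by fun_prop)
    (Measurable.aestronglyMeasurable (by fun_prop))
  have h2 := integral_map (μ := (stdGaussian E).prod (stdGaussian E))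
    (φ := fun p : E × E => ((p.1, t ^ 2 • p.1 + √(1 - (t ^ 2) ^ 2) • p.2) : E × E))
    (f := fun q : E × E => ⟪N q.1, N q.2⟫) (by fun_prop)
    (Measurable.aestronglyMeasurable (by fun_prop))
  rw [asou_law ht, h2] at h1
  exact h1.symm

/-- Cauchy-Schwarz step. -/
theorem phi_cs {N : E → E} (hN : Measurable N) {K : ℝ} (hK : ∀ y, ‖N y‖ ≤ K * (1 + ‖y‖))
    {t : ℝ} (ht : |t| ≤ 1) {lam : ℝ} (hl : 0 < lam) :
    |phi N t| ≤ (lam * ∫ y, ‖N y‖ ^ 2 ∂stdGaussian E + phi N (t ^ 2) / lam) / 2 := by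
  obtain ⟨-, h2⟩ := asou_phi_eq hN hK ht
  obtain ⟨h3, h4⟩ := asou_sq hN hK ht
  have h5 : Integrable (fun y => ‖N y‖ ^ 2) (stdGaussian E) := by
    refine asou_int _ (Measurable.aestronglyMeasurable (by fun_prop)) (K ^ 2) fun y => ?_
    rw [norm_pow, norm_norm, ← mul_pow]
    exact pow_le_pow_left₀ (norm_nonneg _) (hK y) 2
  rw [h2, ← h4, ← integral_const_mul, ← integral_div,
    ← integral_add (h5.const_mul _) (h3.div_const _), ← integral_div, ← Real.norm_eq_abs]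
  refine norm_integral_le_of_norm_le (((h5.const_mul _).add (h3.div_const _)).div_const _)
    (Filter.Eventually.of_forall fun y => (norm_inner_le_norm _ _).trans ?_)
  generalize ‖N y‖ = p
  generalize ‖∫ y', N (t • y + √(1 - t ^ 2) • y') ∂stdGaussian E‖ = q
  have : (lam * p ^ 2 + q ^ 2 / lam) / 2 - p * q = (lam * p - q) ^ 2 / (2 * lam) := by
    field_simp
    ring
  have h6 : 0 ≤ (lam * p - q) ^ 2 / (2 * lam) := by positivity
  linarith

variable {h : E → ℝ} {x : E → E} {R a : ℝ}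

omit [FiniteDimensional ℝ E] [BorelSpace E] in
lemma asou_Nn_le (S : Sel h x R) (a : ℝ) (y : E) : ‖Nn x a y‖ ≤ (R + |a|) * (1 + ‖y‖) := by
  have h1 : ‖Nn x a y‖ ≤ R + |a| * ‖y‖ := by
    refine (norm_sub_le _ _).trans (add_le_add (S.bdd y) ?_)
    rw [norm_smul, Real.norm_eq_abs]
  nlinarith [S.R_nonneg, abs_nonneg a, norm_nonneg y, mul_nonneg S.R_nonneg (norm_nonneg y)]

lemma asou_Nn_meas (S : Sel h x R) (a : ℝ) : Measurable (Nn x a) := by
  have := S.meas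
  unfold Nn
  fun_prop

lemma asou_int_h (S : Sel h x R) : Integrable h (stdGaussian E) := by
  simpa using S.integrable_lin (ContinuousLinearMap.id ℝ E)

/-- `∫ ‖x - a y‖² = ∫ ‖x‖² - 2 a ∫ h + a² n = ∫ ‖x‖² - a² n ≤ R²` (`Sel.mean`, `int_norm_sq`). -/
theorem Nn_sq_le (S : Sel h x R) (hI : Iso x a) :
    ∫ y, ‖Nn x a y‖ ^ 2 ∂stdGaussian E ≤ R ^ 2 := by
  have h0 : Integrable (fun y : E => R ^ 2 - 2 * a * h y) (stdGaussian E) :=
    (integrable_const _).sub ((asou_int_h S).const_mul _)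
  have hi : Integrable (fun y : E => R ^ 2 - 2 * a * h y + a ^ 2 * ‖y‖ ^ 2) (stdGaussian E) :=
    h0.add ((integrable_norm_pow 2).const_mul _)
  have h1 : ∫ y, ‖Nn x a y‖ ^ 2 ∂stdGaussian E ≤
      ∫ y : E, (R ^ 2 - 2 * a * h y + a ^ 2 * ‖y‖ ^ 2) ∂stdGaussian E := by
    refine integral_mono_of_nonneg (Filter.Eventually.of_forall fun y => by positivity) hi
      (Filter.Eventually.of_forall fun y => ?_)
    have h2 : ‖x y‖ ^ 2 ≤ R ^ 2 := pow_le_pow_left₀ (norm_nonneg _) (S.bdd y) 2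
    simp only [Nn]
    rw [norm_sub_sq_real, inner_smul_right, S.eq, norm_smul, mul_pow, Real.norm_eq_abs, sq_abs]
    linarith
  rw [integral_add h0 ((integrable_norm_pow 2).const_mul _), integral_sub (integrable_const _)
    ((asou_int_h S).const_mul _), integral_const_mul, integral_const_mul, S.mean hI,
    int_norm_sq] at h1
  simp only [integral_const, probReal_univ, smul_eq_mul, one_mul] at h1
  have h3 : 0 ≤ a ^ 2 * (Module.finrank ℝ E : ℝ) := by positivity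
  nlinarith

lemma asou_pe (k : ℕ) :
    Integrable (fun y : E => ‖y‖ ^ k * Real.exp (‖y‖ ^ 2 / 8)) (stdGaussian E) := by
  refine Integrable.mono' (integrable_exp_quarter.const_mul (1 + 8 ^ k * k.factorial))
    (by fun_prop) (Filter.Eventually.of_forall fun y => ?_)
  rw [Real.norm_of_nonneg (by positivity)]
  generalize hs : ‖y‖ = s
  have hs0 : 0 ≤ s := hs ▸ norm_nonneg y
  have h1 : s ^ k ≤ 1 + (s ^ 2) ^ k := by
    rw [← pow_mul, mul_comm, pow_mul]
    nlinarith [sq_nonneg (s ^ k - 1), pow_nonneg hs0 k]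
  have h2 := Real.pow_div_factorial_le_exp (s ^ 2 / 8) (by positivity) k
  have h3 : 1 ≤ Real.exp (s ^ 2 / 8) := Real.one_le_exp (by positivity)
  have h4 : (s ^ 2) ^ k ≤ 8 ^ k * k.factorial * Real.exp (s ^ 2 / 8) := by
    rw [div_pow, div_div, div_le_iff₀ (by positivity)] at h2
    linarith
  have h5 : Real.exp (s ^ 2 / 4) = Real.exp (s ^ 2 / 8) * Real.exp (s ^ 2 / 8) := by
    rw [← Real.exp_add]
    congr 1
    ring
  rw [h5, ← mul_assoc]
  refine mul_le_mul_of_nonneg_right ?_ (by positivity)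
  linarith

lemma asou_taylor (z : ℝ) : |Real.exp z - (1 + z ^ 2 / 2) - z| ≤ |z| ^ 3 * Real.exp |z| := by
  have h := Complex.norm_exp_sub_sum_le_norm_mul_exp (z : ℂ) 3
  have e : Complex.exp (z : ℂ) - ∑ m ∈ Finset.range 3, (z : ℂ) ^ m / (m.factorial : ℂ) =
      ((Real.exp z - (1 + z ^ 2 / 2) - z : ℝ) : ℂ) := by
    simp [Finset.sum_range_succ]
    ring
  rw [e, Complex.norm_real, Complex.norm_real, Real.norm_eq_abs, Real.norm_eq_abs] at h
  exact h

lemma asou_shift (S : Sel h x R) (hI : Iso x a) (b : E) {s : ℝ} (hs : ‖b‖ ≤ s / 4) :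
    ‖∫ y, x (y + b) ∂stdGaussian E - a • b‖ ≤
      (|a| + R * ∫ y : E, ‖y‖ ^ 3 * Real.exp (‖y‖ ^ 2 / 8) ∂stdGaussian E) *
        (‖b‖ ^ 3 * Real.exp (s ^ 2 / 8)) := by
  have hx := S.meas
  have hR := S.R_nonneg
  set r : E → ℝ := fun y => Real.exp ⟪b, y⟫ - (1 + ⟪b, y⟫ ^ 2 / 2) - ⟪b, y⟫ with hr
  have hb : ∀ y, ‖r y • x y‖ ≤
      R * (‖b‖ ^ 3 * Real.exp (s ^ 2 / 8)) * (‖y‖ ^ 3 * Real.exp (‖y‖ ^ 2 / 8)) := fun y => by
    have h1 : |⟪b, y⟫| ≤ ‖b‖ * ‖y‖ := abs_real_inner_le_norm _ _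
    have h2 : |⟪b, y⟫| ≤ s ^ 2 / 8 + ‖y‖ ^ 2 / 8 := by
      have := mul_le_mul_of_nonneg_right hs (norm_nonneg y)
      nlinarith [sq_nonneg (s - ‖y‖)]
    have h3 : |r y| ≤ (‖b‖ * ‖y‖) ^ 3 * Real.exp (s ^ 2 / 8 + ‖y‖ ^ 2 / 8) :=
      (asou_taylor _).trans (mul_le_mul (pow_le_pow_left₀ (abs_nonneg _) h1 3)
        (Real.exp_le_exp.2 h2) (by positivity) (by positivity))
    rw [norm_smul, Real.norm_eq_abs]
    refine (mul_le_mul h3 (S.bdd y) (norm_nonneg _) (by positivity)).trans (le_of_eq ?_)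
    rw [Real.exp_add]
    ring
  have i1 : Integrable (fun y => r y • x y) (stdGaussian E) :=
    Integrable.mono' ((asou_pe 3).const_mul _)
      (Measurable.aestronglyMeasurable (by fun_prop)) (Filter.Eventually.of_forall hb)
  have i2 : Integrable (fun y => ⟪b, y⟫ • x y) (stdGaussian E) := by
    simpa only [real_inner_comm b] using S.integrable_smul b
  have i3 : Integrable (fun y => (1 + ⟪b, y⟫ ^ 2 / 2) • x y) (stdGaussian E) := by
    refine Integrable.mono' ((((integrable_const (1 : ℝ)).add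
      ((integrable_inner_pow b 2).div_const 2))).mul_const R)
      (Measurable.aestronglyMeasurable (by fun_prop)) (Filter.Eventually.of_forall fun y => ?_)
    rw [norm_smul, Real.norm_of_nonneg (by positivity)]
    exact mul_le_mul_of_nonneg_left (S.bdd y) (by positivity)
  have e2 : ∫ y, ⟪b, y⟫ • x y ∂stdGaussian E = a • b := by
    simpa only [real_inner_comm b] using hI b
  have e3 : ∫ y, (1 + ⟪b, y⟫ ^ 2 / 2) • x y ∂stdGaussian E = 0 := by
    have := integral_comp_neg fun y => (1 + ⟪b, y⟫ ^ 2 / 2) • x y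
    simp only [inner_neg_right, neg_sq, S.odd, smul_neg, integral_neg] at this
    have h2 : (2 : ℝ) • ∫ y, (1 + ⟪b, y⟫ ^ 2 / 2) • x y ∂stdGaussian E = 0 := by
      rw [two_smul]
      nth_rewrite 1 [← this]
      exact neg_add_cancel _
    simpa using h2
  have e1 : ∫ y, x (y + b) ∂stdGaussian E =
      Real.exp (-(‖b‖ ^ 2 / 2)) • (∫ y, r y • x y ∂stdGaussian E + a • b) := by
    have i4 : Integrable (fun y => r y • x y + ⟪b, y⟫ • x y) (stdGaussian E) := i1.add i2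
    have e5 := integral_add i4 i3
    rw [e3, add_zero] at e5
    rw [integral_shift, ← e2, ← integral_add i1 i2, ← e5, ← integral_smul]
    congr 1
    funext y
    rw [← add_smul, ← add_smul, smul_smul, sub_eq_add_neg, Real.exp_add, hr]
    congr 1
    ring
  have n1 : ‖∫ y, r y • x y ∂stdGaussian E‖ ≤ R * (‖b‖ ^ 3 * Real.exp (s ^ 2 / 8)) *
      ∫ y : E, ‖y‖ ^ 3 * Real.exp (‖y‖ ^ 2 / 8) ∂stdGaussian E := by
    rw [← integral_const_mul]
    exact norm_integral_le_of_norm_le ((asou_pe 3).const_mul _) (Filter.Eventually.of_forall hb)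
  set c := Real.exp (-(‖b‖ ^ 2 / 2)) with hc
  have c0 : 0 < c := Real.exp_pos _
  have c1 : c ≤ 1 := Real.exp_le_one_iff.2 (by nlinarith [sq_nonneg ‖b‖])
  have c2 : 1 - c ≤ ‖b‖ ^ 2 := by
    have := Real.add_one_le_exp (-(‖b‖ ^ 2 / 2))
    nlinarith [sq_nonneg ‖b‖]
  have c3 : 1 ≤ Real.exp (s ^ 2 / 8) := Real.one_le_exp (by positivity)
  have e4 : c • (∫ y, r y • x y ∂stdGaussian E + a • b) - a • b =
      c • ∫ y, r y • x y ∂stdGaussian E - ((1 - c) * a) • b := by module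
  rw [e1, e4]
  refine (norm_sub_le _ _).trans ?_
  rw [norm_smul, norm_smul, Real.norm_of_nonneg c0.le, Real.norm_eq_abs, abs_mul,
    abs_of_nonneg (sub_nonneg.2 c1)]
  have n2 : c * ‖∫ y, r y • x y ∂stdGaussian E‖ ≤ ‖∫ y, r y • x y ∂stdGaussian E‖ :=
    mul_le_of_le_one_left (norm_nonneg _) c1
  have n3 : (1 - c) * |a| * ‖b‖ ≤ |a| * (‖b‖ ^ 3 * Real.exp (s ^ 2 / 8)) := by
    calc (1 - c) * |a| * ‖b‖ ≤ ‖b‖ ^ 2 * |a| * ‖b‖ := by gcongr
      _ = |a| * (‖b‖ ^ 3 * 1) := by ring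
      _ ≤ _ := by gcongr
  nlinarith

/-- Third order vanishing at `0`. -/
theorem phi_small (S : Sel h x R) (hI : Iso x a) :
    ∃ C : ℝ, ∀ u : ℝ, 0 ≤ u → u ≤ 1 / 8 → |phi (Nn x a) u| ≤ C * u ^ 3 := by
  have hx := S.meas
  have hR := S.R_nonneg
  set J := |a| + R * ∫ y : E, ‖y‖ ^ 3 * Real.exp (‖y‖ ^ 2 / 8) ∂stdGaussian E with hJ
  have J0 : 0 ≤ J := by
    have : 0 ≤ ∫ y : E, ‖y‖ ^ 3 * Real.exp (‖y‖ ^ 2 / 8) ∂stdGaussian E :=
      integral_nonneg fun y => by positivity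
    positivity
  have iB : Integrable (fun y : E => (R + |a|) * J * 8 *
      (‖y‖ ^ 3 * Real.exp (‖y‖ ^ 2 / 8) + ‖y‖ ^ 4 * Real.exp (‖y‖ ^ 2 / 8))) (stdGaussian E) :=
    ((asou_pe 3).add (asou_pe 4)).const_mul _
  refine ⟨∫ y : E, (R + |a|) * J * 8 *
      (‖y‖ ^ 3 * Real.exp (‖y‖ ^ 2 / 8) + ‖y‖ ^ 4 * Real.exp (‖y‖ ^ 2 / 8)) ∂stdGaussian E,
    fun u u0 u1 => ?_⟩
  have hu : |u| ≤ 1 := by rw [abs_of_nonneg u0]; linarith
  obtain ⟨h1, h2⟩ := asou_phi_eq (asou_Nn_meas S a) (asou_Nn_le S a) hu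
  have s1 : 1 / 2 ≤ √(1 - u ^ 2) := Real.le_sqrt_of_sq_le (by nlinarith)
  set σ := √(1 - u ^ 2) with hσ
  have s0 : 0 < σ := by linarith
  have iid : Integrable (fun y : E => y) (stdGaussian E) := IsGaussian.integrable_id
  have hM : ∀ y, ∫ y', Nn x a (u • y + σ • y') ∂stdGaussian E =
      ∫ y', x (y' + (u / σ) • y) ∂stdGaussian E - (a * u) • y := fun y => by
    have e : ∀ y', Nn x a (u • y + σ • y') =
        x (y' + (u / σ) • y) - ((a * u) • y + (a * σ) • y') := fun y' => by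
      have : u • y + σ • y' = σ • (y' + (u / σ) • y) := by
        rw [smul_add, smul_smul, mul_div_cancel₀ _ s0.ne', add_comm]
      rw [Nn, ← S.hom σ (y' + (u / σ) • y) s0, ← this]
      module
    have ix : Integrable (fun y' => x (y' + (u / σ) • y)) (stdGaussian E) :=
      Integrable.mono' (integrable_const R) (Measurable.aestronglyMeasurable (by fun_prop))
        (Filter.Eventually.of_forall fun y' => S.bdd _)
    have i1 : Integrable (fun y' : E => (a * σ) • y') (stdGaussian E) := iid.smul (a * σ)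
    have i2 : Integrable (fun y' : E => (a * u) • y + (a * σ) • y') (stdGaussian E) :=
      (integrable_const _).add i1
    simp_rw [e]
    rw [integral_sub ix i2, integral_add (integrable_const _) i1, integral_smul (a * σ),
      integral_id_stdGaussian]
    simp
  have iy : Integrable (fun y => ⟪Nn x a y, y⟫) (stdGaussian E) ∧
      ∫ y, ⟪Nn x a y, y⟫ ∂stdGaussian E = 0 := by
    have e : (fun y => ⟪Nn x a y, y⟫) = fun y => h y - a * ‖y‖ ^ 2 := by
      funext y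
      rw [Nn, inner_sub_left, S.eq, real_inner_smul_left, real_inner_self_eq_norm_sq]
    rw [e]
    refine ⟨(asou_int_h S).sub ((integrable_norm_pow 2).const_mul _), ?_⟩
    rw [integral_sub (asou_int_h S) ((integrable_norm_pow 2).const_mul _), integral_const_mul,
      S.mean hI, int_norm_sq, sub_self]
  have e : phi (Nn x a) u = ∫ y, (⟪Nn x a y, ∫ y', Nn x a (u • y + σ • y') ∂stdGaussian E⟫ -
      (a * (u / σ) - a * u) * ⟪Nn x a y, y⟫) ∂stdGaussian E := by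
    rw [integral_sub h1 (iy.1.const_mul _), integral_const_mul, iy.2, mul_zero, sub_zero, h2]
  rw [e, ← integral_mul_const, ← Real.norm_eq_abs]
  refine norm_integral_le_of_norm_le (iB.mul_const _) (Filter.Eventually.of_forall fun y => ?_)
  have hb : ‖(u / σ) • y‖ ≤ 2 * u * ‖y‖ := by
    rw [norm_smul, Real.norm_of_nonneg (by positivity)]
    refine mul_le_mul_of_nonneg_right ?_ (norm_nonneg _)
    rw [div_le_iff₀ s0]
    nlinarith
  have hb2 : ‖(u / σ) • y‖ ≤ ‖y‖ / 4 := by nlinarith [norm_nonneg y]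
  have h3 := asou_shift S hI ((u / σ) • y) hb2
  have e2 : ⟪Nn x a y, ∫ y', Nn x a (u • y + σ • y') ∂stdGaussian E⟫ -
      (a * (u / σ) - a * u) * ⟪Nn x a y, y⟫ =
      ⟪Nn x a y, ∫ y', x (y' + (u / σ) • y) ∂stdGaussian E - a • (u / σ) • y⟫ := by
    rw [hM, inner_sub_right, inner_sub_right, inner_smul_right, inner_smul_right,
      inner_smul_right]
    ring
  rw [e2]
  calc _ ≤ ‖Nn x a y‖ * ‖∫ y', x (y' + (u / σ) • y) ∂stdGaussian E - a • (u / σ) • y‖ :=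
        norm_inner_le_norm _ _
    _ ≤ ((R + |a|) * (1 + ‖y‖)) * (J * ((2 * u * ‖y‖) ^ 3 * Real.exp (‖y‖ ^ 2 / 8))) := by
        refine mul_le_mul (asou_Nn_le S a y) (h3.trans ?_) (norm_nonneg _) (by positivity)
        gcongr
    _ = _ := by ring

end Pool.Agent.Lib.MP_77d991_gt.As

namespace Pool.Agent.Lib.MP_77d991_gt.As

variable {E : Type*} [NormedAddCommGroup E] [InnerProductSpace ℝ E] [FiniteDimensional ℝ E]
  [MeasurableSpace E] [BorelSpace E]

/-- the iteration, for an abstract function. -/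
lemma asou2_abs {φ : ℝ → ℝ} {n C : ℝ}
    (hcs : ∀ t : ℝ, |t| ≤ 1 → ∀ lam : ℝ, 0 < lam → |φ t| ≤ (lam * n + φ (t ^ 2) / lam) / 2)
    (hs : ∀ u : ℝ, 0 ≤ u → u ≤ 1 / 8 → |φ u| ≤ C * u ^ 3) {t : ℝ} (ht : |t| ≤ 1) :
    |φ t| ≤ n * |t| ^ 3 := by
  have step : ∀ (c s : ℝ), |s| ≤ 1 → φ (s ^ 2) ≤ c * (s ^ 2) ^ 3 →
      |φ s| ≤ (n + c) / 2 * |s| ^ 3 := by
    intro c s h1 h2
    rcases eq_or_ne s 0 with rfl | h0
    · simpa using hs 0 le_rfl (by norm_num)
    have hp : 0 < |s| ^ 3 := pow_pos (abs_pos.2 h0) 3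
    have h3 := hcs s h1 _ hp
    have h4 : φ (s ^ 2) / |s| ^ 3 ≤ c * |s| ^ 3 := by
      rw [div_le_iff₀ hp]
      calc _ ≤ c * (s ^ 2) ^ 3 := h2
        _ = _ := by rw [← sq_abs]; ring
    linarith
  have ind : ∀ (m : ℕ) (u : ℝ), 0 ≤ u → u ≤ 1 → u ^ (2 ^ m) ≤ 1 / 8 →
      φ u ≤ (n + (C - n) * (1 / 2) ^ m) * u ^ 3 := by
    intro m
    induction m with
    | zero =>
      intro u h0 _ h2
      have := (le_abs_self _).trans (hs u h0 (by simpa using h2))
      simpa using this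
    | succ m ih =>
      intro u h0 h1 h2
      have h3 := ih (u ^ 2) (by positivity) (pow_le_one₀ h0 h1)
        (by rw [← pow_mul, ← pow_succ']; exact h2)
      have h4 := (le_abs_self _).trans (step _ u (by rwa [abs_of_nonneg h0]) h3)
      rw [abs_of_nonneg h0] at h4
      refine h4.trans (le_of_eq ?_)
      ring
  have up : ∀ u : ℝ, 0 ≤ u → u ≤ 1 → φ u ≤ n * u ^ 3 := by
    intro u h0 h1
    rcases h1.eq_or_lt with rfl | h1
    · have h3 := hcs 1 (by simp) 1 one_pos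
      have h4 := le_abs_self (φ 1)
      simp only [one_pow, div_one, one_mul, mul_one] at h3 ⊢
      linarith
    have l1 : Filter.Tendsto (fun m : ℕ => (n + (C - n) * (1 / 2) ^ m) * u ^ 3) Filter.atTop
        (nhds ((n + (C - n) * 0) * u ^ 3)) :=
      (((tendsto_pow_atTop_nhds_zero_of_lt_one (by norm_num) (by norm_num)).const_mul _).const_add
        _).mul_const _
    rw [mul_zero, add_zero] at l1
    have l2 : ∀ᶠ m : ℕ in Filter.atTop, u ^ m ≤ 1 / 8 :=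
      (tendsto_pow_atTop_nhds_zero_of_lt_one h0 h1).eventually (ge_mem_nhds (by norm_num))
    refine ge_of_tendsto l1 (l2.mono fun m hm => ind m u h0 h1.le ?_)
    exact (pow_le_pow_of_le_one h0 h1.le (Nat.lt_two_pow_self).le).trans hm
  have := step n t ht (up _ (by positivity) (by rw [← sq_abs]; exact pow_le_one₀ (abs_nonneg _) ht))
  linarith

/-- Mehler contraction on the part of degree at least three. Sketch: `n = R²` bounds `∫‖N‖²`.
`phi_cs` for all `lam` gives `phi(t)² ≤ n phi(t²)` for `|t| ≤ 1` (and `phi (t²) ≥ 0`; treat `n = 0`).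
`phi 1 = ∫ ‖N‖² ≤ n` settles `|t| = 1`; `t = 0` from `phi_small`. For `0 < |t| < 1` put
`g k = |phi (t^(2^k))| / (n |t|^(3 * 2^k))`: `(g k)² ≤ g (k+1)`, `g k ≤ C/n` for large `k` (`phi_small`),
so `g 0 ≤ 1` (else `g k ≥ (g 0)^(2^k) → ∞`). -/
theorem phi_le {h : E → ℝ} {x : E → E} {R a : ℝ} (S : Sel h x R) (hI : Iso x a) {t : ℝ}
    (ht : |t| ≤ 1) : |phi (Nn x a) t| ≤ R ^ 2 * |t| ^ 3 := by
  obtain ⟨C, hC⟩ := phi_small S hI
  have hN : Measurable (Nn x a) := S.meas.sub (by fun_prop)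
  have hK : ∀ y, ‖Nn x a y‖ ≤ (R + |a|) * (1 + ‖y‖) := fun y => by
    have h1 : ‖Nn x a y‖ ≤ ‖x y‖ + ‖a • y‖ := norm_sub_le _ _
    rw [norm_smul, Real.norm_eq_abs] at h1
    have h2 := S.bdd y
    have h3 := mul_nonneg S.R_nonneg (norm_nonneg y)
    have h4 := abs_nonneg a
    nlinarith
  refine asou2_abs (fun s hs lam hl => (phi_cs hN hK hs hl).trans ?_) hC ht
  have := mul_le_mul_of_nonneg_left (Nn_sq_le S hI) hl.le
  linarith

end Pool.Agent.Lib.MP_77d991_gt.As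

namespace Pool.Agent.Lib.MP_77d991_gt.As

variable {E : Type*} [NormedAddCommGroup E] [InnerProductSpace ℝ E] [FiniteDimensional ℝ E]
  [MeasurableSpace E] [BorelSpace E]

variable {r : ℕ}

omit [FiniteDimensional ℝ E] [MeasurableSpace E] [BorelSpace E] in
lemma asmx_ev (s : Eu r) : ∃ A : Mx r E →L[ℝ] E, ∀ Γ, A Γ = app Γ s := by
  refine ⟨∑ j, s j • (PiLp.proj 2 (fun _ : Fin r => E) j : Mx r E →L[ℝ] E), fun Γ => ?_⟩
  rw [app_apply]
  simp

lemma asmx_inner (s s' : Eu r) : ⟪s, s'⟫ = ∑ j, s j * s' j := by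
  simp [PiLp.inner_apply, mul_comm]

lemma asmx_norm (s : Eu r) : ‖s‖ ^ 2 = ∑ j, s j ^ 2 := by
  simp [EuclideanSpace.norm_sq_eq]

omit [FiniteDimensional ℝ E] [MeasurableSpace E] [BorelSpace E] in
lemma asmx_inner_app (Γ : Mx r E) (s s' : Eu r) :
    ⟪app Γ s, app Γ s'⟫ = ∑ i, ∑ j, s i * s' j * ⟪Γ i, Γ j⟫ := by
  rw [app_apply, app_apply, sum_inner]
  refine Finset.sum_congr rfl fun i _ => ?_
  rw [inner_sum]
  refine Finset.sum_congr rfl fun j _ => ?_
  rw [real_inner_smul_left, real_inner_smul_right]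
  ring

omit [FiniteDimensional ℝ E] [MeasurableSpace E] [BorelSpace E] in
lemma asmx_single (Γ : Mx r E) (i : Fin r) : app Γ (EuclideanSpace.single i 1) = Γ i := by
  rw [app_apply, Finset.sum_eq_single i]
  · simp
  · intro j _ hj
    simp [hj]
  · simp

/-- Parseval for a coefficient vector. -/
lemma asmx_parseval (b : OrthonormalBasis (Fin r) ℝ (Eu r)) (c : Fin r → ℝ) :
    ∑ i, (∑ k, b i k * c k) ^ 2 = ∑ k, c k ^ 2 := by
  have h := b.sum_sq_inner_right (WithLp.toLp 2 c : Eu r)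
  rw [asmx_norm] at h
  simpa [asmx_inner] using h
/-- the images of two unit vectors under a Gaussian matrix. Sketch: `Γ ↦ (app Γ s, app Γ s')` is a continuous
linear map; use `law2` with `F = E × E`, `B y = (y, t y)`, `C y = (0, √(1-t²) y)`. For a functional `L` put
`α, β : E` with `L (y,y') = ⟪α,y⟫ + ⟪β,y'⟫` (`InnerProductSpace.toDual`); `L ∘ A = innerSL (toLp fun j => s j • α + s' j • β)`,
of squared norm `‖α‖² + 2 t ⟪α,β⟫ + ‖β‖²` (`PiLp.norm_sq_eq_of_L2`, `innerSL_apply_norm`). -/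
theorem law_pair (s s' : Eu r) (hs : ‖s‖ = 1) (hs' : ‖s'‖ = 1) :
    (stdGaussian (Mx r E)).map (fun Γ => (app Γ s, app Γ s')) =
      ((stdGaussian E).prod (stdGaussian E)).map
        (fun p => (p.1, ⟪s, s'⟫ • p.1 + √(1 - ⟪s, s'⟫ ^ 2) • p.2)) := by
  obtain ⟨A1, h1⟩ := asmx_ev (E := E) s
  obtain ⟨A2, h2⟩ := asmx_ev (E := E) s'
  have : CompleteSpace E := FiniteDimensional.complete ℝ E
  set t : ℝ := ⟪s, s'⟫ with ht
  have ht1 : t ^ 2 ≤ 1 := by
    have h := abs_real_inner_le_norm s s'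
    rw [hs, hs', mul_one, ← ht] at h
    have := abs_nonneg t
    rw [← sq_abs]
    nlinarith
  have hu : √(1 - t ^ 2) ^ 2 = 1 - t ^ 2 := Real.sq_sqrt (by linarith)
  have key := law2 (A1.prod A2)
    ((ContinuousLinearMap.id ℝ E).prod (t • ContinuousLinearMap.id ℝ E))
    ((0 : E →L[ℝ] E).prod (√(1 - t ^ 2) • ContinuousLinearMap.id ℝ E)) (fun L => by
      obtain ⟨α, hα⟩ := (InnerProductSpace.toDual ℝ E).surjective (L.comp (.inl ℝ E E))
      obtain ⟨β, hβ⟩ := (InnerProductSpace.toDual ℝ E).surjective (L.comp (.inr ℝ E E))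
      have hL : ∀ y y' : E, L (y, y') = ⟪α, y⟫ + ⟪β, y'⟫ := fun y y' => by
        have e1 := congrArg (fun T => T y) hα
        have e2 := congrArg (fun T => T y') hβ
        simp only [InnerProductSpace.toDual_apply_apply, ContinuousLinearMap.comp_apply,
          ContinuousLinearMap.inl_apply, ContinuousLinearMap.inr_apply] at e1 e2
        rw [e1, e2, ← map_add]
        simp
      have eA : L.comp (A1.prod A2) =
          innerSL ℝ (WithLp.toLp 2 (fun j => s j • α + s' j • β) : Mx r E) := by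
        ext1 Γ
        rw [ContinuousLinearMap.comp_apply, ContinuousLinearMap.prod_apply, hL, h1, h2, app_apply,
          app_apply, innerSL_apply_apply, PiLp.inner_apply, inner_sum, inner_sum,
          ← Finset.sum_add_distrib]
        refine Finset.sum_congr rfl fun j _ => ?_
        simp only [inner_add_left, real_inner_smul_left, real_inner_smul_right]
      have eB : L.comp ((ContinuousLinearMap.id ℝ E).prod (t • ContinuousLinearMap.id ℝ E)) =
          innerSL ℝ (α + t • β) := by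
        ext1 y
        rw [ContinuousLinearMap.comp_apply, ContinuousLinearMap.prod_apply, hL]
        simp [real_inner_smul_right]
      have eC : L.comp ((0 : E →L[ℝ] E).prod (√(1 - t ^ 2) • ContinuousLinearMap.id ℝ E)) =
          innerSL ℝ (√(1 - t ^ 2) • β) := by
        ext1 y
        rw [ContinuousLinearMap.comp_apply, ContinuousLinearMap.prod_apply, hL]
        simp [real_inner_smul_right]
      rw [eA, eB, eC, innerSL_apply_norm, innerSL_apply_norm, innerSL_apply_norm,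
        PiLp.norm_sq_eq_of_L2]
      have e3 : ∀ j, ‖s j • α + s' j • β‖ ^ 2 =
          s j ^ 2 * ‖α‖ ^ 2 + 2 * (s j * s' j) * ⟪α, β⟫ + s' j ^ 2 * ‖β‖ ^ 2 := fun j => by
        rw [norm_add_sq_real, norm_smul, norm_smul, real_inner_smul_left, real_inner_smul_right,
          mul_pow, mul_pow, Real.norm_eq_abs, Real.norm_eq_abs, sq_abs, sq_abs]
        ring
      simp only [e3]
      rw [Finset.sum_add_distrib, Finset.sum_add_distrib, ← Finset.sum_mul, ← Finset.sum_mul,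
        ← Finset.sum_mul, ← Finset.mul_sum, ← asmx_norm, ← asmx_norm, ← asmx_inner, hs, hs', ← ht,
        norm_add_sq_real, norm_smul, norm_smul, real_inner_smul_right, mul_pow, mul_pow,
        Real.norm_eq_abs, Real.norm_eq_abs, sq_abs, sq_abs, hu]
      ring)
  have e1 : (fun Γ : Mx r E => (app Γ s, app Γ s')) = ⇑(A1.prod A2) := by
    funext Γ
    rw [ContinuousLinearMap.prod_apply, h1, h2]
  rw [e1, key]
  congr 1
  funext p
  simp

omit [MeasurableSpace E] [BorelSpace E] in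
/-- `∑ ‖Γ b_i‖² = ∑_k ∑_i ⟪e_k, Γ b_i⟫²`, `OrthonormalBasis.norm_dual` for `b` and for the standard basis. -/
theorem hs_basis (Γ : Mx r E) (b : OrthonormalBasis (Fin r) ℝ (Eu r)) :
    ∑ i, ‖app Γ (b i)‖ ^ 2 = ‖Γ‖ ^ 2 := by
  let e := stdOrthonormalBasis ℝ E
  have h1 : ∀ y : E, ‖y‖ ^ 2 = ∑ k, ⟪e k, y⟫ ^ 2 := fun y => (e.sum_sq_inner_right y).symm
  rw [PiLp.norm_sq_eq_of_L2]
  simp_rw [h1]
  rw [Finset.sum_comm, Finset.sum_comm (f := fun j k => ⟪e k, Γ j⟫ ^ 2)]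
  refine Finset.sum_congr rfl fun k _ => ?_
  rw [← asmx_parseval b fun j => ⟪e k, Γ j⟫]
  refine Finset.sum_congr rfl fun i _ => ?_
  rw [app_apply, inner_sum]
  simp only [real_inner_smul_right]

omit [FiniteDimensional ℝ E] [MeasurableSpace E] [BorelSpace E] in
/-- `∑_i ‖Γ b_i‖⁴ ≤ ∑_i ∑_j ⟪Γ b_i, Γ b_j⟫² = Q4 Γ` (`norm_dual` twice). -/
theorem q4_basis (Γ : Mx r E) (b : OrthonormalBasis (Fin r) ℝ (Eu r)) :
    ∑ i, ‖app Γ (b i)‖ ^ 4 ≤ Q4 Γ := by
  have h1 : ∀ i j, ⟪app Γ (b i), app Γ (b j)⟫ = ∑ l, b j l * ∑ k, b i k * ⟪Γ k, Γ l⟫ :=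
    fun i j => by
      rw [asmx_inner_app, Finset.sum_comm]
      refine Finset.sum_congr rfl fun l _ => ?_
      rw [Finset.mul_sum]
      refine Finset.sum_congr rfl fun k _ => ?_
      ring
  have h2 : ∑ i, ∑ j, ⟪app Γ (b i), app Γ (b j)⟫ ^ 2 = Q4 Γ := by
    simp_rw [h1, asmx_parseval b]
    rw [Finset.sum_comm]
    simp_rw [asmx_parseval b]
    rw [Q4, Finset.sum_comm]
  rw [← h2]
  refine Finset.sum_le_sum fun i _ => ?_
  refine le_trans (le_of_eq ?_) (Finset.single_le_sum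
    (f := fun j => ⟪app Γ (b i), app Γ (b j)⟫ ^ 2) (fun j _ => sq_nonneg _) (Finset.mem_univ i))
  simp only [real_inner_self_eq_norm_sq]
  ring

omit [FiniteDimensional ℝ E] [MeasurableSpace E] [BorelSpace E] in
/-- extend `s/‖s‖` to an orthonormal basis and use `q4_basis`, or Cauchy-Schwarz on
`‖Γ s‖² = ∑ s_i s_j ⟪Γ i, Γ j⟫`. -/
theorem q4_op (Γ : Mx r E) (s : Eu r) : ‖app Γ s‖ ≤ √(√(Q4 Γ)) * ‖s‖ := by
  have hQ : 0 ≤ Q4 Γ := Finset.sum_nonneg fun i _ => Finset.sum_nonneg fun j _ => sq_nonneg _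
  have h1 : ‖app Γ s‖ ^ 2 = ∑ p : Fin r × Fin r, (s p.1 * s p.2) * ⟪Γ p.1, Γ p.2⟫ := by
    rw [← real_inner_self_eq_norm_sq, asmx_inner_app, Fintype.sum_prod_type]
  have h2 := Finset.sum_mul_sq_le_sq_mul_sq Finset.univ
    (fun p : Fin r × Fin r => s p.1 * s p.2) (fun p => ⟪Γ p.1, Γ p.2⟫)
  have h3 : ∑ p : Fin r × Fin r, (s p.1 * s p.2) ^ 2 = (‖s‖ ^ 2) ^ 2 := by
    rw [Fintype.sum_prod_type, asmx_norm, sq (∑ j, s j ^ 2), Finset.sum_mul_sum]
    simp only [mul_pow]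
  have h4 : ∑ p : Fin r × Fin r, ⟪Γ p.1, Γ p.2⟫ ^ 2 = Q4 Γ := by
    rw [Fintype.sum_prod_type, Q4]
  rw [← h1, h3, h4] at h2
  have h5 : ‖app Γ s‖ ^ 2 ≤ √(Q4 Γ) * ‖s‖ ^ 2 := by
    refine le_of_sq_le_sq (h2.trans_eq ?_) (by positivity)
    rw [mul_pow, Real.sq_sqrt hQ, mul_comm]
  have h6 : (√(√(Q4 Γ)) * ‖s‖) ^ 2 = √(Q4 Γ) * ‖s‖ ^ 2 := by
    rw [mul_pow, Real.sq_sqrt (Real.sqrt_nonneg _)]
  exact le_of_sq_le_sq (h5.trans_eq h6.symm) (by positivity)

omit [FiniteDimensional ℝ E] [MeasurableSpace E] [BorelSpace E] in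
theorem continuous_Q4 : Continuous (Q4 : Mx r E → ℝ) := by
  unfold Q4
  fun_prop

/-- `Γ i = app Γ (single i 1)`; by `law_pair` the diagonal terms have mean `∫ ‖y‖⁴ ≤ m4 d²`
(`int_norm_four_le`), the others `∫∫ ⟪y,y'⟫² = d`; `(r-1) d ≤ d²`. Integrable: `Q4 Γ ≤ r² ‖Γ‖⁴`. -/
theorem q4_mean (hr : r ≤ Module.finrank ℝ E) :
    Integrable (Q4 : Mx r E → ℝ) (stdGaussian (Mx r E)) ∧
    ∫ Γ, Q4 Γ ∂stdGaussian (Mx r E) ≤ (m4 + 1) * r * (Module.finrank ℝ E : ℝ) ^ 2 := by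
  have hi : ∀ i j, Integrable (fun Γ : Mx r E => ⟪Γ i, Γ j⟫ ^ 2) (stdGaussian (Mx r E)) :=
    fun i j => by
      refine Integrable.mono' (integrable_norm_pow 4) (Continuous.aestronglyMeasurable (by fun_prop))
        (Filter.Eventually.of_forall fun Γ => ?_)
      rw [norm_pow]
      have h1 : ‖⟪Γ i, Γ j⟫‖ ≤ ‖Γ‖ * ‖Γ‖ := (norm_inner_le_norm _ _).trans
        (mul_le_mul (PiLp.norm_apply_le Γ i) (PiLp.norm_apply_le Γ j) (norm_nonneg _)
          (norm_nonneg _))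
      calc _ ≤ (‖Γ‖ * ‖Γ‖) ^ 2 := pow_le_pow_left₀ (norm_nonneg _) h1 2
        _ = _ := by ring
  have hl : ∀ i j, ∫ Γ, ⟪Γ i, Γ j⟫ ^ 2 ∂stdGaussian (Mx r E) =
      ∫ p, ⟪p.1, ⟪(EuclideanSpace.single i 1 : Eu r), EuclideanSpace.single j 1⟫ • p.1 +
        √(1 - ⟪(EuclideanSpace.single i 1 : Eu r), EuclideanSpace.single j 1⟫ ^ 2) • p.2⟫ ^ 2
          ∂(stdGaussian E).prod (stdGaussian E) := fun i j => by
    have h := law_pair (E := E) (EuclideanSpace.single i 1 : Eu r) (EuclideanSpace.single j 1)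
      (by simp) (by simp)
    simp only [asmx_single] at h
    have h1 := integral_map (μ := stdGaussian (Mx r E)) (φ := fun Γ => (Γ i, Γ j))
      (f := fun p : E × E => ⟪p.1, p.2⟫ ^ 2) (Continuous.aemeasurable (by fun_prop))
      (Continuous.aestronglyMeasurable (by fun_prop))
    rw [← h1, h, integral_map (Continuous.aemeasurable (by fun_prop))
      (Continuous.aestronglyMeasurable (by fun_prop))]
  have hd : ∀ i, ∫ Γ, ⟪Γ i, Γ i⟫ ^ 2 ∂stdGaussian (Mx r E) ≤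
      m4 * (Module.finrank ℝ E : ℝ) ^ 2 := fun i => by
    rw [hl]
    refine le_trans (le_of_eq ?_) int_norm_four_le
    have h := integral_fun_fst (μ := stdGaussian E) (ν := stdGaussian E) (fun y : E => ‖y‖ ^ 4)
    simp only [probReal_univ, smul_eq_mul, one_mul] at h
    rw [← h]
    congr 1
    funext p
    simp
    ring
  have ho : ∀ i j, i ≠ j → ∫ Γ, ⟪Γ i, Γ j⟫ ^ 2 ∂stdGaussian (Mx r E) =
      (Module.finrank ℝ E : ℝ) := fun i j hij => by
    rw [hl]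
    have h0 : ⟪(EuclideanSpace.single i 1 : Eu r), EuclideanSpace.single j 1⟫ = 0 := by
      simp [EuclideanSpace.inner_single_left, hij]
    simp only [h0]
    simp only [zero_smul, zero_add, ne_eq, OfNat.ofNat_ne_zero, not_false_eq_true, zero_pow,
      sub_zero, Real.sqrt_one, one_smul]
    rw [integral_prod]
    · simp only [int_inner_sq, int_norm_sq]
    · refine Integrable.mono' ((integrable_norm_pow 2).mul_prod (integrable_norm_pow 2))
        (Continuous.aestronglyMeasurable (by fun_prop)) (Filter.Eventually.of_forall fun p => ?_)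
      rw [norm_pow, ← mul_pow]
      exact pow_le_pow_left₀ (norm_nonneg _) (norm_inner_le_norm _ _) 2
  refine ⟨integrable_finsetSum _ fun i _ => integrable_finsetSum _ fun j _ => hi i j, ?_⟩
  unfold Q4
  rw [integral_finsetSum _ fun i _ => integrable_finsetSum _ fun j _ => hi i j]
  have hd0 : (0 : ℝ) ≤ Module.finrank ℝ E := Nat.cast_nonneg _
  have hr' : (r : ℝ) ≤ Module.finrank ℝ E := Nat.cast_le.2 hr
  have hm := one_le_m4
  have row : ∀ i, ∫ Γ, ∑ j, ⟪Γ i, Γ j⟫ ^ 2 ∂stdGaussian (Mx r E) ≤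
      (m4 + 1) * (Module.finrank ℝ E : ℝ) ^ 2 := fun i => by
    rw [integral_finsetSum _ fun j _ => hi i j]
    have h1 : ∀ j, ∫ Γ, ⟪Γ i, Γ j⟫ ^ 2 ∂stdGaussian (Mx r E) ≤
        (if j = i then m4 * (Module.finrank ℝ E : ℝ) ^ 2 else 0) + Module.finrank ℝ E := fun j => by
      split_ifs with h
      · rw [h]
        linarith [hd i]
      · rw [ho i j (Ne.symm h), zero_add]
    refine (Finset.sum_le_sum fun j _ => h1 j).trans ?_
    rw [Finset.sum_add_distrib]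
    simp only [Finset.sum_ite_eq', Finset.mem_univ, if_true, Finset.sum_const, Finset.card_univ,
      Fintype.card_fin, nsmul_eq_mul]
    nlinarith [mul_le_mul_of_nonneg_right hr' hd0]
  refine (Finset.sum_le_sum fun i _ => row i).trans (le_of_eq ?_)
  simp only [Finset.sum_const, Finset.card_univ, Fintype.card_fin, nsmul_eq_mul]
  ring

end Pool.Agent.Lib.MP_77d991_gt.As

namespace Pool.Agent.Lib.MP_77d991_gt.As

variable {E : Type*} [NormedAddCommGroup E] [InnerProductSpace ℝ E] [FiniteDimensional ℝ E]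
  [MeasurableSpace E] [BorelSpace E]

variable {r : ℕ}

lemma asrad_hom (hr : 0 < r) (F : Eu r → ℝ) (k : ℕ)
    (hO : ∀ (O : Eu r ≃ₗᵢ[ℝ] Eu r) (w : Eu r), F (O w) = F w)
    (hc : ∀ (c : ℝ) (w : Eu r), F (c • w) = c ^ k * F w) :
    ∃ e : Eu r, ∀ w, F w = F e * ‖w‖ ^ k := by
  refine ⟨EuclideanSpace.single ⟨0, hr⟩ 1, fun w => ?_⟩
  have h1 : ‖(‖w‖ • EuclideanSpace.single ⟨0, hr⟩ 1 : Eu r)‖ = ‖w‖ := by
    simp [norm_smul]
  rw [← Submodule.reflection_sub h1, hO, hc, LinearIsometryEquiv.norm_map, h1, mul_comm]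

lemma asrad_norm_nz (s : Eu r) : ‖nz s‖ ≤ 1 := by
  rw [nz, norm_smul, norm_inv, norm_norm]
  exact inv_mul_le_one_of_le₀ le_rfl (norm_nonneg _)

lemma asrad_smul_nz (s : Eu r) : ‖s‖ • nz s = s := by
  rcases eq_or_ne s 0 with rfl | hs
  · simp
  · rw [nz, smul_smul, mul_inv_cancel₀ (norm_ne_zero_iff.2 hs), one_smul]

lemma asrad_mul_nz (s : Eu r) : ‖s‖ * ‖nz s‖ ^ 4 = ‖s‖ := by
  rcases eq_or_ne s 0 with rfl | hs
  · simp
  · rw [nz, norm_smul, norm_inv, norm_norm, inv_mul_cancel₀ (norm_ne_zero_iff.2 hs), one_pow,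
      mul_one]

lemma asrad_nz_map (O : Eu r ≃ₗᵢ[ℝ] Eu r) (s : Eu r) : nz (O s) = O (nz s) := by
  rw [nz, nz, map_smul, O.norm_map]

lemma asrad_abs_le (s w : Eu r) : |⟪nz s, w⟫| ≤ ‖w‖ :=
  (abs_real_inner_le_norm _ _).trans
    (mul_le_of_le_one_left (norm_nonneg _) (asrad_norm_nz s))

lemma asrad_int_two (w w' : Eu r) :
    Integrable (fun s : Eu r => ⟪s, w⟫ * ⟪nz s, w'⟫) (stdGaussian (Eu r)) := by
  refine Integrable.mono' ((integrable_norm_pow 1).const_mul (‖w‖ * ‖w'‖))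
    (Measurable.aestronglyMeasurable (by have := measurable_nz (r := r); fun_prop))
    (Filter.Eventually.of_forall fun s => ?_)
  rw [norm_mul, pow_one]
  calc _ ≤ (‖s‖ * ‖w‖) * ‖w'‖ :=
        mul_le_mul (norm_inner_le_norm _ _) (asrad_abs_le s w') (abs_nonneg _) (by positivity)
    _ = _ := by ring

lemma asrad_int_smul (w : Eu r) :
    Integrable (fun s : Eu r => ⟪s, w⟫ • nz s) (stdGaussian (Eu r)) := by
  refine Integrable.mono' ((integrable_norm_pow 1).const_mul ‖w‖)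
    (Measurable.aestronglyMeasurable (by have := measurable_nz (r := r); fun_prop))
    (Filter.Eventually.of_forall fun s => ?_)
  rw [norm_smul, pow_one]
  calc _ ≤ (‖s‖ * ‖w‖) * 1 :=
        mul_le_mul (norm_inner_le_norm _ _) (asrad_norm_nz s) (norm_nonneg _) (by positivity)
    _ = _ := by ring

lemma asrad_int_four :
    Integrable (fun p : Eu r × Eu r => ‖p.1‖ * ⟪nz p.1, p.2⟫ ^ 4)
      ((stdGaussian (Eu r)).prod (stdGaussian (Eu r))) := by
  refine Integrable.mono' ((integrable_norm_pow 1).mul_prod (integrable_norm_pow 4))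
    (Measurable.aestronglyMeasurable (by have := measurable_nz (r := r); fun_prop))
    (Filter.Eventually.of_forall fun p => ?_)
  rw [norm_mul, norm_norm, pow_one, norm_pow]
  exact mul_le_mul_of_nonneg_left
    (pow_le_pow_left₀ (norm_nonneg _) (asrad_abs_le p.1 p.2) 4) (norm_nonneg _)

lemma asrad_four_ge : (r : ℝ) ^ 2 ≤ ∫ w, ‖w‖ ^ 4 ∂stdGaussian (Eu r) := by
  have h1 : ∫ w : Eu r, (2 * r * ‖w‖ ^ 2 - (r : ℝ) ^ 2) ∂stdGaussian (Eu r) = (r : ℝ) ^ 2 := by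
    rw [integral_sub ((integrable_norm_pow 2).const_mul _) (integrable_const _),
      integral_const_mul, int_norm_sq]
    simp
    ring
  rw [← h1]
  refine integral_mono (((integrable_norm_pow 2).const_mul _).sub (integrable_const _))
    (integrable_norm_pow 4) fun w => ?_
  nlinarith [sq_nonneg (‖w‖ ^ 2 - r)]

/-- `E [s ŝ^T] = (E‖s‖/r) I`. Sketch: `B w w' = ∫ ⟪s,w⟫ ⟪nz s, w'⟫` is bilinear, symmetric and invariant under
isometries (`integral_comp_iso`); `Submodule.reflection_sub` maps any `w` to any `w'` of the same norm, so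
`B w w = κ ‖w‖²`; summing over the standard basis `r κ = ∫ ‖s‖`; polarise, then `ext_inner`. -/
theorem rad_two (hr : 0 < r) (w : Eu r) :
    ∫ s, ⟪s, w⟫ • nz s ∂stdGaussian (Eu r) = ((∫ s, ‖s‖ ∂stdGaussian (Eu r)) / r) • w := by
  obtain ⟨e, he⟩ := asrad_hom hr (fun w => ∫ s, ⟪s, w⟫ * ⟪nz s, w⟫ ∂stdGaussian (Eu r)) 2
    (fun O w => by
      rw [← integral_comp_iso O]
      simp only [asrad_nz_map, LinearIsometryEquiv.inner_map_map])
    (fun c w => by
      rw [← integral_const_mul]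
      congr 1
      funext s
      rw [inner_smul_right, inner_smul_right]
      ring)
  generalize (∫ s, ⟪s, e⟫ * ⟪nz s, e⟫ ∂stdGaussian (Eu r)) = κ at he
  have hκ : ∫ s, ‖s‖ ∂stdGaussian (Eu r) = κ * r := by
    let b := EuclideanSpace.basisFun (Fin r) ℝ
    have h1 : ∀ s : Eu r, ‖s‖ = ∑ i, ⟪s, b i⟫ * ⟪nz s, b i⟫ := fun s => by
      have h2 := b.sum_inner_mul_inner s (nz s)
      have h3 : ⟪s, nz s⟫ = ‖s‖ := by
        rw [nz, inner_smul_right, real_inner_self_eq_norm_sq]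
        rcases eq_or_ne ‖s‖ 0 with hs | hs
        · rw [hs]
          simp
        · field_simp
      rw [← h3, ← h2]
      exact Finset.sum_congr rfl fun i _ => by rw [real_inner_comm (b i) (nz s)]
    rw [integral_congr_ae (Filter.Eventually.of_forall h1),
      integral_finsetSum _ fun i _ => asrad_int_two (b i) (b i)]
    simp only [he, b.orthonormal.1, one_pow, mul_one]
    simp [mul_comm]
  have hr' : (r : ℝ) ≠ 0 := Nat.cast_ne_zero.2 hr.ne'
  rw [hκ, mul_div_cancel_right₀ _ hr']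
  refine ext_inner_left ℝ fun w' => ?_
  rw [← integral_inner (asrad_int_smul w), inner_smul_right]
  have e1 : ∀ s : Eu r, ⟪w', ⟪s, w⟫ • nz s⟫ = (1 / 4 : ℝ) *
      (⟪s, w + w'⟫ * ⟪nz s, w + w'⟫ - ⟪s, w - w'⟫ * ⟪nz s, w - w'⟫) := fun s => by
    simp only [nz, inner_smul_right, inner_smul_left, inner_add_right, inner_sub_right,
      real_inner_comm s w', conj_trivial]
    ring
  rw [integral_congr_ae (Filter.Eventually.of_forall e1), integral_const_mul,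
    integral_sub (asrad_int_two _ _) (asrad_int_two _ _), he, he, norm_add_sq_real,
    norm_sub_sq_real, real_inner_comm w w']
  ring

/-- Sketch: the integrand is at most `‖s‖ ‖s'‖`. `J w = ∫ ⟪s,w⟫ ⟪nz s, w⟫³ dγ(s) = κ ‖w‖⁴` by invariance under
isometries and scaling; integrating over Gaussian `w` in the other order (`int_inner_four`,
`s = ‖s‖ • nz s`) `κ ∫‖w‖⁴ = m4 ∫ ‖s‖`, and `∫ ‖w‖⁴ ≥ r²` (`‖w‖⁴ ≥ 2 r ‖w‖² - r²`), `κ ≥ 0`.
The double integral is `κ ∫ ‖s'‖ ≤ m4 (∫‖s‖)²/r² ≤ m4/r` (`mean_norm_sq_le`, `int_norm_sq`). -/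
theorem rad_four (hr : 0 < r) :
    Integrable (fun p : Eu r × Eu r => |⟪p.1, p.2⟫| * |⟪nz p.1, nz p.2⟫| ^ 3)
      ((stdGaussian (Eu r)).prod (stdGaussian (Eu r))) ∧
    ∫ p, |⟪p.1, p.2⟫| * |⟪nz p.1, nz p.2⟫| ^ 3
      ∂(stdGaussian (Eu r)).prod (stdGaussian (Eu r)) ≤ m4 / r := by
  have e1 : ∀ p : Eu r × Eu r, |⟪p.1, p.2⟫| * |⟪nz p.1, nz p.2⟫| ^ 3
      = ‖p.2‖ * (‖p.1‖ * ⟪nz p.1, nz p.2⟫ ^ 4) := fun p => by
    have h1 : ⟪p.1, p.2⟫ = ‖p.1‖ * (‖p.2‖ * ⟪nz p.1, nz p.2⟫) := by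
      conv_lhs => rw [← asrad_smul_nz p.1, ← asrad_smul_nz p.2]
      rw [real_inner_smul_left, real_inner_smul_right]
    have h2 : ⟪nz p.1, nz p.2⟫ ^ 4 = |⟪nz p.1, nz p.2⟫| ^ 4 :=
      (Even.pow_abs ⟨2, rfl⟩ _).symm
    rw [h1, h2, abs_mul, abs_mul, abs_norm, abs_norm]
    ring
  have hi : Integrable (fun p : Eu r × Eu r => |⟪p.1, p.2⟫| * |⟪nz p.1, nz p.2⟫| ^ 3)
      ((stdGaussian (Eu r)).prod (stdGaussian (Eu r))) := by
    refine Integrable.mono' ((integrable_norm_pow 1).mul_prod (integrable_norm_pow 1))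
      (Measurable.aestronglyMeasurable (by have := measurable_nz (r := r); fun_prop))
      (Filter.Eventually.of_forall fun p => ?_)
    rw [Real.norm_of_nonneg (by positivity), pow_one, pow_one]
    have h3 : |⟪nz p.1, nz p.2⟫| ^ 3 ≤ 1 :=
      pow_le_one₀ (abs_nonneg _) ((asrad_abs_le _ _).trans (asrad_norm_nz _))
    exact (mul_le_of_le_one_right (abs_nonneg _) h3).trans (abs_real_inner_le_norm _ _)
  refine ⟨hi, ?_⟩
  obtain ⟨e, he⟩ := asrad_hom hr (fun w => ∫ s, ‖s‖ * ⟪nz s, w⟫ ^ 4 ∂stdGaussian (Eu r)) 4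
    (fun O w => by
      rw [← integral_comp_iso O]
      simp only [asrad_nz_map, LinearIsometryEquiv.inner_map_map, LinearIsometryEquiv.norm_map])
    (fun c w => by
      rw [← integral_const_mul]
      congr 1
      funext s
      rw [inner_smul_right]
      ring)
  have hκ0 : 0 ≤ ∫ s, ‖s‖ * ⟪nz s, e⟫ ^ 4 ∂stdGaussian (Eu r) :=
    integral_nonneg fun s => by positivity
  generalize (∫ s, ‖s‖ * ⟪nz s, e⟫ ^ 4 ∂stdGaussian (Eu r)) = κ at he hκ0
  have h1 : ∫ p, |⟪p.1, p.2⟫| * |⟪nz p.1, nz p.2⟫| ^ 3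
      ∂(stdGaussian (Eu r)).prod (stdGaussian (Eu r)) = κ * ∫ s, ‖s‖ ∂stdGaussian (Eu r) := by
    rw [integral_prod_symm _ hi, ← integral_const_mul]
    congr 1
    funext s'
    rw [integral_congr_ae (Filter.Eventually.of_forall fun s => e1 (s, s'))]
    simp only
    rw [integral_const_mul, he, mul_left_comm, asrad_mul_nz]
  have h2 : κ * ∫ w, ‖w‖ ^ 4 ∂stdGaussian (Eu r) = m4 * ∫ s, ‖s‖ ∂stdGaussian (Eu r) := by
    have h3 := integral_prod_symm _ (asrad_int_four (r := r))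
    rw [integral_prod _ (asrad_int_four (r := r))] at h3
    simp only [he] at h3
    rw [integral_const_mul] at h3
    rw [← h3, ← integral_const_mul]
    congr 1
    funext s
    rw [integral_const_mul, int_inner_four, mul_left_comm, asrad_mul_nz]
  have h4 : (∫ s, ‖s‖ ∂stdGaussian (Eu r)) ^ 2 ≤ r := by
    have h5 := mean_norm_sq_le (ContinuousLinearMap.id ℝ (Eu r))
    simp only [ContinuousLinearMap.id_apply] at h5
    rw [int_norm_sq] at h5
    simpa using h5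
  have h6 : 0 ≤ ∫ s, ‖s‖ ∂stdGaussian (Eu r) := integral_nonneg fun s => norm_nonneg _
  have h7 := mul_le_mul_of_nonneg_left (asrad_four_ge (r := r)) hκ0
  rw [h1]
  rw [h2] at h7
  generalize (∫ s, ‖s‖ ∂stdGaussian (Eu r)) = M at h4 h6 h7
  have hr' : (0 : ℝ) < r := Nat.cast_pos.2 hr
  have hm : 0 ≤ m4 := zero_le_one.trans one_le_m4
  rw [le_div_iff₀ hr']
  refine le_of_mul_le_mul_right ?_ hr'
  calc κ * M * r * r = κ * (r : ℝ) ^ 2 * M := by ring
    _ ≤ m4 * M * M := mul_le_mul_of_nonneg_right h7 h6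
    _ = m4 * M ^ 2 := by ring
    _ ≤ m4 * r := mul_le_mul_of_nonneg_left h4 hm

end Pool.Agent.Lib.MP_77d991_gt.As

namespace Pool.Agent.Lib.MP_77d991_gt.As

variable {E : Type*} [NormedAddCommGroup E] [InnerProductSpace ℝ E] [FiniteDimensional ℝ E]
  [MeasurableSpace E] [BorelSpace E]

variable {r : ℕ} {h : E → ℝ} {x : E → E} {R a : ℝ}

lemma asxi_nz_one {s : Eu r} (hs : s ≠ 0) : ‖nz s‖ = 1 := by
  unfold nz
  rw [norm_smul, norm_inv, norm_norm, inv_mul_cancel₀ (norm_ne_zero_iff.2 hs)]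

lemma asxi_nz_le (s : Eu r) : ‖nz s‖ ≤ 1 := by
  by_cases hs : s = 0
  · simp [nz, hs]
  · exact (asxi_nz_one hs).le

omit [FiniteDimensional ℝ E] [MeasurableSpace E] [BorelSpace E] in
lemma asxi_app_le (Γ : Mx r E) (s : Eu r) : ‖app Γ s‖ ≤ r * ‖Γ‖ * ‖s‖ := by
  rw [app_apply]
  calc ‖∑ j, s j • Γ j‖ ≤ ∑ j, ‖s j • Γ j‖ := norm_sum_le _ _
    _ ≤ ∑ _j : Fin r, ‖Γ‖ * ‖s‖ := Finset.sum_le_sum fun j _ => by
        rw [norm_smul, mul_comm]
        exact mul_le_mul (PiLp.norm_apply_le Γ j) (PiLp.norm_apply_le s j) (norm_nonneg _)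
          (norm_nonneg _)
    _ = _ := by simp [mul_assoc]

omit [FiniteDimensional ℝ E] [BorelSpace E] in
lemma asxi_Nn_le (S : Sel h x R) (Γ : Mx r E) (s : Eu r) :
    ‖Nn x a (app Γ (nz s))‖ ≤ R + |a| * r * ‖Γ‖ := by
  unfold Nn
  refine (norm_sub_le _ _).trans (add_le_add (S.bdd _) ?_)
  rw [norm_smul, Real.norm_eq_abs, mul_assoc]
  refine mul_le_mul_of_nonneg_left ((asxi_app_le Γ _).trans ?_) (abs_nonneg _)
  exact mul_le_of_le_one_right (by positivity) (asxi_nz_le s)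

lemma asxi_meas_Nn (S : Sel h x R) : Measurable (Nn x a) := by
  have := S.meas
  unfold Nn
  fun_prop

lemma asxi_meas {Ω : Type*} [MeasurableSpace Ω] (S : Sel h x R) {G : Ω → Mx r E} {s : Ω → Eu r}
    (hG : Measurable G) (hs : Measurable s) :
    Measurable fun q => Nn x a (app (G q) (nz (s q))) := by
  have h1 : Measurable fun q => (G q, nz (s q)) := hG.prodMk (measurable_nz.comp hs)
  have h2 : Measurable fun q => app (G q) (nz (s q)) :=
    Measurable.comp (g := fun p : Mx r E × Eu r => app p.1 p.2) (f := fun q => (G q, nz (s q)))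
      continuous_app.measurable h1
  exact Measurable.comp (g := Nn x a) (asxi_meas_Nn S) h2

lemma asxi_meas1 (S : Sel h x R) (Γ : Mx r E) :
    Measurable fun s : Eu r => Nn x a (app Γ (nz s)) :=
  asxi_meas S (G := fun _ => Γ) (s := fun s => s) measurable_const measurable_id

lemma asxi_int (S : Sel h x R) (Γ : Mx r E) (w : Eu r) :
    Integrable (fun s => ⟪s, w⟫ • Nn x a (app Γ (nz s))) (stdGaussian (Eu r)) := by
  refine Integrable.mono' ((integrable_norm_pow 1).const_mul (‖w‖ * (R + |a| * r * ‖Γ‖)))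
    (Measurable.aestronglyMeasurable (by have := asxi_meas1 (a := a) S Γ; fun_prop))
    (Filter.Eventually.of_forall fun s => ?_)
  rw [norm_smul, pow_one]
  calc _ ≤ (‖s‖ * ‖w‖) * (R + |a| * r * ‖Γ‖) :=
        mul_le_mul (norm_inner_le_norm _ _) (asxi_Nn_le S Γ s) (norm_nonneg _) (by positivity)
    _ = _ := by ring

/-- Sketch: `‖∫ f‖² = ∫∫ ⟪f s, f s'⟫` (`integral_prod_bilin` / `integral_inner` twice), `∑ ⟪s,b i⟫⟪s',b i⟫ = ⟪s,s'⟫`
(`OrthonormalBasis.sum_inner_mul_inner`); `‖Nn x a (app Γ (nz s))‖ ≤ R + |a| ‖app Γ‖` is bounded. -/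
theorem xi_sum (S : Sel h x R) (Γ : Mx r E) (b : OrthonormalBasis (Fin r) ℝ (Eu r)) :
    ∑ i, ‖∫ s, ⟪s, b i⟫ • Nn x a (app Γ (nz s)) ∂stdGaussian (Eu r)‖ ^ 2 = hsXi x a Γ := by
  have hc : CompleteSpace E := FiniteDimensional.complete ℝ E
  have e1 : ∀ i, ‖∫ s, ⟪s, b i⟫ • Nn x a (app Γ (nz s)) ∂stdGaussian (Eu r)‖ ^ 2 =
      ∫ p, ⟪⟪p.1, b i⟫ • Nn x a (app Γ (nz p.1)), ⟪p.2, b i⟫ • Nn x a (app Γ (nz p.2))⟫
        ∂(stdGaussian (Eu r)).prod (stdGaussian (Eu r)) := fun i => by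
    rw [← real_inner_self_eq_norm_sq]
    exact (integral_prod_bilin (innerSL ℝ) (asxi_int S Γ (b i)) (asxi_int S Γ (b i))).symm
  simp_rw [e1]
  rw [← integral_finsetSum]
  · unfold hsXi
    congr 1
    funext p
    rw [← b.sum_inner_mul_inner p.1 p.2, Finset.sum_mul]
    refine Finset.sum_congr rfl fun i _ => ?_
    rw [real_inner_smul_left, real_inner_smul_right, real_inner_comm p.2 (b i)]
    ring
  · intro i _
    exact (asxi_int S Γ (b i)).op_fst_snd (op := fun u v : E => ⟪u, v⟫) (by fun_prop)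
      ⟨1, fun u v => by simpa using norm_inner_le_norm (𝕜 := ℝ) u v⟩ (asxi_int S Γ (b i))

/-- `x (Γ s) = x (Γ (nz s)) = Nn (Γ (nz s)) + a Γ (nz s)` (`hom`; `s = 0` is trivial), `rad_two`,
`ContinuousLinearMap.integral_comp_comm`. -/
theorem xi_split (S : Sel h x R) (hr : 0 < r) (Γ : Mx r E) (w : Eu r) :
    ∫ s, ⟪s, w⟫ • x (app Γ s) ∂stdGaussian (Eu r) =
      (a * ((∫ s, ‖s‖ ∂stdGaussian (Eu r)) / r)) • app Γ w +
        ∫ s, ⟪s, w⟫ • Nn x a (app Γ (nz s)) ∂stdGaussian (Eu r) := by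
  have hc : CompleteSpace E := FiniteDimensional.complete ℝ E
  have i1 : Integrable (fun s : Eu r => ⟪s, w⟫ • nz s) (stdGaussian (Eu r)) := by
    refine Integrable.mono' ((integrable_norm_pow 1).const_mul ‖w‖)
      (Measurable.aestronglyMeasurable (by have := @measurable_nz r; fun_prop))
      (Filter.Eventually.of_forall fun s => ?_)
    rw [norm_smul, pow_one]
    calc _ ≤ (‖s‖ * ‖w‖) * 1 :=
          mul_le_mul (norm_inner_le_norm _ _) (asxi_nz_le s) (norm_nonneg _) (by positivity)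
      _ = _ := by ring
  have e : ∀ s : Eu r, ⟪s, w⟫ • x (app Γ s) =
      a • app Γ (⟪s, w⟫ • nz s) + ⟪s, w⟫ • Nn x a (app Γ (nz s)) := fun s => by
    by_cases hs : s = 0
    · simp [hs]
    · have e1 : x (app Γ (nz s)) = x (app Γ s) := by
        unfold nz
        rw [map_smul]
        exact S.hom _ _ (inv_pos.2 (norm_pos_iff.2 hs))
      unfold Nn
      rw [e1, map_smul]
      module
  simp_rw [e]
  have i2 : Integrable (fun s : Eu r => a • app Γ (⟪s, w⟫ • nz s)) (stdGaussian (Eu r)) :=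
    ((app Γ).integrable_comp i1).smul a
  rw [integral_add i2 (asxi_int S Γ w), integral_smul,
    (app Γ).integral_comp_comm i1, rad_two hr, map_smul, smul_smul]

/-- Sketch: the integrand of `hsXi` is jointly measurable in `(Γ, p)` (`continuous_app`, `measurable_nz`) and at most
`‖s‖‖s'‖ (R + |a| C ‖Γ‖)²`, so integrable on the product (`Integrable.integral_prod_left`,
`integral_integral_swap`). For `s, s' ≠ 0` the `Γ`-integral is `⟪s,s'⟫ phi (Nn x a) ⟪nz s, nz s'⟫` (`law_pair`);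
for `s = 0` or `s' = 0` it is `0`. Then `phi_le` and `rad_four`. -/
theorem xi_mean (S : Sel h x R) (hI : Iso x a) (hr : 0 < r) :
    Measurable (hsXi x a : Mx r E → ℝ) ∧ Integrable (hsXi x a : Mx r E → ℝ) (stdGaussian (Mx r E)) ∧
    ∫ Γ, hsXi x a Γ ∂stdGaussian (Mx r E) ≤ m4 * R ^ 2 / r := by
  let F : Mx r E × (Eu r × Eu r) → ℝ := fun q =>
    ⟪q.2.1, q.2.2⟫ * ⟪Nn x a (app q.1 (nz q.2.1)), Nn x a (app q.1 (nz q.2.2))⟫
  have m1 : Measurable fun q : Mx r E × (Eu r × Eu r) => Nn x a (app q.1 (nz q.2.1)) :=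
    asxi_meas S (G := fun q : Mx r E × (Eu r × Eu r) => q.1) (s := fun q => q.2.1)
      measurable_fst measurable_snd.fst
  have m2 : Measurable fun q : Mx r E × (Eu r × Eu r) => Nn x a (app q.1 (nz q.2.2)) :=
    asxi_meas S (G := fun q : Mx r E × (Eu r × Eu r) => q.1) (s := fun q => q.2.2)
      measurable_fst measurable_snd.snd
  have mF : Measurable F := by
    refine Measurable.mul ?_ (m1.inner m2)
    fun_prop
  have hR := S.R_nonneg
  have iG : Integrable (fun Γ : Mx r E => (R + |a| * r * ‖Γ‖) ^ 2) (stdGaussian (Mx r E)) := by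
    have e : (fun Γ : Mx r E => (R + |a| * r * ‖Γ‖) ^ 2) =
        fun Γ => R ^ 2 + (2 * R * (|a| * r) * ‖Γ‖ ^ 1 + (|a| * r) ^ 2 * ‖Γ‖ ^ 2) := by
      funext Γ
      ring
    rw [e]
    exact (integrable_const _).add
      (((integrable_norm_pow 1).const_mul _).add ((integrable_norm_pow 2).const_mul _))
  have iP : Integrable (fun p : Eu r × Eu r => ‖p.1‖ ^ 1 * ‖p.2‖ ^ 1)
      ((stdGaussian (Eu r)).prod (stdGaussian (Eu r))) :=
    (integrable_norm_pow 1).mul_prod (integrable_norm_pow 1)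
  have iF : Integrable F ((stdGaussian (Mx r E)).prod
      ((stdGaussian (Eu r)).prod (stdGaussian (Eu r)))) := by
    refine Integrable.mono' (iG.mul_prod iP) mF.aestronglyMeasurable
      (Filter.Eventually.of_forall fun q => ?_)
    have h1 := asxi_Nn_le (a := a) S q.1 q.2.1
    have h2 := asxi_Nn_le (a := a) S q.1 q.2.2
    have h3 : ‖⟪Nn x a (app q.1 (nz q.2.1)), Nn x a (app q.1 (nz q.2.2))⟫‖ ≤
        (R + |a| * r * ‖q.1‖) * (R + |a| * r * ‖q.1‖) :=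
      (norm_inner_le_norm _ _).trans (mul_le_mul h1 h2 (norm_nonneg _) (by positivity))
    calc ‖F q‖ = ‖⟪q.2.1, q.2.2⟫‖ *
          ‖⟪Nn x a (app q.1 (nz q.2.1)), Nn x a (app q.1 (nz q.2.2))⟫‖ := norm_mul _ _
      _ ≤ (‖q.2.1‖ * ‖q.2.2‖) * ((R + |a| * r * ‖q.1‖) * (R + |a| * r * ‖q.1‖)) :=
          mul_le_mul (norm_inner_le_norm _ _) h3 (norm_nonneg _) (by positivity)
      _ = _ := by ring
  have eX : (hsXi x a : Mx r E → ℝ) =
      fun Γ => ∫ p, F (Γ, p) ∂(stdGaussian (Eu r)).prod (stdGaussian (Eu r)) := rfl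
  have key : ∀ p : Eu r × Eu r, ∫ Γ, F (Γ, p) ∂stdGaussian (Mx r E) ≤
      R ^ 2 * (|⟪p.1, p.2⟫| * |⟪nz p.1, nz p.2⟫| ^ 3) := fun p => by
    by_cases h0 : p.1 = 0 ∨ p.2 = 0
    · have : ⟪p.1, p.2⟫ = 0 := by
        rcases h0 with h0 | h0 <;> simp [h0]
      simp [F, this]
    push Not at h0
    have n1 := asxi_nz_one h0.1
    have n2 := asxi_nz_one h0.2
    have mN := asxi_meas_Nn (a := a) S
    have mG : Measurable fun u : E × E => ⟪Nn x a u.1, Nn x a u.2⟫ := by fun_prop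
    have cA : Continuous fun Γ : Mx r E => (app Γ (nz p.1), app Γ (nz p.2)) :=
      (continuous_app.comp (continuous_id.prodMk continuous_const)).prodMk
        (continuous_app.comp (continuous_id.prodMk continuous_const))
    have e1 : ∫ Γ, ⟪Nn x a (app Γ (nz p.1)), Nn x a (app Γ (nz p.2))⟫ ∂stdGaussian (Mx r E) =
        phi (Nn x a) ⟪nz p.1, nz p.2⟫ := by
      have e2 := integral_map (μ := stdGaussian (Mx r E)) cA.measurable.aemeasurable
        mG.aestronglyMeasurable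
      rw [← e2, law_pair _ _ n1 n2, integral_map (by fun_prop) mG.aestronglyMeasurable]
      rfl
    have ht : |⟪nz p.1, nz p.2⟫| ≤ 1 := by
      have := abs_real_inner_le_norm (nz p.1) (nz p.2)
      rwa [n1, n2, one_mul] at this
    have h2 := phi_le S hI ht
    simp only [F]
    rw [integral_const_mul, e1]
    calc _ ≤ |⟪p.1, p.2⟫ * phi (Nn x a) ⟪nz p.1, nz p.2⟫| := le_abs_self _
      _ = |⟪p.1, p.2⟫| * |phi (Nn x a) ⟪nz p.1, nz p.2⟫| := abs_mul _ _
      _ ≤ |⟪p.1, p.2⟫| * (R ^ 2 * |⟪nz p.1, nz p.2⟫| ^ 3) :=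
          mul_le_mul_of_nonneg_left h2 (abs_nonneg _)
      _ = _ := by ring
  refine ⟨?_, ?_, ?_⟩
  · rw [eX]
    exact (mF.stronglyMeasurable.integral_prod_right').measurable
  · rw [eX]
    exact iF.integral_prod_left
  · rw [eX, ← integral_prod F iF, integral_prod_symm F iF]
    obtain ⟨i4, l4⟩ := rad_four hr
    calc _ ≤ ∫ p, R ^ 2 * (|⟪p.1, p.2⟫| * |⟪nz p.1, nz p.2⟫| ^ 3)
          ∂(stdGaussian (Eu r)).prod (stdGaussian (Eu r)) :=
          integral_mono iF.integral_prod_right (i4.const_mul _) key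
      _ ≤ R ^ 2 * (m4 / r) := by
          rw [integral_const_mul]
          exact mul_le_mul_of_nonneg_left l4 (sq_nonneg _)
      _ = _ := by ring

end Pool.Agent.Lib.MP_77d991_gt.As

namespace Pool.Agent.Lib.MP_77d991_gt.As

variable {E : Type*} [NormedAddCommGroup E] [InnerProductSpace ℝ E] [FiniteDimensional ℝ E]
  [MeasurableSpace E] [BorelSpace E]

variable {r : ℕ} {h : E → ℝ} {x : E → E} {R a : ℝ}

omit [MeasurableSpace E] [BorelSpace E] in
/-- singular directions: eigenvector basis of the symmetric map `adjoint H ∘ H`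
(`LinearMap.IsSymmetric.eigenvectorBasis`, `apply_eigenvectorBasis`). -/
theorem exists_svd (H : Eu r →L[ℝ] E) :
    ∃ b : OrthonormalBasis (Fin r) ℝ (Eu r), ∀ i j, i ≠ j → ⟪H (b i), H (b j)⟫ = 0 := by
  have hT := LinearMap.isSymmetric_adjoint_comp_self (H : Eu r →ₗ[ℝ] E)
  have hn : Module.finrank ℝ (Eu r) = r := by simp
  refine ⟨hT.eigenvectorBasis hn, fun i j hij => ?_⟩
  have h1 := hT.apply_eigenvectorBasis hn j
  have h2 := LinearMap.adjoint_inner_right (H : Eu r →ₗ[ℝ] E) (hT.eigenvectorBasis hn i)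
    (H (hT.eigenvectorBasis hn j))
  rw [LinearMap.comp_apply] at h1
  refine h2.symm.trans ?_
  refine (congrArg (inner ℝ _) h1).trans ?_
  rw [inner_smul_right, (hT.eigenvectorBasis hn).inner_eq_zero hij, mul_zero]

omit [FiniteDimensional ℝ E] [MeasurableSpace E] [BorelSpace E] in
lemma astail_norm_sum {ι : Type*} (s : Finset ι) (v : ι → E)
    (hv : ∀ i j, i ≠ j → ⟪v i, v j⟫ = 0) : ‖∑ i ∈ s, v i‖ ^ 2 = ∑ i ∈ s, ‖v i‖ ^ 2 := by
  rw [← real_inner_self_eq_norm_sq, sum_inner]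
  refine Finset.sum_congr rfl fun i hi => ?_
  rw [inner_sum, Finset.sum_eq_single i (fun j _ hj => hv i j hj.symm) fun hc => absurd hi hc,
    real_inner_self_eq_norm_sq]

omit [FiniteDimensional ℝ E] [MeasurableSpace E] [BorelSpace E] in
lemma astail_damp_basis (b : OrthonormalBasis (Fin r) ℝ (Eu r)) (H : Eu r →L[ℝ] E)
    (c : Fin r → ℝ) (i : Fin r) : damp b H c (b i) = c i • H (b i) := by
  rw [damp_apply, Finset.sum_eq_single i]
  · rw [real_inner_self_eq_norm_sq, b.norm_eq_one, one_pow, one_smul]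
  · intro j _ hj
    rw [b.inner_eq_zero hj, zero_smul]
  · simp

omit [FiniteDimensional ℝ E] [MeasurableSpace E] [BorelSpace E] in
lemma astail_damp_le (H : Eu r →L[ℝ] E) (b : OrthonormalBasis (Fin r) ℝ (Eu r))
    (hb : ∀ i j, i ≠ j → ⟪H (b i), H (b j)⟫ = 0) (c : Fin r → ℝ) {L : ℝ}
    (hL : 0 ≤ L) (hcL : ∀ i, ‖c i • H (b i)‖ ≤ L) : ‖damp b H c‖ ≤ L := by
  refine ContinuousLinearMap.opNorm_le_bound _ hL fun s => ?_
  refine (abs_le_of_sq_le_sq' ?_ (by positivity)).2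
  rw [damp_apply, astail_norm_sum _ _ fun i j hij => by
    simp only [inner_smul_left, inner_smul_right, hb i j hij, mul_zero],
    mul_pow, ← b.sum_sq_inner_right s, Finset.mul_sum]
  refine Finset.sum_le_sum fun i _ => ?_
  rw [norm_smul, mul_pow, Real.norm_eq_abs, sq_abs, mul_comm]
  exact mul_le_mul_of_nonneg_right (pow_le_pow_left₀ (norm_nonneg _) (hcL i) 2) (sq_nonneg _)

lemma astail_slice (S : Sel h x R) (A : Eu r →L[ℝ] E) {L : ℝ} (hA : ‖A‖ ≤ L) {τ : ℝ}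
    (hτ : 0 < τ) (y : E) :
    (stdGaussian (Eu r)).real {s | h (A s + y) ≤ ∫ u, h (A u) ∂stdGaussian (Eu r) - τ} ≤
      10 * (L * R) ^ 2 / τ ^ 2 := by
  have : CompleteSpace E := FiniteDimensional.complete ℝ E
  refine le_trans (measureReal_mono fun s hs => ?_) (dev_le (fun s => h (A s + y))
    (fun s => ContinuousLinearMap.adjoint A (x (A s + y))) (L * R) ?_ (fun s => ?_)
    (fun s s' => ?_) hτ)
  · have h1 := S.shift_ge A y
    have h2 : h (A s + y) ≤ ∫ u, h (A u) ∂stdGaussian (Eu r) - τ := hs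
    change τ ≤ |h (A s + y) - ∫ u, h (A u + y) ∂stdGaussian (Eu r)|
    exact le_abs.2 (Or.inr (by linarith))
  · exact (ContinuousLinearMap.adjoint A).continuous.measurable.comp
      (S.meas.comp (A.continuous.add continuous_const).measurable)
  · refine ((ContinuousLinearMap.adjoint A).le_opNorm _).trans ?_
    rw [ContinuousLinearMap.adjoint.norm_map]
    exact mul_le_mul hA (S.bdd _) (norm_nonneg _) ((norm_nonneg _).trans hA)
  · rw [ContinuousLinearMap.adjoint_inner_left, map_sub, ← add_sub_add_right_eq_sub _ _ y]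
    exact S.sub_le _ _

/-- Lower tail of `h (H s)`. Sketch: `A = damp b H c`, `B = damp b H (√(1 - c²))`, `A (b i) = c i • H (b i)`;
`law2 H A B` (`OrthonormalBasis.norm_dual`). `‖A s‖² = ∑ ⟪b i,s⟫² c_i² ‖H b_i‖² ≤ L²‖s‖²` (orthogonality).
For fixed `y`, `f s = h (A s + y)`, `ξ s = adjoint A (x (A s + y))`, `‖ξ‖ ≤ L R`, `dev_le` and `shift_ge` give
`γ {s | h (A s + y) ≤ ∫ h (A u) - τ} ≤ 10 (L R)²/τ²`; integrate over `y = B s₂`
(`Measure.prod_apply_symm`, `lintegral_mono`). -/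
theorem tail_le (S : Sel h x R) (H : Eu r →L[ℝ] E) (b : OrthonormalBasis (Fin r) ℝ (Eu r))
    (hb : ∀ i j, i ≠ j → ⟪H (b i), H (b j)⟫ = 0) (c : Fin r → ℝ) (hc : ∀ i, |c i| ≤ 1) {L : ℝ}
    (hL : 0 ≤ L) (hcL : ∀ i, ‖c i • H (b i)‖ ≤ L) {τ : ℝ} (hτ : 0 < τ) :
    (stdGaussian (Eu r)).real {s | h (H s) ≤ ∫ u, h (damp b H c u) ∂stdGaussian (Eu r) - τ} ≤
      10 * (L * R) ^ 2 / τ ^ 2 := by
  have hA := astail_damp_le H b hb c hL hcL
  set m := ∫ u, h (damp b H c u) ∂stdGaussian (Eu r) - τ with hm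
  have hlaw := law2 H (damp b H c) (damp b H fun i => √(1 - c i ^ 2)) fun φ => by
    rw [b.norm_dual, b.norm_dual, b.norm_dual, ← Finset.sum_add_distrib]
    refine Finset.sum_congr rfl fun i _ => ?_
    have h1 : 0 ≤ 1 - c i ^ 2 := sub_nonneg.2 ((sq_le_one_iff_abs_le_one _).2 (hc i))
    simp only [ContinuousLinearMap.comp_apply, astail_damp_basis, map_smul, smul_eq_mul, mul_pow,
      Real.sq_sqrt h1]
    ring
  have hs : MeasurableSet {y : E | h y ≤ m} :=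
    measurableSet_le S.cont.measurable measurable_const
  have hf : Measurable fun p : Eu r × Eu r =>
      damp b H c p.1 + damp b H (fun i => √(1 - c i ^ 2)) p.2 := by fun_prop
  have h1 : stdGaussian (Eu r) {s | h (H s) ≤ m} =
      ((stdGaussian (Eu r)).map H) {y : E | h y ≤ m} := by
    rw [Measure.map_apply H.continuous.measurable hs]
    rfl
  rw [hlaw, Measure.map_apply hf hs, Measure.prod_apply_symm (hf hs)] at h1
  have h2 : 0 ≤ 10 * (L * R) ^ 2 / τ ^ 2 := by positivity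
  refine ENNReal.toReal_le_of_le_ofReal h2 ?_
  rw [h1]
  refine lintegral_le_const (Filter.Eventually.of_forall fun y => ?_)
  exact (ENNReal.le_ofReal_iff_toReal_le (measure_ne_top _ _) h2).2
    (astail_slice S (damp b H c) hA hτ (damp b H (fun i => √(1 - c i ^ 2)) y))

/-- Many large singular values. Sketch: `u i = ‖H b_i‖⁻¹ • H b_i` (`i ∈ B`) is orthonormal,
`damp b H c s = L ∑_(i∈B) ⟪b i,s⟫ u i`; `T y = L ∑_(i∈B) ⟪u i,y⟫ u i`; `law1 (damp b H c) T`
(for a functional `φ = ⟪w,·⟫` both squared norms are `L² ∑_(i∈B) ⟪w,u i⟫²`), `trace_le` in any orthonormal basis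
`e` of `E`: `∑_k ⟪e k, T e k⟫ = L ∑_(i∈B) ∑_k ⟪u i,e k⟫² = L #B`. -/
theorem big_case (S : Sel h x R) (hI : Iso x a) (H : Eu r →L[ℝ] E)
    (b : OrthonormalBasis (Fin r) ℝ (Eu r)) (hb : ∀ i j, i ≠ j → ⟪H (b i), H (b j)⟫ = 0)
    (B : Finset (Fin r)) (hB : ∀ i ∈ B, H (b i) ≠ 0) (L : ℝ) :
    a * (L * B.card) ≤
      ∫ u, h (damp b H (fun i => if i ∈ B then L / ‖H (b i)‖ else 0) u) ∂stdGaussian (Eu r) := by
  set u : Fin r → E := fun i => ‖H (b i)‖⁻¹ • H (b i) with hu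
  have hu1 : ∀ i ∈ B, ‖u i‖ = 1 := fun i hi => norm_smul_inv_norm (hB i hi)
  have hu2 : ∀ i j, i ≠ j → ⟪u i, u j⟫ = 0 := fun i j hij => by
    simp only [hu, inner_smul_left, inner_smul_right, hb i j hij, mul_zero]
  set T : E →L[ℝ] E := ∑ i ∈ B, (innerSL ℝ (u i)).smulRight (L • u i) with hT
  have hT' : ∀ y, T y = ∑ i ∈ B, ⟪u i, y⟫ • L • u i := fun y => by simp [hT]
  set e := stdOrthonormalBasis ℝ E
  set A := damp b H fun i => if i ∈ B then L / ‖H (b i)‖ else 0 with hA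
  have hlaw := law1 A T fun φ => by
    rw [b.norm_dual, e.norm_dual]
    have h1 : ∀ k, (φ.comp T) (e k) = ⟪e k, ∑ i ∈ B, (L * φ (u i)) • u i⟫ := fun k => by
      rw [ContinuousLinearMap.comp_apply, hT', map_sum, inner_sum]
      refine Finset.sum_congr rfl fun i _ => ?_
      rw [map_smul, map_smul, inner_smul_right, real_inner_comm, smul_eq_mul, smul_eq_mul, mul_comm]
    simp only [h1]
    rw [e.sum_sq_inner_right, astail_norm_sum _ _ fun i j hij => by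
      simp only [inner_smul_left, inner_smul_right, hu2 i j hij, mul_zero]]
    rw [← Finset.sum_subset (Finset.subset_univ B) fun i _ hi => by
      simp [hA, astail_damp_basis, hi]]
    refine Finset.sum_congr rfl fun i hi => ?_
    rw [norm_smul, hu1 i hi, mul_one, Real.norm_eq_abs, sq_abs, ContinuousLinearMap.comp_apply, hA,
      astail_damp_basis, if_pos hi]
    simp only [hu, map_smul, smul_eq_mul]
    ring
  have h1 : ∫ s, h (A s) ∂stdGaussian (Eu r) = ∫ y, h (T y) ∂stdGaussian E := by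
    rw [← integral_map A.continuous.aemeasurable S.cont.aestronglyMeasurable, hlaw,
      integral_map T.continuous.aemeasurable S.cont.aestronglyMeasurable]
  have h2 : ∑ k, ⟪e k, T (e k)⟫ = L * B.card := by
    simp only [hT', inner_sum]
    rw [Finset.sum_comm, Finset.card_eq_sum_ones, Nat.cast_sum, Finset.mul_sum]
    refine Finset.sum_congr rfl fun i hi => ?_
    have h3 := e.sum_sq_inner_right (u i)
    rw [hu1 i hi] at h3
    rw [Nat.cast_one, ← one_pow 2, ← h3, Finset.mul_sum]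
    refine Finset.sum_congr rfl fun k _ => ?_
    rw [inner_smul_right, inner_smul_right, real_inner_comm]
    ring
  rw [h1, ← h2]
  exact S.trace_le hI e T

end Pool.Agent.Lib.MP_77d991_gt.As

namespace Pool.Agent.Lib.MP_77d991_gt.As

variable {E : Type*} [NormedAddCommGroup E] [InnerProductSpace ℝ E] [FiniteDimensional ℝ E]
  [MeasurableSpace E] [BorelSpace E]

variable {r : ℕ} {h : E → ℝ} {x : E → E} {R a : ℝ}

lemma ascert_cs {ι : Type*} (T : Finset ι) (f : ι → ℝ) {n Q : ℝ} (hn : (T.card : ℝ) ≤ n)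
    (hQ : ∑ i ∈ T, f i ^ 2 ≤ Q) : ∑ i ∈ T, f i ≤ √n * √Q := by
  have h0 : (0 : ℝ) ≤ ∑ i ∈ T, f i ^ 2 := Finset.sum_nonneg fun i _ => sq_nonneg _
  have hn0 : (0 : ℝ) ≤ n := (Nat.cast_nonneg _).trans hn
  rw [← Real.sqrt_mul hn0]
  refine Real.le_sqrt_of_sq_le ?_
  exact (sq_sum_le_card_mul_sum_sq (s := T) (f := f)).trans (mul_le_mul hn hQ h0 hn0)

lemma ascert_int (S : Sel h x R) (Γ : Mx r E) (w : Eu r) :
    Integrable (fun s => ⟪s, w⟫ • x (app Γ s)) (stdGaussian (Eu r)) := by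
  refine Integrable.mono' ((integrable_norm_pow 1).const_mul (‖w‖ * R))
    (Measurable.aestronglyMeasurable (by have := S.meas; fun_prop))
    (Filter.Eventually.of_forall fun y => ?_)
  rw [norm_smul, pow_one]
  calc _ ≤ (‖y‖ * ‖w‖) * R :=
        mul_le_mul (norm_inner_le_norm _ _) (S.bdd _) (norm_nonneg _) (by positivity)
    _ = _ := by ring

/-- Few large singular values: the certificate. Sketch: `h (A s) ≥ ⟪x (Γ s), A s⟫ =
∑_(i∉B) ⟪H b_i, ⟪s,b i⟫ • x (Γ s)⟫`; integrate (`integral_inner`), `xi_split`, `hH` gives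
`⟪H b_i, Γ b_i⟫ = ‖Γ b_i‖²`. `∑_(i∉B) ‖Γ b_i‖² = ‖Γ‖² - ∑_(i∈B) ‖Γ b_i‖² ≥ ‖Γ‖² - √#B √Q4` (`hs_basis`, `q4_basis`,
Cauchy-Schwarz), `∑_(i∉B) ⟪H b_i, Ξ_i⟫ ≥ -L ∑ ‖Ξ_i‖ ≥ -L √r √hsXi` (`xi_sum`). -/
theorem small_case (S : Sel h x R) (ha : 0 ≤ a) (hr : 0 < r) (Γ : Mx r E) (H : Eu r →L[ℝ] E)
    (hH : ∀ s s', ⟪app Γ s, H s'⟫ = ⟪app Γ s, app Γ s'⟫)
    (b : OrthonormalBasis (Fin r) ℝ (Eu r)) (B : Finset (Fin r)) {L : ℝ} (hL : 0 ≤ L)
    (hB : ∀ i ∉ B, ‖H (b i)‖ ≤ L) :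
    a * ((∫ s, ‖s‖ ∂stdGaussian (Eu r)) / r) * (‖Γ‖ ^ 2 - √B.card * √(Q4 Γ)) -
        L * √r * √(hsXi x a Γ) ≤
      ∫ u, h (damp b H (fun i => if i ∈ B then 0 else 1) u) ∂stdGaussian (Eu r) := by
  set κ : ℝ := a * ((∫ s, ‖s‖ ∂stdGaussian (Eu r)) / r) with hκ
  have hκ0 : 0 ≤ κ :=
    mul_nonneg ha (div_nonneg (integral_nonneg fun s => norm_nonneg s) (Nat.cast_nonneg _))
  set Ξ : Fin r → E := fun i => ∫ s, ⟪s, b i⟫ • Nn x a (app Γ (nz s)) ∂stdGaussian (Eu r) with hΞ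
  have h1 : ∀ s, ∑ i ∈ Bᶜ, ⟪H (b i), ⟪s, b i⟫ • x (app Γ s)⟫ ≤
      h (damp b H (fun i => if i ∈ B then 0 else 1) s) := fun s => by
    refine le_of_eq_of_le ?_ (S.le (app Γ s) _)
    rw [damp_apply, inner_sum, ← Finset.sum_add_sum_compl B,
      Finset.sum_eq_zero (s := B) fun i hi => by simp [hi], zero_add]
    refine Finset.sum_congr rfl fun i hi => ?_
    rw [if_neg (Finset.mem_compl.1 hi), one_smul, inner_smul_right, inner_smul_right,
      real_inner_comm s, real_inner_comm (H (b i))]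
  have h2 := integral_mono
    (integrable_finsetSum Bᶜ fun i _ => (ascert_int S Γ (b i)).const_inner (H (b i)))
    (S.integrable_lin (damp b H (fun i => if i ∈ B then 0 else 1))) h1
  rw [integral_finsetSum _ fun i _ => (ascert_int S Γ (b i)).const_inner (H (b i))] at h2
  have h3 : ∀ i, ∫ s, ⟪H (b i), ⟪s, b i⟫ • x (app Γ s)⟫ ∂stdGaussian (Eu r) =
      κ * ‖app Γ (b i)‖ ^ 2 + ⟪H (b i), Ξ i⟫ := fun i => by
    rw [integral_inner (ascert_int S Γ (b i)), xi_split (a := a) S hr, inner_add_right,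
      inner_smul_right, real_inner_comm (app Γ (b i)), hH, real_inner_self_eq_norm_sq]
  simp_rw [h3] at h2
  rw [Finset.sum_add_distrib, ← Finset.mul_sum] at h2
  have h4 : ∑ i ∈ B, ‖app Γ (b i)‖ ^ 2 ≤ √B.card * √(Q4 Γ) := by
    refine ascert_cs B _ le_rfl (le_trans ?_ (q4_basis Γ b))
    simp only [← pow_mul]
    exact Finset.sum_le_sum_of_subset_of_nonneg (Finset.subset_univ _) fun i _ _ => by positivity
  have h5 := hs_basis Γ b
  rw [← Finset.sum_add_sum_compl B] at h5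
  have h6 : ∑ i ∈ Bᶜ, ‖Ξ i‖ ≤ √r * √(hsXi x a Γ) := by
    refine ascert_cs Bᶜ _ ?_ (le_of_le_of_eq ?_ (xi_sum S Γ b))
    · exact_mod_cast (Finset.card_le_univ _).trans (Fintype.card_fin r).le
    · exact Finset.sum_le_sum_of_subset_of_nonneg (Finset.subset_univ _) fun i _ _ => by positivity
  have h7 : -(L * ∑ i ∈ Bᶜ, ‖Ξ i‖) ≤ ∑ i ∈ Bᶜ, ⟪H (b i), Ξ i⟫ := by
    rw [Finset.mul_sum, ← Finset.sum_neg_distrib]
    refine Finset.sum_le_sum fun i hi => ?_
    have e1 := abs_real_inner_le_norm (H (b i)) (Ξ i)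
    have e2 := mul_le_mul_of_nonneg_right (hB i (Finset.mem_compl.1 hi)) (norm_nonneg (Ξ i))
    linarith [neg_abs_le ⟪H (b i), Ξ i⟫]
  have h8 := mul_le_mul_of_nonneg_left h6 hL
  have h9 : κ * (‖Γ‖ ^ 2 - √B.card * √(Q4 Γ)) ≤ κ * ∑ i ∈ Bᶜ, ‖app Γ (b i)‖ ^ 2 :=
    mul_le_mul_of_nonneg_left (by linarith) hκ0
  rw [mul_assoc L]
  linarith

end Pool.Agent.Lib.MP_77d991_gt.As

namespace Pool.Agent.Lib.MP_77d991_gt.As

variable {E : Type*} [NormedAddCommGroup E] [InnerProductSpace ℝ E] [FiniteDimensional ℝ E]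
  [MeasurableSpace E] [BorelSpace E]

lemma asgood_big {e C4 D ρ n : ℝ} (he : 0 < e) (hC4 : 0 < C4) (hD : 0 < D) (hρ : 0 < ρ)
    (hrd : e * D ≤ ρ) (hn : (e ^ 2) ^ 3 / C4 * ρ ^ 2 ≤ n) :
    ρ ≤ 1 / D ^ 2 * (C4 / ((e ^ 2) ^ 3 * e) * D * n) := by
  have h1 : 1 / D ^ 2 * (C4 / ((e ^ 2) ^ 3 * e) * D * ((e ^ 2) ^ 3 / C4 * ρ ^ 2)) =
      ρ * (ρ / (e * D)) := by
    field_simp
  have h2 : 1 ≤ ρ / (e * D) := (one_le_div (by positivity)).2 hrd
  calc ρ ≤ ρ * (ρ / (e * D)) := le_mul_of_one_le_right hρ.le h2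
    _ = _ := h1.symm
    _ ≤ _ := by gcongr

lemma asgood_small {ε D ρ m G P T : ℝ} (hε : 0 < ε) (hε1 : ε ≤ 1 / 10) (hD : 0 < D) (hρ : 0 < ρ)
    (hm : (1 - ε) * ρ ≤ m) (hG : (1 - ε) * (D * ρ) ≤ G) (hP : P ≤ ε * (D ^ 2 * ρ ^ 2))
    (hT : T ≤ ε * ρ) :
    (1 - 5 * ε) * ρ ≤ 1 / D ^ 2 * (m / ρ ^ 2) * (G ^ 2 - P) - T := by
  have h0 : 0 ≤ 1 - ε := by linarith
  have h1 : ((1 - ε) * (D * ρ)) ^ 2 ≤ G ^ 2 := pow_le_pow_left₀ (by positivity) hG 2
  have h2 : ((1 - ε) ^ 2 - ε) * (D ^ 2 * ρ ^ 2) ≤ G ^ 2 - P := by nlinarith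
  have h3 : 0 ≤ (1 - ε) ^ 2 - ε := by nlinarith
  have hm0 : 0 ≤ m := le_trans (by positivity) hm
  have h4 : 1 / D ^ 2 * (m / ρ ^ 2) * (((1 - ε) ^ 2 - ε) * (D ^ 2 * ρ ^ 2)) =
      m * ((1 - ε) ^ 2 - ε) := by
    field_simp
  have h5 : 1 / D ^ 2 * (m / ρ ^ 2) * (((1 - ε) ^ 2 - ε) * (D ^ 2 * ρ ^ 2)) ≤
      1 / D ^ 2 * (m / ρ ^ 2) * (G ^ 2 - P) := by gcongr
  have h6 : (1 - ε) * ρ * ((1 - ε) ^ 2 - ε) ≤ m * ((1 - ε) ^ 2 - ε) := by gcongr
  have h7 : 0 ≤ ε ^ 2 * (4 - ε) * ρ := by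
    have : 0 ≤ 4 - ε := by linarith
    positivity
  nlinarith

omit [FiniteDimensional ℝ E] [MeasurableSpace E] [BorelSpace E] in
lemma asgood_Q4_nonneg {r : ℕ} (Γ : Mx r E) : 0 ≤ Q4 Γ := by
  unfold Q4
  positivity

/-- One step for a good matrix `Γ`. Sketch: `L = C √d`, `b` from `exists_svd`, `B = {i | L < ‖H b_i‖}`.
Claim: for `c` as in `big_case` (if `ε³/C4 * r ≤ #B`) or `small_case` (otherwise), `∫ h (damp b H c u) ≥ (1-5ε) √r`.
Big: `(1/d) L #B ≥ C ε³ r/(C4 √d) = r/(√ε √d) ≥ √r` as `ε d ≤ r`. Small: `∫‖s‖ ≥ (1-ε)√r` (`chi_mean`, `10 ≤ ε r`),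
`‖Γ‖² ≥ (1-ε)² d r`, `√#B √Q4 ≤ ε d r`, `L √r √hsXi ≤ ε √r`, `(1-ε)((1-ε)² - ε) - ε ≥ 1 - 5ε`.
`tail_le` with `τ = ε √r` (`|c i| ≤ 1`, `‖c i • H b_i‖ ≤ L`) bounds `γ {h (H s) ≤ (1-6ε)√r}` by
`10 C² d η²/(ε² r) ≤ 10 C² η²/ε³`. `norm_map_tail` for `app Γ` with `q4_op`, `B = (1+ε)√(d r)` (`int_norm_sq_map`,
`hs_basis`), `τ = ε √(d r)` bounds `γ {(1+2ε)√(d r) ≤ ‖Γ s‖}` by `10 √Q4/(ε² d r) ≤ 10 √(C4/ε)/(ε² √r)`.
Outside both sets `h (H s) > (1-6ε)√r ≥ (1-8ε)(1+2ε)√r ≥ (1-8ε)/√d ‖Γ s‖` (`measureReal_union_le`). -/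
theorem good_step {ε C4 C η : ℝ} (hε : 0 < ε) (hε1 : ε ≤ 1 / 10) (hC4 : 0 < C4)
    (hC : C = C4 / (ε ^ 3 * √ε)) {d r : ℕ} (hr0 : 10 ≤ ε * r) (hrd : ε * d ≤ r) (hd : 0 < d)
    {h : Eu d → ℝ} {x : Eu d → Eu d} (S : Sel h x η) (hI : Iso x (1 / d)) (Γ : Mx r (Eu d))
    (g1 : |‖Γ‖ - √(d * r)| ≤ ε * √(d * r)) (g2 : Q4 Γ ≤ C4 * r * d ^ 2 / ε)
    (g3 : hsXi x (1 / d) Γ ≤ ε ^ 2 / (C ^ 2 * d)) (H : Eu r →L[ℝ] Eu d)
    (hH : ∀ s s', ⟪app Γ s, H s'⟫ = ⟪app Γ s, app Γ s'⟫) :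
    (stdGaussian (Eu r)).real {s | h (H s) ≤ (1 - 8 * ε) / √d * ‖app Γ s‖} ≤
      10 * C ^ 2 * η ^ 2 / ε ^ 3 + 10 * √(C4 / ε) / (ε ^ 2 * √r) := by
  have hr : (0 : ℝ) < r := by
    by_contra hh
    have : ε * r ≤ 0 := mul_nonpos_of_nonneg_of_nonpos hε.le (not_lt.1 hh)
    linarith
  have hrN : 0 < r := by exact_mod_cast hr
  have hdR : (0 : ℝ) < d := by exact_mod_cast hd
  obtain ⟨D, hD, hDd⟩ : ∃ D : ℝ, 0 < D ∧ (d : ℝ) = D ^ 2 :=
    ⟨√d, Real.sqrt_pos.2 hdR, (Real.sq_sqrt hdR.le).symm⟩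
  obtain ⟨ρ, hρ, hρr⟩ : ∃ ρ : ℝ, 0 < ρ ∧ (r : ℝ) = ρ ^ 2 :=
    ⟨√r, Real.sqrt_pos.2 hr, (Real.sq_sqrt hr.le).symm⟩
  obtain ⟨e, he, hee⟩ : ∃ e : ℝ, 0 < e ∧ ε = e ^ 2 :=
    ⟨√ε, Real.sqrt_pos.2 hε, (Real.sq_sqrt hε.le).symm⟩
  have sD : √(d : ℝ) = D := by rw [hDd, Real.sqrt_sq hD.le]
  have sρ : √(r : ℝ) = ρ := by rw [hρr, Real.sqrt_sq hρ.le]
  have se : √ε = e := by rw [hee, Real.sqrt_sq he.le]
  have sDρ : √((d : ℝ) * r) = D * ρ := by rw [Real.sqrt_mul hdR.le, sD, sρ]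
  rw [sDρ] at g1
  rw [se] at hC
  have hC0 : 0 < C := by rw [hC]; positivity
  have heD : e * D ≤ ρ := by
    refine (pow_le_pow_iff_left₀ (by positivity) hρ.le two_ne_zero).1 ?_
    rw [mul_pow, ← hee, ← hDd, ← hρr]
    exact hrd
  have hQ0 := asgood_Q4_nonneg Γ
  obtain ⟨g1a, g1b⟩ := abs_le.1 g1
  obtain ⟨b, hb⟩ := exists_svd H
  have hL : 0 < C * D := by positivity
  classical
  obtain ⟨B, hB⟩ : ∃ B : Finset (Fin r), ∀ i, i ∈ B ↔ C * D < ‖H (b i)‖ :=
    ⟨Finset.univ.filter fun i => C * D < ‖H (b i)‖, by simp⟩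
  have key : ∃ c : Fin r → ℝ, (∀ i, |c i| ≤ 1) ∧ (∀ i, ‖c i • H (b i)‖ ≤ C * D) ∧
      (1 - 5 * ε) * ρ ≤ ∫ u, h (damp b H c u) ∂stdGaussian (Eu r) := by
    by_cases hc : ε ^ 3 / C4 * r ≤ B.card
    · refine ⟨fun i => if i ∈ B then C * D / ‖H (b i)‖ else 0, fun i => ?_, fun i => ?_, ?_⟩
      · by_cases hi : i ∈ B
        · have := (hB i).1 hi
          beta_reduce
          rw [if_pos hi, abs_of_nonneg (by positivity)]
          exact (div_le_one (hL.trans this)).2 this.le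
        · simp [hi]
      · by_cases hi : i ∈ B
        · have := (hB i).1 hi
          beta_reduce
          rw [if_pos hi, norm_smul, Real.norm_of_nonneg (by positivity),
            div_mul_cancel₀ _ (hL.trans this).ne']
        · simp [hi, hL.le]
      · have h1 := big_case S hI H b hb B
          (fun i hi => norm_pos_iff.1 (hL.trans ((hB i).1 hi))) (C * D)
        refine le_trans ?_ h1
        have h2 := asgood_big he hC4 hD hρ heD (n := B.card) (by rw [← hee, ← hρr]; exact hc)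
        rw [← hee, ← hC, ← hDd] at h2
        refine le_trans ?_ h2
        nlinarith
    · refine ⟨fun i => if i ∈ B then 0 else 1, fun i => ?_, fun i => ?_, ?_⟩
      · by_cases hi : i ∈ B <;> simp [hi]
      · by_cases hi : i ∈ B
        · simp [hi, hL.le]
        · beta_reduce
          rw [if_neg hi, one_smul]
          exact not_lt.1 fun hh => hi ((hB i).2 hh)
      · have h1 := small_case S (a := 1 / d) (by positivity) hrN Γ H hH b B hL.le
          (fun i hi => not_lt.1 fun hh => hi ((hB i).2 hh))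
        refine le_trans ?_ h1
        have hm : (1 - ε) * ρ ≤ ∫ s, ‖s‖ ∂stdGaussian (Eu r) := by
          have h2 := chi_mean (E := Eu r)
          simp only [finrank_euclideanSpace, Fintype.card_fin] at h2
          refine (pow_le_pow_iff_left₀ (mul_nonneg (by linarith) hρ.le)
            (integral_nonneg fun s => norm_nonneg s) two_ne_zero).1 (le_trans ?_ h2)
          rw [mul_pow, ← hρr]
          have : ε * (ε * r) ≤ 1 * (ε * r) :=
            mul_le_mul_of_nonneg_right (by linarith) (by positivity)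
          nlinarith
        have hP : √(B.card : ℝ) * √(Q4 Γ) ≤ ε * (D ^ 2 * ρ ^ 2) := by
          rw [← Real.sqrt_mul (Nat.cast_nonneg _), ← hDd, ← hρr]
          refine Real.sqrt_le_iff.2 ⟨by positivity, ?_⟩
          calc (B.card : ℝ) * Q4 Γ ≤ (ε ^ 3 / C4 * r) * (C4 * r * d ^ 2 / ε) :=
                mul_le_mul (not_le.1 hc).le g2 hQ0 (by positivity)
            _ = _ := by field_simp
        have hT : C * D * √(r : ℝ) * √(hsXi x (1 / d) Γ) ≤ ε * ρ := by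
          have h2 : √(hsXi x (1 / d) Γ) ≤ ε / (C * D) := by
            refine Real.sqrt_le_iff.2 ⟨by positivity, g3.trans (le_of_eq ?_)⟩
            rw [hDd]
            field_simp
          rw [sρ]
          calc C * D * ρ * √(hsXi x (1 / d) Γ) ≤ C * D * ρ * (ε / (C * D)) := by gcongr
            _ = _ := by field_simp
        have h3 := asgood_small hε hε1 hD hρ hm (G := ‖Γ‖) (by linarith) hP hT
        rw [← hDd, ← hρr] at h3
        exact h3
  obtain ⟨c, hc1, hc2, hc3⟩ := key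
  have t1 := tail_le S H b hb c hc1 hL.le hc2 (τ := ε * ρ) (by positivity)
  have t2 := norm_map_tail (app Γ) (L := √(√(Q4 Γ))) (B := (1 + ε) * (D * ρ)) (τ := ε * (D * ρ))
    (Real.sqrt_nonneg _) (q4_op Γ) (by positivity)
    (by
      rw [int_norm_sq_map b, hs_basis]
      exact pow_le_pow_left₀ (norm_nonneg _) (by linarith) 2)
    (by positivity)
  have u1 : 10 * (C * D * η) ^ 2 / (ε * ρ) ^ 2 ≤ 10 * C ^ 2 * η ^ 2 / ε ^ 3 := by
    rw [div_le_div_iff₀ (by positivity) (by positivity)]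
    have h1 : ε * D ^ 2 ≤ ρ ^ 2 := by rw [← hDd, ← hρr]; exact hrd
    have h2 : 10 * C ^ 2 * η ^ 2 * ε ^ 2 * (ε * D ^ 2) ≤ 10 * C ^ 2 * η ^ 2 * ε ^ 2 * ρ ^ 2 := by
      gcongr
    calc _ = 10 * C ^ 2 * η ^ 2 * ε ^ 2 * (ε * D ^ 2) := by ring
      _ ≤ _ := h2
      _ = _ := by ring
  have u2 : 10 * √(√(Q4 Γ)) ^ 2 / (ε * (D * ρ)) ^ 2 ≤ 10 * √(C4 / ε) / (ε ^ 2 * √r) := by
    rw [Real.sq_sqrt (Real.sqrt_nonneg _), sρ]
    have h1 : √(Q4 Γ) ≤ √(C4 / ε) * (ρ * D ^ 2) := by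
      refine Real.sqrt_le_iff.2 ⟨by positivity, g2.trans (le_of_eq ?_)⟩
      rw [mul_pow, Real.sq_sqrt (by positivity), hDd, hρr]
      field_simp
    calc 10 * √(Q4 Γ) / (ε * (D * ρ)) ^ 2
        ≤ 10 * (√(C4 / ε) * (ρ * D ^ 2)) / (ε * (D * ρ)) ^ 2 := by gcongr
      _ = _ := by field_simp
  refine le_trans ?_ (add_le_add (t1.trans u1) (t2.trans u2))
  refine le_trans (measureReal_mono ?_) (measureReal_union_le _ _)
  intro s hs
  simp only [mem_ofPred_eq, mem_union] at hs ⊢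
  by_contra hh
  rw [not_or, not_le, not_le] at hh
  obtain ⟨h1, h2⟩ := hh
  rw [sD] at hs
  have h8 : 0 ≤ 1 - 8 * ε := by linarith
  have h3 : (1 - 8 * ε) / D * ‖app Γ s‖ ≤
      (1 - 8 * ε) / D * ((1 + ε) * (D * ρ) + ε * (D * ρ)) := by gcongr
  have h4 : (1 - 8 * ε) / D * ((1 + ε) * (D * ρ) + ε * (D * ρ)) =
      (1 - 6 * ε) * ρ - 16 * (ε ^ 2 * ρ) := by
    field_simp
    ring
  have h5 : 0 ≤ ε ^ 2 * ρ := by positivity
  linarith

end Pool.Agent.Lib.MP_77d991_gt.As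

namespace Pool.Agent.Lib.MP_77d991_gt.As

variable {E : Type*} [NormedAddCommGroup E] [InnerProductSpace ℝ E] [FiniteDimensional ℝ E]
  [MeasurableSpace E] [BorelSpace E]

/-- the property of one step of the flag: whatever the lift `H` of `Γ`, `h (H s)` is rarely small. -/
def StepP {d : ℕ} (h : Eu d → ℝ) (μ δ : ℝ) (r : ℕ) : Prop :=
  ∃ p : Mx r (Eu d) → ℝ, Measurable p ∧ (∀ Γ, 0 ≤ p Γ ∧ p Γ ≤ 3) ∧
    ∫ Γ, p Γ ∂stdGaussian (Mx r (Eu d)) ≤ δ ∧
    ∀ (Γ : Mx r (Eu d)) (H : Eu r →L[ℝ] Eu d), (∀ s s', ⟪app Γ s, H s'⟫ = ⟪app Γ s, app Γ s'⟫) →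
      (stdGaussian (Eu r)).real {s | h (H s) ≤ μ * ‖app Γ s‖} ≤ p Γ

lemma asstep_markov {Ω : Type*} [MeasurableSpace Ω] {μ : Measure Ω} [IsFiniteMeasure μ] {f : Ω → ℝ}
    (h0 : ∀ x, 0 ≤ f x) (hi : Integrable f μ) {a e : ℝ} (ha : 0 < a) (hb : ∫ x, f x ∂μ ≤ a * e) :
    μ.real {x | a < f x} ≤ e := by
  have h1 := mul_meas_ge_le_integral_of_nonneg (μ := μ) (Filter.Eventually.of_forall h0) hi a
  have h2 : μ.real {x | a < f x} ≤ μ.real {x | a ≤ f x} :=
    measureReal_mono fun x (hx : a < f x) => (hx.le : a ≤ f x)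
  have h3 : a * μ.real {x | a < f x} ≤ a * e :=
    (mul_le_mul_of_nonneg_left h2 ha.le).trans (h1.trans hb)
  exact le_of_mul_le_mul_left h3 ha

lemma asstep_finrank (r d : ℕ) : Module.finrank ℝ (Mx r (Eu d)) = r * d := by
  rw [(WithLp.linearEquiv 2 ℝ (Fin r → Eu d)).finrank_eq, Module.finrank_pi_fintype]
  simp

/-- Sketch: `C4 = m4 + 1`, `C` as in `good_step`; `η` with `10 C4 C² η² ≤ ε⁴`; `r0` with `10 ≤ ε r0`, `20 ≤ ε³ r0`,
`10 √(C4/ε) ≤ ε³ √r0`. `Bad = B1 ∪ B2 ∪ B3` (negations of `g1, g2, g3`, measurable), `p = indicator Bad 1 + 2ε`.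
`γ B1 ≤ 20/(ε² d r) ≤ ε` (`chi_dev`, `finrank (Mx r (Eu d)) = r * d`), `γ B2 ≤ ε` (Markov, `q4_mean`),
`γ B3 ≤ m4 η² C² d/(r ε²) ≤ ε` (Markov, `xi_mean`; `hsXi ≥ 0` by `xi_sum`). On `Bad` use `measureReal_le_one`. -/
theorem step {ε : ℝ} (hε : 0 < ε) (hε1 : ε ≤ 1 / 10) : ∃ η > 0, ∃ r0 : ℕ, ∀ d r : ℕ, r0 ≤ r → r ≤ d →
    ε * d ≤ r → ∀ (h : Eu d → ℝ) (x : Eu d → Eu d), Sel h x η → Iso x (1 / d) →
      StepP h ((1 - 8 * ε) / √d) (5 * ε) r := by
  have hm4 := one_le_m4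
  obtain ⟨C4, hC4⟩ : ∃ C4 : ℝ, C4 = m4 + 1 := ⟨_, rfl⟩
  have hC42 : 2 ≤ C4 := by linarith
  have hC4p : 0 < C4 := by linarith
  obtain ⟨C, hC⟩ : ∃ C : ℝ, C = C4 / (ε ^ 3 * √ε) := ⟨_, rfl⟩
  have hCp : 0 < C := by
    rw [hC]
    have := Real.sqrt_pos.2 hε
    positivity
  obtain ⟨r0, hr0⟩ := exists_nat_ge (100 * C4 / ε ^ 7)
  obtain ⟨η, hη⟩ : ∃ η : ℝ, η = ε ^ 2 / (4 * C4 * C) := ⟨_, rfl⟩
  have hηp : 0 < η := by rw [hη]; positivity
  have hη2 : 10 * C4 * (C ^ 2 * η ^ 2) ≤ ε ^ 4 := by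
    have e : C ^ 2 * η ^ 2 = ε ^ 4 / (16 * C4 ^ 2) := by
      rw [hη]
      field_simp
      ring
    rw [e, ← mul_div_assoc, div_le_iff₀ (by positivity)]
    have h1 : 10 * C4 ≤ 16 * C4 ^ 2 := by nlinarith
    have h2 : 0 < ε ^ 4 := by positivity
    nlinarith
  refine ⟨η, hηp, r0, fun d r hr hrd hεd h x S hI => ?_⟩
  have hrr : (r0 : ℝ) ≤ r := by exact_mod_cast hr
  have hrd' : (r : ℝ) ≤ d := by exact_mod_cast hrd
  have h7 : 100 * C4 ≤ ε ^ 7 * r := by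
    have := hr0.trans hrr
    rw [div_le_iff₀ (by positivity)] at this
    linarith
  have hε' : ε ≤ 1 := by linarith
  have hr0' : (0 : ℝ) ≤ r := Nat.cast_nonneg _
  have h3 : 200 ≤ ε ^ 3 * r := by
    have : ε ^ 7 ≤ ε ^ 3 := pow_le_pow_of_le_one hε.le hε' (by norm_num)
    nlinarith
  have h1 : 200 ≤ ε * r := by
    have : ε ^ 3 ≤ ε ^ 1 := pow_le_pow_of_le_one hε.le hε' (by norm_num)
    rw [pow_one] at this
    nlinarith
  have hr1 : (1 : ℝ) ≤ r := by nlinarith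
  have hrp : (0 : ℝ) < r := by linarith
  have hdp : (0 : ℝ) < d := by linarith
  have hrn : 0 < r := by exact_mod_cast hrp
  have hdn : 0 < d := by exact_mod_cast hdp
  obtain ⟨hxm, hxi, hxe⟩ := xi_mean (r := r) S hI hrn
  obtain ⟨hqi, hqe⟩ := q4_mean (E := Eu d) (r := r) (by simpa using hrd)
  set B1 : Set (Mx r (Eu d)) := {Γ | ε * √(d * r) < |‖Γ‖ - √(d * r)|} with hB1
  set B2 : Set (Mx r (Eu d)) := {Γ | C4 * r * d ^ 2 / ε < Q4 Γ} with hB2
  set B3 : Set (Mx r (Eu d)) := {Γ | ε ^ 2 / (C ^ 2 * d) < hsXi x (1 / d) Γ} with hB3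
  have m1 : MeasurableSet B1 := measurableSet_lt measurable_const (by fun_prop)
  have m2 : MeasurableSet B2 := measurableSet_lt measurable_const continuous_Q4.measurable
  have m3 : MeasurableSet B3 := measurableSet_lt measurable_const hxm
  have mB : MeasurableSet (B1 ∪ B2 ∪ B3) := (m1.union m2).union m3
  have p1 : (stdGaussian (Mx r (Eu d))).real B1 ≤ ε := by
    have hτ : 0 < ε * √((d : ℝ) * r) := mul_pos hε (Real.sqrt_pos.2 (by positivity))
    have h := chi_dev (E := Mx r (Eu d)) hτ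
    rw [asstep_finrank, Nat.cast_mul, mul_comm (r : ℝ) d] at h
    have hsub : B1 ⊆ {g | ε * √((d : ℝ) * r) ≤ |‖g‖ - √((d : ℝ) * r)|} := fun Γ hΓ => by
      have h' : ε * √((d : ℝ) * r) < |‖Γ‖ - √((d : ℝ) * r)| := hΓ
      exact h'.le
    refine (measureReal_mono hsub (measure_ne_top _ _)).trans (h.trans ?_)
    rw [mul_pow, Real.sq_sqrt (by positivity), div_le_iff₀ (by positivity)]
    have : ε ^ 3 * r * 1 ≤ ε ^ 3 * r * d := mul_le_mul_of_nonneg_left (by linarith) (by positivity)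
    nlinarith
  have p2 : (stdGaussian (Mx r (Eu d))).real B2 ≤ ε := by
    refine asstep_markov (fun Γ => ?_) hqi (by positivity) (hqe.trans (le_of_eq ?_))
    · unfold Q4
      positivity
    · rw [← hC4]
      simp only [finrank_euclideanSpace, Fintype.card_fin]
      field_simp
  have p3 : (stdGaussian (Mx r (Eu d))).real B3 ≤ ε := by
    refine asstep_markov (fun Γ => ?_) hxi (by positivity) (hxe.trans ?_)
    · rw [← xi_sum S Γ (EuclideanSpace.basisFun (Fin r) ℝ)]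
      positivity
    · rw [div_mul_eq_mul_div, div_le_div_iff₀ hrp (by positivity)]
      have a1 : m4 * (C ^ 2 * η ^ 2) ≤ ε ^ 4 :=
        (mul_le_mul_of_nonneg_right (by linarith) (by positivity)).trans hη2
      have a2 : m4 * (C ^ 2 * η ^ 2) * d ≤ ε ^ 4 * d := mul_le_mul_of_nonneg_right a1 hdp.le
      have a3 : ε ^ 3 * (ε * d) ≤ ε ^ 3 * r := mul_le_mul_of_nonneg_left hεd (by positivity)
      nlinarith
  refine ⟨fun Γ => (B1 ∪ B2 ∪ B3).indicator (fun _ => (1 : ℝ)) Γ + 2 * ε,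
    (measurable_const.indicator mB).add measurable_const, fun Γ => ?_, ?_, fun Γ H hH => ?_⟩
  · by_cases hΓ : Γ ∈ B1 ∪ B2 ∪ B3
    · simp only [indicator_of_mem hΓ]
      constructor <;> linarith
    · simp only [indicator_of_notMem hΓ]
      constructor <;> linarith
  · rw [integral_add ((integrable_const _).indicator mB) (integrable_const _),
      integral_indicator mB]
    have u1 := measureReal_union_le (μ := stdGaussian (Mx r (Eu d))) (B1 ∪ B2) B3
    have u2 := measureReal_union_le (μ := stdGaussian (Mx r (Eu d))) B1 B2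
    simp only [integral_const, smul_eq_mul, mul_one, measureReal_restrict_apply MeasurableSet.univ,
      univ_inter, probReal_univ, one_mul]
    linarith
  · by_cases hΓ : Γ ∈ B1 ∪ B2 ∪ B3
    · simp only [indicator_of_mem hΓ]
      exact measureReal_le_one.trans (by linarith)
    · simp only [indicator_of_notMem hΓ]
      simp only [mem_union, not_or, hB1, hB2, hB3, mem_ofPred_eq, not_lt] at hΓ
      refine (good_step hε hε1 hC4p hC (by linarith) hεd hdn S hI Γ hΓ.1.1 hΓ.1.2 hΓ.2 H hH).trans ?_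
      have b1 : 10 * C ^ 2 * η ^ 2 / ε ^ 3 ≤ ε := by
        rw [div_le_iff₀ (by positivity)]
        have : 10 * 1 * (C ^ 2 * η ^ 2) ≤ 10 * C4 * (C ^ 2 * η ^ 2) :=
          mul_le_mul_of_nonneg_right (by linarith) (by positivity)
        nlinarith
      have b2 : 10 * √(C4 / ε) / (ε ^ 2 * √r) ≤ ε := by
        have hs : 0 < √(r : ℝ) := Real.sqrt_pos.2 hrp
        rw [div_le_iff₀ (by positivity)]
        refine abs_le_of_sq_le_sq' ?_ (by positivity) |>.2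
        rw [mul_pow, Real.sq_sqrt (by positivity), mul_pow, mul_pow, Real.sq_sqrt hrp.le,
          ← mul_div_assoc, div_le_iff₀ hε]
        nlinarith
      linarith

end Pool.Agent.Lib.MP_77d991_gt.As
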