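import Pool.Agent.Lib.MP_77d991_gt.StarA

open MeasureTheory ProbabilityTheory Set
open scoped RealInnerProductSpace

namespace Pool.Agent.Lib.MP_77d991_gt.As

variable {E : Type*} [NormedAddCommGroup E] [InnerProductSpace ℝ E] [FiniteDimensional ℝ E]
  [MeasurableSpace E] [BorelSpace E]

omit [FiniteDimensional ℝ E] [BorelSpace E] in
lemma aspos_smul {h : E → ℝ} {x : E → E} {R : ℝ} (S : Sel h x R) (μ : Measure E) (c : ℝ)
    (T : E →L[ℝ] E) : ∫ y, h ((c • T) y) ∂μ = |c| * ∫ y, h (T y) ∂μ := by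
  simp_rw [smul_apply, S.h_smul]
  rw [integral_const_mul]

lemma aspos_add {h : E → ℝ} {x : E → E} {R : ℝ} (S : Sel h x R) (T T' : E →L[ℝ] E) :
    ∫ y, h ((T + T') y) ∂stdGaussian E ≤
      ∫ y, h (T y) ∂stdGaussian E + ∫ y, h (T' y) ∂stdGaussian E := by
  rw [← integral_add (S.integrable_lin T) (S.integrable_lin T')]
  exact integral_mono (S.integrable_lin _) ((S.integrable_lin T).add (S.integrable_lin T'))
    fun y => S.h_add _ _

lemma aspos_le {h : E → ℝ} {x : E → E} {R : ℝ} (S : Sel h x R) (T : E →L[ℝ] E) :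
    ∫ y, h (T y) ∂stdGaussian E ≤ (R * ∫ y, ‖y‖ ^ 1 ∂stdGaussian E) * ‖T‖ := by
  have e : (R * ∫ y, ‖y‖ ^ 1 ∂stdGaussian E) * ‖T‖ =
      ∫ y, (R * ‖T‖) * ‖y‖ ^ 1 ∂stdGaussian E := by
    rw [integral_const_mul]
    ring
  rw [e]
  refine integral_mono (S.integrable_lin T) ((integrable_norm_pow 1).const_mul _) fun y => ?_
  have h1 := S.h_le (T y)
  have h2 := mul_le_mul_of_nonneg_left (T.le_opNorm y) S.R_nonneg
  simp only [pow_one]
  linarith

lemma aspos_cont {h : E → ℝ} {x : E → E} {R : ℝ} (S : Sel h x R) :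
    Continuous fun T : E →L[ℝ] E => ∫ y, h (T y) ∂stdGaussian E := by
  refine (LipschitzWith.of_le_add_mul' (R * ∫ y, ‖y‖ ^ 1 ∂stdGaussian E) fun T T' => ?_).continuous
  have h1 := aspos_add S (T - T') T'
  have h2 := aspos_le S (T - T')
  rw [sub_add_cancel] at h1
  rw [dist_eq_norm]
  linarith

lemma aspos_pos {h : E → ℝ} {x : E → E} {R : ℝ} (S : Sel h x R) {c : ℝ} (hc : 0 < c)
    (hh : ∀ y, c * ‖y‖ ≤ h y) {T : E →L[ℝ] E} (hT : T ≠ 0) :
    0 < ∫ y, h (T y) ∂stdGaussian E := by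
  refine lt_of_le_of_ne (integral_nonneg fun y => S.h_nonneg _) fun h0 => hT ?_
  have h1 := (integral_eq_zero_iff_of_nonneg (fun y => S.h_nonneg (T y))
    (S.integrable_lin T)).1 h0.symm
  have h2 : (fun y => ‖T y‖ ^ 2) =ᵐ[stdGaussian E] fun _ => (0 : ℝ) := by
    filter_upwards [h1] with y hy
    have h3 := hh (T y)
    simp only [Pi.zero_apply] at hy
    rw [hy] at h3
    have h4 : ‖T y‖ = 0 := le_antisymm (by
      by_contra hlt
      have := mul_pos hc (not_le.1 hlt)
      linarith) (norm_nonneg _)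
    simp [h4]
  have h3 := int_norm_sq_map (stdOrthonormalBasis ℝ E) T
  rw [integral_congr_ae h2, integral_zero] at h3
  have h4 := (Finset.sum_eq_zero_iff_of_nonneg fun i _ => sq_nonneg _).1 h3.symm
  apply ContinuousLinearMap.coe_injective
  refine (stdOrthonormalBasis ℝ E).toBasis.ext fun i => ?_
  have := h4 i (Finset.mem_univ _)
  simpa using this

omit [MeasurableSpace E] [BorelSpace E] in
lemma aspos_det_smul (c : ℝ) (T : E →L[ℝ] E) :
    (c • T).det = c ^ Module.finrank ℝ E * T.det := by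
  unfold ContinuousLinearMap.det
  rw [ContinuousLinearMap.toLinearMap_smul, LinearMap.det_smul]

/-- The position of minimal mean width. Sketch: `l T = ∫ h (T g)` is a continuous seminorm on
`E →L[ℝ] E` (`|l T - l T'| ≤ R ‖T - T'‖ ∫‖g‖`), and `c ‖T‖ ≤ C l T`: for a unit... simplest: `l T = 0`
gives `‖T g‖ = 0` a.e., so `∫ ‖T g‖² = ∑ ‖T b_i‖² = 0` (`int_norm_sq_map`), `T = 0`; by compactness of the
unit sphere `κ ‖T‖ ≤ l T`. So `{l ≤ 1}` is compact; maximise the continuous `|det|`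
(`ContinuousLinearMap.continuous_det`) on it at `T₀`; `det T₀ ≠ 0` (small multiple of `id`).
For `U` with `l (T₀ U) > 0`, `(l (T₀ U))⁻¹ • T₀ U` is feasible; `l (T₀ U) = 0` gives `U = 0`.
`U = id` and `l T₀ ≤ 1` give `l T₀ = 1`. -/
theorem exists_pos {h : E → ℝ} {x : E → E} {R : ℝ} (S : Sel h x R) {c : ℝ} (hc : 0 < c)
    (hh : ∀ y, c * ‖y‖ ≤ h y) (hn : 0 < Module.finrank ℝ E) :
    ∃ T : E →L[ℝ] E, T.det ≠ 0 ∧ ∫ y, h (T y) ∂stdGaussian E = 1 ∧
      ∀ U : E →L[ℝ] E, |U.det| ≤ (∫ y, h (T (U y)) ∂stdGaussian E) ^ Module.finrank ℝ E := by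
  have : Nontrivial E := Module.nontrivial_of_finrank_pos hn
  set n := Module.finrank ℝ E with hndef
  set l : (E →L[ℝ] E) → ℝ := fun T => ∫ y, h (T y) ∂stdGaussian E with hl
  have lc : Continuous l := aspos_cont S
  have lpos : ∀ T : E →L[ℝ] E, T ≠ 0 → 0 < l T := fun T hT => aspos_pos S hc hh hT
  have lsm : ∀ (a : ℝ) (T : E →L[ℝ] E), l (a • T) = |a| * l T := fun a T => aspos_smul S _ a T
  have hK : IsCompact (Metric.sphere (0 : E →L[ℝ] E) 1) := isCompact_sphere _ _
  have hne : ∀ T ∈ Metric.sphere (0 : E →L[ℝ] E) 1, T ≠ 0 := fun T hT h0 => by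
    simp [h0] at hT
  have hcont : ContinuousOn (fun T : E →L[ℝ] E => |T.det| / l T ^ n)
      (Metric.sphere (0 : E →L[ℝ] E) 1) := by
    refine ContinuousOn.div (ContinuousLinearMap.continuous_det.abs.continuousOn)
      (lc.pow n).continuousOn fun T hT => (pow_pos (lpos T (hne T hT)) n).ne'
  obtain ⟨T1, hT1, hmax⟩ := hK.exists_isMaxOn
    ⟨ContinuousLinearMap.id ℝ E, by simp⟩ hcont
  have l1 := lpos T1 (hne T1 hT1)
  set T0 : E →L[ℝ] E := (l T1)⁻¹ • T1 with hT0
  have d0 : |T0.det| = |T1.det| / l T1 ^ n := by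
    rw [hT0, aspos_det_smul, abs_mul, abs_of_pos (pow_pos (inv_pos.2 l1) _), inv_pow,
      div_eq_inv_mul]
  have key : ∀ V : E →L[ℝ] E, |V.det| ≤ |T0.det| * l V ^ n := fun V => by
    rcases eq_or_ne V 0 with rfl | hV
    · have e : (0 : E →L[ℝ] E).det = 0 := by
        have := aspos_det_smul (0 : ℝ) (0 : E →L[ℝ] E)
        rw [zero_smul, zero_pow hn.ne', zero_mul] at this
        exact this
      rw [e, abs_zero]
      exact mul_nonneg (abs_nonneg _) (pow_nonneg (integral_nonneg fun y => S.h_nonneg _) _)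
    · have hN : 0 < ‖V‖ := norm_pos_iff.2 hV
      have hm : ‖V‖⁻¹ • V ∈ Metric.sphere (0 : E →L[ℝ] E) 1 := by
        simp [norm_smul, hN.ne']
      have h1 := hmax hm
      simp only [Set.mem_ofPred_eq] at h1
      rw [← d0, aspos_det_smul, lsm, abs_mul, abs_of_pos (pow_pos (inv_pos.2 hN) _),
        abs_of_pos (inv_pos.2 hN), mul_pow,
        mul_div_mul_left _ _ (pow_pos (inv_pos.2 hN) _).ne',
        div_le_iff₀ (pow_pos (lpos V hV) _)] at h1
      exact h1
  have hdet : T0.det ≠ 0 := fun h0 => by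
    have h1 := key (ContinuousLinearMap.id ℝ E)
    have e : (ContinuousLinearMap.id ℝ E).det = 1 := by
      unfold ContinuousLinearMap.det
      simp
    rw [h0, e] at h1
    norm_num at h1
  refine ⟨T0, hdet, ?_, fun U => ?_⟩
  · change l T0 = 1
    rw [hT0, lsm, abs_of_pos (inv_pos.2 l1), inv_mul_cancel₀ l1.ne']
  · have h1 := key (T0.comp U)
    have e : (T0.comp U).det = T0.det * U.det := by
      unfold ContinuousLinearMap.det
      exact LinearMap.det_comp (T0 : E →ₗ[ℝ] E) (U : E →ₗ[ℝ] E)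
    rw [e, abs_mul] at h1
    exact le_of_mul_le_mul_left h1 (abs_pos.2 hdet)

/-- First order condition. Sketch: `n = card ι = finrank`, `l U = ∫ h (U g)`, `l (1 + t U) ≤ 1 + t l U`
(`h_add`, `h_smul`), so `det (1 + t U) ≤ (1 + t l U)^n` for `t > 0`. With the matrix `A` of `U` in `b`
(`LinearMap.det_toMatrix`, `Matrix.det_one_add_smul`: `det (1 + t A) = 1 + tr A * t + P(t) t²`), both sides are
differentiable at `0` with equal value; compare slopes from the right (or: divide by `t`, let `t → 0+`;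
`(1 + t l)^n = 1 + n l t + O(t²)` via `hasDerivAt_pow`). `tr A = ∑ ⟪b i, U (b i)⟫`. -/
theorem trace_of_det {ι : Type*} [Fintype ι] (b : OrthonormalBasis ι ℝ E) {h : E → ℝ} {x : E → E}
    {R : ℝ} (S : Sel h x R) (hn : 0 < Fintype.card ι) (h1 : ∫ y, h y ∂stdGaussian E = 1)
    (hd : ∀ U : E →L[ℝ] E, |U.det| ≤ (∫ y, h (U y) ∂stdGaussian E) ^ Module.finrank ℝ E)
    (U : E →L[ℝ] E) :
    (1 / Fintype.card ι : ℝ) * ∑ i, ⟪b i, U (b i)⟫ ≤ ∫ y, h (U y) ∂stdGaussian E := by
  classical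
  have hfr : Module.finrank ℝ E = Fintype.card ι := Module.finrank_eq_card_basis b.toBasis
  set n := Fintype.card ι with hndef
  set l := ∫ y, h (U y) ∂stdGaussian E with hl
  set A : Matrix ι ι ℝ := LinearMap.toMatrix b.toBasis b.toBasis (U : E →ₗ[ℝ] E) with hA
  set P : Polynomial ℝ :=
    (Matrix.det (1 + (Polynomial.X : Polynomial ℝ) • A.map Polynomial.C)).divX.divX with hP
  have htr : A.trace = ∑ i, ⟪b i, U (b i)⟫ := by
    simp only [Matrix.trace, Matrix.diag, hA, LinearMap.toMatrix_apply]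
    refine Finset.sum_congr rfl fun i _ => ?_
    simp [OrthonormalBasis.repr_apply_apply]
  have hdet : ∀ t : ℝ, (ContinuousLinearMap.id ℝ E + t • U).det =
      1 + A.trace * t + P.eval t * t ^ 2 := fun t => by
    rw [hP, ← Matrix.det_one_add_smul]
    unfold ContinuousLinearMap.det
    rw [← LinearMap.det_toMatrix b.toBasis]
    congr 1
    have e : ((ContinuousLinearMap.id ℝ E + t • U : E →L[ℝ] E) : E →ₗ[ℝ] E) =
        LinearMap.id + t • (U : E →ₗ[ℝ] E) := rfl
    rw [e, map_add, map_smul, LinearMap.toMatrix_id]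
  have hineq : ∀ t : ℝ, 0 < t → 1 + A.trace * t + P.eval t * t ^ 2 ≤ (1 + t * l) ^ n := by
    intro t ht
    have h2 := hd (ContinuousLinearMap.id ℝ E + t • U)
    have h3 := aspos_add S (ContinuousLinearMap.id ℝ E) (t • U)
    rw [aspos_smul S, abs_of_pos ht] at h3
    simp only [ContinuousLinearMap.id_apply] at h3
    rw [h1] at h3
    rw [← hdet, ← hfr]
    refine (le_abs_self _).trans (h2.trans ?_)
    exact pow_le_pow_left₀ (integral_nonneg fun y => S.h_nonneg _) h3 _
  have hder : HasDerivAt (fun t : ℝ => (1 + t * l) ^ n - (1 + A.trace * t + P.eval t * t ^ 2))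
      (n * l - A.trace) 0 := by
    have a1 : HasDerivAt (fun t : ℝ => 1 + t * l) l 0 := by
      simpa using ((hasDerivAt_id (0 : ℝ)).mul_const l).const_add 1
    have a2 := a1.pow n
    have a3 : HasDerivAt (fun t : ℝ => 1 + A.trace * t) A.trace 0 := by
      simpa using ((hasDerivAt_id (0 : ℝ)).const_mul A.trace).const_add 1
    have a4 := (P.hasDerivAt 0).mul (hasDerivAt_pow 2 (0 : ℝ))
    have a5 := a2.sub (a3.add a4)
    refine a5.congr_deriv ?_
    simp
  have hs := (hasDerivWithinAt_iff_tendsto_slope' (s := Ioi (0 : ℝ)) (by simp)).1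
    hder.hasDerivWithinAt
  have hge : 0 ≤ n * l - A.trace := by
    refine ge_of_tendsto hs ?_
    filter_upwards [self_mem_nhdsWithin] with t ht
    have ht' : 0 < t := ht
    rw [slope_def_field]
    refine div_nonneg ?_ (by linarith)
    have := hineq t ht'
    simp only [zero_mul, mul_zero, add_zero, one_pow]
    norm_num
    linarith
  have hn' : (0 : ℝ) < n := by exact_mod_cast hn
  rw [← htr, one_div, inv_mul_le_iff₀ hn']
  linarith

lemma aspos_psi_int (η : ℝ) (hη : 0 < η) :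
    Integrable (fun t : ℝ => max (η * |t| - 1) 0) (gaussianReal 0 1) := by
  have h1 : Integrable (fun t : ℝ => t) (gaussianReal 0 1) :=
    (IsGaussian.memLp_id (gaussianReal 0 1) 1 (by simp)).integrable le_rfl
  refine Integrable.mono' (h1.abs.const_mul η) (by fun_prop)
    (Filter.Eventually.of_forall fun t => ?_)
  rw [Real.norm_of_nonneg (le_max_right _ _)]
  have := mul_nonneg hη.le (abs_nonneg t)
  exact max_le (by linarith) this

lemma aspos_psi_pos (η : ℝ) (hη : 0 < η) :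
    0 < ∫ t, max (η * |t| - 1) 0 ∂gaussianReal 0 1 := by
  have : (gaussianReal 0 1).IsOpenPosMeasure :=
    (gaussianReal_absolutelyContinuous' 0 one_ne_zero).isOpenPosMeasure
  refine (integral_pos_iff_support_of_nonneg (f := fun t : ℝ => max (η * |t| - 1) 0)
    (fun t => le_max_right _ _) (aspos_psi_int η hη)).2 ?_
  have hc : Continuous fun t : ℝ => max (η * |t| - 1) 0 := by fun_prop
  refine hc.isOpen_support.measure_pos _ ⟨2 / η, ?_⟩
  rw [Function.mem_support, abs_of_pos (by positivity), mul_div_cancel₀ _ hη.ne']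
  norm_num

/-- In the isotropic position with mean width `1` the circumradius tends to `0` with the dimension.
Sketch: `ψ = ∫ max (η |t| - 1) 0 d gaussianReal 0 1 > 0`; take `d0 > 1/ψ`. Let `ρ = ‖v‖ ≥ η`, `u = v/ρ`,
`P y = ⟪u,y⟫ u`, `Q = id - P`. `law2 (id) Q P`: `1 = ∫ h = ∫_(g₂) φ (P g₂)`, `φ y = ∫ h (Q g₁ + y)`,
`φ y ≥ φ₀ = ∫ h (Q g)` (`shift_ge`), `φ y ≥ h y ≥ ρ |⟪u,g₂⟫|` (`shift_ge'`); hence `φ₀ ≤ 1` and
`φ (P g₂) ≥ φ₀ + max (η |⟪u,g₂⟫| - 1) 0`, so `1 ≥ φ₀ + ψ` (`map_inner`), while `trace_le` gives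
`φ₀ ≥ (d-1)/d` (`∑ ⟪b i, u⟫² = 1`). So `ψ ≤ 1/d`. -/
theorem small_radius {η : ℝ} (hη : 0 < η) : ∃ d0 : ℕ, ∀ d ≥ d0, ∀ (h : Eu d → ℝ) (x : Eu d → Eu d)
    (R : ℝ), Sel h x R → Iso x (1 / d) → ∀ v : Eu d, (∀ y, |⟪v, y⟫| ≤ h y) → ‖v‖ ≤ η := by
  set ψ := ∫ t, max (η * |t| - 1) 0 ∂gaussianReal 0 1 with hψ
  have ψpos : 0 < ψ := aspos_psi_pos η hη
  obtain ⟨k, hk⟩ := exists_nat_gt (1 / ψ)
  refine ⟨k + 1, fun d hd h x R S hI v hv => ?_⟩
  by_contra hlt
  have hρ : η < ‖v‖ := not_le.1 hlt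
  have hρ0 : 0 < ‖v‖ := hη.trans hρ
  have hd0 : (0 : ℝ) < d := by exact_mod_cast (by omega : 0 < d)
  have hdk : (k : ℝ) < d := by exact_mod_cast (by omega : k < d)
  set u : Eu d := ‖v‖⁻¹ • v with hu
  have hu1 : ‖u‖ = 1 := by simp [hu, norm_smul, hρ0.ne']
  have huu : ⟪u, u⟫ = 1 := by rw [real_inner_self_eq_norm_sq, hu1]; norm_num
  have hvu : ⟪v, u⟫ = ‖v‖ := by
    rw [hu, inner_smul_right, real_inner_self_eq_norm_sq]
    field_simp
  set P : Eu d →L[ℝ] Eu d := (innerSL ℝ u).smulRight u with hP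
  set Q : Eu d →L[ℝ] Eu d := ContinuousLinearMap.id ℝ (Eu d) - P with hQ
  have Pa : ∀ y, P y = ⟪u, y⟫ • u := fun y => by simp [hP]
  have Qa : ∀ y, Q y = y - ⟪u, y⟫ • u := fun y => by simp [hQ, Pa]
  have hlaw := law2 (ContinuousLinearMap.id ℝ (Eu d)) Q P fun L => by
    obtain ⟨w, rfl⟩ := (InnerProductSpace.toDual ℝ (Eu d)).surjective L
    have e1 : (InnerProductSpace.toDual ℝ (Eu d) w).comp Q =
        InnerProductSpace.toDual ℝ (Eu d) (w - ⟪u, w⟫ • u) := by
      ext y
      simp only [ContinuousLinearMap.comp_apply, InnerProductSpace.toDual_apply_apply, Qa,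
        inner_sub_right, inner_sub_left, inner_smul_right, real_inner_smul_left,
        real_inner_comm u w]
      ring
    have e2 : (InnerProductSpace.toDual ℝ (Eu d) w).comp P =
        InnerProductSpace.toDual ℝ (Eu d) (⟪u, w⟫ • u) := by
      ext y
      simp only [ContinuousLinearMap.comp_apply, InnerProductSpace.toDual_apply_apply, Pa,
        inner_smul_right, real_inner_smul_left, real_inner_comm u w]
      ring
    rw [e1, e2, ContinuousLinearMap.comp_id, LinearIsometryEquiv.norm_map,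
      LinearIsometryEquiv.norm_map, LinearIsometryEquiv.norm_map, norm_sub_sq_real,
      inner_smul_right, real_inner_comm u w, norm_smul, hu1, mul_one, Real.norm_eq_abs, sq_abs]
    ring
  have hlaw' : stdGaussian (Eu d) = ((stdGaussian (Eu d)).prod (stdGaussian (Eu d))).map
      (fun p => Q p.1 + P p.2) := by
    rw [← hlaw]
    exact (Measure.map_id).symm
  have hmeas : Measurable fun p : Eu d × Eu d => Q p.1 + P p.2 := by fun_prop
  have hint : Integrable h (stdGaussian (Eu d)) := by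
    simpa using S.integrable_lin (ContinuousLinearMap.id ℝ (Eu d))
  have hint2 : Integrable (fun p : Eu d × Eu d => h (Q p.1 + P p.2))
      ((stdGaussian (Eu d)).prod (stdGaussian (Eu d))) := by
    have := hint
    rw [hlaw'] at this
    exact (integrable_map_measure S.cont.aestronglyMeasurable hmeas.aemeasurable).1 this
  have hmean : ∫ y, h y ∂stdGaussian (Eu d) = 1 := by
    rw [S.mean hI]
    simp [hd0.ne']
  have hone : ∫ z, ∫ y, h (Q y + P z) ∂stdGaussian (Eu d) ∂stdGaussian (Eu d) = 1 := by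
    rw [← hmean, ← integral_prod_symm _ hint2]
    conv_rhs => rw [hlaw']
    rw [integral_map hmeas.aemeasurable S.cont.aestronglyMeasurable]
  have hint3 := hint2.integral_prod_right
  set φ0 := ∫ y, h (Q y) ∂stdGaussian (Eu d) with hφ0
  have hφ1 : φ0 ≤ 1 := by
    have := integral_mono (integrable_const φ0) hint3 fun z => S.shift_ge Q (P z)
    rw [hone] at this
    simpa using this
  have hmap : (stdGaussian (Eu d)).map (fun g => ⟪u, g⟫) = gaussianReal 0 1 := by
    rw [map_inner, hu1]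
    simp
  have hψint : Integrable (fun z : Eu d => max (η * |⟪u, z⟫| - 1) 0) (stdGaussian (Eu d)) := by
    have := aspos_psi_int η hη
    rw [← hmap] at this
    exact (integrable_map_measure (by fun_prop) (by fun_prop)).1 this
  have hψeq : ∫ z, max (η * |⟪u, z⟫| - 1) 0 ∂stdGaussian (Eu d) = ψ := by
    rw [hψ, ← hmap, integral_map (by fun_prop) (by fun_prop)]
  have hlow : φ0 + ψ ≤ 1 := by
    have := integral_mono ((integrable_const φ0).add hψint) hint3 fun z => by
      have a1 := S.shift_ge Q (P z)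
      have a2 := S.shift_ge' Q (P z)
      have a3 := hv (P z)
      rw [Pa, inner_smul_right, hvu, abs_mul, abs_of_pos hρ0, ← Pa] at a3
      have a4 := mul_le_mul_of_nonneg_left hρ.le (abs_nonneg ⟪u, z⟫)
      simp only [Pi.add_apply]
      rcases le_total (η * |⟪u, z⟫| - 1) 0 with a5 | a5
      · rw [max_eq_right a5]
        linarith
      · rw [max_eq_left a5]
        linarith
    rw [hone, integral_add' (integrable_const φ0) hψint, hψeq] at this
    simpa using this
  have htr := S.trace_le hI (EuclideanSpace.basisFun (Fin d) ℝ) Q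
  have hsum : ∑ i, ⟪EuclideanSpace.basisFun (Fin d) ℝ i, Q (EuclideanSpace.basisFun (Fin d) ℝ i)⟫ =
      (d : ℝ) - 1 := by
    have e := (EuclideanSpace.basisFun (Fin d) ℝ).sum_sq_inner_right u
    rw [hu1] at e
    have e2 : ∀ i, ⟪EuclideanSpace.basisFun (Fin d) ℝ i, Q (EuclideanSpace.basisFun (Fin d) ℝ i)⟫ =
        1 - ⟪EuclideanSpace.basisFun (Fin d) ℝ i, u⟫ ^ 2 := fun i => by
      rw [Qa, inner_sub_right, inner_smul_right, real_inner_self_eq_norm_sq,
        (EuclideanSpace.basisFun (Fin d) ℝ).orthonormal.1 i, real_inner_comm]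
      ring
    simp_rw [e2]
    rw [Finset.sum_sub_distrib, e]
    simp
  rw [hsum] at htr
  have e3 : 1 / (d : ℝ) * (d - 1) = 1 - 1 / d := by field_simp
  have h5 : ψ ≤ 1 / d := by linarith
  rw [div_lt_iff₀ ψpos] at hk
  rw [le_div_iff₀ hd0] at h5
  nlinarith

end Pool.Agent.Lib.MP_77d991_gt.As

namespace Pool.Agent.Lib.MP_77d991_gt.As

variable {E : Type*} [NormedAddCommGroup E] [InnerProductSpace ℝ E] [FiniteDimensional ℝ E]
  [MeasurableSpace E] [BorelSpace E]

open Pointwise in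
/-- Polytopal approximation from outside. Sketch: `0 ∈ interior M`; for `y` in the compact set
`K = {y | gauge M y = 1 + η}` (or: `y ∈ sphere`, rescaled) `geometric_hahn_banach_point_closed` /
`geometric_hahn_banach_closed_point` gives `w_y` with `|⟪w_y, z⟫| ≤ 1` on `M` (symmetry) and `⟪w_y, y⟫ > 1`;
finitely many open sets `{⟪w_y, ·⟫ > 1}` cover `K`; add the vector `0` to have a family indexed by `Fin (m+1)`.
If `gauge M z > 1 + η` then `z = t y`, `t > 1`, `y ∈ K`, so `hV v z > 1`; and `gauge M z ≤ 1 + η` gives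
`z ∈ (1+η) • M` (`gauge_le_one_iff_mem_closure`). -/
theorem geo_approx {M : Set E} (hK : IsCompact M) (hc : Convex ℝ M) (hi : (interior M).Nonempty)
    (hs : M = -M) {η : ℝ} (hη : 0 < η) : ∃ (m : ℕ) (v : Fin (m + 1) → E),
      (∀ i, ∀ y ∈ M, |⟪v i, y⟫| ≤ 1) ∧ {y | hV v y ≤ 1} ⊆ (1 + η) • M := by
  obtain ⟨a, ha⟩ := hi
  have hneg : ∀ y ∈ M, -y ∈ M := fun y hy => by
    rw [hs]
    simpa using hy
  have ha' : -a ∈ interior M := by
    have h1 : (fun y : E => -y) ⁻¹' M ∈ nhds (-a) :=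
      continuous_neg.continuousAt.preimage_mem_nhds
        (by simpa using mem_interior_iff_mem_nhds.1 ha)
    refine mem_interior_iff_mem_nhds.2 (Filter.mem_of_superset h1 fun y hy => ?_)
    simpa using hneg _ hy
  have h0 : (0 : E) ∈ interior M := by
    have := hc.interior ha ha' (a := 1 / 2) (b := 1 / 2) (by norm_num) (by norm_num) (by norm_num)
    simpa using this
  have hsub : M ⊆ interior ((1 + η) • M) := by
    have h1 := hc.subset_interior_image_homothety_of_one_lt h0 (1 + η) (by linarith)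
    have e : AffineMap.homothety (0 : E) (1 + η) '' M = (1 + η) • M := by
      ext z
      simp only [AffineMap.homothety_apply, vsub_eq_sub, sub_zero, vadd_eq_add, add_zero,
        Set.mem_image, Set.mem_smul_set]
    rwa [e] at h1
  obtain ⟨R, hR0, hR⟩ := (hK.smul (1 + η)).isBounded.subset_ball_lt 0 0
  have hKc : IsCompact (Metric.closedBall (0 : E) R ∩ (interior ((1 + η) • M))ᶜ) :=
    (isCompact_closedBall _ _).inter_right isOpen_interior.isClosed_compl
  have hsep : ∀ y ∈ Metric.closedBall (0 : E) R ∩ (interior ((1 + η) • M))ᶜ,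
      ∃ w : E, (∀ z ∈ M, |⟪w, z⟫| ≤ 1) ∧ 1 < ⟪w, y⟫ := by
    intro y hy
    obtain ⟨f, u, h1, h2⟩ := geometric_hahn_banach_closed_point hc hK.isClosed
      (fun h => hy.2 (hsub h))
    have hu : 0 < u := by simpa using h1 0 (interior_subset h0)
    refine ⟨u⁻¹ • (InnerProductSpace.toDual ℝ E).symm f, fun z hz => ?_, ?_⟩
    · rw [real_inner_smul_left, InnerProductSpace.toDual_symm_apply, abs_mul,
        abs_of_pos (inv_pos.2 hu), inv_mul_le_iff₀ hu, mul_one, abs_le]
      have h3 := h1 _ (hneg z hz)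
      rw [map_neg] at h3
      exact ⟨by linarith, (h1 z hz).le⟩
    · rw [real_inner_smul_left, InnerProductSpace.toDual_symm_apply, lt_inv_mul_iff₀ hu, mul_one]
      exact h2
  choose! w hw1 hw2 using hsep
  obtain ⟨t, ht1, ht2⟩ := hKc.elim_nhds_subcover (fun y => {z | 1 < ⟪w y, z⟫}) fun y hy =>
    (isOpen_lt continuous_const (by fun_prop)).mem_nhds (hw2 y hy)
  refine ⟨t.card, Fin.cons 0 fun i => w (t.equivFin.symm i), fun i => ?_, fun z hz => ?_⟩
  · refine Fin.cases (fun y _ => by simp) (fun j y hy => ?_) i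
    simpa using hw1 _ (ht1 _ (t.equivFin.symm j).2) y hy
  · have hle : ∀ y ∈ t, ⟪w y, z⟫ ≤ 1 := fun y hy => by
      have h1 := le_ciSup (f := fun i => |⟪(Fin.cons 0 (fun i => w (t.equivFin.symm i)) :
        Fin (t.card + 1) → E) i, z⟫|) (Set.finite_range _).bddAbove (t.equivFin ⟨y, hy⟩).succ
      simp only [Fin.cons_succ, Equiv.symm_apply_apply] at h1
      exact (le_abs_self _).trans (h1.trans hz)
    by_contra hzM
    by_cases hzR : ‖z‖ ≤ R
    · obtain ⟨y, hy, h⟩ := Set.mem_iUnion₂.1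
        (ht2 ⟨by simpa using hzR, fun h => hzM (interior_subset h)⟩)
      exact absurd (hle y hy) (not_le.2 h)
    · have hz0 : 0 < ‖z‖ := lt_trans hR0 (not_le.1 hzR)
      have hn : ‖(R / ‖z‖) • z‖ = R := by
        rw [norm_smul, Real.norm_of_nonneg (by positivity), div_mul_cancel₀ _ hz0.ne']
      obtain ⟨y, hy, h⟩ := Set.mem_iUnion₂.1 (ht2 (a := (R / ‖z‖) • z)
        ⟨by simp [hn], fun h => by simpa [hn] using hR (interior_subset h)⟩)
      have h1 : 1 < R / ‖z‖ * ⟪w y, z⟫ := by simpa [inner_smul_right] using h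
      have h2 : R / ‖z‖ ≤ 1 := (div_le_one hz0).2 (not_le.1 hzR).le
      have h3 : 0 ≤ R / ‖z‖ := by positivity
      nlinarith [hle y hy]

lemma asgeo_vol {d : ℕ} (c : Eu d) (u : Fin d → Eu d) :
    (volume ((fun z => c + z) '' parallelepiped u)).toReal =
      |(Matrix.of fun l j => u j l).det| := by
  rw [Set.image_add_left, measure_preimage_add,
    ← (EuclideanSpace.basisFun (Fin d) ℝ).addHaar_eq_volume, Measure.addHaar_parallelepiped,
    ENNReal.toReal_ofReal (abs_nonneg _), Module.Basis.det_apply]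
  rfl

lemma asgeo_hadamard {d : ℕ} (w : Fin d → Eu d) :
    |(Matrix.of fun i l => w i l).det| ≤ ∏ i, ‖w i‖ := by
  have : Fact (Module.finrank ℝ (Eu d) = d) := ⟨by simp⟩
  have h := ((EuclideanSpace.basisFun (Fin d) ℝ).toBasis.orientation).abs_volumeForm_apply_le w
  rw [Orientation.volumeForm_robust' _ (EuclideanSpace.basisFun (Fin d) ℝ),
    Module.Basis.det_apply, ← Matrix.det_transpose] at h
  exact h

lemma asgeo_inner {d : ℕ} (a b : Eu d) : ⟪a, b⟫ = ∑ l, a l * b l := by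
  simp [PiLp.inner_apply, mul_comm]

/-- The intersection of `d` strips is a parallelotope of volume `2^d/|det|`. Sketch: `A = of fun i l => w i l`,
`u i = 2 • (column i of A⁻¹)`, `c = -(1/2) ∑ u i`; `y = c + ∑ t i • u i` with `t i = (⟪w i,y⟫ + 1)/2`
(`mem_parallelepiped_iff`); `measure_preimage_add`/`image_add_left`, `Measure.addHaar_parallelepiped` or
`Module.Basis.addHaar_parallelepiped`-type lemma with `(EuclideanSpace.basisFun _ ℝ).toBasis`
(`OrthonormalBasis.addHaar_eq_volume`). -/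
theorem geo_par {d : ℕ} (w : Fin d → Eu d) (hw : (Matrix.of fun i l => w i l).det ≠ 0) :
    ∃ (c : Eu d) (u : Fin d → Eu d), LinearIndependent ℝ u ∧
      {y | ∀ i, |⟪w i, y⟫| ≤ 1} ⊆ (fun z => c + z) '' parallelepiped u ∧
      (volume ((fun z => c + z) '' parallelepiped u)).toReal =
        2 ^ d / |(Matrix.of fun i l => w i l).det| := by
  set A : Matrix (Fin d) (Fin d) ℝ := Matrix.of fun i l => w i l with hA
  have hu : IsUnit A.det := isUnit_iff_ne_zero.2 hw
  let u : Fin d → Eu d := fun j => WithLp.toLp 2 fun l => 2 * A⁻¹ l j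
  have hwu : ∀ i j, ⟪w i, u j⟫ = if i = j then 2 else 0 := fun i j => by
    have h := congrFun (congrFun (Matrix.mul_nonsing_inv A hu) i) j
    rw [Matrix.mul_apply, Matrix.one_apply] at h
    rw [asgeo_inner]
    have e : ∑ l, w i l * u j l = 2 * ∑ l, A i l * A⁻¹ l j := by
      rw [Finset.mul_sum]
      refine Finset.sum_congr rfl fun l _ => ?_
      change w i l * (2 * A⁻¹ l j) = 2 * (w i l * A⁻¹ l j)
      ring
    rw [e, h]
    split_ifs <;> simp
  refine ⟨∑ i, (-(1 / 2) : ℝ) • u i, u, ?_, ?_, ?_⟩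
  · refine Fintype.linearIndependent_iff.2 fun g hg i => ?_
    have h := congrArg (fun z => ⟪w i, z⟫) hg
    simp only [inner_sum, inner_smul_right, hwu, inner_zero_right, mul_ite, mul_zero,
      Finset.sum_ite_eq, Finset.mem_univ, if_true] at h
    linarith
  · intro y hy
    refine ⟨∑ i, ((⟪w i, y⟫ + 1) / 2) • u i, (mem_parallelepiped_iff _ _).2
      ⟨fun i => (⟪w i, y⟫ + 1) / 2, ⟨fun i => ?_, fun i => ?_⟩, rfl⟩, ?_⟩
    · have := (abs_le.1 (hy i)).1
      change (0 : ℝ) ≤ (⟪w i, y⟫ + 1) / 2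
      linarith
    · have := (abs_le.1 (hy i)).2
      change (⟪w i, y⟫ + 1) / 2 ≤ (1 : ℝ)
      linarith
    · have h : Matrix.mulVec A⁻¹ (Matrix.mulVec A y.ofLp) = y.ofLp := by
        rw [Matrix.mulVec_mulVec, Matrix.nonsing_inv_mul A hu, Matrix.one_mulVec]
      change (∑ i, (-(1 / 2) : ℝ) • u i) + ∑ i, ((⟪w i, y⟫ + 1) / 2) • u i = y
      rw [← Finset.sum_add_distrib]
      ext l
      rw [← congrFun h l]
      simp only [WithLp.ofLp_sum, Finset.sum_apply, Matrix.mulVec, dotProduct]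
      refine Finset.sum_congr rfl fun i _ => ?_
      rw [asgeo_inner]
      change -(1 / 2) * (2 * A⁻¹ l i) + ((∑ k, w i k * y k) + 1) / 2 * (2 * A⁻¹ l i)
        = A⁻¹ l i * ∑ k, w i k * y k
      ring
  · rw [asgeo_vol]
    have e : (Matrix.of fun l j => u j l) = (2 : ℝ) • A⁻¹ := by
      ext l j
      rfl
    rw [e, Matrix.det_smul, Matrix.det_nonsing_inv, Ring.inverse_eq_inv', Fintype.card_fin,
      abs_mul, abs_inv, abs_of_pos (by positivity), div_eq_mul_inv]

/-- A parallelotope containing the unit ball has volume at least `2^d`. Sketch: dual vectors `w i` with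
`⟪w i, u j⟫ = δ_ij`; `⟪w i, y - c⟫ ∈ [0,1]` on the ball, test `y = ± w i/‖w i‖`: `2‖w i‖ ≤ 1`; Hadamard
(`Orientation.abs_volumeForm_apply_le`, or `Pool.Agent.Lib.MP_77d991_gt.Cross`) `|det w| ≤ 2^(-d)`, `vol = |det u| = 1/|det w|`. -/
theorem geo_ball {d : ℕ} (c : Eu d) (u : Fin d → Eu d) (hu : LinearIndependent ℝ u)
    (h : Metric.closedBall (0 : Eu d) 1 ⊆ (fun z => c + z) '' parallelepiped u) :
    2 ^ d ≤ (volume ((fun z => c + z) '' parallelepiped u)).toReal := by
  rw [asgeo_vol]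
  set B : Matrix (Fin d) (Fin d) ℝ := Matrix.of fun l j => u j l with hB
  have hB0 : IsUnit B.det := by
    rw [← Matrix.isUnit_iff_isUnit_det, ← Matrix.linearIndependent_cols_iff_isUnit]
    exact hu.map' (WithLp.linearEquiv 2 ℝ (Fin d → ℝ)).toLinearMap (LinearEquiv.ker _)
  let w : Fin d → Eu d := fun i => WithLp.toLp 2 fun l => B⁻¹ i l
  have hwu : ∀ i j, ⟪w i, u j⟫ = if i = j then 1 else 0 := fun i j => by
    have h := congrFun (congrFun (Matrix.nonsing_inv_mul B hB0) i) j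
    rw [Matrix.mul_apply, Matrix.one_apply] at h
    rw [asgeo_inner]
    exact h
  have hc : ∀ i, ∀ y ∈ Metric.closedBall (0 : Eu d) 1,
      0 ≤ ⟪w i, y⟫ - ⟪w i, c⟫ ∧ ⟪w i, y⟫ - ⟪w i, c⟫ ≤ 1 := by
    intro i y hy
    obtain ⟨z, hz, rfl⟩ := h hy
    obtain ⟨t, ht, rfl⟩ := (mem_parallelepiped_iff _ _).1 hz
    simp only [inner_add_right, add_sub_cancel_left, inner_sum, inner_smul_right, hwu, mul_ite,
      mul_one, mul_zero, Finset.sum_ite_eq, Finset.mem_univ, if_true]
    exact ⟨ht.1 i, ht.2 i⟩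
  have hn : ∀ i, ‖w i‖ ≤ 1 / 2 := fun i => by
    by_cases h0 : w i = 0
    · rw [h0, norm_zero]
      norm_num
    have hp : 0 < ‖w i‖ := norm_pos_iff.2 h0
    have hm : ‖‖w i‖⁻¹ • w i‖ = 1 := by
      rw [norm_smul, norm_inv, norm_norm, inv_mul_cancel₀ hp.ne']
    have e : ⟪w i, ‖w i‖⁻¹ • w i⟫ = ‖w i‖ := by
      rw [inner_smul_right, real_inner_self_eq_norm_sq]
      field_simp
    have h1 := (hc i (‖w i‖⁻¹ • w i) (by simp [hm])).2
    have h2 := (hc i (-(‖w i‖⁻¹ • w i)) (by simp [hm])).1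
    rw [inner_neg_right] at h2
    rw [e] at h1 h2
    linarith
  have h1 : |B⁻¹.det| ≤ (1 / 2) ^ d := by
    refine (asgeo_hadamard w).trans ?_
    refine (Finset.prod_le_prod (fun i _ => norm_nonneg _) fun i _ => hn i).trans ?_
    simp
  rw [Matrix.det_nonsing_inv, Ring.inverse_eq_inv', abs_inv, one_div, inv_pow] at h1
  exact (inv_le_inv₀ (abs_pos.2 hB0.ne_zero) (by positivity)).1 h1

/-- `of (adjoint T (w i) l) = of (w i l) * toMatrix T`, `LinearMap.det_toMatrix`. -/
theorem det_adjoint {d : ℕ} (T : Eu d →L[ℝ] Eu d) (w : Fin d → Eu d) :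
    (Matrix.of fun i l => (ContinuousLinearMap.adjoint T (w i)) l).det =
      T.det * (Matrix.of fun i l => w i l).det := by
  have e : (Matrix.of fun i l => (ContinuousLinearMap.adjoint T (w i)) l) =
      (Matrix.of fun i l => w i l) * LinearMap.toMatrix (EuclideanSpace.basisFun (Fin d) ℝ).toBasis
        (EuclideanSpace.basisFun (Fin d) ℝ).toBasis (T : Eu d →ₗ[ℝ] Eu d) := by
    ext i l
    have h := ContinuousLinearMap.adjoint_inner_left T (EuclideanSpace.basisFun (Fin d) ℝ l) (w i)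
    rw [real_inner_comm, EuclideanSpace.basisFun_inner, asgeo_inner] at h
    rw [Matrix.mul_apply, Matrix.of_apply, h]
    refine Finset.sum_congr rfl fun k _ => ?_
    rw [LinearMap.toMatrix_apply]
    rfl
  rw [e, Matrix.det_mul, LinearMap.det_toMatrix, mul_comm]

/-- `(4d)^q/q! = (4/κ)^q (κ d)^q/q! ≤ exp(4q/κ) exp(κ d) ≤ exp(2 κ d)`
(`Real.pow_div_factorial_le_exp`, `4/κ ≤ exp (4/κ)`). -/
theorem num_fact {κ : ℝ} (hκ : 0 < κ) {d q : ℕ} (hd : 0 < d) (hq : (q : ℝ) ≤ κ ^ 2 / 4 * d) :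
    Real.exp (-κ) ^ d ≤ (1 / (2 * √(d : ℝ))) ^ q * √(q.factorial : ℝ) := by
  have hd' : (0 : ℝ) < d := by exact_mod_cast hd
  have hf : (0 : ℝ) < q.factorial := by exact_mod_cast q.factorial_pos
  refine (pow_le_pow_iff_left₀ (by positivity) (by positivity) two_ne_zero).1 ?_
  have e1 : ((1 / (2 * √(d : ℝ))) ^ q * √(q.factorial : ℝ)) ^ 2
      = ((4 * d) ^ q / q.factorial : ℝ)⁻¹ := by
    rw [mul_pow, ← pow_mul, mul_comm q 2, pow_mul, Real.sq_sqrt hf.le, div_pow, mul_pow,
      Real.sq_sqrt hd'.le, inv_div, one_pow, one_div, inv_pow, div_eq_inv_mul]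
    norm_num
  have e2 : (Real.exp (-κ) ^ d) ^ 2 = (Real.exp (κ * d + κ * d))⁻¹ := by
    rw [← Real.exp_nat_mul, ← Real.exp_nat_mul, ← Real.exp_neg]
    congr 1
    push_cast
    ring
  rw [e1, e2]
  refine inv_anti₀ (by positivity) ?_
  have h1 := Real.pow_div_factorial_le_exp (κ * d) (by positivity) q
  have h2 : (4 / κ) ^ q ≤ Real.exp (κ * d) := by
    calc (4 / κ) ^ q ≤ Real.exp (4 / κ) ^ q :=
          pow_le_pow_left₀ (by positivity) (by linarith [Real.add_one_le_exp (4 / κ)]) q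
      _ = Real.exp (q * (4 / κ)) := (Real.exp_nat_mul _ _).symm
      _ ≤ _ := by
          refine Real.exp_le_exp.2 ?_
          rw [← mul_div_assoc, div_le_iff₀ hκ]
          nlinarith
  have e3 : ((4 * d) ^ q / q.factorial : ℝ) = (4 / κ) ^ q * ((κ * d) ^ q / q.factorial) := by
    rw [← mul_div_assoc, ← mul_pow]
    congr 2
    field_simp
  rw [e3, Real.exp_add]
  exact mul_le_mul h2 h1 (by positivity) (by positivity)

end Pool.Agent.Lib.MP_77d991_gt.As

namespace Pool.Agent.Lib.MP_77d991_gt.As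

variable {E : Type*} [NormedAddCommGroup E] [InnerProductSpace ℝ E] [FiniteDimensional ℝ E]
  [MeasurableSpace E] [BorelSpace E]

omit [MeasurableSpace E] [BorelSpace E] in
/-- Lifting a new functional along the old ones. Sketch: `G = of fun i l => ⟪θ i, X l⟫` is invertible;
`cf y = (G⁻¹)ᵀ *ᵥ (⟪y, X l⟫)_l` (i.e. `∑ i, cf y i * G i l = ⟪y, X l⟫`), `P y = y - ∑ cf y i • θ i` (linear, make it
continuous by `LinearMap.toContinuousLinearMap`), so `⟪P y, X l⟫ = 0`. Replacing the last row `y` by `P y` does not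
change the determinant (`Matrix.det_updateRow_add_smul_self` repeatedly, or `det_updateRow_sum`), then expand along
the last row (`Matrix.det_succ_row` at `Fin.last`). -/
theorem exists_lift {n : ℕ} (θ X : Fin n → E) (hG : gd θ X ≠ 0) :
    ∃ P : E →L[ℝ] E, (∀ y z, (∀ i, ⟪z, θ i⟫ = 0) → ⟪z, P y⟫ = ⟪z, y⟫) ∧
      ∀ y z, gd (Fin.snoc θ y : Fin (n + 1) → E) (Fin.snoc X z) = gd θ X * ⟪P y, z⟫ := by
  classical
  set G : Matrix (Fin n) (Fin n) ℝ := Matrix.of fun i l => ⟪θ i, X l⟫ with hGdef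
  have hGu : IsUnit G.det := isUnit_iff_ne_zero.2 hG
  let cf : E → Fin n → ℝ := fun y i => ∑ l, G⁻¹ l i * ⟪X l, y⟫
  let P : E →L[ℝ] E := ContinuousLinearMap.id ℝ E -
    ∑ i, (∑ l, G⁻¹ l i • innerSL ℝ (X l)).smulRight (θ i)
  have hP : ∀ y, P y = y - ∑ i, cf y i • θ i := fun y => by
    simp [P, cf]
  have hPX : ∀ y k, ⟪P y, X k⟫ = 0 := fun y k => by
    have h1 : ∀ l, ∑ i, G⁻¹ l i * ⟪θ i, X k⟫ = if l = k then 1 else 0 := fun l => by
      have := congrFun (congrFun (Matrix.nonsing_inv_mul G hGu) l) k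
      rw [Matrix.mul_apply, Matrix.one_apply] at this
      exact this
    rw [hP, inner_sub_left, sum_inner]
    have h2 : ∑ i, ⟪cf y i • θ i, X k⟫ = ∑ l, ⟪X l, y⟫ * ∑ i, G⁻¹ l i * ⟪θ i, X k⟫ := by
      simp only [real_inner_smul_left, cf, Finset.sum_mul, Finset.mul_sum]
      rw [Finset.sum_comm]
      refine Finset.sum_congr rfl fun l _ => Finset.sum_congr rfl fun i _ => by ring
    rw [h2]
    simp only [h1, mul_ite, mul_one, mul_zero, Finset.sum_ite_eq', Finset.mem_univ, if_true]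
    rw [real_inner_comm, sub_self]
  refine ⟨P, fun y z hz => ?_, fun y z => ?_⟩
  · rw [hP, inner_sub_right, inner_sum]
    simp [real_inner_smul_right, hz]
  · set M : Matrix (Fin (n + 1)) (Fin (n + 1)) ℝ :=
      Matrix.of fun i l => ⟪(Fin.snoc θ y : Fin (n + 1) → E) i, (Fin.snoc X z : Fin (n + 1) → E) l⟫
      with hM
    have h3 := Matrix.det_updateRow_sum M (Fin.last n)
      (Fin.snoc (fun i => -cf y i) 1 : Fin (n + 1) → ℝ)
    rw [Fin.snoc_last, one_smul] at h3
    have h4 : ∑ k, (Fin.snoc (fun i => -cf y i) 1 : Fin (n + 1) → ℝ) k • M k =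
        fun l => ⟪P y, (Fin.snoc X z : Fin (n + 1) → E) l⟫ := by
      funext l
      rw [Fin.sum_univ_castSucc, hP, inner_sub_left, sum_inner]
      simp only [Fin.snoc_castSucc, Fin.snoc_last, one_smul, Pi.add_apply, Finset.sum_apply,
        Pi.smul_apply, smul_eq_mul, hM, Matrix.of_apply, real_inner_smul_left, neg_mul,
        Finset.sum_neg_distrib]
      ring
    rw [h4] at h3
    change M.det = G.det * _
    rw [← h3, Matrix.det_succ_row _ (Fin.last n), Fin.sum_univ_castSucc]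
    have h5 : (M.updateRow (Fin.last n) fun l => ⟪P y, (Fin.snoc X z : Fin (n + 1) → E) l⟫).submatrix
        (Fin.last n).succAbove (Fin.last n).succAbove = G := by
      ext i l
      simp [Matrix.updateRow_apply, hM, hGdef, (Fin.castSucc_lt_last i).ne]
    rw [h5]
    simp only [Matrix.updateRow_self, Fin.snoc_castSucc, hPX, mul_zero, zero_mul,
      Finset.sum_const_zero, zero_add, Fin.snoc_last]
    rw [← two_mul, pow_mul]
    ring

omit [MeasurableSpace E] [BorelSpace E] in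
/-- `Orthonormal.exists_orthonormalBasis_extension_of_card_eq` with `ι = Fin n ⊕ Fin q`, `s = range Sum.inl`. -/
theorem exists_ext {n q : ℕ} (hq : n + q = Module.finrank ℝ E) (θ : Fin n → E)
    (hθ : Orthonormal ℝ θ) :
    ∃ b : OrthonormalBasis (Fin n ⊕ Fin q) ℝ E, ∀ i, b (Sum.inl i) = θ i := by
  classical
  have h1 : Orthonormal ℝ ((range (Sum.inl : Fin n → Fin n ⊕ Fin q)).domRestrict
      (Sum.elim θ (fun _ : Fin q => (0 : E)))) := by
    constructor
    · rintro ⟨_, i, rfl⟩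
      exact hθ.1 i
    · rintro ⟨_, i, rfl⟩ ⟨_, k, rfl⟩ hik
      refine hθ.2 fun h => hik ?_
      subst h
      rfl
  obtain ⟨b, hb⟩ := h1.exists_orthonormalBasis_extension_of_card_eq (by simp [← hq])
  exact ⟨b, fun i => hb _ ⟨i, rfl⟩⟩

/-- One greedy step. Sketch: `q = d - n ≥ 1`, `b` from `exists_ext`, `Q y = ∑_j ⟪b (inr j), y⟫ • b (inr j)`,
`P` from `exists_lift`. `trace_le b (P ∘ Q)`: `a q ≤ ∫ h (P (Q g))`. If `h (P y) ≤ κ = a √q / 2` for every unit
`y ⊥ θ`, then `h (P (Q g)) ≤ κ ‖Q g‖` and `∫ ‖Q g‖ ≤ √q` (`mean_norm_sq_le`, `int_norm_sq_map b`), a contradiction.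
Pick `i` by `exists_hV`; `Fin.snoc θ y` is orthonormal; `v ∘ Fin.snoc j i = Fin.snoc (v ∘ j) (v i)`
(`Fin.comp_snoc`). -/
theorem greedy_step {m n : ℕ} (v : Fin (m + 1) → E) {x : E → E} {R a : ℝ} (S : Sel (hV v) x R)
    (hI : Iso x a) (ha : 0 < a) (hn : n < Module.finrank ℝ E) (θ : Fin n → E)
    (hθ : Orthonormal ℝ θ) (j : Fin n → Fin (m + 1)) (hG : gd θ (v ∘ j) ≠ 0) :
    ∃ (θ' : Fin (n + 1) → E) (j' : Fin (n + 1) → Fin (m + 1)), Orthonormal ℝ θ' ∧
      |gd θ (v ∘ j)| * (a * √((Module.finrank ℝ E - n : ℕ) : ℝ) / 2) ≤ |gd θ' (v ∘ j')| := by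
  classical
  set q : ℕ := Module.finrank ℝ E - n with hqdef
  have hq0 : 0 < q := by omega
  have hqR : (0 : ℝ) < q := by exact_mod_cast hq0
  obtain ⟨b, hb⟩ := exists_ext (n := n) (q := q) (by omega) θ hθ
  obtain ⟨P, hP1, hP2⟩ := exists_lift θ (v ∘ j) hG
  let Q : E →L[ℝ] E := ∑ k : Fin q, (innerSL ℝ (b (Sum.inr k))).smulRight (b (Sum.inr k))
  have hQ : ∀ y, Q y = ∑ k : Fin q, ⟪b (Sum.inr k), y⟫ • b (Sum.inr k) := fun y => by
    simp [Q]
  have hbo := orthonormal_iff_ite.1 b.orthonormal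
  have hQl : ∀ i, Q (b (Sum.inl i)) = 0 := fun i => by
    rw [hQ]
    simp [hbo]
  have hQr : ∀ k, Q (b (Sum.inr k)) = b (Sum.inr k) := fun k => by
    rw [hQ]
    simp [hbo]
  have hQθ : ∀ y i, ⟪Q y, θ i⟫ = 0 := fun y i => by
    rw [hQ, sum_inner, ← hb]
    simp [real_inner_smul_left, hbo]
  have htr := S.trace_le hI b (P.comp Q)
  have hsum : ∑ i, ⟪b i, (P.comp Q) (b i)⟫ = (q : ℝ) := by
    rw [Fintype.sum_sum_type]
    simp only [ContinuousLinearMap.comp_apply, hQl, hQr, map_zero, inner_zero_right,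
      Finset.sum_const_zero, zero_add]
    have : ∀ k : Fin q, ⟪b (Sum.inr k), P (b (Sum.inr k))⟫ = 1 := fun k => by
      rw [hP1 _ _ fun i => by rw [← hb, hbo]; simp, hbo]
      simp
    simp [this]
  rw [hsum] at htr
  have hQ2 : ∫ g, ‖Q g‖ ^ 2 ∂stdGaussian E = q := by
    rw [int_norm_sq_map b, Fintype.sum_sum_type]
    simp [hQl, hQr]
  have hQ1 : ∫ g, ‖Q g‖ ∂stdGaussian E ≤ √(q : ℝ) := by
    have := mean_norm_sq_le Q
    rw [hQ2] at this
    exact Real.le_sqrt_of_sq_le this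
  have hκ : 0 < a * √(q : ℝ) / 2 := by positivity
  have key : ∃ y : E, ‖y‖ = 1 ∧ (∀ i, ⟪y, θ i⟫ = 0) ∧ a * √(q : ℝ) / 2 ≤ hV v (P y) := by
    by_contra hcon
    push Not at hcon
    have hle : ∀ g, hV v ((P.comp Q) g) ≤ a * √(q : ℝ) / 2 * ‖Q g‖ := fun g => by
      rw [ContinuousLinearMap.comp_apply]
      by_cases h0 : Q g = 0
      · rw [h0, map_zero, S.h_zero, norm_zero, mul_zero]
      · have hpos : 0 < ‖Q g‖ := norm_pos_iff.2 h0
        have h1 := hcon (‖Q g‖⁻¹ • Q g) (by rw [norm_smul, norm_inv, norm_norm, inv_mul_cancel₀ hpos.ne'])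
          (fun i => by rw [real_inner_smul_left, hQθ, mul_zero])
        rw [map_smul, S.h_smul, abs_of_pos (inv_pos.2 hpos), inv_mul_lt_iff₀ hpos] at h1
        linarith
    have hint : Integrable (fun g => ‖Q g‖) (stdGaussian E) := by
      refine Integrable.mono' ((integrable_norm_pow 1).const_mul ‖Q‖) (by fun_prop)
        (Filter.Eventually.of_forall fun g => ?_)
      rw [norm_norm, pow_one]
      exact Q.le_opNorm g
    have h2 := integral_mono (S.integrable_lin (P.comp Q)) (hint.const_mul (a * √(q : ℝ) / 2)) hle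
    rw [integral_const_mul] at h2
    have h3 := mul_le_mul_of_nonneg_left hQ1 hκ.le
    have h4 : a * √(q : ℝ) / 2 * √(q : ℝ) = a * q / 2 := by
      have := Real.mul_self_sqrt hqR.le
      calc _ = a * (√(q : ℝ) * √(q : ℝ)) / 2 := by ring
        _ = _ := by rw [this]
    have h5 : 0 < a * q := by positivity
    linarith
  obtain ⟨y, hy1, hy2, hy3⟩ := key
  obtain ⟨i, hi⟩ := exists_hV v (P y)
  refine ⟨Fin.snoc θ y, Fin.snoc j i, ?_, ?_⟩
  · rw [orthonormal_iff_ite]
    intro s t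
    have hθ' := orthonormal_iff_ite.1 hθ
    induction s using Fin.lastCases with
    | last =>
      induction t using Fin.lastCases with
      | last => simp [hy1]
      | cast t => simp [hy2, (Fin.castSucc_lt_last t).ne']
    | cast s =>
      induction t using Fin.lastCases with
      | last =>
        simp only [Fin.snoc_castSucc, Fin.snoc_last]
        rw [real_inner_comm, hy2, if_neg (Fin.castSucc_lt_last s).ne]
      | cast t => simp [hθ']
  · rw [Fin.comp_snoc, hP2, abs_mul, real_inner_comm, hi]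
    exact mul_le_mul_of_nonneg_left hy3 (abs_nonneg _)

/-- Iterate `greedy_step` (induction on `q`); at the end `θ` is an orthonormal family of `d` vectors, and
`gd θ X = det Θ * det X` with `|det Θ| = 1`. -/
theorem greedy_all {d m : ℕ} (v : Fin (m + 1) → Eu d) {x : Eu d → Eu d} {R a : ℝ}
    (S : Sel (hV v) x R) (hI : Iso x a) (ha : 0 < a) (q : ℕ) : ∀ (n : ℕ) (_ : n + q = d)
    (θ : Fin n → Eu d) (_ : Orthonormal ℝ θ) (j : Fin n → Fin (m + 1)) (_ : gd θ (v ∘ j) ≠ 0),
    ∃ j' : Fin d → Fin (m + 1), |gd θ (v ∘ j)| * ((a / 2) ^ q * √(q.factorial : ℝ)) ≤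
      |(Matrix.of fun i l => v (j' i) l).det| := by
  induction q with
  | zero =>
    intro n hn θ hθ j _
    obtain rfl : n = d := by omega
    refine ⟨j, ?_⟩
    set T : Matrix (Fin n) (Fin n) ℝ := Matrix.of fun i l => θ i l with hT
    have h1 : T * T.transpose = 1 := by
      ext i k
      have := orthonormal_iff_ite.1 hθ i k
      rw [Matrix.mul_apply, Matrix.one_apply, ← this, PiLp.inner_apply]
      refine Finset.sum_congr rfl fun l _ => ?_
      simp [hT, mul_comm]
    have h2 : |T.det| = 1 := by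
      have := congrArg Matrix.det h1
      rw [Matrix.det_mul, Matrix.det_transpose, Matrix.det_one] at this
      rcases mul_self_eq_one_iff.1 this with h | h <;> simp [h]
    have h3 : (Matrix.of fun i l => ⟪θ i, (v ∘ j) l⟫) =
        T * (Matrix.of fun i l => v (j i) l).transpose := by
      ext i k
      rw [Matrix.mul_apply, Matrix.of_apply, PiLp.inner_apply]
      refine Finset.sum_congr rfl fun l _ => ?_
      simp [hT, mul_comm]
    rw [gd, h3, Matrix.det_mul, Matrix.det_transpose, abs_mul, h2]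
    simp
  | succ q ih =>
    intro n hn θ hθ j hG
    have hd : Module.finrank ℝ (Eu d) = d := by simp
    obtain ⟨θ', j', hθ', hle⟩ := greedy_step v S hI ha (by rw [hd]; omega) θ hθ j hG
    rw [hd, show d - n = q + 1 by omega] at hle
    have hpos : 0 < |gd θ (v ∘ j)| * (a * √((q + 1 : ℕ) : ℝ) / 2) := by
      have := abs_pos.2 hG
      positivity
    obtain ⟨j'', hj''⟩ := ih (n + 1) (by omega) θ' hθ' j' (abs_pos.1 (hpos.trans_le hle))
    refine ⟨j'', le_trans ?_ hj''⟩
    have h1 : (a / 2) ^ (q + 1) * √((q + 1).factorial : ℝ) =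
        (a * √((q + 1 : ℕ) : ℝ) / 2) * ((a / 2) ^ q * √(q.factorial : ℝ)) := by
      rw [Nat.factorial_succ, Nat.cast_mul, Real.sqrt_mul (Nat.cast_nonneg _)]
      ring
    rw [h1, ← mul_assoc]
    exact mul_le_mul_of_nonneg_right hle (by positivity)

end Pool.Agent.Lib.MP_77d991_gt.As

namespace Pool.Agent.Lib.MP_77d991_gt.As

variable {E : Type*} [NormedAddCommGroup E] [InnerProductSpace ℝ E] [FiniteDimensional ℝ E]
  [MeasurableSpace E] [BorelSpace E]

/-- A random rotation whose law is invariant under right multiplication.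
Sketch: `Ω = unitary (Eu d →L[ℝ] Eu d)` with the Borel σ-algebra; it is a topological group
(`Mathlib/Topology/Algebra/Star/Unitary.lean`), compact (closed, norm `≤ 1`, in a proper space;
`isCompact_iff_compactSpace`); `ν = haarMeasure ⊤` is a probability measure (`haarMeasure_self`), `ν.inv` is right
invariant; `U = Unitary.linearIsometryEquiv`; `integral_mul_right_eq_self`. -/
theorem exists_haar (d : ℕ) : ∃ (Ω : Type) (_ : MeasurableSpace Ω) (ν : Measure Ω)
    (U : Ω → (Eu d ≃ₗᵢ[ℝ] Eu d)), IsProbabilityMeasure ν ∧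
    Measurable (fun p : Ω × Eu d => U p.1 p.2) ∧
    ∀ (O : Eu d ≃ₗᵢ[ℝ] Eu d) (F : (ℕ → Eu d) → ℝ) (f : ℕ → Eu d),
      ∫ ω, F (fun i => U ω (O (f i))) ∂ν = ∫ ω, F (fun i => U ω (f i)) ∂ν := by
  have hs : ContinuousStar (Eu d →L[ℝ] Eu d) := ⟨ContinuousLinearMap.adjoint.continuous⟩
  have hc : IsCompact (unitary (Eu d →L[ℝ] Eu d) : Set (Eu d →L[ℝ] Eu d)) := by
    refine (isCompact_closedBall (0 : Eu d →L[ℝ] Eu d) 1).of_isClosed_subset isClosed_unitary
      fun u hu => ?_
    rw [mem_closedBall_zero_iff]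
    refine ContinuousLinearMap.opNorm_le_bound _ zero_le_one fun x => ?_
    rw [one_mul]
    exact ((Unitary.linearIsometryEquiv ⟨u, hu⟩).norm_map x).le
  have : CompactSpace (unitary (Eu d →L[ℝ] Eu d)) := isCompact_iff_compactSpace.1 hc
  let _ : MeasurableSpace (unitary (Eu d →L[ℝ] Eu d)) := borel _
  have : BorelSpace (unitary (Eu d →L[ℝ] Eu d)) := ⟨rfl⟩
  let ν : Measure (unitary (Eu d →L[ℝ] Eu d)) := Measure.haarMeasure ⊤
  have hν : IsProbabilityMeasure ν := ⟨by
    have := Measure.haarMeasure_self (G := unitary (Eu d →L[ℝ] Eu d)) (K₀ := ⊤)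
    simpa using this⟩
  refine ⟨unitary (Eu d →L[ℝ] Eu d), inferInstance, ν.inv, fun ω => Unitary.linearIsometryEquiv ω,
    ?_, ?_, fun O F f => ?_⟩
  · exact Measure.isProbabilityMeasure_map measurable_inv.aemeasurable
  · have : Continuous fun p : unitary (Eu d →L[ℝ] Eu d) × Eu d =>
        (p.1 : Eu d →L[ℝ] Eu d) p.2 := by fun_prop
    exact this.measurable
  · rw [← integral_mul_right_eq_self
      (fun ω => F fun i => Unitary.linearIsometryEquiv ω (f i))
      (Unitary.linearIsometryEquiv.symm O)]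
    simp only [map_mul, MulEquiv.apply_symm_apply]
    rfl

omit [MeasurableSpace E] [BorelSpace E] in
/-- transitivity on frames: `exists_ext` twice and `OrthonormalBasis.equiv`. -/
theorem exists_iso_frame {k : ℕ} (f f' : Fin k → E) (hf : Orthonormal ℝ f) (hf' : Orthonormal ℝ f') :
    ∃ O : E ≃ₗᵢ[ℝ] E, ∀ i, O (f i) = f' i := by
  have hk : k ≤ Module.finrank ℝ E := by simpa using hf.linearIndependent.fintype_card_le_finrank
  obtain ⟨b, hb⟩ := exists_ext (q := Module.finrank ℝ E - k) (by omega) f hf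
  obtain ⟨b', hb'⟩ := exists_ext (q := Module.finrank ℝ E - k) (by omega) f' hf'
  refine ⟨b.equiv b' (Equiv.refl _), fun i => ?_⟩
  rw [← hb, OrthonormalBasis.equiv_apply_basis, Equiv.refl_apply, hb']

omit [MeasurableSpace E] [BorelSpace E] in
/-- `k + 1` orthonormal vectors, the first `k` orthogonal to `r` given vectors: the orthogonal complement of the span
has dimension `≥ k` (`finrank_range_le_card`, `Submodule.finrank_add_finrank_orthogonal`), take `stdOrthonormalBasis` of it;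
the last vector from `exists_ext`. -/
theorem exists_perp_frame {k r : ℕ} (hkr : k + r = Module.finrank ℝ E) (hr : 0 < r) (Z : Fin r → E) :
    ∃ f : ℕ → E, Orthonormal ℝ (fun i : Fin (k + 1) => f i) ∧ ∀ i < k, ∀ j, ⟪Z j, f i⟫ = 0 := by
  have h1 : Module.finrank ℝ (Submodule.span ℝ (range Z)) ≤ r := by
    simpa [Set.finrank] using finrank_range_le_card (R := ℝ) Z
  have h2 := Submodule.finrank_add_finrank_orthogonal (Submodule.span ℝ (range Z))
  have hk : k ≤ Module.finrank ℝ (Submodule.span ℝ (range Z))ᗮ := by omega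
  let b := stdOrthonormalBasis ℝ (Submodule.span ℝ (range Z))ᗮ
  have hθ : Orthonormal ℝ fun i : Fin k => (b (Fin.castLE hk i) : E) :=
    (b.orthonormal.comp_linearIsometry (Submodule.span ℝ (range Z))ᗮ.subtypeₗᵢ).comp _
      (Fin.castLE_injective hk)
  obtain ⟨B, hB⟩ := exists_ext hkr _ hθ
  let e : ℕ → Fin k ⊕ Fin r := fun i => if h : i < k then Sum.inl ⟨i, h⟩ else Sum.inr ⟨0, hr⟩
  refine ⟨fun i => B (e i), B.orthonormal.comp (fun i : Fin (k + 1) => e i) fun i j hij => ?_,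
    fun i hi j => ?_⟩
  · have hi := i.2
    have hj := j.2
    simp only [e] at hij
    apply Fin.ext
    split_ifs at hij with h h'
    · simpa using hij
    · omega
  · simp only [e, dif_pos hi, hB]
    exact Submodule.inner_right_of_mem_orthogonal (Submodule.subset_span (mem_range_self j))
      (b _).2

variable {m : ℕ}

/-- `n` of the first `k` functionals carry a determinant at least `μ^n`. -/
def PP (v : Fin (m + 1) → E) (μ : ℝ) (k : ℕ) (θ : ℕ → E) (n : ℕ) : Prop :=
  ∃ (σ : Fin n → ℕ) (j : Fin n → Fin (m + 1)), Function.Injective σ ∧ (∀ i, σ i < k) ∧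
    μ ^ n ≤ |gd (θ ∘ σ) (v ∘ j)|

open Classical in
/-- the largest number of accepted functionals among the first `k`. -/
noncomputable def nn (v : Fin (m + 1) → E) (μ : ℝ) (k : ℕ) (θ : ℕ → E) : ℕ :=
  Nat.findGreatest (PP v μ k θ) k

omit [FiniteDimensional ℝ E] [MeasurableSpace E] [BorelSpace E] in
theorem nn_le (v : Fin (m + 1) → E) (μ : ℝ) (k : ℕ) (θ : ℕ → E) : nn v μ k θ ≤ k := by
  classical
  exact Nat.findGreatest_le k

omit [FiniteDimensional ℝ E] [MeasurableSpace E] [BorelSpace E] in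
/-- `PP .. 0` holds (empty determinant), `Nat.findGreatest_spec`. -/
theorem nn_spec (v : Fin (m + 1) → E) (μ : ℝ) (k : ℕ) (θ : ℕ → E) : PP v μ k θ (nn v μ k θ) := by
  classical
  refine Nat.findGreatest_spec (m := 0) (Nat.zero_le k) ⟨Fin.elim0, Fin.elim0, ?_, ?_, ?_⟩
  · exact fun i => i.elim0
  · exact fun i => i.elim0
  · simp [gd]

omit [FiniteDimensional ℝ E] [MeasurableSpace E] [BorelSpace E] in
theorem nn_congr (v : Fin (m + 1) → E) (μ : ℝ) (k : ℕ) {θ θ' : ℕ → E} (h : ∀ i < k, θ i = θ' i) :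
    nn v μ k θ = nn v μ k θ' := by
  have key : ∀ {θ θ' : ℕ → E}, (∀ i < k, θ i = θ' i) → ∀ n, PP v μ k θ n → PP v μ k θ' n := by
    rintro θ θ' h n ⟨σ, j, h1, h2, h3⟩
    refine ⟨σ, j, h1, h2, ?_⟩
    rwa [show θ' ∘ σ = θ ∘ σ from funext fun i => (h _ (h2 i)).symm]
  have : PP v μ k θ = PP v μ k θ' :=
    funext fun n => propext ⟨key h n, key (fun i hi => (h i hi).symm) n⟩
  unfold nn
  rw [this]

/-- `measurable_findGreatest`; countable union over `σ, j` of closed sets (`gd` is continuous in `θ`). -/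
theorem measurable_nn (v : Fin (m + 1) → E) (μ : ℝ) (k : ℕ) : Measurable (nn v μ k) := by
  classical
  have : ProperSpace E := FiniteDimensional.proper_real E
  unfold nn
  refine measurable_findGreatest fun n _ => ?_
  have e : {θ : ℕ → E | PP v μ k θ n} = ⋃ σ : Fin n → ℕ, ⋃ j : Fin n → Fin (m + 1),
      {θ : ℕ → E | Function.Injective σ ∧ (∀ i, σ i < k) ∧ μ ^ n ≤ |gd (θ ∘ σ) (v ∘ j)|} := by
    ext θ
    simp [PP]
  rw [e]
  refine MeasurableSet.iUnion fun σ => MeasurableSet.iUnion fun j => ?_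
  have hc : Continuous fun θ : ℕ → E => |gd (θ ∘ σ) (v ∘ j)| := by
    refine Continuous.abs (Continuous.matrix_det ?_)
    refine continuous_pi fun i => continuous_pi fun l => ?_
    exact (continuous_apply (σ i)).inner continuous_const
  exact (MeasurableSet.const _).inter ((MeasurableSet.const _).inter
    (isClosed_le continuous_const hc).measurableSet)

omit [MeasurableSpace E] [BorelSpace E] in
/-- witnesses `σ, j` of `nn_spec`, `P` from `exists_lift (θ ∘ σ) (v ∘ j)`, `exists_hV`, new witnesses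
`Fin.snoc σ k`, `Fin.snoc j i`; `Nat.le_findGreatest`. -/
theorem nn_step (v : Fin (m + 1) → E) {μ : ℝ} (hμ : 0 < μ) (k : ℕ) (θ : ℕ → E) :
    ∃ P : E →L[ℝ] E, (∀ y z, (∀ i < k, ⟪z, θ i⟫ = 0) → ⟪z, P y⟫ = ⟪z, y⟫) ∧
      ∀ y, nn v μ k θ ≤ nn v μ (k + 1) (Function.update θ k y) ∧
        (μ ≤ hV v (P y) → nn v μ k θ + 1 ≤ nn v μ (k + 1) (Function.update θ k y)) := by
  classical
  obtain ⟨σ, j, h1, h2, h3⟩ := nn_spec v μ k θ
  have hn := nn_le v μ k θ
  have hG : gd (θ ∘ σ) (v ∘ j) ≠ 0 := abs_pos.1 ((pow_pos hμ _).trans_le h3)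
  obtain ⟨P, hP1, hP2⟩ := exists_lift _ _ hG
  refine ⟨P, fun y z hz => hP1 y z fun i => hz _ (h2 i), fun y => ?_⟩
  have e1 : Function.update θ k y ∘ σ = θ ∘ σ :=
    funext fun i => Function.update_of_ne (h2 i).ne _ _
  refine ⟨?_, fun hy => ?_⟩
  · refine Nat.le_findGreatest (hn.trans (Nat.le_succ k)) ⟨σ, j, h1, fun i => ?_, ?_⟩
    · exact (h2 i).trans (Nat.lt_succ_self k)
    · rwa [e1]
  · obtain ⟨i, hi⟩ := exists_hV v (P y)
    refine Nat.le_findGreatest (Nat.succ_le_succ hn) ⟨Fin.snoc σ k, Fin.snoc j i, ?_, ?_, ?_⟩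
    · refine Fin.snoc_injective_iff.2 ⟨h1, ?_⟩
      rintro ⟨l, hl⟩
      exact (h2 l).ne hl
    · intro l
      induction l using Fin.lastCases with
      | last => simp
      | cast l => simpa using (h2 l).le
    · rw [Fin.comp_snoc, Fin.comp_snoc, e1, Function.update_self, hP2, abs_mul, pow_succ,
        real_inner_comm, hi]
      exact mul_le_mul h3 hy hμ.le (abs_nonneg _)

end Pool.Agent.Lib.MP_77d991_gt.As
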