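import Pool.Agent.Lib.MP_77d991_gt.StarB
import Pool.Agent.Lib.MP_77d991_gt.StarC

open MeasureTheory ProbabilityTheory Set
open scoped RealInnerProductSpace

namespace Pool.Agent.Lib.MP_77d991_gt.As

variable {E : Type*} [NormedAddCommGroup E] [InnerProductSpace ℝ E] [FiniteDimensional ℝ E]
  [MeasurableSpace E] [BorelSpace E]

section asflag
variable {d m : ℕ}

/-- the rotation `O` acting on tuples. -/
noncomputable def asflag_act (r : ℕ) (O : Eu d ≃ₗᵢ[ℝ] Eu d) : Mx r (Eu d) ≃ₗᵢ[ℝ] Mx r (Eu d) :=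
  LinearIsometryEquiv.piLpCongrRight 2 (fun _ => O)

lemma asflag_app_act {r : ℕ} (O : Eu d ≃ₗᵢ[ℝ] Eu d) (Z : Mx r (Eu d)) (s : Eu r) :
    app (asflag_act r O Z) s = O (app Z s) := by
  simp only [app_apply, map_sum, map_smul]
  rfl

/-- the direction of `app Z s`, or `e` when this vector vanishes. -/
noncomputable def asflag_w {r : ℕ} (Z : Mx r (Eu d)) (e : Eu d) (s : Eu r) : Eu d :=
  if app Z s = 0 then e else ‖app Z s‖⁻¹ • app Z s

lemma asflag_w_meas {r : ℕ} (Z : Mx r (Eu d)) (e : Eu d) : Measurable (asflag_w Z e) := by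
  unfold asflag_w
  have hc : Continuous (app Z) := (app Z).continuous
  refine Measurable.ite ?_ measurable_const ?_
  · exact (isClosed_eq hc continuous_const).measurableSet
  · have := hc.measurable
    fun_prop

lemma asflag_orth {k r : ℕ} (Z : Mx r (Eu d)) (f : ℕ → Eu d)
    (hf : Orthonormal ℝ (fun i : Fin (k + 1) => f i)) (hZ : ∀ i < k, ∀ j, ⟪Z j, f i⟫ = 0)
    (s : Eu r) :
    Orthonormal ℝ (fun i : Fin (k + 1) => Function.update f k (asflag_w Z (f k) s) i) := by
  have hz : ∀ i < k, ⟪app Z s, f i⟫ = 0 := fun i hi => by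
    rw [app_apply, sum_inner]
    exact Finset.sum_eq_zero fun j _ => by rw [real_inner_smul_left, hZ i hi j, mul_zero]
  have h1 : ‖asflag_w Z (f k) s‖ = 1 := by
    unfold asflag_w
    split_ifs with h
    · exact hf.1 (Fin.last k)
    · rw [norm_smul, norm_inv, norm_norm, inv_mul_cancel₀ (norm_ne_zero_iff.2 h)]
  have h2 : ∀ i < k, ⟪asflag_w Z (f k) s, f i⟫ = 0 := fun i hi => by
    unfold asflag_w
    split_ifs with h
    · have hne : (Fin.last k) ≠ (⟨i, by omega⟩ : Fin (k + 1)) := by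
        intro h'
        have := congrArg Fin.val h'
        simp at this
        omega
      exact hf.2 hne
    · rw [real_inner_smul_left, hz i hi, mul_zero]
  refine ⟨fun i => ?_, fun i j hij => ?_⟩
  · by_cases hi : (i : ℕ) = k
    · simp only [hi, Function.update_self]
      exact h1
    · simp only [Function.update_of_ne hi]
      exact hf.1 i
  · have hij' : (i : ℕ) ≠ j := fun h => hij (Fin.ext h)
    by_cases hi : (i : ℕ) = k
    · have hj : (j : ℕ) ≠ k := fun h => hij' (hi.trans h.symm)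
      have hj' : (j : ℕ) < k := by have := j.2; omega
      simp only [hi, Function.update_self, Function.update_of_ne hj]
      exact h2 j hj'
    · by_cases hj : (j : ℕ) = k
      · have hi' : (i : ℕ) < k := by have := i.2; omega
        simp only [hj, Function.update_self, Function.update_of_ne hi]
        rw [real_inner_comm]
        exact h2 i hi'
      · simp only [Function.update_of_ne hi, Function.update_of_ne hj]
        exact hf.2 hij

/-- the inner integral for a fixed rotation. -/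
lemma asflag_inner (v : Fin (m + 1) → Eu d) {x : Eu d → Eu d} {R μ : ℝ}
    (S : Sel (hV v) x R) (hμ : 0 < μ) {k r : ℕ} {p : Mx r (Eu d) → ℝ}
    (hp : ∀ (Γ : Mx r (Eu d)) (H : Eu r →L[ℝ] Eu d),
      (∀ s s', ⟪app Γ s, H s'⟫ = ⟪app Γ s, app Γ s'⟫) →
      (stdGaussian (Eu r)).real {s | hV v (H s) ≤ μ * ‖app Γ s‖} ≤ p Γ)
    (Z : Mx r (Eu d)) (f : ℕ → Eu d) (hZ : ∀ i < k, ∀ j, ⟪Z j, f i⟫ = 0)
    (O : Eu d ≃ₗᵢ[ℝ] Eu d)
    (hint : Integrable (fun s => (nn v μ (k + 1)
      (fun i => O (Function.update f k (asflag_w Z (f k) s) i)) : ℝ)) (stdGaussian (Eu r))) :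
    (nn v μ k (fun i => O (f i)) : ℝ) + 1 - p (asflag_act r O Z) ≤
      ∫ s, (nn v μ (k + 1) (fun i => O (Function.update f k (asflag_w Z (f k) s) i)) : ℝ)
        ∂stdGaussian (Eu r) := by
  obtain ⟨P, hP1, hP2⟩ := nn_step v hμ k (fun i => O (f i))
  set Γ := asflag_act r O Z with hΓ
  have hz : ∀ s, ∀ i < k, ⟪app Z s, f i⟫ = 0 := fun s i hi => by
    rw [app_apply, sum_inner]
    exact Finset.sum_eq_zero fun j _ => by rw [real_inner_smul_left, hZ i hi j, mul_zero]
  have hB := hp Γ (P.comp (app Γ)) fun s s' => by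
    refine hP1 _ _ fun i hi => ?_
    rw [hΓ, asflag_app_act, O.inner_map_map, hz s i hi]
  set B : Set (Eu r) := {s | hV v ((P.comp (app Γ)) s) ≤ μ * ‖app Γ s‖} with hBdef
  have hBm : MeasurableSet B := by
    refine (isClosed_le (S.cont.comp (P.comp (app Γ)).continuous) ?_).measurableSet
    have := (app Γ).continuous
    fun_prop
  have hup : ∀ s, (fun i => O (Function.update f k (asflag_w Z (f k) s) i)) =
      Function.update (fun i => O (f i)) k (O (asflag_w Z (f k) s)) := fun s => by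
    funext i
    by_cases hi : i = k
    · subst hi
      simp
    · simp [Function.update_of_ne hi]
  have hpt : ∀ s, (nn v μ k (fun i => O (f i)) : ℝ) + 1 - B.indicator (fun _ => (1 : ℝ)) s ≤
      (nn v μ (k + 1) (fun i => O (Function.update f k (asflag_w Z (f k) s) i)) : ℝ) := by
    intro s
    rw [hup s]
    by_cases hs : s ∈ B
    · rw [indicator_of_mem hs, add_sub_cancel_right]
      exact_mod_cast (hP2 _).1
    · rw [indicator_of_notMem hs, sub_zero]
      have hs' : μ * ‖app Γ s‖ < hV v (P (app Γ s)) := not_le.1 hs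
      have h0 : app Z s ≠ 0 := by
        intro h
        rw [hΓ, asflag_app_act, h, map_zero, map_zero, S.h_zero, norm_zero, mul_zero] at hs'
        exact lt_irrefl _ hs'
      have hn : 0 < ‖app Z s‖ := norm_pos_iff.2 h0
      have hle : μ ≤ hV v (P (O (asflag_w Z (f k) s))) := by
        rw [hΓ, asflag_app_act, O.norm_map] at hs'
        unfold asflag_w
        rw [if_neg h0, map_smul, map_smul, S.h_smul, abs_of_pos (inv_pos.2 hn),
          inv_mul_eq_div, le_div_iff₀ hn]
        exact hs'.le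
      exact_mod_cast (hP2 _).2 hle
  have hi : Integrable (B.indicator (fun _ => (1 : ℝ))) (stdGaussian (Eu r)) :=
    (integrable_const 1).indicator hBm
  have := integral_mono ((integrable_const _).sub hi) hint hpt
  rw [integral_sub' (integrable_const _) hi, integral_const, integral_indicator_const _ hBm] at this
  simp only [probReal_univ, smul_eq_mul, one_mul, mul_one] at this
  linarith

end asflag

/-- The random flag. Sketch: `(Ω, ν, U)` from `exists_haar`, `N k f = ∫ ω, nn v μ k (U ω ∘ f)`. By `exists_iso_frame`,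
`nn_congr` and invariance `N k f` is the same for all `f` orthonormal on `Fin k`. Induction: `k (1 - δ) ≤ N k f`.
Step `k → k+1`, `r = d - k`, `p` from `StepP`: `act ω Z = toLp fun j => U ω (Z j)` is an isometry of `Mx r (Eu d)`
(`LinearIsometryEquiv.piLpCongrRight`), so `∫_Z ∫_ω p (act ω Z) = ∫ p ≤ δ` (`integral_integral_swap`,
`integral_comp_iso`) and `exists_le_integral` gives `Z` with `∫_ω p (act ω Z) ≤ δ`. `f` from `exists_perp_frame`,
`w s = if app Z s = 0 then f k else ‖app Z s‖⁻¹ • app Z s`; `update f k (w s)` is orthonormal on `Fin (k+1)`, so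
`N (k+1) = ∫_s ∫_ω nn (k+1) (U ω ∘ update f k (w s)) = ∫_ω ∫_s ...`. For fixed `ω`: `P` from `nn_step`,
`Γ = act ω Z`, `app Γ s = U ω (app Z s)`, `H = P ∘ app Γ`; off the set `{h (H s) ≤ μ ‖Γ s‖}` we have `Γ s ≠ 0` and
`μ ≤ hV v (P (U ω (w s)))` (`h_smul`), so the inner integral is at least `nn k + 1 - p Γ`.
At the end `exists_integral_le` and `nn_spec`. -/
theorem flag {d m k : ℕ} (v : Fin (m + 1) → Eu d) {x : Eu d → Eu d} {R μ δ : ℝ}
    (S : Sel (hV v) x R) (hμ : 0 < μ) (hk : k ≤ d)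
    (hstep : ∀ r, d - k < r → r ≤ d → StepP (hV v) μ δ r) :
    ∃ (n : ℕ) (θ : Fin n → Eu d) (j : Fin n → Fin (m + 1)), Orthonormal ℝ θ ∧ n ≤ k ∧
      k * (1 - δ) ≤ n ∧ μ ^ n ≤ |gd θ (v ∘ j)| := by
  obtain ⟨Ω, _, ν, U, hν, hU, hinv⟩ := exists_haar d
  have hbd : ∀ {α : Type} [MeasurableSpace α] (ρ : Measure α) [IsProbabilityMeasure ρ] (k' : ℕ)
      (g : α → ℕ → Eu d), Measurable g → Integrable (fun a => (nn v μ k' (g a) : ℝ)) ρ := by
    intro α _ ρ _ k' g hg
    refine Integrable.of_bound (C := k') ?_ (Filter.Eventually.of_forall fun a => ?_)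
    · exact (measurable_from_top.comp ((measurable_nn v μ k').comp hg)).aestronglyMeasurable
    · rw [Real.norm_of_nonneg (Nat.cast_nonneg _)]
      exact_mod_cast nn_le v μ k' (g a)
  have hmU : ∀ f : ℕ → Eu d, Measurable (fun ω i => U ω (f i)) := fun f =>
    measurable_pi_lambda _ fun i => hU.comp (measurable_id.prodMk measurable_const)
  set N : ℕ → (ℕ → Eu d) → ℝ := fun k' f => ∫ ω, (nn v μ k' (fun i => U ω (f i)) : ℝ) ∂ν with hN
  have hNeq : ∀ (k' : ℕ) (f f' : ℕ → Eu d), Orthonormal ℝ (fun i : Fin k' => f i) →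
      Orthonormal ℝ (fun i : Fin k' => f' i) → N k' f = N k' f' := by
    intro k' f f' hf hf'
    obtain ⟨O, hO⟩ := exists_iso_frame _ _ hf hf'
    have h1 := hinv O (fun θ => (nn v μ k' θ : ℝ)) f
    simp only [hN]
    rw [← h1]
    refine integral_congr_ae (Filter.Eventually.of_forall fun ω => ?_)
    simp only
    rw [nn_congr v μ k' (θ' := fun i => U ω (f' i)) fun i hi => by rw [hO ⟨i, hi⟩]]
  have key : ∀ k' ≤ k, ∀ g : ℕ → Eu d, Orthonormal ℝ (fun i : Fin k' => g i) →
      k' * (1 - δ) ≤ N k' g := by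
    intro k'
    induction k' with
    | zero =>
      intro _ g _
      simp only [Nat.cast_zero, zero_mul, hN]
      exact integral_nonneg fun ω => Nat.cast_nonneg _
    | succ k' ih =>
      intro hk' g hg
      obtain ⟨r, hr⟩ : ∃ r, r = d - k' := ⟨_, rfl⟩
      obtain ⟨p, hpm, hpb, hpδ, hp⟩ := hstep r (by omega) (by omega)
      have hact : Measurable (fun q : Mx r (Eu d) × Ω => asflag_act r (U q.2) q.1) := by
        have e : (fun q : Mx r (Eu d) × Ω => asflag_act r (U q.2) q.1) =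
            fun q => WithLp.toLp 2 (fun j => U q.2 (q.1 j)) := rfl
        rw [e]
        refine (WithLp.measurable_toLp 2 _).comp (measurable_pi_lambda _ fun j => ?_)
        refine hU.comp (measurable_snd.prodMk ?_)
        exact (measurable_pi_apply j).comp ((WithLp.measurable_ofLp 2 _).comp measurable_fst)
      have hpi : Integrable (Function.uncurry fun (Z : Mx r (Eu d)) (ω : Ω) =>
          p (asflag_act r (U ω) Z)) ((stdGaussian (Mx r (Eu d))).prod ν) := by
        refine Integrable.of_bound (C := 3) (hpm.comp hact).aestronglyMeasurable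
          (Filter.Eventually.of_forall fun q => ?_)
        exact (Real.norm_of_nonneg (hpb _).1).trans_le (hpb _).2
      obtain ⟨Z, hZ⟩ := exists_le_integral hpi.integral_prod_left
      have hZ' : ∫ ω, p (asflag_act r (U ω) Z) ∂ν ≤ δ := by
        refine hZ.trans ?_
        have e := integral_integral_swap hpi
        simp only [integral_comp_iso, integral_const, probReal_univ, smul_eq_mul, one_mul] at e
        exact e.le.trans hpδ
      obtain ⟨f, hf, hfZ⟩ := exists_perp_frame (E := Eu d) (k := k') (r := r)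
        (by simp; omega) (by omega) (fun j => Z j)
      have hf' : Orthonormal ℝ (fun i : Fin k' => f i) :=
        hf.comp Fin.castSucc (Fin.castSucc_injective k')
      have h1 := ih (by omega) f hf'
      have hG : Measurable (fun (q : Eu r × Ω) (i : ℕ) =>
          U q.2 (Function.update f k' (asflag_w Z (f k') q.1) i)) := by
        refine measurable_pi_lambda _ fun i => hU.comp (measurable_snd.prodMk ?_)
        exact (measurable_pi_apply i).comp ((measurable_update f).comp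
          ((asflag_w_meas Z (f k')).comp measurable_fst))
      have hGi : Integrable (Function.uncurry fun (s : Eu r) (ω : Ω) => (nn v μ (k' + 1)
          (fun i => U ω (Function.update f k' (asflag_w Z (f k') s) i)) : ℝ))
          ((stdGaussian (Eu r)).prod ν) := hbd _ (k' + 1) _ hG
      have h2 : N (k' + 1) g = ∫ s, N (k' + 1) (Function.update f k' (asflag_w Z (f k') s))
          ∂stdGaussian (Eu r) := by
        simp only [fun s => hNeq (k' + 1) _ g (asflag_orth Z f hf hfZ s) hg, integral_const,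
          probReal_univ, smul_eq_mul, one_mul]
      have h3 := integral_integral_swap hGi
      have hpω : Integrable (fun ω => p (asflag_act r (U ω) Z)) ν := by
        refine Integrable.of_bound (C := 3)
          (hpm.comp (hact.comp (measurable_const.prodMk measurable_id))).aestronglyMeasurable
          (Filter.Eventually.of_forall fun q => ?_)
        exact (Real.norm_of_nonneg (hpb _).1).trans_le (hpb _).2
      have hi1 := hbd ν k' _ (hmU f)
      have h4 := integral_mono ((hi1.add (integrable_const (1 : ℝ))).sub hpω)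
        hGi.integral_prod_right fun ω => asflag_inner v S hμ hp Z f hfZ (U ω)
          (hbd _ (k' + 1) _ (hG.comp (measurable_id.prodMk measurable_const)))
      rw [integral_sub' (hi1.add (integrable_const (1 : ℝ))) hpω,
        integral_add' hi1 (integrable_const (1 : ℝ)), integral_const] at h4
      simp only [probReal_univ, smul_eq_mul, one_mul] at h4
      have h5 : N (k' + 1) g = _ := h2.trans h3
      have h6 : N k' f + 1 - ∫ ω, p (asflag_act r (U ω) Z) ∂ν ≤ N (k' + 1) g := by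
        rw [h5]
        exact h4
      push_cast
      linarith
  let f : ℕ → Eu d := fun i => if h : i < d then EuclideanSpace.basisFun (Fin d) ℝ ⟨i, h⟩ else 0
  have hf : Orthonormal ℝ (fun i : Fin k => f i) := by
    have e : (fun i : Fin k => f i) = EuclideanSpace.basisFun (Fin d) ℝ ∘ Fin.castLE hk := by
      funext i
      have hi : (i : ℕ) < d := i.2.trans_le hk
      simp only [f, dif_pos hi]
      rfl
    rw [e]
    exact (EuclideanSpace.basisFun (Fin d) ℝ).orthonormal.comp _ (Fin.castLE_injective hk)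
  obtain ⟨ω, hω⟩ := exists_integral_le (hbd ν k _ (hmU f))
  obtain ⟨σ, j, hσ, hσk, hdet⟩ := nn_spec v μ k (fun i => U ω (f i))
  refine ⟨_, _, j, ?_, nn_le _ _ _ _, (key k le_rfl f hf).trans hω, hdet⟩
  have h1 : Orthonormal ℝ (fun i : Fin k => U ω (f i)) :=
    (U ω).toLinearIsometry.orthonormal_comp_iff.2 hf
  exact h1.comp (fun i => ⟨σ i, hσk i⟩) fun a b hab => hσ (congrArg Fin.val hab)

end Pool.Agent.Lib.MP_77d991_gt.As

namespace Pool.Agent.Lib.MP_77d991_gt.As

lemma asmain_exp {x : ℝ} (h0 : 0 ≤ x) (h1 : x ≤ 1 / 2) : Real.exp (-(2 * x)) ≤ 1 - x := by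
  have h2 := Real.add_one_le_exp (2 * x)
  have h3 : Real.exp (-(2 * x)) * Real.exp (2 * x) = 1 := by rw [← Real.exp_add]; simp
  have h4 := Real.exp_pos (-(2 * x))
  nlinarith [mul_le_mul_of_nonneg_left h2 h4.le, mul_nonneg h0 (sub_nonneg.2 h1)]

/-- a selection with a small radius in the isotropic position. -/
lemma asmain_resel {d m : ℕ} (v : Fin (m + 1) → Eu d) {x : Eu d → Eu d} {R a η : ℝ}
    (S : Sel (hV v) x R) (hI : Iso x a) (hη : ∀ i, ‖v i‖ ≤ η) :
    ∃ x', Sel (hV v) x' η ∧ Iso x' a := by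
  obtain ⟨x', S'⟩ := exists_sel v hη
  refine ⟨x', S', iso_of_trace (EuclideanSpace.basisFun (Fin d) ℝ) v S' ?_ fun T => ?_⟩
  · rw [S.mean hI]; simp
  · exact S.trace_le hI _ T

/-- the determinant bound in the isotropic position. -/
theorem core_det {ε : ℝ} (hε : 0 < ε) : ∃ d0 : ℕ, ∀ d ≥ d0, ∀ (m : ℕ) (v : Fin (m + 1) → Eu d)
    (x : Eu d → Eu d) (R : ℝ), Sel (hV v) x R → Iso x (1 / d) →
    ∃ j : Fin d → Fin (m + 1),
      Real.exp (-ε * d) * (1 / √(d : ℝ)) ^ d ≤ |(Matrix.of fun i l => v (j i) l).det| := by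
  obtain ⟨e, he0, he1, he2, he3⟩ : ∃ e : ℝ, 0 < e ∧ e ≤ 1 / 16 ∧ e ≤ ε / 32 ∧ e ≤ ε ^ 2 / 112 :=
    ⟨min (1 / 16) (min (ε / 32) (ε ^ 2 / 112)), by positivity, min_le_left _ _,
      (min_le_right _ _).trans (min_le_left _ _), (min_le_right _ _).trans (min_le_right _ _)⟩
  obtain ⟨η, hη, r0, hstep⟩ := step he0 (by linarith)
  obtain ⟨d1, hd1⟩ := small_radius hη
  refine ⟨max d1 ⌈(r0 + 1) / e⌉₊, fun d hd m v x R S hI => ?_⟩
  have hd2 : (r0 + 1 : ℝ) ≤ e * d := by
    have h1 : ((r0 + 1 : ℝ) / e) ≤ d :=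
      (Nat.le_ceil _).trans (by exact_mod_cast (le_max_right _ _).trans hd)
    rw [div_le_iff₀ he0] at h1
    linarith
  have hr0 : (0 : ℝ) ≤ r0 := Nat.cast_nonneg _
  have hdpos : (0 : ℝ) < d := by
    by_contra h
    have : (d : ℝ) = 0 := le_antisymm (not_lt.1 h) (Nat.cast_nonneg _)
    rw [this] at hd2
    linarith
  have hdN : 0 < d := by exact_mod_cast hdpos
  obtain ⟨x', S', hI'⟩ := asmain_resel v S hI fun i =>
    hd1 d ((le_max_left _ _).trans hd) _ x R S hI (v i) (le_hV v i)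
  have hc1 : ⌈e * d⌉₊ ≤ d := Nat.ceil_le.2 (by nlinarith)
  have hsq : 0 < √(d : ℝ) := Real.sqrt_pos.2 hdpos
  have hμ : 0 < (1 - 8 * e) / √(d : ℝ) := div_pos (by linarith) hsq
  obtain ⟨n, θ, j, hθ, hn1, hn2, hn3⟩ := flag (k := d - ⌈e * d⌉₊) (δ := 5 * e) v S' hμ
    (Nat.sub_le _ _) (fun r h1 h2 => by
      have h3 : ⌈e * d⌉₊ ≤ r := by omega
      have h4 : e * d ≤ r := (Nat.le_ceil _).trans (by exact_mod_cast h3)
      have h5 : r0 ≤ r := by
        have : (r0 : ℝ) ≤ r := by linarith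
        exact_mod_cast this
      exact hstep d r h5 h2 h4 _ x' S' hI')
  have hnd : n ≤ d := hn1.trans (Nat.sub_le _ _)
  have hG : gd θ (v ∘ j) ≠ 0 := by
    intro h
    rw [h, abs_zero] at hn3
    exact absurd (pow_pos hμ n) (not_lt.2 hn3)
  obtain ⟨j', hj'⟩ := greedy_all v S' hI' (by positivity) (d - n) n (by omega) θ hθ j hG
  refine ⟨j', le_trans ?_ hj'⟩
  have hq : ((d - n : ℕ) : ℝ) ≤ (ε / 2) ^ 2 / 4 * d := by
    rw [Nat.cast_sub hnd]
    rw [Nat.cast_sub hc1] at hn2
    have h1 : (⌈e * d⌉₊ : ℝ) < e * d + 1 := Nat.ceil_lt_add_one (by positivity)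
    have h2 : (0 : ℝ) ≤ ⌈e * d⌉₊ := Nat.cast_nonneg _
    have h3 : 7 * e * d ≤ (ε / 2) ^ 2 / 4 * d := by
      apply mul_le_mul_of_nonneg_right _ hdpos.le
      nlinarith
    nlinarith [mul_nonneg he0.le h2]
  have hf := num_fact (half_pos hε) hdN hq
  have h8 : Real.exp (-(ε / 2)) ≤ 1 - 8 * e :=
    (Real.exp_le_exp.2 (by linarith)).trans (asmain_exp (x := 8 * e) (by linarith) (by linarith))
  have h9 : Real.exp (-(ε / 2)) ^ d ≤ (1 - 8 * e) ^ n :=
    (pow_le_pow_of_le_one (Real.exp_pos _).le (h8.trans (by linarith)) hnd).trans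
      (pow_le_pow_left₀ (Real.exp_pos _).le h8 n)
  have e1 : Real.exp (-ε * d) = Real.exp (-(ε / 2)) ^ d * Real.exp (-(ε / 2)) ^ d := by
    rw [← mul_pow, ← Real.exp_add, ← Real.exp_nat_mul]
    congr 1
    ring
  have e2 : (1 / √(d : ℝ)) ^ d = (1 / √(d : ℝ)) ^ n * (1 / √(d : ℝ)) ^ (d - n) := by
    rw [← pow_add, Nat.add_sub_cancel' hnd]
  have e3 : (1 / (d : ℝ) / 2) = (1 / √(d : ℝ)) * (1 / (2 * √(d : ℝ))) := by
    have := Real.mul_self_sqrt hdpos.le
    field_simp
    nlinarith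
  have e4 : ((1 - 8 * e) / √(d : ℝ)) ^ n = (1 - 8 * e) ^ n * (1 / √(d : ℝ)) ^ n := by
    rw [← mul_pow]; congr 1; ring
  rw [e4] at hn3
  rw [e1, e2, e3, mul_pow]
  calc _ = (Real.exp (-(ε / 2)) ^ d * (1 / √(d : ℝ)) ^ n) *
        ((1 / √(d : ℝ)) ^ (d - n) * Real.exp (-(ε / 2)) ^ d) := by ring
    _ ≤ ((1 - 8 * e) ^ n * (1 / √(d : ℝ)) ^ n) * ((1 / √(d : ℝ)) ^ (d - n) *
        ((1 / (2 * √(d : ℝ))) ^ (d - n) * √((d - n).factorial : ℝ))) := by
      have : 0 ≤ 1 - 8 * e := by linarith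
      gcongr
    _ ≤ |gd θ (v ∘ j)| * ((1 / √(d : ℝ)) ^ (d - n) *
        ((1 / (2 * √(d : ℝ))) ^ (d - n) * √((d - n).factorial : ℝ))) := by gcongr
    _ = _ := by ring

open Pointwise in
/-- the lower bound: `d` strips around `M` with a large determinant. -/
theorem main_lower {ε : ℝ} (hε : 0 < ε) : ∃ d0 : ℕ, ∀ d ≥ d0, ∀ M : Set (Eu d), IsCompact M →
    Convex ℝ M → (interior M).Nonempty → M = -M → ∃ w : Fin d → Eu d,
      (∀ i, ∀ y ∈ M, |⟪w i, y⟫| ≤ 1) ∧
      Real.exp (-ε * d) * (√Real.pi ^ d / Real.Gamma ((d : ℝ) / 2 + 1)) ≤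
        (volume M).toReal * |(Matrix.of fun i l => w i l).det| := by
  have hε3 : 0 < ε / 3 := by positivity
  obtain ⟨d1, hd1⟩ := core_det hε3
  obtain ⟨d2, hd2⟩ := small_radius (η := √(ε / 15)) (by positivity)
  refine ⟨max 1 (max d1 d2), fun d hd M hK hc hi hs => ?_⟩
  have hdN : 0 < d := (le_max_left _ _).trans hd
  have hdpos : (0 : ℝ) < d := by exact_mod_cast hdN
  have hfr : Module.finrank ℝ (Eu d) = d := by simp
  obtain ⟨m, v, hv1, hv2⟩ := geo_approx hK hc hi hs hε3
  obtain ⟨x, S⟩ := exists_sel v (R := ∑ i, ‖v i‖) fun i =>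
    Finset.single_le_sum (f := fun i => ‖v i‖) (fun i _ => norm_nonneg _) (Finset.mem_univ i)
  obtain ⟨ρ, hρ0, hρ⟩ : ∃ ρ : ℝ, 0 < ρ ∧ ∀ y, hV v y ≤ 1 → ‖y‖ ≤ ρ := by
    obtain ⟨ρ, h1, h2⟩ := (hK.smul (1 + ε / 3)).isBounded.exists_pos_norm_le
    exact ⟨ρ, h1, fun y hy => h2 y (hv2 hy)⟩
  have hh : ∀ y, ρ⁻¹ * ‖y‖ ≤ hV v y := by
    intro y
    refine le_of_forall_pos_le_add fun t ht => ?_
    have h0 := S.h_nonneg y
    have h1 : 0 < hV v y + t := by linarith
    have h2 := hρ ((hV v y + t)⁻¹ • y) (by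
      rw [S.h_smul, abs_of_pos (inv_pos.2 h1), inv_mul_le_iff₀ h1]
      linarith)
    rw [norm_smul, Real.norm_of_nonneg (inv_pos.2 h1).le, inv_mul_le_iff₀ h1] at h2
    rw [inv_mul_le_iff₀ hρ0]
    linarith
  obtain ⟨T, hT0, hT1, hT2⟩ := exists_pos S (inv_pos.2 hρ0) hh (by rw [hfr]; exact hdN)
  set v' : Fin (m + 1) → Eu d := fun i => ContinuousLinearMap.adjoint T (v i) with hv'
  have hVT : ∀ y, hV v' y = hV v (T y) := fun y => by
    simp only [hV, hv', ContinuousLinearMap.adjoint_inner_left]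
  obtain ⟨x', S'⟩ := exists_sel v' (R := ∑ i, ‖v' i‖) fun i =>
    Finset.single_le_sum (f := fun i => ‖v' i‖) (fun i _ => norm_nonneg _) (Finset.mem_univ i)
  have hm1 : ∫ y, hV v' y ∂stdGaussian (Eu d) = 1 := by simp only [hVT]; exact hT1
  have hI' : Iso x' (1 / d) := by
    refine iso_of_trace (EuclideanSpace.basisFun (Fin d) ℝ) v' S' ?_ fun U => ?_
    · rw [hm1, Fintype.card_fin]; field_simp
    · have := trace_of_det (EuclideanSpace.basisFun (Fin d) ℝ) S' (by simpa using hdN) hm1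
        (fun U => by simp only [hVT]; exact hT2 U) U
      rwa [Fintype.card_fin] at this
  obtain ⟨j, hj⟩ := hd1 d ((le_max_left _ _).trans ((le_max_right _ _).trans hd)) m v' x' _ S' hI'
  obtain ⟨x'', S'', -⟩ := asmain_resel v' S' hI' fun i =>
    hd2 d ((le_max_right _ _).trans ((le_max_right _ _).trans hd)) _ x' _ S' hI' (v' i) (le_hV v' i)
  have hm2 : ∫ y, hV v' y ^ 2 ∂stdGaussian (Eu d) ≤ Real.exp (2 * (ε / 3)) := by
    have h1 := S''.int_sq_le
    rw [hm1, Real.sq_sqrt (by positivity)] at h1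
    have h2 := Real.add_one_le_exp (2 * (ε / 3))
    linarith
  obtain ⟨c, hc0, hcT⟩ : ∃ c : ℝ, 0 < c ∧ ∀ y, c * ‖y‖ ≤ ‖T y‖ := by
    let T' := T.toContinuousLinearEquivOfDetNeZero hT0
    refine ⟨(‖(T'.symm : Eu d →L[ℝ] Eu d)‖ + 1)⁻¹, by positivity, fun y => ?_⟩
    have h1 := (T'.symm : Eu d →L[ℝ] Eu d).le_opNorm (T y)
    have h2 : (T'.symm : Eu d →L[ℝ] Eu d) (T y) = y := T'.symm_apply_apply y
    rw [h2] at h1
    rw [inv_mul_le_iff₀ (by positivity)]
    nlinarith [norm_nonneg (T y)]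
  have hvol := S'.vol_ge (c := ρ⁻¹ * c) (by positivity) (fun y => by
    rw [hVT, mul_assoc]
    exact (mul_le_mul_of_nonneg_left (hcT y) (inv_pos.2 hρ0).le).trans (hh _))
    (by rw [hfr]; exact hdN) hm2
  rw [hfr] at hvol
  have hpre : {y | hV v' y ≤ 1} = T ⁻¹' {y | hV v y ≤ 1} := by
    ext y; simp [hVT]
  have hv3 : (volume {y | hV v y ≤ 1}).toReal ≤ Real.exp (ε / 3) ^ d * (volume M).toReal := by
    have h1 : volume ((1 + ε / 3) • M) = ENNReal.ofReal ((1 + ε / 3) ^ d) * volume M := by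
      rw [Measure.addHaar_smul_of_nonneg _ (by positivity), hfr]
    have h2 : (volume {y | hV v y ≤ 1}).toReal ≤ (volume ((1 + ε / 3) • M)).toReal :=
      ENNReal.toReal_mono (hK.smul _).measure_lt_top.ne (measure_mono hv2)
    rw [h1, ENNReal.toReal_mul, ENNReal.toReal_ofReal (by positivity)] at h2
    refine h2.trans (mul_le_mul_of_nonneg_right ?_ ENNReal.toReal_nonneg)
    exact pow_le_pow_left₀ (by positivity) (by linarith [Real.add_one_le_exp (ε / 3)]) d
  rw [hpre, Measure.addHaar_preimage_continuousLinearMap _ hT0, ENNReal.toReal_mul,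
    ENNReal.toReal_ofReal (abs_nonneg _)] at hvol
  refine ⟨v ∘ j, fun i => hv1 (j i), ?_⟩
  have hdet := det_adjoint T (v ∘ j)
  simp only [Function.comp] at hdet ⊢
  rw [hv'] at hj
  simp only at hj
  rw [hdet, abs_mul] at hj
  have hT3 : 0 < |T.det| := abs_pos.2 hT0
  have e1 : |(LinearMap.det (T : Eu d →ₗ[ℝ] Eu d))⁻¹| = |T.det|⁻¹ := abs_inv _
  rw [e1] at hvol
  set ω := √Real.pi ^ d / Real.Gamma ((d : ℝ) / 2 + 1) with hω
  have hω0 : 0 ≤ ω := div_nonneg (by positivity) (Real.Gamma_pos_of_pos (by positivity)).le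
  set D := |(Matrix.of fun i l => v (j i) l).det|
  set V := (volume {y | hV v y ≤ 1}).toReal
  have e2 : √((d : ℝ) / Real.exp (2 * (ε / 3))) = √(d : ℝ) * Real.exp (-(ε / 3)) := by
    rw [Real.sqrt_div hdpos.le, two_mul, Real.exp_add, Real.sqrt_mul_self (Real.exp_pos _).le,
      Real.exp_neg, div_eq_mul_inv]
  rw [e2] at hvol
  have hsq : 0 < √(d : ℝ) := Real.sqrt_pos.2 hdpos
  have h5 := mul_le_mul hvol hj (by positivity) (by positivity)
  have e3 : (√(d : ℝ) * Real.exp (-(ε / 3))) ^ d * (Real.exp (-(ε / 3) * d) * (1 / √(d : ℝ)) ^ d) =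
      Real.exp (-ε * d) * Real.exp (ε / 3) ^ d := by
    rw [mul_pow, ← Real.exp_nat_mul, ← Real.exp_nat_mul, one_div, inv_pow]
    have h6 : √(d : ℝ) ^ d ≠ 0 := by positivity
    field_simp
    rw [sq, ← Real.exp_add, ← Real.exp_add]
    congr 1
    ring
  have h7 : Real.exp (ε / 3) ^ d * (Real.exp (-ε * d) * ω) ≤
      Real.exp (ε / 3) ^ d * ((volume M).toReal * D) := by
    calc _ = ω * (√(d : ℝ) * Real.exp (-(ε / 3))) ^ d *
          (Real.exp (-(ε / 3) * d) * (1 / √(d : ℝ)) ^ d) := by rw [mul_assoc ω, e3]; ring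
      _ ≤ |T.det|⁻¹ * V * (|T.det| * D) := h5
      _ = V * D := by field_simp
      _ ≤ _ := by
        rw [← mul_assoc]
        exact mul_le_mul_of_nonneg_right hv3 (abs_nonneg _)
  exact le_of_mul_le_mul_left h7 (by positivity)

end Pool.Agent.Lib.MP_77d991_gt.As
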